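import Pool.Agent.Work.MP_8b6acb_cap.Interface

namespace R5

open Finset

/-- `log (1 + x) ≤ x / (1 + x) + x ^ 2 / 2`. -/
theorem log_one_add_le (x : ℝ) (hx : 0 ≤ x) : Real.log (1 + x) ≤ x / (1 + x) + x ^ 2 / 2 := by
  let h : ℝ → ℝ := fun t => t / (1 + t) + t ^ 2 / 2 - Real.log (1 + t)
  have hd : ∀ t : ℝ, 0 ≤ t → HasDerivAt h ((1 * (1 + t) - t * 1) / (1 + t) ^ 2 + (2 * t) / 2 - 1 / (1 + t)) t := by
    intro t ht
    have ht1 : (1 + t) ≠ 0 := by positivity
    have d1 : HasDerivAt (fun t : ℝ => 1 + t) 1 t := by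
      simpa using (hasDerivAt_id t).const_add (1 : ℝ)
    have d2 : HasDerivAt (fun t : ℝ => t / (1 + t)) ((1 * (1 + t) - t * 1) / (1 + t) ^ 2) t :=
      (hasDerivAt_id t).div d1 ht1
    have d3 : HasDerivAt (fun t : ℝ => t ^ 2 / 2) ((2 * t) / 2) t := by
      have := (hasDerivAt_pow 2 t).div_const 2
      simpa using this
    have d4 : HasDerivAt (fun t : ℝ => Real.log (1 + t)) (1 / (1 + t)) t := by
      have := d1.log ht1
      simpa using this
    exact (d2.add d3).sub d4
  have hmono : MonotoneOn h (Set.Ici 0) := by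
    apply monotoneOn_of_deriv_nonneg (convex_Ici 0)
    · intro t ht
      exact (hd t ht).continuousAt.continuousWithinAt
    · intro t ht
      rw [interior_Ici] at ht
      exact (hd t (le_of_lt ht)).differentiableAt.differentiableWithinAt
    · intro t ht
      rw [interior_Ici] at ht
      have ht0 : (0 : ℝ) < t := ht
      rw [(hd t ht0.le).deriv]
      have ht1 : (0 : ℝ) < 1 + t := by linarith
      have : (1 * (1 + t) - t * 1) / (1 + t) ^ 2 + (2 * t) / 2 - 1 / (1 + t) =
          t * ((1 + t) ^ 2 - 1) / (1 + t) ^ 2 := by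
        field_simp
        ring
      rw [this]
      apply div_nonneg _ (by positivity)
      apply mul_nonneg ht0.le
      nlinarith
  have := hmono (Set.mem_Ici.2 le_rfl) (Set.mem_Ici.2 hx) hx
  simp only [h] at this
  norm_num at this
  linarith

theorem abs_const (l : ℝ) (hl : 1 ≤ l) :
    Real.log (1 + 1 / l) - 1 / (l + 1) ≤ 1 / (2 * l ^ 2) := by
  have hl0 : (0 : ℝ) < l := by linarith
  have h := log_one_add_le (1 / l) (by positivity)
  have e : 1 / l / (1 + 1 / l) + (1 / l) ^ 2 / 2 = 1 / (l + 1) + 1 / (2 * l ^ 2) := by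
    field_simp
  rw [e] at h
  linarith

/-- The concavity bound. -/
theorem abs_conc (l ν : ℝ) (hl : 1 ≤ l) (h0 : 0 ≤ ν) (h1 : ν ≤ 1) :
    -Real.log (1 - ν / (l + 1)) ≤ ν * Real.log (1 + 1 / l) := by
  have hl0 : (0 : ℝ) < l := by linarith
  have hl1 : (0 : ℝ) < l + 1 := by linarith
  have hc := strictConcaveOn_log_Ioi.concaveOn.2 (x := l / (l + 1)) (y := 1)
    (Set.mem_Ioi.2 (by positivity)) (Set.mem_Ioi.2 one_pos) h0 (by linarith : (0 : ℝ) ≤ 1 - ν)
    (by ring)
  simp only [smul_eq_mul, Real.log_one, mul_zero, add_zero, mul_one] at hc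
  have e1 : ν * (l / (l + 1)) + (1 - ν) = 1 - ν / (l + 1) := by
    field_simp
    ring
  have e2 : Real.log (l / (l + 1)) = -Real.log (1 + 1 / l) := by
    rw [← Real.log_inv]
    congr 1
    field_simp
  rw [e1, e2] at hc
  linarith

theorem stmt_ABS : Stmt_ABS := by
  classical
  intro ι K y e u l hl hye hu hZ hq
  set L : ℝ := (l : ℝ) with hL
  have hL1 : (1 : ℝ) ≤ L := by rw [hL]; exact_mod_cast hl
  have hL0 : (0 : ℝ) < L := by linarith
  set Z := ∑ k ∈ K, y k with hZdef
  set E := ∑ k ∈ K, e k with hEdef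
  set Q := ∑ k ∈ K, (y k + e k / L) with hQdef
  have hQ : Q = Z + E / L := by
    rw [hQdef, sum_add_distrib, ← sum_div]
  have hE0 : 0 ≤ E := sum_nonneg fun k hk => (hye k hk).1
  have hEZ : E ≤ Z := sum_le_sum fun k hk => (hye k hk).2
  have hQ0 : 0 < Q := by rw [hQ]; positivity
  -- termwise inequality
  have term : ∀ k ∈ K, y k * Real.log (y k / (u k * Z)) ≤
      (Z * ((y k + e k / L) ^ 2 / u k) / Q ^ 2 - y k) +
        2 * (y k * (Real.log (Q / Z) - Real.log (1 + 1 / L)) +
          (y k - e k) * Real.log (1 + 1 / L)) := by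
    intro k hk
    obtain ⟨he0, hey⟩ := hye k hk
    have huk := hu k hk
    rcases (le_trans he0 hey).eq_or_lt with hy0 | hy0
    · have hek : e k = 0 := le_antisymm (by rw [hy0]; exact hey) he0
      rw [← hy0, hek]
      simp
    · set q := y k + e k / L with hqk
      have hq0 : 0 < q := by positivity
      have hlog1 : Real.log (Z * (q ^ 2 / u k) / Q ^ 2 / y k) ≤ Z * (q ^ 2 / u k) / Q ^ 2 / y k - 1 :=
        Real.log_le_sub_one_of_pos (by positivity)
      have h1 : y k * Real.log (Z * (q ^ 2 / u k) / Q ^ 2 / y k) ≤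
          Z * (q ^ 2 / u k) / Q ^ 2 - y k := by
        have := mul_le_mul_of_nonneg_left hlog1 hy0.le
        have e3 : y k * (Z * (q ^ 2 / u k) / Q ^ 2 / y k - 1) = Z * (q ^ 2 / u k) / Q ^ 2 - y k := by
          field_simp
        rw [e3] at this
        exact this
      have h2 : Real.log (Z * (q ^ 2 / u k) / Q ^ 2 / y k) =
          Real.log Z + 2 * Real.log q - Real.log (u k) - 2 * Real.log Q - Real.log (y k) := by
        rw [Real.log_div (by positivity) hy0.ne', Real.log_div (by positivity) (by positivity),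
          Real.log_mul hZ.ne' (by positivity), Real.log_div (by positivity) huk.ne',
          Real.log_pow, Real.log_pow]
        push_cast
        ring
      have h3 : Real.log (y k / (u k * Z)) = Real.log (y k) - Real.log (u k) - Real.log Z := by
        rw [Real.log_div hy0.ne' (by positivity), Real.log_mul huk.ne' hZ.ne']
        ring
      have h4 : Real.log (Q / Z) = Real.log Q - Real.log Z := Real.log_div hQ0.ne' hZ.ne'
      -- the bound for log (q / y)
      set ν := (y k - e k) / y k with hν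
      have hν0 : 0 ≤ ν := div_nonneg (by linarith) hy0.le
      have hν1 : ν ≤ 1 := by rw [hν, div_le_one hy0]; linarith
      have h5 := abs_conc L ν hL1 hν0 hν1
      have hqy : q / y k = (1 + 1 / L) * (1 - ν / (L + 1)) := by
        rw [hqk, hν]
        field_simp
        ring
      have hpos : 0 < 1 - ν / (L + 1) := by
        have : ν / (L + 1) < 1 := by
          rw [div_lt_one (by linarith)]
          linarith
        linarith
      have h6 : Real.log q - Real.log (y k) = Real.log (1 + 1 / L) + Real.log (1 - ν / (L + 1)) := by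
        rw [← Real.log_div hq0.ne' hy0.ne', hqy, Real.log_mul (by positivity) hpos.ne']
      have h7 : y k * ν = y k - e k := by
        rw [hν]; field_simp
      have h8 : y k * (-Real.log (1 - ν / (L + 1))) ≤ (y k - e k) * Real.log (1 + 1 / L) := by
        have := mul_le_mul_of_nonneg_left h5 hy0.le
        rw [← mul_assoc, h7] at this
        exact this
      rw [h3, h4]
      rw [h2] at h1
      have h9 : Real.log q = Real.log (y k) + Real.log (1 + 1 / L) + Real.log (1 - ν / (L + 1)) := by
        linarith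
      rw [h9] at h1
      nlinarith [h1, h8]
  have hsum := sum_le_sum term
  refine hsum.trans ?_
  rw [sum_add_distrib, sum_sub_distrib, ← mul_sum, sum_add_distrib, ← sum_mul, ← sum_mul,
    ← sum_div, ← mul_sum, sum_sub_distrib]
  have hA : Z * (∑ k ∈ K, (y k + e k / L) ^ 2 / u k) / Q ^ 2 - Z ≤ 0 := by
    have : Z * (∑ k ∈ K, (y k + e k / L) ^ 2 / u k) / Q ^ 2 ≤ Z := by
      rw [div_le_iff₀ (by positivity)]
      exact mul_le_mul_of_nonneg_left hq hZ.le
    linarith
  -- the logarithm of Q / Z
  set N := (Z - E) / Z with hN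
  have hN0 : 0 ≤ N := div_nonneg (by linarith) hZ.le
  have hN1 : N ≤ 1 := by rw [hN, div_le_one hZ]; linarith
  have hNpos : 0 < 1 - N / (L + 1) := by
    have : N / (L + 1) < 1 := by
      rw [div_lt_one (by linarith)]
      linarith
    linarith
  have hQZ : Q / Z = (1 + 1 / L) * (1 - N / (L + 1)) := by
    rw [hQ, hN]
    field_simp
    ring
  have h10 : Real.log (Q / Z) ≤ Real.log (1 + 1 / L) - N / (L + 1) := by
    rw [hQZ, Real.log_mul (by positivity) hNpos.ne']
    have := Real.log_le_sub_one_of_pos hNpos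
    linarith
  have hZN : Z * N = Z - E := by rw [hN]; field_simp
  have h11 : Z * (Real.log (Q / Z) - Real.log (1 + 1 / L)) ≤ -(Z - E) / (L + 1) := by
    have := mul_le_mul_of_nonneg_left (by linarith [h10] :
      Real.log (Q / Z) - Real.log (1 + 1 / L) ≤ -(N / (L + 1))) hZ.le
    have e4 : Z * (-(N / (L + 1))) = -(Z - E) / (L + 1) := by
      rw [← hZN]; ring
    rw [e4] at this
    exact this
  have h12 := mul_le_mul_of_nonneg_left (abs_const L hL1) (by linarith : 0 ≤ Z - E)
  have e5 : (Z - E) * (1 / (2 * L ^ 2)) = (Z - E) / L ^ 2 / 2 := by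
    field_simp
  rw [e5] at h12
  have e6 : -(Z - E) / (L + 1) = -((Z - E) * (1 / (L + 1))) := by ring
  rw [e6] at h11
  nlinarith [hA, h11, h12]

end R5
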