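import Pool.Agent.Work.MP_8b6acb_cap.Interface
import Pool.Agent.Work.MP_8b6acb_cap_helper63.QPIC

/-! Block AWID. -/

namespace R5

open Finset

theorem stmt_AWID (α : Type) [DecidableEq α] : Stmt_AWID α := by
  intro τ V h0
  have h1 := QP.mass h0 V
  have h2 := QP.sum_bF (fun _ => (0 : ℝ)) h0 V
  have hA1 : A1 τ (fun _ => (0 : ℝ)) V = aw τ V := by
    unfold A1 aw
    refine sum_congr rfl fun U _ => ?_
    congr 1
    cases hc : τ U with
    | A => rfl
    | B => simp only; rw [fw_of_ne (by rw [hc]; decide)]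
    | X => simp only; rw [fw_of_ne (by rw [hc]; decide), mul_zero]
  rw [hA1] at h2
  rw [sum_filter] at h1 h2
  have e1 : (∑ U ∈ V.powerset, if τ U = Lab.A then 0 else
      fwb τ U / (V.card.choose U.card : ℝ)) =
      ∑ U ∈ V.powerset, if τ U ≠ Lab.A then QP.P1 τ V U else 0 := by
    refine sum_congr rfl fun U _ => ?_
    unfold QP.P1
    split_ifs with h <;> simp_all
  have e2 : (∑ U ∈ V.powerset, if τ U = Lab.A then 0 else
      (U.card : ℝ) * fwb τ U / (V.card.choose U.card : ℝ)) =
      ((V.card : ℝ) + 1) * (∑ U ∈ V.powerset, if τ U ≠ Lab.A then QP.P1 τ V U else 0) -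
      ∑ U ∈ V.powerset, if τ U ≠ Lab.A then
        QP.P1 τ V U * QP.bF τ (fun _ => (0 : ℝ)) V U else 0 := by
    rw [mul_sum, ← sum_sub_distrib]
    refine sum_congr rfl fun U _ => ?_
    unfold QP.P1 QP.bF QP.aF
    by_cases h : τ U = Lab.A
    · simp [h]
    · simp only [h, if_false, ne_eq, not_false_eq_true, if_true, ite_self, add_zero]
      ring
  constructor
  · rw [e1, h1]; ring
  · rw [e2, h1, h2]; ring

end R5
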