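import Pool.Agent.Work.MP_8b6acb_cap.Interface

/-! Block CHAIN: Markov property of the forward weights. -/

namespace R5

open Finset

variable {α : Type} [DecidableEq α]

theorem shift_apply (τ : Finset α → Lab) (X V : Finset α) : shift τ X V = τ (X ∪ V) := rfl

/-- Exchange of the two sums over `(X, x)`. -/
theorem sum_chain_exchange (V : Finset α) (i : ℕ) (F : Finset α → α → ℝ) :
    ∑ X ∈ powersetCard i V, ∑ x ∈ V \ X, F X x =
      ∑ x ∈ V, ∑ X ∈ powersetCard i (V.erase x), F X x := by
  rw [sum_sigma', sum_sigma']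
  refine sum_bij' (fun p _ => (⟨p.2, p.1⟩ : (_ : α) × Finset α))
    (fun p _ => (⟨p.2, p.1⟩ : (_ : Finset α) × α)) ?_ ?_ ?_ ?_ ?_
  · rintro ⟨X, x⟩ h
    simp only [mem_sigma, mem_powersetCard, mem_sdiff] at h ⊢
    exact ⟨h.2.1, subset_erase.2 ⟨h.1.1, h.2.2⟩, h.1.2⟩
  · rintro ⟨x, X⟩ h
    simp only [mem_sigma, mem_powersetCard, mem_sdiff] at h ⊢
    exact ⟨⟨h.2.1.trans (erase_subset _ _), h.2.2⟩, h.1, fun hx => notMem_erase x V (h.2.1 hx)⟩
  · rintro ⟨X, x⟩ _; rfl
  · rintro ⟨x, X⟩ _; rfl
  · rintro ⟨X, x⟩ _; rfl

theorem stmt_CHAIN : Stmt_CHAIN α := by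
  intro τ V
  induction hn : V.card using Nat.strong_induction_on generalizing V with
  | _ n ih =>
    intro i hi
    by_cases hin : i = n
    · subst hin
      subst hn
      rw [powersetCard_self, sum_singleton, Nat.choose_self, Nat.cast_one, one_mul, sdiff_self,
        bot_eq_empty, fw_empty, shift_apply, union_empty]
      by_cases h : τ V = Lab.A
      · rw [if_pos h, mul_one]
      · rw [if_neg h, mul_zero, fw_of_ne h]
    · have hlt : i < n := lt_of_le_of_ne hi hin
      have hV : V ≠ ∅ := by
        rintro rfl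
        rw [card_empty] at hn
        omega
      have hcv : (0 : ℝ) < (V.card : ℝ) := by
        rw [hn]; exact_mod_cast (by omega : 0 < n)
      have hci : (0 : ℝ) < (n : ℝ) - i := by
        have : (i : ℝ) < n := by exact_mod_cast hlt
        linarith
      by_cases hA : τ V = Lab.A
      · have h1 : ∀ X ∈ powersetCard i V, fw τ X * fw (shift τ X) (V \ X) =
            (∑ x ∈ V \ X, fw τ X * fw (shift τ X) ((V.erase x) \ X)) / ((n : ℝ) - i) := by
          intro X hX
          rw [mem_powersetCard] at hX
          have hne : V \ X ≠ ∅ := by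
            rw [Ne, sdiff_eq_empty_iff_subset]
            intro h
            have := card_le_card h
            omega
          have hun : X ∪ (V \ X) = V := union_sdiff_of_subset hX.1
          rw [fw_rec_A hne (by rw [shift_apply, hun]; exact hA), fwb, card_sdiff_cast hX.1, hn,
            hX.2, ← mul_sum, mul_div_assoc]
          congr 2
          refine sum_congr rfl fun x hx => ?_
          congr 1
          ext y
          simp only [mem_erase, mem_sdiff]
          tauto
        rw [sum_congr rfl h1, ← sum_div, sum_chain_exchange]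
        have h2 : ∀ x ∈ V, ∑ X ∈ powersetCard i (V.erase x),
            fw τ X * fw (shift τ X) ((V.erase x) \ X) =
            ((n - 1).choose i : ℝ) * fw τ (V.erase x) := by
          intro x hx
          have hc : (V.erase x).card = n - 1 := by rw [card_erase_of_mem hx, hn]
          exact ih (n - 1) (by omega) (V.erase x) hc i (by omega)
        rw [sum_congr rfl h2, ← mul_sum, fw_rec_A hV hA, fwb, hn]
        have hid : (n.choose i : ℝ) * ((n : ℝ) - i) = (n : ℝ) * ((n - 1).choose i : ℝ) := by
          obtain ⟨m, hm⟩ : ∃ m, n = m + 1 := ⟨n - 1, by omega⟩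
          subst hm
          have h3 : (((m + 1) - i : ℕ) : ℝ) = ((m + 1 : ℕ) : ℝ) - i := Nat.cast_sub hlt.le
          rw [← h3, Nat.add_sub_cancel]
          have h4 : (m + 1).choose i * (m + 1 - i) = (m + 1) * m.choose i := by
            rw [← Nat.choose_mul_succ_eq, mul_comm]
          exact_mod_cast h4
        have hn0 : (n : ℝ) ≠ 0 := by rw [← hn]; exact hcv.ne'
        rw [div_eq_iff hci.ne']
        have : (n.choose i : ℝ) * ((∑ x ∈ V, fw τ (V.erase x)) / (n : ℝ)) * ((n : ℝ) - i) =
            ((n.choose i : ℝ) * ((n : ℝ) - i)) * (∑ x ∈ V, fw τ (V.erase x)) / (n : ℝ) := by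
          ring
        rw [this, hid]
        field_simp
      · rw [fw_of_ne hA, mul_zero]
        refine sum_eq_zero fun X hX => ?_
        rw [mem_powersetCard] at hX
        rw [fw_of_ne (V := V \ X) (by
          rw [shift_apply, union_sdiff_of_subset hX.1]; exact hA), mul_zero]

end R5
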