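import Pool.Agent.Work.MP_8b6acb_cap.SWF

/-! Block CONST: the constants cancel. -/

namespace R5

open Finset

variable {α : Type} [DecidableEq α]

/-- Averaging `ab` at a state. -/
theorem fw_ab_avg {τ : Finset α → Lab} {D X : Finset α} (hX : X ⊆ D) (hB : τ D = Lab.B) :
    ∑ g ∈ D \ X, fw τ X * ab τ D (insert g X) /
      (((D.card : ℝ) + 1) * (D.card.choose X.card : ℝ) * ((D.card : ℝ) - X.card)) =
    fw τ X * ab τ D X / (((D.card : ℝ) + 1) * (D.card.choose X.card : ℝ)) := by
  by_cases hA : τ X = Lab.A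
  · have hXD : X ≠ D := by
      rintro rfl
      rw [hA] at hB
      exact absurd hB (by simp)
    have hnot : ¬ D ⊆ X := fun h => hXD (Subset.antisymm hX h)
    have hc2 : ((D \ X).card : ℝ) = (D.card : ℝ) - X.card := card_sdiff_cast hX
    have hc : (0 : ℝ) < ((D \ X).card : ℝ) := by
      rw [Nat.cast_pos, card_pos, sdiff_nonempty]
      exact hnot
    have hp : (0 : ℝ) < (D.card.choose X.card : ℝ) := choose_pos_real (card_le_card hX)
    rw [ab_rec hnot, bw_of_ne hX (by rw [hA]; simp), zero_add, ← hc2, ← sum_div, ← mul_sum]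
    field_simp
  · rw [fw_of_ne hA]
    simp

/-- Total mass of the objects at the set `V`. -/
theorem obj_total {τ : Finset α → Lab} {D V : Finset α} (hV : V ⊆ D) (hne : V ≠ D) :
    ∑ X ∈ D.powerset, ((∑ x ∈ D \ V, pe τ D X V x) + pv τ D X V) =
      aw τ V * (bwb τ D V - bw τ D V) / (((D.card : ℝ) + 1) * (D.card.choose V.card : ℝ)) := by
  rw [sum_congr rfl (fun X _ => obj_sum hV hne), ← sum_filter]
  have h1 : D.powerset.filter (fun X => X ⊆ V) = V.powerset := by
    ext X
    rw [mem_filter, mem_powerset, mem_powerset]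
    exact ⟨fun h => h.2, fun h => ⟨h.trans hV, h⟩⟩
  rw [h1]
  unfold aw
  rw [sum_mul, sum_div]
  refine sum_congr rfl fun X hX => ?_
  rw [mem_powerset] at hX
  have hle := card_le_card hX
  have hle2 := card_le_card hV
  have h2 := choose_mul_real (l := D.card) hle
  have p1 : (0 : ℝ) < (D.card.choose X.card : ℝ) := choose_pos_real (hle.trans hle2)
  have p2 : (0 : ℝ) < ((D.card - X.card).choose (V.card - X.card) : ℝ) :=
    choose_pos_real (by omega)
  have p3 : (0 : ℝ) < (D.card.choose V.card : ℝ) := choose_pos_real hle2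
  have p4 : (0 : ℝ) < (V.card.choose X.card : ℝ) := choose_pos_real hle
  rw [mul_assoc, h2]
  field_simp

/-- The number of elements outside `V`, exchange of sums. -/
theorem sum_out (D : Finset α) (m : Finset α → ℝ) :
    ∑ V ∈ D.powerset, m V * ((D.card : ℝ) - V.card) =
      ∑ g ∈ D, ∑ V ∈ (D.erase g).powerset, m V := by
  have h1 : ∀ V ∈ D.powerset, m V * ((D.card : ℝ) - V.card) = ∑ _g ∈ D \ V, m V := by
    intro V hV
    rw [sum_const, nsmul_eq_mul, card_sdiff_cast (mem_powerset.1 hV), mul_comm]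
  rw [sum_congr rfl h1, sum_sigma', sum_sigma']
  refine sum_bij' (fun p _ => (⟨p.2, p.1⟩ : (_ : α) × Finset α))
    (fun p _ => (⟨p.2, p.1⟩ : (_ : Finset α) × α)) ?_ ?_ ?_ ?_ ?_
  · rintro ⟨V, g⟩ h
    simp only [mem_sigma, mem_powerset, mem_sdiff] at h ⊢
    exact ⟨h.2.1, subset_erase.2 ⟨h.1, h.2.2⟩⟩
  · rintro ⟨g, V⟩ h
    simp only [mem_sigma, mem_powerset, mem_sdiff] at h ⊢
    exact ⟨h.2.trans (erase_subset _ _), h.1, fun hg => notMem_erase g D (h.2 hg)⟩
  · rintro ⟨V, g⟩ _; rfl
  · rintro ⟨g, V⟩ _; rfl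
  · rintro ⟨V, g⟩ _; rfl

/-- Closed form of the constants. -/
theorem KL_eq (τ : Finset α → Lab) (D : Finset α) (hA : τ ∅ = Lab.A) (hB : τ D = Lab.B) :
    KL τ D = (∑ Y ∈ D.powerset, Real.log (Y.card : ℝ) * (bw τ D Y * aw τ Y) /
        (D.card.choose Y.card : ℝ)) / ((D.card : ℝ) + 1) -
      (∑ X ∈ D.powerset, Real.log ((D.card : ℝ) - X.card) * (fw τ X * ab τ D X) /
        (D.card.choose X.card : ℝ)) / ((D.card : ℝ) + 1) := by
  have hl0 : (0 : ℝ) < (D.card : ℝ) + 1 := by positivity
  set m : Finset α → Finset α → ℝ := fun X V => (∑ x ∈ D \ V, pe τ D X V x) + pv τ D X V with hm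
  set G : Finset α → ℝ := fun V => Real.log (D.card.factorial : ℝ) -
    Real.log (V.card.factorial : ℝ) with hG
  have h0 : KL τ D = (∑ V ∈ D.powerset, (∑ X ∈ D.powerset, m X V) * G V) -
      ∑ X ∈ D.powerset, Real.log ((D.card : ℝ) - X.card) *
        ∑ V ∈ D.powerset, m X V * ((D.card : ℝ) - V.card) := by
    unfold KL
    have e1 : ∀ X ∈ D.powerset, ∑ V ∈ D.powerset, ((∑ x ∈ D \ V, pe τ D X V x) + pv τ D X V) *
        (Real.log (D.card.factorial : ℝ) - Real.log (V.card.factorial : ℝ) -
          ((D.card : ℝ) - V.card) * Real.log ((D.card : ℝ) - X.card)) =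
        (∑ V ∈ D.powerset, m X V * G V) - Real.log ((D.card : ℝ) - X.card) *
        ∑ V ∈ D.powerset, m X V * ((D.card : ℝ) - V.card) := by
      intro X _
      rw [mul_sum, ← sum_sub_distrib]
      refine sum_congr rfl fun V _ => ?_
      simp only [hm, hG]
      ring
    rw [sum_congr rfl e1, sum_sub_distrib, sum_comm]
    congr 1
    refine sum_congr rfl fun V _ => ?_
    rw [sum_mul]
  -- first part
  have h1 : ∑ V ∈ D.powerset, (∑ X ∈ D.powerset, m X V) * G V =
      (∑ Y ∈ D.powerset, Real.log (Y.card : ℝ) * (bw τ D Y * aw τ Y) /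
        (D.card.choose Y.card : ℝ)) / ((D.card : ℝ) + 1) := by
    have e1 : ∀ V ∈ D.powerset, (∑ X ∈ D.powerset, m X V) * G V =
        ((∑ x ∈ D \ V, aw τ V * bw τ D (insert x V) * G V /
          ((D.card.choose V.card : ℝ) * ((D.card : ℝ) - V.card))) -
          aw τ V * bw τ D V * G V / (D.card.choose V.card : ℝ)) / ((D.card : ℝ) + 1) := by
      intro V hV
      rw [mem_powerset] at hV
      by_cases hVD : V = D
      · subst hVD
        have : G V = 0 := by simp only [hG, sub_self]
        rw [this]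
        simp
      · have hnot : ¬ D ⊆ V := fun h => hVD (Subset.antisymm hV h)
        have hc2 : ((D \ V).card : ℝ) = (D.card : ℝ) - V.card := card_sdiff_cast hV
        have hc : (0 : ℝ) < ((D \ V).card : ℝ) := by
          rw [Nat.cast_pos, card_pos, sdiff_nonempty]
          exact hnot
        have hp : (0 : ℝ) < (D.card.choose V.card : ℝ) := choose_pos_real (card_le_card hV)
        simp only [hm]
        rw [obj_total hV hVD, ← hc2, ← sum_div, ← sum_mul, ← mul_sum]
        unfold bwb
        field_simp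
    rw [sum_congr rfl e1, ← sum_div, sum_sub_distrib]
    congr 1
    rw [sum_up_down D (fun V x => aw τ V * bw τ D (insert x V) * G V /
          ((D.card.choose V.card : ℝ) * ((D.card : ℝ) - V.card))), ← sum_sub_distrib]
    refine sum_congr rfl fun Y hY => ?_
    rw [mem_powerset] at hY
    by_cases hY0 : Y = ∅
    · subst hY0
      rw [bw_of_ne (empty_subset D) (by rw [hA]; simp)]
      simp
    have hYc : (0 : ℝ) < Y.card := by
      rw [Nat.cast_pos, card_pos]
      exact nonempty_iff_ne_empty.2 hY0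
    have hYc' : 0 < Y.card := by exact_mod_cast hYc
    have hp : (0 : ℝ) < (D.card.choose Y.card : ℝ) := choose_pos_real (card_le_card hY)
    have e2 : ∀ x ∈ Y, aw τ (Y.erase x) * bw τ D (insert x (Y.erase x)) * G (Y.erase x) /
          ((D.card.choose (Y.erase x).card : ℝ) * ((D.card : ℝ) - (Y.erase x).card)) =
        aw τ (Y.erase x) * (bw τ D Y * (G Y + Real.log (Y.card : ℝ)) /
          ((D.card.choose Y.card : ℝ) * (Y.card : ℝ))) := by
      intro x hx
      rw [insert_erase hx, lower_binom hY hx]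
      have e3 : G (Y.erase x) = G Y + Real.log (Y.card : ℝ) := by
        simp only [hG]
        rw [card_erase_of_mem hx]
        obtain ⟨p, hp⟩ : ∃ p, Y.card = p + 1 := ⟨Y.card - 1, by omega⟩
        rw [hp, Nat.add_sub_cancel, Nat.factorial_succ]
        push_cast
        rw [Real.log_mul (by positivity) (by positivity)]
        ring
      rw [e3]
      ring
    rw [sum_congr rfl e2, ← sum_mul]
    have e4 : ∑ x ∈ Y, aw τ (Y.erase x) = (aw τ Y - fw τ Y) * (Y.card : ℝ) := by
      rw [aw_rec hY0]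
      field_simp
      ring
    rw [e4]
    have e5 : fw τ Y * bw τ D Y = 0 := by
      by_cases h : τ Y = Lab.A
      · rw [bw_of_ne hY (by rw [h]; simp), mul_zero]
      · rw [fw_of_ne h, zero_mul]
    have e6 : (aw τ Y - fw τ Y) * (Y.card : ℝ) * (bw τ D Y * (G Y + Real.log (Y.card : ℝ)) /
        ((D.card.choose Y.card : ℝ) * (Y.card : ℝ))) =
        (aw τ Y * bw τ D Y - fw τ Y * bw τ D Y) * (G Y + Real.log (Y.card : ℝ)) /
          (D.card.choose Y.card : ℝ) := by
      field_simp
    rw [e6, e5]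
    ring
  -- second part
  have h2 : ∑ X ∈ D.powerset, Real.log ((D.card : ℝ) - X.card) *
        ∑ V ∈ D.powerset, m X V * ((D.card : ℝ) - V.card) =
      (∑ X ∈ D.powerset, Real.log ((D.card : ℝ) - X.card) * (fw τ X * ab τ D X) /
        (D.card.choose X.card : ℝ)) / ((D.card : ℝ) + 1) := by
    rw [sum_div]
    refine sum_congr rfl fun X hX => ?_
    rw [mem_powerset] at hX
    have e1 : ∑ g ∈ D, ∑ V ∈ (D.erase g).powerset, m X V =
        ∑ g ∈ D \ X, ∑ V ∈ (D.erase g).powerset, m X V := by
      refine (sum_subset sdiff_subset fun g hg hgX => ?_).symm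
      have hgX' : g ∈ X := by
        by_contra h
        exact hgX (mem_sdiff.2 ⟨hg, h⟩)
      refine sum_eq_zero fun V hV => ?_
      rw [mem_powerset] at hV
      have hVD : V ⊆ D := hV.trans (erase_subset _ _)
      have hVne : V ≠ D := by
        rintro rfl
        exact notMem_erase g V (hV hg)
      simp only [hm]
      rw [obj_sum hVD hVne, if_neg]
      intro h
      exact notMem_erase g D (hV (h hgX'))
    rw [sum_out, e1, sum_congr rfl (fun g hg => stmt_SWL τ D X g hX hg), fw_ab_avg hX hB]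
    have hp : (0 : ℝ) < (D.card.choose X.card : ℝ) := choose_pos_real (card_le_card hX)
    field_simp
  rw [h0, h1, h2]

theorem stmt_CONST : Stmt_CONST α := by
  intro τ D hA hB
  have hA' : dual τ D ∅ = Lab.A := by
    unfold dual
    rw [sdiff_empty, flip_eq_A]
    exact hB
  have hB' : dual τ D D = Lab.B := by
    unfold dual
    rw [sdiff_self, bot_eq_empty, flip_eq_B]
    exact hA
  rw [KL_eq τ D hA hB, KL_eq (dual τ D) D hA' hB']
  have h1 : ∑ Y ∈ D.powerset, Real.log (Y.card : ℝ) * (bw (dual τ D) D Y * aw (dual τ D) Y) /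
        (D.card.choose Y.card : ℝ) =
      ∑ X ∈ D.powerset, Real.log ((D.card : ℝ) - X.card) * (fw τ X * ab τ D X) /
        (D.card.choose X.card : ℝ) := by
    rw [← sum_powerset_compl D (fun X => Real.log ((D.card : ℝ) - X.card) *
      (fw τ X * ab τ D X) / (D.card.choose X.card : ℝ))]
    refine sum_congr rfl fun Y hY => ?_
    rw [mem_powerset] at hY
    rw [bw_dual, aw_dual hY, card_sdiff_of_subset hY, Nat.choose_symm (card_le_card hY),
      Nat.cast_sub (card_le_card hY)]
    congr 3
    ring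
  have h2 : ∑ X ∈ D.powerset, Real.log ((D.card : ℝ) - X.card) *
        (fw (dual τ D) X * ab (dual τ D) D X) / (D.card.choose X.card : ℝ) =
      ∑ Y ∈ D.powerset, Real.log (Y.card : ℝ) * (bw τ D Y * aw τ Y) /
        (D.card.choose Y.card : ℝ) := by
    rw [← sum_powerset_compl D (fun Y => Real.log (Y.card : ℝ) * (bw τ D Y * aw τ Y) /
        (D.card.choose Y.card : ℝ))]
    refine sum_congr rfl fun X hX => ?_
    rw [mem_powerset] at hX
    rw [fw_dual hX, ab_dual, card_sdiff_of_subset hX, Nat.choose_symm (card_le_card hX),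
      Nat.cast_sub (card_le_card hX)]
  rw [h1, h2]
  ring

end R5
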