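import Pool.Agent.Work.MP_8b6acb_cap.Interface

/-! # Block CORE: the core inequality of the track lemma (helper52) -/

set_option autoImplicit false

namespace R5

open Finset

namespace CoreAux

variable {α : Type} [DecidableEq α]

/-- averages over the levels of a submartingale are nondecreasing -/
theorem avg_mono (F : Finset α) (γ : Finset α → ℝ)
    (h : ∀ W ⊆ F, W ≠ F → γ W ≤ (∑ x ∈ F \ W, γ (insert x W)) / ((F \ W).card : ℝ)) (j : ℕ)
    (hj : j < F.card) :
    (∑ W ∈ powersetCard j F, γ W) / (F.card.choose j : ℝ) ≤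
      (∑ W ∈ powersetCard (j + 1) F, γ W) / (F.card.choose (j + 1) : ℝ) := by
  have hnj : (0 : ℝ) < (F.card : ℝ) - j := by
    have : (j : ℝ) < F.card := by exact_mod_cast hj
    linarith
  -- the sums over the levels
  have h1 : ∑ W ∈ powersetCard j F, ∑ x ∈ F \ W, γ (insert x W) =
      ((j : ℝ) + 1) * ∑ W ∈ powersetCard (j + 1) F, γ W := by
    have h2 := sum_up_down F (fun V x => if V.card = j then γ (insert x V) else 0)
    have h3 : ∑ V ∈ F.powerset, ∑ x ∈ F \ V, (if V.card = j then γ (insert x V) else 0) =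
        ∑ W ∈ powersetCard j F, ∑ x ∈ F \ W, γ (insert x W) := by
      rw [Finset.powersetCard_eq_filter, sum_filter]
      refine sum_congr rfl fun V _ => ?_
      split_ifs with h4
      · rfl
      · simp
    have h4 : ∑ U ∈ F.powerset, ∑ x ∈ U, (if (U.erase x).card = j then
        γ (insert x (U.erase x)) else 0) = ((j : ℝ) + 1) * ∑ W ∈ powersetCard (j + 1) F, γ W := by
      rw [Finset.powersetCard_eq_filter, sum_filter, mul_sum]
      refine sum_congr rfl fun U _ => ?_
      have h5 : ∀ x ∈ U, (if (U.erase x).card = j then γ (insert x (U.erase x)) else 0) =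
          if U.card = j + 1 then γ U else 0 := by
        intro x hx
        rw [card_erase_of_mem hx, insert_erase hx]
        have h6 : 0 < U.card := card_pos.2 ⟨x, hx⟩
        by_cases h7 : U.card = j + 1
        · rw [if_pos h7, if_pos (by omega)]
        · rw [if_neg h7, if_neg (by omega)]
      rw [sum_congr rfl h5, sum_const, nsmul_eq_mul]
      by_cases h7 : U.card = j + 1
      · rw [if_pos h7, h7]
        push_cast
        ring
      · rw [if_neg h7]
        simp
    rw [← h3, ← h4]
    exact h2
  have h2 : ((F.card : ℝ) - j) * ∑ W ∈ powersetCard j F, γ W ≤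
      ((j : ℝ) + 1) * ∑ W ∈ powersetCard (j + 1) F, γ W := by
    rw [← h1, mul_sum]
    refine sum_le_sum fun W hW => ?_
    rw [mem_powersetCard] at hW
    have h3 : W ≠ F := by
      rintro rfl
      omega
    have h4 := h W hW.1 h3
    rw [card_sdiff_cast hW.1, hW.2, le_div_iff₀ hnj] at h4
    linarith
  have hc := choose_up hj
  have hp := choose_pos_real hj.le
  have hp1 := choose_pos_real (show j + 1 ≤ F.card by omega)
  rw [div_le_div_iff₀ hp hp1]
  -- multiply with (n - j)
  have h3 : ((F.card : ℝ) - j) * ((∑ W ∈ powersetCard j F, γ W) *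
      (F.card.choose (j + 1) : ℝ)) ≤
      ((F.card : ℝ) - j) * ((∑ W ∈ powersetCard (j + 1) F, γ W) * (F.card.choose j : ℝ)) := by
    calc ((F.card : ℝ) - j) * ((∑ W ∈ powersetCard j F, γ W) * (F.card.choose (j + 1) : ℝ))
        = (((F.card : ℝ) - j) * ∑ W ∈ powersetCard j F, γ W) *
          (F.card.choose (j + 1) : ℝ) := by ring
      _ ≤ (((j : ℝ) + 1) * ∑ W ∈ powersetCard (j + 1) F, γ W) *
          (F.card.choose (j + 1) : ℝ) := mul_le_mul_of_nonneg_right h2 hp1.le
      _ = (∑ W ∈ powersetCard (j + 1) F, γ W) *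
          ((F.card.choose (j + 1) : ℝ) * ((j : ℝ) + 1)) := by ring
      _ = (∑ W ∈ powersetCard (j + 1) F, γ W) *
          ((F.card.choose j : ℝ) * ((F.card : ℝ) - j)) := by rw [hc]
      _ = _ := by ring
  exact le_of_mul_le_mul_left h3 hnj

/-- Chebyshev's inequality for the levels -/
theorem cheb (F : Finset α) (γ : Finset α → ℝ) (h0 : ∀ W ⊆ F, 0 ≤ γ W)
    (h : ∀ W ⊆ F, W ≠ F → γ W ≤ (∑ x ∈ F \ W, γ (insert x W)) / ((F \ W).card : ℝ))
    (m : ℕ → ℝ) (hm : ∀ i j, i ≤ j → j < F.card → m i ≤ m j)
    (hs : 0 ≤ ∑ j ∈ range F.card, m j) :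
    0 ≤ ∑ W ∈ F.powerset.erase F, γ W / (F.card.choose W.card : ℝ) * m W.card := by
  set a : ℕ → ℝ := fun j => (∑ W ∈ powersetCard j F, γ W) / (F.card.choose j : ℝ) with ha
  have ha0 : ∀ j, 0 ≤ a j := by
    intro j
    refine div_nonneg (sum_nonneg fun W hW => h0 W (mem_powersetCard.1 hW).1) (Nat.cast_nonneg _)
  have hmono : ∀ i j, i ≤ j → j < F.card → a i ≤ a j := by
    intro i j hij
    induction j, hij using Nat.le_induction with
    | base => intro _; exact le_refl _
    | succ j _ ih => intro hj; exact (ih (by omega)).trans (avg_mono F γ h j (by omega))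
  have h1 : ∑ W ∈ F.powerset.erase F, γ W / (F.card.choose W.card : ℝ) * m W.card =
      ∑ j ∈ range F.card, a j * m j := by
    have h2 := sum_powerset F (fun W => γ W / (F.card.choose W.card : ℝ) * m W.card)
    rw [← add_sum_erase _ _ (mem_powerset_self F), sum_range_succ, powersetCard_self,
      sum_singleton, add_comm] at h2
    have h3 := add_right_cancel h2
    rw [h3]
    refine sum_congr rfl fun j _ => ?_
    simp only [ha]
    rw [sum_div, sum_mul]
    refine sum_congr rfl fun W hW => ?_
    rw [(mem_powersetCard.1 hW).2]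
  rw [h1]
  have h2 : MonovaryOn a m (range F.card : Set ℕ) := by
    intro i hi j hj hij
    rw [mem_coe, mem_range] at hi hj
    rcases le_total i j with h3 | h3
    · exact hmono i j h3 hj
    · exact absurd (hm j i h3 hi) (not_le.2 hij)
  have h3 := h2.sum_mul_sum_le_card_mul_sum
  rw [card_range] at h3
  rcases Nat.eq_zero_or_pos F.card with h4 | h4
  · rw [h4]
    simp
  · have h5 : (0 : ℝ) < F.card := by exact_mod_cast h4
    have h6 : 0 ≤ (F.card : ℝ) * ∑ j ∈ range F.card, a j * m j :=
      le_trans (mul_nonneg (sum_nonneg fun j _ => ha0 j) hs) h3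
    exact nonneg_of_mul_nonneg_right h6 h5

/-- the multipliers -/
noncomputable def mm (M j : ℕ) : ℝ := min ((j : ℝ) + 1) ((3 * (j : ℝ) + 4 - M) / 2)

theorem mm_mono (M : ℕ) {i j : ℕ} (hij : i ≤ j) : mm M i ≤ mm M j := by
  have h : (i : ℝ) ≤ j := by exact_mod_cast hij
  unfold mm
  apply min_le_min <;> linarith

theorem mm_sum (M : ℕ) : 0 ≤ ∑ j ∈ range M, mm M j := by
  rcases Nat.eq_zero_or_pos M with h | h
  · rw [h]
    simp
  obtain ⟨n, rfl⟩ := Nat.exists_eq_succ_of_ne_zero h.ne'
  rw [sum_range_succ]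
  have h1 : ∀ j ∈ range n, mm (n + 1) j = (3 * (j : ℝ) + 3 - n) / 2 := by
    intro j hj
    rw [mem_range] at hj
    have h2 : (j : ℝ) + 1 ≤ n := by exact_mod_cast hj
    unfold mm
    rw [min_eq_right]
    · push_cast
      ring
    · push_cast
      linarith
  have h2 : mm (n + 1) n = n + 1 := by
    unfold mm
    rw [min_eq_left]
    push_cast
    linarith
  rw [sum_congr rfl h1, Nat.succ_eq_add_one, h2]
  have h3 : ∀ k : ℕ, ∀ c : ℝ, ∑ j ∈ range k, (3 * (j : ℝ) + 3 - c) / 2 =
      (3 * (k : ℝ) * (k + 1) / 2 - c * k) / 2 := by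
    intro k c
    induction k with
    | zero => simp
    | succ k ih =>
      rw [sum_range_succ, ih]
      push_cast
      ring
  rw [h3]
  have h4 : (0 : ℝ) ≤ n := Nat.cast_nonneg _
  nlinarith [sq_nonneg (n : ℝ)]

/-- exchange of the sums over `U ⊆ V ≠ E` -/
theorem exch (E : Finset α) (f : Finset α → Finset α → ℝ) :
    ∑ V ∈ E.powerset.erase E, ∑ U ∈ V.powerset, f V U =
      ∑ U ∈ E.powerset, ∑ W ∈ (E \ U).powerset.erase (E \ U), f (U ∪ W) U := by
  rw [sum_sigma', sum_sigma']
  refine sum_bij' (fun p _ => (⟨p.2, p.1 \ p.2⟩ : (_ : Finset α) × Finset α))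
    (fun p _ => (⟨p.1 ∪ p.2, p.1⟩ : (_ : Finset α) × Finset α)) ?_ ?_ ?_ ?_ ?_
  · rintro ⟨V, U⟩ h
    simp only [mem_sigma, mem_powerset, mem_erase] at h ⊢
    refine ⟨h.2.trans h.1.2, ?_, sdiff_subset_sdiff h.1.2 (Subset.refl _)⟩
    intro h1
    apply h.1.1
    rw [← union_sdiff_of_subset h.2, h1, union_sdiff_of_subset (h.2.trans h.1.2)]
  · rintro ⟨U, W⟩ h
    simp only [mem_sigma, mem_powerset, mem_erase] at h ⊢
    refine ⟨⟨?_, union_subset h.1 (h.2.2.trans sdiff_subset)⟩, subset_union_left⟩
    intro h1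
    apply h.2.1
    refine Subset.antisymm h.2.2 fun x hx => ?_
    have h2 := (mem_sdiff.1 hx).1
    rw [← h1, mem_union] at h2
    exact h2.resolve_left (mem_sdiff.1 hx).2
  · rintro ⟨V, U⟩ h
    simp only [mem_sigma, mem_powerset, mem_erase] at h
    simp only [union_sdiff_of_subset h.2]
  · rintro ⟨U, W⟩ h
    simp only [mem_sigma, mem_powerset, mem_erase] at h
    have h1 : (U ∪ W) \ U = W := by
      ext y
      simp only [mem_sdiff, mem_union]
      constructor
      · rintro ⟨h1 | h1, h2⟩
        · exact absurd h1 h2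
        · exact h1
      · intro h1
        exact ⟨Or.inr h1, (mem_sdiff.1 (h.2.2 h1)).2⟩
    simp only [h1]
  · rintro ⟨V, U⟩ h
    simp only [mem_sigma, mem_powerset, mem_erase] at h
    simp only [union_sdiff_of_subset h.2]

end CoreAux

open CoreAux in
theorem stmt_CORE {α : Type} [DecidableEq α] (hA : Stmt_AWID α) : Stmt_CORE α := by
  intro τ E β h0 hβ hsub
  -- lower bound for the brackets
  have hbr : ∀ V ∈ E.powerset.erase E, ∑ U ∈ V.powerset, (if τ U = Lab.A then 0 else
      fwb τ U / (V.card.choose U.card : ℝ) * mm (E.card - U.card) (V.card - U.card)) ≤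
      (2 * (V.card : ℝ) + 1 - E.card) +
        (if τ V = Lab.A then (E.card : ℝ) - V.card - aw τ V else
          ((E.card : ℝ) - V.card) / 2) := by
    intro V hV
    rw [mem_erase, mem_powerset] at hV
    obtain ⟨h1, h2⟩ := hA τ V h0
    have hVE : V.card ≤ E.card := card_le_card hV.2
    have hu : ∀ U ∈ V.powerset, τ U ≠ Lab.A → 1 ≤ U.card ∧ U.card ≤ V.card := by
      intro U hU hne
      refine ⟨?_, card_le_card (mem_powerset.1 hU)⟩
      rw [Nat.one_le_iff_ne_zero, Ne, card_eq_zero]
      rintro rfl
      exact hne h0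
    by_cases hV1 : τ V = Lab.A
    · rw [if_pos hV1]
      have h3 : (2 * (V.card : ℝ) + 1 - E.card) + ((E.card : ℝ) - V.card - aw τ V) =
          ∑ U ∈ V.powerset, (if τ U = Lab.A then 0 else
            fwb τ U / (V.card.choose U.card : ℝ) * ((V.card : ℝ) + 1 - U.card)) := by
        have h4 : ∑ U ∈ V.powerset, (if τ U = Lab.A then 0 else
            fwb τ U / (V.card.choose U.card : ℝ) * ((V.card : ℝ) + 1 - U.card)) =
            ((V.card : ℝ) + 1) * (∑ U ∈ V.powerset, (if τ U = Lab.A then 0 else
              fwb τ U / (V.card.choose U.card : ℝ))) -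
            ∑ U ∈ V.powerset, (if τ U = Lab.A then 0 else
              (U.card : ℝ) * fwb τ U / (V.card.choose U.card : ℝ)) := by
          rw [mul_sum, ← sum_sub_distrib]
          refine sum_congr rfl fun U _ => ?_
          split_ifs
          · ring
          · ring
        rw [h4]
        have h5 : ((V.card : ℝ) + 1) * 1 = ((V.card : ℝ) + 1) * (fw τ V +
          ∑ U ∈ V.powerset, if τ U = Lab.A then 0 else
            fwb τ U / (V.card.choose U.card : ℝ)) := by rw [← h1]
        rw [mul_add] at h5
        linarith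
      rw [h3]
      refine sum_le_sum fun U hU => ?_
      split_ifs with h4
      · exact le_refl _
      · obtain ⟨h5, h6⟩ := hu U hU h4
        apply mul_le_mul_of_nonneg_left
        · refine (min_le_left _ _).trans ?_
          rw [Nat.cast_sub h6]
          linarith
        · exact div_nonneg (fwb_nonneg _ _) (Nat.cast_nonneg _)
    · rw [if_neg hV1]
      rw [fw_of_ne hV1, zero_add] at h1
      have h3 : (2 * (V.card : ℝ) + 1 - E.card) + ((E.card : ℝ) - V.card) / 2 =
          ∑ U ∈ V.powerset, (if τ U = Lab.A then 0 else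
            fwb τ U / (V.card.choose U.card : ℝ) * ((3 * (V.card : ℝ) + 2 - E.card) / 2)) := by
        have h4 : ∑ U ∈ V.powerset, (if τ U = Lab.A then 0 else
            fwb τ U / (V.card.choose U.card : ℝ) * ((3 * (V.card : ℝ) + 2 - E.card) / 2)) =
            ((3 * (V.card : ℝ) + 2 - E.card) / 2) * (∑ U ∈ V.powerset,
              (if τ U = Lab.A then 0 else fwb τ U / (V.card.choose U.card : ℝ))) := by
          rw [mul_sum]
          refine sum_congr rfl fun U _ => ?_
          split_ifs
          · ring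
          · ring
        rw [h4, ← h1]
        ring
      rw [h3]
      refine sum_le_sum fun U hU => ?_
      split_ifs with h4
      · exact le_refl _
      · obtain ⟨h5, h6⟩ := hu U hU h4
        apply mul_le_mul_of_nonneg_left
        · refine (min_le_right _ _).trans ?_
          rw [Nat.cast_sub h6, Nat.cast_sub (h6.trans hVE)]
          have h7 : (1 : ℝ) ≤ U.card := by exact_mod_cast h5
          linarith
        · exact div_nonneg (fwb_nonneg _ _) (Nat.cast_nonneg _)
  -- the sum with the lower bounds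
  have h1 : ∑ V ∈ E.powerset.erase E, β V / (E.card.choose V.card : ℝ) *
      ∑ U ∈ V.powerset, (if τ U = Lab.A then 0 else
      fwb τ U / (V.card.choose U.card : ℝ) * mm (E.card - U.card) (V.card - U.card)) ≤
      ∑ V ∈ E.powerset.erase E, β V / (E.card.choose V.card : ℝ) *
    ((2 * (V.card : ℝ) + 1 - E.card) +
     (if τ V = Lab.A then (E.card : ℝ) - V.card - aw τ V else ((E.card : ℝ) - V.card) / 2)) := by
    refine sum_le_sum fun V hV => ?_
    apply mul_le_mul_of_nonneg_left (hbr V hV)
    exact div_nonneg (hβ V (mem_powerset.1 (mem_erase.1 hV).2)) (Nat.cast_nonneg _)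
  refine le_trans ?_ h1
  have h2 : ∑ V ∈ E.powerset.erase E, β V / (E.card.choose V.card : ℝ) *
      ∑ U ∈ V.powerset, (if τ U = Lab.A then 0 else
      fwb τ U / (V.card.choose U.card : ℝ) * mm (E.card - U.card) (V.card - U.card)) =
      ∑ V ∈ E.powerset.erase E, ∑ U ∈ V.powerset, β V / (E.card.choose V.card : ℝ) *
      (if τ U = Lab.A then 0 else
      fwb τ U / (V.card.choose U.card : ℝ) * mm (E.card - U.card) (V.card - U.card)) := by
    refine sum_congr rfl fun V _ => ?_
    rw [mul_sum]
  rw [h2, exch]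
  refine sum_nonneg fun U hU => ?_
  rw [mem_powerset] at hU
  by_cases hUA : τ U = Lab.A
  · simp [hUA]
  -- the inner sum
  have hUE : U.card ≤ E.card := card_le_card hU
  have h3 : ∀ W ∈ (E \ U).powerset.erase (E \ U),
      β (U ∪ W) / (E.card.choose (U ∪ W).card : ℝ) * (if τ U = Lab.A then 0 else
        fwb τ U / ((U ∪ W).card.choose U.card : ℝ) *
          mm (E.card - U.card) ((U ∪ W).card - U.card)) =
      fwb τ U / (E.card.choose U.card : ℝ) *
        (β (U ∪ W) / ((E \ U).card.choose W.card : ℝ) * mm (E \ U).card W.card) := by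
    intro W hW
    rw [mem_erase, mem_powerset] at hW
    have h4 : Disjoint U W := by
      rw [Finset.disjoint_left]
      intro y h5 h6
      exact (mem_sdiff.1 (hW.2 h6)).2 h5
    have h5 : W.card ≤ (E \ U).card := card_le_card hW.2
    rw [if_neg hUA, card_union_of_disjoint h4, Nat.add_sub_cancel_left, card_sdiff_of_subset hU]
    rw [card_sdiff_of_subset hU] at h5
    have h6 := choose_mul_real (l := E.card) (k := U.card + W.card) (i := U.card) (by omega)
    rw [Nat.add_sub_cancel_left] at h6
    have p1 := choose_pos_real hUE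
    have p2 := choose_pos_real h5
    have p3 := choose_pos_real (show U.card + W.card ≤ E.card by omega)
    have p4 := choose_pos_real (show U.card ≤ U.card + W.card by omega)
    have h7 : β (U ∪ W) / (E.card.choose (U.card + W.card) : ℝ) *
        (fwb τ U / ((U.card + W.card).choose U.card : ℝ) * mm (E.card - U.card) W.card) =
        β (U ∪ W) * fwb τ U * mm (E.card - U.card) W.card /
          ((E.card.choose (U.card + W.card) : ℝ) * ((U.card + W.card).choose U.card : ℝ)) := by
      field_simp
    rw [h7, ← h6]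
    field_simp
  rw [sum_congr rfl h3, ← mul_sum]
  apply mul_nonneg (div_nonneg (fwb_nonneg _ _) (Nat.cast_nonneg _))
  refine cheb (E \ U) (fun W => β (U ∪ W)) ?_ ?_ (mm (E \ U).card)
    (fun i j hij _ => mm_mono _ hij) (mm_sum _)
  · intro W hW
    exact hβ _ (union_subset hU (hW.trans sdiff_subset))
  · intro W hW hne
    have h4 := hsub (U ∪ W) (union_subset hU (hW.trans sdiff_subset)) (by
      intro h5
      apply hne
      refine Subset.antisymm hW fun x hx => ?_
      have h6 := (mem_sdiff.1 hx).1
      rw [← h5, mem_union] at h6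
      exact h6.resolve_left (mem_sdiff.1 hx).2)
    have h5 : E \ (U ∪ W) = (E \ U) \ W := by
      ext y
      simp only [mem_sdiff, mem_union, not_or]
      tauto
    rw [h5] at h4
    simp only [union_insert]
    exact h4

end R5
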