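import Pool.Agent.Work.MP_8b6acb_cap.Interface

/-!
# COSTB: the bound for `COST`

The quadratic inequality QPI with `π U = |U| / l` and the entropy inequality ABS.
-/

namespace R5
namespace COSTB

open Finset

variable {α : Type} [DecidableEq α]

/-- weighted count of the subsets -/
noncomputable def AW (w : Finset α → ℝ) (V : Finset α) : ℝ :=
  ∑ X ∈ V.powerset, w X / (V.card.choose X.card : ℝ)

theorem AW_rec {w : Finset α → ℝ} {V : Finset α} (hV : V ≠ ∅) :
    AW w V = w V + (∑ x ∈ V, AW w (V.erase x)) / (V.card : ℝ) := by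
  have hc : (0 : ℝ) < V.card := by
    rw [Nat.cast_pos, card_pos]; exact nonempty_iff_ne_empty.2 hV
  have h1 : ∑ x ∈ V, AW w (V.erase x) =
      ∑ X ∈ V.powerset, ∑ x ∈ V \ X, w X / ((V.card - 1).choose X.card : ℝ) := by
    unfold AW
    rw [sum_sigma', sum_sigma']
    refine sum_bij' (fun p _ => (⟨p.2, p.1⟩ : (_ : Finset α) × α))
      (fun p _ => (⟨p.2, p.1⟩ : (_ : α) × Finset α)) ?_ ?_ ?_ ?_ ?_
    · rintro ⟨x, X⟩ h
      simp only [mem_sigma, mem_powerset, mem_sdiff] at h ⊢
      exact ⟨h.2.trans (erase_subset _ _), h.1, fun hx => notMem_erase x V (h.2 hx)⟩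
    · rintro ⟨X, x⟩ h
      simp only [mem_sigma, mem_powerset, mem_sdiff] at h ⊢
      exact ⟨h.2.1, subset_erase.2 ⟨h.1, h.2.2⟩⟩
    · rintro ⟨x, X⟩ _; rfl
    · rintro ⟨X, x⟩ _; rfl
    · rintro ⟨x, X⟩ h
      simp only [mem_sigma, mem_powerset] at h
      rw [card_erase_of_mem h.1]
  rw [h1]
  unfold AW
  rw [← add_sum_erase _ _ (mem_powerset_self V), Nat.choose_self, Nat.cast_one, div_one,
    ← add_sum_erase _ (fun X => ∑ x ∈ V \ X, w X / ((V.card - 1).choose X.card : ℝ))
      (mem_powerset_self V)]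
  simp only [sdiff_self, bot_eq_empty, sum_empty, zero_add]
  congr 1
  rw [sum_div]
  refine sum_congr rfl fun X hX => ?_
  rw [mem_erase, mem_powerset] at hX
  have hlt : X.card < V.card := card_lt_card (ssubset_of_subset_of_ne hX.2 hX.1)
  rw [sum_const, nsmul_eq_mul, card_sdiff_cast hX.2]
  have hp := choose_pos_real hlt.le
  have hp2 : (0 : ℝ) < ((V.card - 1).choose X.card : ℝ) := choose_pos_real (by omega)
  have hid : (V.card.choose X.card : ℝ) * ((V.card : ℝ) - X.card) =
      (V.card : ℝ) * ((V.card - 1).choose X.card : ℝ) := by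
    obtain ⟨n, hn⟩ : ∃ n, V.card = n + 1 := ⟨V.card - 1, by omega⟩
    rw [hn] at hlt ⊢
    have h3 : (((n + 1) - X.card : ℕ) : ℝ) = ((n + 1 : ℕ) : ℝ) - X.card := Nat.cast_sub hlt.le
    rw [← h3, Nat.add_sub_cancel]
    have h4 : (n + 1).choose X.card * (n + 1 - X.card) = (n + 1) * n.choose X.card := by
      rw [← Nat.choose_mul_succ_eq, mul_comm]
    exact_mod_cast h4
  rw [div_eq_div_iff hp.ne' hc.ne']
  have : ((V.card : ℝ) - X.card) * (w X / ((V.card - 1).choose X.card : ℝ)) *
      (V.card.choose X.card : ℝ) = w X * ((V.card.choose X.card : ℝ) *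
        ((V.card : ℝ) - X.card)) / ((V.card - 1).choose X.card : ℝ) := by ring
  rw [this, hid]
  field_simp

/-- weights of the sets with label `X` -/
noncomputable def xw (σ : Finset α → Lab) (U : Finset α) : ℝ :=
  if σ U = Lab.X then (U.card : ℝ) * fwb σ U else 0

/-- weights of the sets with label `B` -/
noncomputable def bwt (σ : Finset α → Lab) (U : Finset α) : ℝ :=
  if σ U = Lab.B then (U.card : ℝ) * fwb σ U else 0

theorem xw_nonneg (σ : Finset α → Lab) (U : Finset α) : 0 ≤ xw σ U := by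
  unfold xw
  split_ifs
  · exact mul_nonneg (Nat.cast_nonneg _) (fwb_nonneg _ _)
  · exact le_rfl

theorem bwt_nonneg (σ : Finset α → Lab) (U : Finset α) : 0 ≤ bwt σ U := by
  unfold bwt
  split_ifs
  · exact mul_nonneg (Nat.cast_nonneg _) (fwb_nonneg _ _)
  · exact le_rfl

omit [DecidableEq α] in
theorem AW_nonneg {w : Finset α → ℝ} (h : ∀ U, 0 ≤ w U) (V : Finset α) : 0 ≤ AW w V :=
  sum_nonneg fun _ _ => div_nonneg (h _) (Nat.cast_nonneg _)

theorem aw_eq (σ : Finset α → Lab) (V : Finset α) : aw σ V = AW (fw σ) V := rfl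

theorem A1_eq (σ : Finset α → Lab) (l : ℝ) (V : Finset α) :
    A1 σ (fun U => (U.card : ℝ) / l) V = aw σ V + AW (xw σ) V / l := by
  unfold A1 aw AW
  rw [sum_div, ← sum_add_distrib]
  refine sum_congr rfl fun U _ => ?_
  unfold xw
  cases h : σ U with
  | A => simp
  | B => rw [fw_of_ne (by rw [h]; simp)]; simp
  | X =>
    rw [fw_of_ne (by rw [h]; simp)]
    simp only [if_true, zero_div, zero_add]
    ring

theorem awid (hW : Stmt_AWID α) {σ : Finset α → Lab} (h0 : σ ∅ = Lab.A) (V : Finset α) :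
    aw σ V = ((V.card : ℝ) + 1) * fw σ V + AW (xw σ) V + AW (bwt σ) V := by
  rw [(hW σ V h0).2, add_assoc]
  congr 1
  unfold AW
  rw [← sum_add_distrib]
  refine sum_congr rfl fun U _ => ?_
  unfold xw bwt
  cases h : σ U <;> simp

/-- the mass of the colour L with a weight `G` -/
noncomputable def LM (σ : Finset α → Lab) (D : Finset α) (G : Finset α → ℝ) : ℝ :=
  (∑ V ∈ D.powerset, ∑ x ∈ D \ V, if isE σ V x then
      G V * bw σ D (insert x V) / ((D.card.choose V.card : ℝ) * ((D.card : ℝ) - V.card)) else 0) +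
    (∑ V ∈ D.powerset, if σ V = Lab.X then G V * bwb σ D V / (D.card.choose V.card : ℝ) else 0)

theorem LM_AW (hG : Stmt_GMASS α) {σ : Finset α → Lab} {D : Finset α} (hA : σ ∅ = Lab.A)
    (hB : σ D = Lab.B) {w : Finset α → ℝ} (hw : ∀ U, σ U = Lab.B → w U = 0) :
    LM σ D (AW w) = AW w D := by
  apply hG σ D (AW w) hA hB
  intro Y _ hY hYB
  rw [AW_rec hY, hw Y hYB, zero_add]

omit [DecidableEq α] in
theorem AW_sub (w w' : Finset α → ℝ) (V : Finset α) :
    AW (fun U => w U - w' U) V = AW w V - AW w' V := by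
  unfold AW
  rw [← sum_sub_distrib]
  refine sum_congr rfl fun U _ => ?_
  ring

omit [DecidableEq α] in
theorem AW_add_mul (w w' : Finset α → ℝ) (c : ℝ) (V : Finset α) :
    AW (fun U => w U + w' U / c) V = AW w V + AW w' V / c := by
  unfold AW
  rw [sum_div, ← sum_add_distrib]
  refine sum_congr rfl fun U _ => ?_
  ring

theorem UEL_eq (σ : Finset α → Lab) (D : Finset α) :
    UEL σ D = AW (bwt σ) D / ((D.card : ℝ) + 1) := by
  unfold UEL
  rw [sum_up_down D (fun V x => if isE σ V x then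
    ((V.card : ℝ) + 1) * fw σ V /
      (((D.card : ℝ) + 1) * (D.card.choose V.card : ℝ) * ((D.card : ℝ) - V.card)) else 0)]
  unfold AW
  rw [sum_div]
  refine sum_congr rfl fun U hU => ?_
  rw [mem_powerset] at hU
  have hcU := card_le_card hU
  have hl : (0 : ℝ) < (D.card : ℝ) + 1 := by positivity
  have hCU := choose_pos_real hcU
  have h1 : ∀ x ∈ U, (if isE σ (U.erase x) x then
      (((U.erase x).card : ℝ) + 1) * fw σ (U.erase x) /
      (((D.card : ℝ) + 1) * (D.card.choose (U.erase x).card : ℝ) *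
        ((D.card : ℝ) - (U.erase x).card)) else 0) =
      if σ U = Lab.B then fw σ (U.erase x) / (((D.card : ℝ) + 1) * (D.card.choose U.card : ℝ))
        else 0 := by
    intro x hx
    have hUpos : 0 < U.card := card_pos.2 ⟨x, hx⟩
    obtain ⟨n, hn⟩ : ∃ n, U.card = n + 1 := ⟨U.card - 1, by omega⟩
    have hce : (U.erase x).card = n := by rw [card_erase_of_mem hx, hn]; rfl
    have hins : insert x (U.erase x) = U := insert_erase hx
    have hiff : isE σ (U.erase x) x ↔ σ (U.erase x) = Lab.A ∧ σ U = Lab.B := by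
      unfold isE; rw [hins]
    rw [hce, hn]
    have hnl : n < D.card := by omega
    have hup := choose_up hnl
    have hCn := choose_pos_real hnl.le
    have hCn1 : (0 : ℝ) < (D.card.choose (n + 1) : ℝ) := choose_pos_real (by omega)
    have hd : (0 : ℝ) < (D.card : ℝ) - n := by
      rw [sub_pos]; exact_mod_cast hnl
    by_cases hB : σ U = Lab.B
    · by_cases hA : σ (U.erase x) = Lab.A
      · rw [if_pos (hiff.2 ⟨hA, hB⟩), if_pos hB, mul_assoc, hup]
        field_simp
      · rw [if_neg (fun h => hA (hiff.1 h).1), if_pos hB, fw_of_ne hA]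
        simp
    · rw [if_neg (fun h => hB (hiff.1 h).2), if_neg hB]
  rw [sum_congr rfl h1]
  unfold bwt
  by_cases hB : σ U = Lab.B
  · simp only [if_pos hB]
    rw [← sum_div]
    unfold fwb
    by_cases hUe : U = ∅
    · subst hUe; simp
    · have hc : (0 : ℝ) < U.card := by
        rw [Nat.cast_pos, card_pos]; exact nonempty_iff_ne_empty.2 hUe
      field_simp
  · simp only [if_neg hB]
    simp

/-- sums over the objects -/
noncomputable def LS (D : Finset α) (f : Finset α → Option α → ℝ) : ℝ :=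
  (∑ V ∈ D.powerset, ∑ x ∈ D \ V, f V (some x)) + ∑ V ∈ D.powerset, f V none

/-- the index set -/
def KK (D : Finset α) : Finset (Bool × ((_ : Finset α) × Option α)) :=
  (univ : Finset Bool) ×ˢ (D.powerset.sigma fun V => insertNone (D \ V))

theorem sum_KK (D : Finset α) (F : Bool → Finset α → Option α → ℝ) :
    ∑ p ∈ KK D, F p.1 p.2.1 p.2.2 = LS D (F true) + LS D (F false) := by
  unfold KK LS
  rw [sum_product, Fintype.sum_bool]
  have h : ∀ b : Bool, ∑ y ∈ D.powerset.sigma fun V => insertNone (D \ V), F b y.1 y.2 =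
      (∑ V ∈ D.powerset, ∑ x ∈ D \ V, F b V (some x)) + ∑ V ∈ D.powerset, F b V none := by
    intro b
    rw [sum_sigma, ← sum_add_distrib]
    refine sum_congr rfl fun V _ => ?_
    rw [sum_insertNone, add_comm]
  rw [h true, h false]

theorem mem_KK {D : Finset α} {b : Bool} {V : Finset α} {o : Option α}
    (h : (⟨b, ⟨V, o⟩⟩ : Bool × ((_ : Finset α) × Option α)) ∈ KK D) :
    V ⊆ D ∧ ∀ x, o = some x → x ∈ D \ V := by
  unfold KK at h
  rw [mem_product, mem_sigma] at h
  refine ⟨mem_powerset.1 h.2.1, ?_⟩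
  rintro x rfl
  exact (some_mem_insertNone.1 h.2.2)

/-- masses -/
noncomputable def yy (σ : Finset α → Lab) (D V : Finset α) : Option α → ℝ
  | none => yLv σ D V
  | some x => yLe σ D V x

/-- the gain -/
noncomputable def ee (σ : Finset α → Lab) (D V : Finset α) : Option α → ℝ
  | none => if σ V = Lab.X then
      AW (xw σ) V * bwb σ D V / (((D.card : ℝ) + 1) * (D.card.choose V.card : ℝ)) else 0
  | some x => if isE σ V x then AW (xw σ) V * bw σ D (insert x V) /
      (((D.card : ℝ) + 1) * (D.card.choose V.card : ℝ) * ((D.card : ℝ) - (V.card : ℝ))) else 0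

/-- the reference masses -/
noncomputable def uu (D V : Finset α) : Option α → ℝ
  | none => if V.card = 0 then 1 else ((V.card : ℝ) / D.card) / (D.card.choose V.card : ℝ)
  | some _ => ((V.card : ℝ) + 1) /
      (((D.card : ℝ) + 1) * (D.card.choose V.card : ℝ) * ((D.card : ℝ) - (V.card : ℝ)))

theorem LS_yy (σ : Finset α → Lab) (D : Finset α) :
    LS D (yy σ D) = LM σ D (AW (fw σ)) / ((D.card : ℝ) + 1) := by
  unfold LS LM
  have hl : (0 : ℝ) < (D.card : ℝ) + 1 := by positivity
  rw [add_div, sum_div, sum_div]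
  congr 1
  · refine sum_congr rfl fun V _ => ?_
    rw [sum_div]
    refine sum_congr rfl fun x _ => ?_
    show yLe σ D V x = _
    unfold yLe
    split_ifs
    · rw [aw_eq, div_div]
      congr 1
      ring
    · simp
  · refine sum_congr rfl fun V _ => ?_
    show yLv σ D V = _
    unfold yLv
    split_ifs
    · rw [aw_eq, div_div]
      congr 1
      ring
    · simp

theorem LS_ee (σ : Finset α → Lab) (D : Finset α) :
    LS D (ee σ D) = LM σ D (AW (xw σ)) / ((D.card : ℝ) + 1) := by
  unfold LS LM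
  have hl : (0 : ℝ) < (D.card : ℝ) + 1 := by positivity
  rw [add_div, sum_div, sum_div]
  congr 1
  · refine sum_congr rfl fun V _ => ?_
    rw [sum_div]
    refine sum_congr rfl fun x _ => ?_
    simp only [ee]
    split_ifs
    · rw [div_div]
      congr 1
      ring
    · simp
  · refine sum_congr rfl fun V _ => ?_
    simp only [ee]
    split_ifs
    · rw [div_div]
      congr 1
      ring
    · simp

theorem LS_add (D : Finset α) (f g : Finset α → Option α → ℝ) :
    LS D (fun V o => f V o + g V o) = LS D f + LS D g := by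
  unfold LS
  simp only [sum_add_distrib]
  ring

theorem LS_sub (D : Finset α) (f g : Finset α → Option α → ℝ) :
    LS D (fun V o => f V o - g V o) = LS D f - LS D g := by
  unfold LS
  simp only [sum_sub_distrib]
  ring

theorem LS_div (D : Finset α) (f : Finset α → Option α → ℝ) (c : ℝ) :
    LS D (fun V o => f V o / c) = LS D f / c := by
  unfold LS
  simp only [← sum_div, ← add_div]

theorem LM_xw (hG : Stmt_GMASS α) {σ : Finset α → Lab} {D : Finset α} (hA : σ ∅ = Lab.A)
    (hB : σ D = Lab.B) : LM σ D (AW (xw σ)) = AW (xw σ) D := by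
  apply LM_AW hG hA hB
  intro U hU
  unfold xw
  rw [if_neg (by rw [hU]; simp)]

theorem LM_fw (hG : Stmt_GMASS α) {σ : Finset α → Lab} {D : Finset α} (hA : σ ∅ = Lab.A)
    (hB : σ D = Lab.B) : LM σ D (AW (fw σ)) = aw σ D := by
  rw [LM_AW hG hA hB, aw_eq]
  intro U hU
  exact fw_of_ne (by rw [hU]; simp)

/-- the total mass of the colour L -/
theorem LS_yy' (hG : Stmt_GMASS α) {σ : Finset α → Lab} {D : Finset α} (hA : σ ∅ = Lab.A)
    (hB : σ D = Lab.B) : LS D (yy σ D) = aw σ D / ((D.card : ℝ) + 1) := by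
  rw [LS_yy, LM_fw hG hA hB]

/-- the sum of `y - e` -/
theorem LS_ye (hW : Stmt_AWID α) (hG : Stmt_GMASS α) {σ : Finset α → Lab} {D : Finset α}
    (hA : σ ∅ = Lab.A) (hB : σ D = Lab.B) : LS D (yy σ D) - LS D (ee σ D) = UEL σ D := by
  rw [LS_yy' hG hA hB, LS_ee, LM_xw hG hA hB, UEL_eq, awid hW hA,
    fw_of_ne (by rw [hB]; simp), ← sub_div]
  congr 1
  ring

/-- the sum of `q = y + e / l` -/
theorem LS_q (hG : Stmt_GMASS α) {σ : Finset α → Lab} {D : Finset α} (hA : σ ∅ = Lab.A)
    (hB : σ D = Lab.B) : LS D (yy σ D) + LS D (ee σ D) / (D.card : ℝ) =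
      A1 σ (fun U => (U.card : ℝ) / D.card) D / ((D.card : ℝ) + 1) := by
  rw [LS_yy' hG hA hB, LS_ee, LM_xw hG hA hB, A1_eq]
  ring

theorem A1_nonneg (σ : Finset α → Lab) (D V : Finset α) :
    0 ≤ A1 σ (fun U => (U.card : ℝ) / D.card) V := by
  rw [A1_eq]
  exact add_nonneg (aw_nonneg _ _) (div_nonneg (AW_nonneg (xw_nonneg σ) _) (Nat.cast_nonneg _))

/-- the colour L part of QPI -/
noncomputable def LQ (σ : Finset α → Lab) (D : Finset α) : ℝ :=
  (∑ V ∈ D.powerset, ∑ x ∈ D \ V, if isE σ V x then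
      1 / ((D.card.choose V.card : ℝ) * ((D.card : ℝ) - V.card)) *
      (bw σ D (insert x V) * A1 σ (fun U => (U.card : ℝ) / D.card) V ^ 2 / ((V.card : ℝ) + 1))
        else 0) +
  (∑ V ∈ D.powerset, if σ V = Lab.X then
      1 / (D.card.choose V.card : ℝ) *
      (bwb σ D V * A1 σ (fun U => (U.card : ℝ) / D.card) V ^ 2 /
        ((V.card : ℝ) + (V.card : ℝ) / D.card)) else 0)

theorem bwb_le_one (τ : Finset α → Lab) (D V : Finset α) : bwb τ D V ≤ 1 := by
  rw [← fwb_dual]; exact fwb_le_one _ _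

theorem LS_sq (σ : Finset α → Lab) (D : Finset α) (hD : D.Nonempty) (hA : σ ∅ = Lab.A) :
    LS D (fun V o => (yy σ D V o + ee σ D V o / (D.card : ℝ)) ^ 2 / uu D V o) ≤
      LQ σ D / ((D.card : ℝ) + 1) := by
  have hl0 : (0 : ℝ) < (D.card : ℝ) := by exact_mod_cast card_pos.2 hD
  have hl : (0 : ℝ) < (D.card : ℝ) + 1 := by positivity
  unfold LS LQ
  rw [add_div, sum_div, sum_div]
  apply add_le_add
  · refine sum_le_sum fun V hV => ?_
    rw [sum_div]
    refine sum_le_sum fun x hx => ?_
    rw [mem_powerset] at hV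
    rw [mem_sdiff] at hx
    have hlt : V.card < D.card := card_lt_card ⟨hV, fun h => hx.2 (h hx.1)⟩
    have hd : (0 : ℝ) < (D.card : ℝ) - V.card := by rw [sub_pos]; exact_mod_cast hlt
    have hC := choose_pos_real hlt.le
    have hk : (0 : ℝ) < (V.card : ℝ) + 1 := by positivity
    simp only [yy, ee, uu, yLe]
    by_cases hE : isE σ V x
    · simp only [if_pos hE]
      set b := bw σ D (insert x V) with hb
      have hb0 : 0 ≤ b := bw_nonneg _ _ _
      have hb1 : b ≤ 1 := bw_le_one _ _ _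
      set a := A1 σ (fun U => (U.card : ℝ) / D.card) V with ha
      have ha' : aw σ V = a - AW (xw σ) V / D.card := by rw [ha, A1_eq]; ring
      rw [ha']
      have e1 : ((a - AW (xw σ) V / D.card) * b /
          (((D.card : ℝ) + 1) * (D.card.choose V.card : ℝ) * ((D.card : ℝ) - V.card)) +
          AW (xw σ) V * b / (((D.card : ℝ) + 1) * (D.card.choose V.card : ℝ) *
            ((D.card : ℝ) - V.card)) / D.card) ^ 2 /
          (((V.card : ℝ) + 1) / (((D.card : ℝ) + 1) * (D.card.choose V.card : ℝ) *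
            ((D.card : ℝ) - V.card))) =
          b ^ 2 * a ^ 2 / (((V.card : ℝ) + 1) * (((D.card : ℝ) + 1) *
            (D.card.choose V.card : ℝ) * ((D.card : ℝ) - V.card))) := by
        field_simp
        ring
      have e2 : 1 / ((D.card.choose V.card : ℝ) * ((D.card : ℝ) - V.card)) *
          (b * a ^ 2 / ((V.card : ℝ) + 1)) / ((D.card : ℝ) + 1) =
          b * a ^ 2 / (((V.card : ℝ) + 1) * (((D.card : ℝ) + 1) *
            (D.card.choose V.card : ℝ) * ((D.card : ℝ) - V.card))) := by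
        field_simp
      rw [e1, e2]
      apply div_le_div_of_nonneg_right _ (by positivity)
      apply mul_le_mul_of_nonneg_right _ (sq_nonneg a)
      nlinarith
    · simp only [if_neg hE]
      simp
  · refine sum_le_sum fun V hV => ?_
    rw [mem_powerset] at hV
    simp only [yy, ee, uu, yLv]
    by_cases hE : σ V = Lab.X
    · simp only [if_pos hE]
      have hVne : V ≠ ∅ := by
        rintro rfl
        rw [hA] at hE
        exact absurd hE (by simp)
      have hk0 : V.card ≠ 0 := by rwa [Ne, card_eq_zero]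
      rw [if_neg hk0]
      have hk : (0 : ℝ) < (V.card : ℝ) := by
        rw [Nat.cast_pos]; exact Nat.pos_of_ne_zero hk0
      have hC := choose_pos_real (card_le_card hV)
      set b := bwb σ D V with hb
      have hb0 : 0 ≤ b := bwb_nonneg _ _ _
      have hb1 : b ≤ 1 := bwb_le_one _ _ _
      set a := A1 σ (fun U => (U.card : ℝ) / D.card) V with ha
      have ha' : aw σ V = a - AW (xw σ) V / D.card := by rw [ha, A1_eq]; ring
      rw [ha']
      have e1 : ((a - AW (xw σ) V / D.card) * b /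
          (((D.card : ℝ) + 1) * (D.card.choose V.card : ℝ)) +
          AW (xw σ) V * b / (((D.card : ℝ) + 1) * (D.card.choose V.card : ℝ)) / D.card) ^ 2 /
          ((V.card : ℝ) / D.card / (D.card.choose V.card : ℝ)) =
          b ^ 2 * a ^ 2 * D.card / (((D.card : ℝ) + 1) ^ 2 * (D.card.choose V.card : ℝ) *
            V.card) := by
        field_simp
        ring
      have e2 : 1 / (D.card.choose V.card : ℝ) *
          (b * a ^ 2 / ((V.card : ℝ) + (V.card : ℝ) / D.card)) / ((D.card : ℝ) + 1) =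
          b * a ^ 2 * D.card / (((D.card : ℝ) + 1) ^ 2 * (D.card.choose V.card : ℝ) *
            V.card) := by
        field_simp
      rw [e1, e2]
      apply div_le_div_of_nonneg_right _ (by positivity)
      apply mul_le_mul_of_nonneg_right _ hl0.le
      apply mul_le_mul_of_nonneg_right _ (sq_nonneg a)
      nlinarith
    · simp only [if_neg hE]
      simp

/-- `B1` through `A1` of the dual type -/
theorem B1_eq (τ : Finset α → Lab) {D V : Finset α} (hD : D.Nonempty) :
    B1 τ D (fun U => (U.card : ℝ) / D.card) V =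
      A1 (dual τ D) (fun U => (U.card : ℝ) / D.card) (D \ V) := by
  have hl0 : (0 : ℝ) < (D.card : ℝ) := by exact_mod_cast card_pos.2 hD
  unfold B1 A1
  refine sum_congr rfl fun U hU => ?_
  rw [mem_powerset] at hU
  have hUD : U ⊆ D := hU.trans sdiff_subset
  have h1 : 1 - ((D \ U).card : ℝ) / D.card = (U.card : ℝ) / D.card := by
    rw [card_sdiff_cast hUD]
    field_simp
    ring
  cases h : dual τ D U <;> simp only [h1]

/-- QPI, split into the two colours -/
theorem qpi_split (τ : Finset α → Lab) (D : Finset α) (hD : D.Nonempty) :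
    (∑ V ∈ D.powerset, ∑ x ∈ D \ V, if isE τ V x then
      1 / ((D.card.choose V.card : ℝ) * ((D.card : ℝ) - V.card)) *
      (bw τ D (insert x V) * A1 τ (fun U => (U.card : ℝ) / D.card) V ^ 2 / ((V.card : ℝ) + 1) +
       fw τ V * B1 τ D (fun U => (U.card : ℝ) / D.card) (insert x V) ^ 2 /
        ((D.card : ℝ) - V.card)) else 0) +
  (∑ V ∈ D.powerset, if τ V = Lab.X then
      1 / (D.card.choose V.card : ℝ) *
      (bwb τ D V * A1 τ (fun U => (U.card : ℝ) / D.card) V ^ 2 /
        ((V.card : ℝ) + (V.card : ℝ) / D.card) +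
       fwb τ V * B1 τ D (fun U => (U.card : ℝ) / D.card) V ^ 2 /
        ((D.card : ℝ) - V.card + 1 - (V.card : ℝ) / D.card)) else 0) =
    LQ τ D + LQ (dual τ D) D := by
  have hl0 : (0 : ℝ) < (D.card : ℝ) := by exact_mod_cast card_pos.2 hD
  -- the dual sums
  have hdE : (∑ V ∈ D.powerset, ∑ x ∈ D \ V, if isE (dual τ D) V x then
      1 / ((D.card.choose V.card : ℝ) * ((D.card : ℝ) - V.card)) *
      (bw (dual τ D) D (insert x V) * A1 (dual τ D) (fun U => (U.card : ℝ) / D.card) V ^ 2 /
        ((V.card : ℝ) + 1)) else 0) =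
      ∑ V ∈ D.powerset, ∑ x ∈ D \ V, if isE τ V x then
      1 / ((D.card.choose V.card : ℝ) * ((D.card : ℝ) - V.card)) *
      (fw τ V * B1 τ D (fun U => (U.card : ℝ) / D.card) (insert x V) ^ 2 /
        ((D.card : ℝ) - V.card)) else 0 := by
    rw [← sum_edge_compl D (fun V x => if isE (dual τ D) V x then
      1 / ((D.card.choose V.card : ℝ) * ((D.card : ℝ) - V.card)) *
      (bw (dual τ D) D (insert x V) * A1 (dual τ D) (fun U => (U.card : ℝ) / D.card) V ^ 2 /
        ((V.card : ℝ) + 1)) else 0)]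
    refine sum_congr rfl fun V hV => sum_congr rfl fun x hx => ?_
    rw [mem_powerset] at hV
    have hx' := mem_sdiff.1 hx
    have hins : insert x V ⊆ D := insert_subset hx'.1 hV
    have h2 : insert x (D \ insert x V) = D \ V := by
      ext y
      simp only [mem_insert, mem_sdiff, not_or]
      constructor
      · rintro (rfl | ⟨h3, h4, h5⟩)
        · exact hx'
        · exact ⟨h3, h5⟩
      · rintro ⟨h3, h4⟩
        by_cases hy : y = x
        · exact Or.inl hy
        · exact Or.inr ⟨h3, hy, h4⟩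
    have hlt : V.card < D.card := card_lt_card ⟨hV, fun h => hx'.2 (h hx'.1)⟩
    have hci : (insert x V).card = V.card + 1 := card_insert_of_notMem hx'.2
    have hc1 : (D \ insert x V).card = D.card - (V.card + 1) := by
      rw [card_sdiff_of_subset hins, hci]
    have hc2 : ((D \ insert x V).card : ℝ) = (D.card : ℝ) - (V.card + 1) := by
      rw [card_sdiff_cast hins, hci]; push_cast; ring
    by_cases hE : isE τ V x
    · rw [if_pos ((isE_dual hV hx).2 hE), if_pos hE, h2, bw_dual,
        Finset.sdiff_sdiff_eq_self hV, ← B1_eq τ hD, hc2, hc1,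
        Nat.choose_symm (by omega : V.card + 1 ≤ D.card)]
      have hup := choose_up hlt
      have e1 : (D.card.choose (V.card + 1) : ℝ) * ((D.card : ℝ) - ((D.card : ℝ) -
          ((V.card : ℝ) + 1))) = (D.card.choose V.card : ℝ) * ((D.card : ℝ) - V.card) := by
        rw [hup]; ring
      have e2 : (D.card : ℝ) - ((V.card : ℝ) + 1) + 1 = (D.card : ℝ) - V.card := by ring
      rw [e1, e2]
    · rw [if_neg (fun h => hE ((isE_dual hV hx).1 h)), if_neg hE]
  have hdX : (∑ V ∈ D.powerset, if (dual τ D) V = Lab.X then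
      1 / (D.card.choose V.card : ℝ) *
      (bwb (dual τ D) D V * A1 (dual τ D) (fun U => (U.card : ℝ) / D.card) V ^ 2 /
        ((V.card : ℝ) + (V.card : ℝ) / D.card)) else 0) =
      ∑ V ∈ D.powerset, if τ V = Lab.X then
      1 / (D.card.choose V.card : ℝ) *
      (fwb τ V * B1 τ D (fun U => (U.card : ℝ) / D.card) V ^ 2 /
        ((D.card : ℝ) - V.card + 1 - (V.card : ℝ) / D.card)) else 0 := by
    rw [← sum_powerset_compl D (fun V => if (dual τ D) V = Lab.X then
      1 / (D.card.choose V.card : ℝ) *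
      (bwb (dual τ D) D V * A1 (dual τ D) (fun U => (U.card : ℝ) / D.card) V ^ 2 /
        ((V.card : ℝ) + (V.card : ℝ) / D.card)) else 0)]
    refine sum_congr rfl fun V hV => ?_
    rw [mem_powerset] at hV
    simp only [dual_apply hV, flip_eq_X]
    split_ifs with hE
    · rw [bwb_dual, Finset.sdiff_sdiff_eq_self hV, ← B1_eq τ hD, card_sdiff_cast hV,
        card_sdiff_of_subset hV, Nat.choose_symm (card_le_card hV)]
      have e1 : (D.card : ℝ) - V.card + ((D.card : ℝ) - V.card) / D.card =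
          (D.card : ℝ) - V.card + 1 - (V.card : ℝ) / D.card := by
        field_simp
        ring
      rw [e1]
    · rfl
  unfold LQ
  rw [hdE, hdX]
  have hE : ∀ V x, (if isE τ V x then
      1 / ((D.card.choose V.card : ℝ) * ((D.card : ℝ) - V.card)) *
      (bw τ D (insert x V) * A1 τ (fun U => (U.card : ℝ) / D.card) V ^ 2 / ((V.card : ℝ) + 1) +
       fw τ V * B1 τ D (fun U => (U.card : ℝ) / D.card) (insert x V) ^ 2 /
        ((D.card : ℝ) - V.card)) else 0) =
      (if isE τ V x then
      1 / ((D.card.choose V.card : ℝ) * ((D.card : ℝ) - V.card)) *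
      (bw τ D (insert x V) * A1 τ (fun U => (U.card : ℝ) / D.card) V ^ 2 /
        ((V.card : ℝ) + 1)) else 0) +
      if isE τ V x then
      1 / ((D.card.choose V.card : ℝ) * ((D.card : ℝ) - V.card)) *
      (fw τ V * B1 τ D (fun U => (U.card : ℝ) / D.card) (insert x V) ^ 2 /
        ((D.card : ℝ) - V.card)) else 0 := by
    intro V x
    split_ifs
    · ring
    · simp
  have hX : ∀ V, (if τ V = Lab.X then
      1 / (D.card.choose V.card : ℝ) *
      (bwb τ D V * A1 τ (fun U => (U.card : ℝ) / D.card) V ^ 2 /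
        ((V.card : ℝ) + (V.card : ℝ) / D.card) +
       fwb τ V * B1 τ D (fun U => (U.card : ℝ) / D.card) V ^ 2 /
        ((D.card : ℝ) - V.card + 1 - (V.card : ℝ) / D.card)) else 0) =
      (if τ V = Lab.X then
      1 / (D.card.choose V.card : ℝ) *
      (bwb τ D V * A1 τ (fun U => (U.card : ℝ) / D.card) V ^ 2 /
        ((V.card : ℝ) + (V.card : ℝ) / D.card)) else 0) +
      if τ V = Lab.X then
      1 / (D.card.choose V.card : ℝ) *
      (fwb τ V * B1 τ D (fun U => (U.card : ℝ) / D.card) V ^ 2 /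
        ((D.card : ℝ) - V.card + 1 - (V.card : ℝ) / D.card)) else 0 := by
    intro V
    split_ifs
    · ring
    · simp
  simp only [hE, hX, sum_add_distrib]
  ring

/-- the entropy term as a sum over the objects -/
theorem CL_eq (σ : Finset α → Lab) (D : Finset α) (z : ℝ) (hD : D.Nonempty)
    (hA : σ ∅ = Lab.A) (hz : 0 < z) :
    CL σ D z = LS D (fun V o => yy σ D V o * Real.log (yy σ D V o / (uu D V o * z))) := by
  have hl0 : (0 : ℝ) < (D.card : ℝ) := by exact_mod_cast card_pos.2 hD
  have hl : (0 : ℝ) < (D.card : ℝ) + 1 := by positivity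
  unfold CL LS
  congr 1
  · refine sum_congr rfl fun V hV => sum_congr rfl fun x hx => ?_
    rw [mem_powerset] at hV
    rw [mem_sdiff] at hx
    have hlt : V.card < D.card := card_lt_card ⟨hV, fun h => hx.2 (h hx.1)⟩
    have hd : (0 : ℝ) < (D.card : ℝ) - V.card := by rw [sub_pos]; exact_mod_cast hlt
    have hC := choose_pos_real hlt.le
    simp only [yy, uu, yLe]
    split_ifs with hE
    · congr 2
      field_simp
    · simp
  · refine sum_congr rfl fun V hV => ?_
    rw [mem_powerset] at hV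
    simp only [yy, uu, yLv]
    by_cases hE : σ V = Lab.X
    · simp only [if_pos hE]
      have hVne : V ≠ ∅ := by
        rintro rfl
        rw [hA] at hE
        exact absurd hE (by simp)
      have hk0 : V.card ≠ 0 := by rwa [Ne, card_eq_zero]
      rw [if_neg hk0]
      have hk : (0 : ℝ) < (V.card : ℝ) := by
        rw [Nat.cast_pos]; exact Nat.pos_of_ne_zero hk0
      have hC := choose_pos_real (card_le_card hV)
      congr 2
      field_simp
    · simp only [if_neg hE]
      simp

theorem yy_nonneg (σ : Finset α → Lab) {D V : Finset α} (hV : V ⊆ D) (o : Option α) :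
    0 ≤ yy σ D V o := by
  have hd : (0 : ℝ) ≤ (D.card : ℝ) - V.card := by
    rw [sub_nonneg]; exact_mod_cast card_le_card hV
  cases o with
  | none =>
    simp only [yy, yLv]
    split_ifs
    · exact div_nonneg (mul_nonneg (aw_nonneg _ _) (bwb_nonneg _ _ _)) (by positivity)
    · exact le_rfl
  | some x =>
    simp only [yy, yLe]
    split_ifs
    · exact div_nonneg (mul_nonneg (aw_nonneg _ _) (bw_nonneg _ _ _)) (by positivity)
    · exact le_rfl

theorem ee_bd (hW : Stmt_AWID α) (σ : Finset α → Lab) {D V : Finset α} (hA : σ ∅ = Lab.A)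
    (hV : V ⊆ D) (o : Option α) : 0 ≤ ee σ D V o ∧ ee σ D V o ≤ yy σ D V o := by
  have hd : (0 : ℝ) ≤ (D.card : ℝ) - V.card := by
    rw [sub_nonneg]; exact_mod_cast card_le_card hV
  have hx := AW_nonneg (xw_nonneg σ) V
  have hle : AW (xw σ) V ≤ aw σ V := by
    rw [awid hW hA V]
    have h1 : 0 ≤ ((V.card : ℝ) + 1) * fw σ V := mul_nonneg (by positivity) (fw_nonneg _ _)
    have h2 := AW_nonneg (bwt_nonneg σ) V
    linarith
  cases o with
  | none =>
    simp only [ee, yy, yLv]
    split_ifs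
    · refine ⟨div_nonneg (mul_nonneg hx (bwb_nonneg _ _ _)) (by positivity), ?_⟩
      exact div_le_div_of_nonneg_right (mul_le_mul_of_nonneg_right hle (bwb_nonneg _ _ _))
        (by positivity)
    · exact ⟨le_rfl, le_rfl⟩
  | some x =>
    simp only [ee, yy, yLe]
    split_ifs
    · refine ⟨div_nonneg (mul_nonneg hx (bw_nonneg _ _ _)) (by positivity), ?_⟩
      exact div_le_div_of_nonneg_right (mul_le_mul_of_nonneg_right hle (bw_nonneg _ _ _))
        (by positivity)
    · exact ⟨le_rfl, le_rfl⟩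

theorem uu_pos {D V : Finset α} (hD : D.Nonempty) (hV : V ⊆ D) {o : Option α}
    (ho : ∀ x, o = some x → x ∈ D \ V) : 0 < uu D V o := by
  have hl0 : (0 : ℝ) < (D.card : ℝ) := by exact_mod_cast card_pos.2 hD
  have hC := choose_pos_real (card_le_card hV)
  cases o with
  | none =>
    simp only [uu]
    split_ifs with h
    · exact one_pos
    · have hk : (0 : ℝ) < (V.card : ℝ) := by
        rw [Nat.cast_pos]; exact Nat.pos_of_ne_zero h
      positivity
  | some x =>
    have hx := mem_sdiff.1 (ho x rfl)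
    have hlt : V.card < D.card := card_lt_card ⟨hV, fun h => hx.2 (h hx.1)⟩
    have hd : (0 : ℝ) < (D.card : ℝ) - V.card := by rw [sub_pos]; exact_mod_cast hlt
    simp only [uu]
    positivity

/-- the two types -/
def sg (τ : Finset α → Lab) (D : Finset α) (b : Bool) : Finset α → Lab :=
  if b then τ else dual τ D

end COSTB

open Finset COSTB

theorem stmt_COSTB {α : Type} [DecidableEq α] (hW : Stmt_AWID α) (hG : Stmt_GMASS α)
    (hQ : Stmt_QPI α) (hS : Stmt_ABS) : Stmt_COSTB α := by
  intro τ D hA hB hD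
  have hl0 : (0 : ℝ) < (D.card : ℝ) := by exact_mod_cast card_pos.2 hD
  have hl : (0 : ℝ) < (D.card : ℝ) + 1 := by positivity
  have hA' : (dual τ D) ∅ = Lab.A := by
    unfold dual; rw [sdiff_empty, hB]; rfl
  have hB' : (dual τ D) D = Lab.B := by
    unfold dual; rw [sdiff_self, bot_eq_empty, hA]; rfl
  have hsA : ∀ b, sg τ D b ∅ = Lab.A := by
    intro b; cases b
    · exact hA'
    · exact hA
  -- the data of ABS
  let Y : Bool → Finset α → Option α → ℝ := fun b => yy (sg τ D b) D
  let E : Bool → Finset α → Option α → ℝ := fun b => ee (sg τ D b) D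
  have hZ : ∑ p ∈ KK D, Y p.1 p.2.1 p.2.2 = Zt τ D := by
    rw [sum_KK D Y]
    show LS D (yy τ D) + LS D (yy (dual τ D) D) = _
    rw [LS_yy' hG hA hB, LS_yy' hG hA' hB', aw_dual (Subset.refl _), sdiff_self, bot_eq_empty]
    unfold Zt
    ring
  have hZpos : 0 < Zt τ D := by
    unfold Zt
    have h1 := one_le_aw hA D
    have h2 := ab_nonneg τ D ∅
    positivity
  have hsum : ∑ p ∈ KK D, (Y p.1 p.2.1 p.2.2 + E p.1 p.2.1 p.2.2 / ((D.card : ℕ) : ℝ)) =
      (A1 τ (fun U => (U.card : ℝ) / D.card) D +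
        B1 τ D (fun U => (U.card : ℝ) / D.card) ∅) / ((D.card : ℝ) + 1) := by
    rw [sum_KK D (fun b V o => Y b V o + E b V o / ((D.card : ℕ) : ℝ)), LS_add, LS_add,
      LS_div, LS_div]
    show LS D (yy τ D) + LS D (ee τ D) / (D.card : ℝ) +
      (LS D (yy (dual τ D) D) + LS D (ee (dual τ D) D) / (D.card : ℝ)) = _
    rw [LS_q hG hA hB, LS_q hG hA' hB', B1_eq τ hD, sdiff_empty]
    ring
  have hquad : ∑ p ∈ KK D, (Y p.1 p.2.1 p.2.2 + E p.1 p.2.1 p.2.2 / ((D.card : ℕ) : ℝ)) ^ 2 /
      uu D p.2.1 p.2.2 ≤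
      (∑ p ∈ KK D, (Y p.1 p.2.1 p.2.2 + E p.1 p.2.1 p.2.2 / ((D.card : ℕ) : ℝ))) ^ 2 := by
    rw [hsum, sum_KK D (fun b V o => (Y b V o + E b V o / ((D.card : ℕ) : ℝ)) ^ 2 / uu D V o)]
    have h1 := LS_sq τ D hD hA
    have h2 := LS_sq (dual τ D) D hD hA'
    have h3 := hQ τ D (fun U => (U.card : ℝ) / D.card) hA hB (fun U hU => ⟨by positivity, by
      rw [div_le_one hl0]; exact_mod_cast card_le_card hU⟩)
    rw [qpi_split τ D hD] at h3
    calc _ ≤ LQ τ D / ((D.card : ℝ) + 1) + LQ (dual τ D) D / ((D.card : ℝ) + 1) :=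
          add_le_add h1 h2
      _ = (LQ τ D + LQ (dual τ D) D) / ((D.card : ℝ) + 1) := by ring
      _ ≤ ((A1 τ (fun U => (U.card : ℝ) / D.card) D +
        B1 τ D (fun U => (U.card : ℝ) / D.card) ∅) ^ 2 / ((D.card : ℝ) + 1)) /
          ((D.card : ℝ) + 1) := div_le_div_of_nonneg_right h3 hl.le
      _ = _ := by rw [div_pow]; field_simp
  have key := hS (Bool × ((_ : Finset α) × Option α)) (KK D)
    (fun p => Y p.1 p.2.1 p.2.2) (fun p => E p.1 p.2.1 p.2.2) (fun p => uu D p.2.1 p.2.2)
    D.card (card_pos.2 hD)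
    (by
      rintro ⟨b, V, o⟩ hp
      obtain ⟨hV, _⟩ := mem_KK hp
      exact ee_bd hW _ (hsA b) hV o)
    (by
      rintro ⟨b, V, o⟩ hp
      obtain ⟨hV, ho⟩ := mem_KK hp
      exact uu_pos hD hV ho)
    (by rw [hZ]; exact hZpos) hquad
  rw [hZ] at key
  have hL : ∑ p ∈ KK D, Y p.1 p.2.1 p.2.2 * Real.log (Y p.1 p.2.1 p.2.2 /
      (uu D p.2.1 p.2.2 * Zt τ D)) = COST τ D := by
    rw [sum_KK D (fun b V o => Y b V o * Real.log (Y b V o / (uu D V o * Zt τ D)))]
    unfold COST
    rw [CL_eq τ D _ hD hA hZpos, CL_eq (dual τ D) D _ hD hA' hZpos]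
    rfl
  have hR : ∑ p ∈ KK D, (Y p.1 p.2.1 p.2.2 - E p.1 p.2.1 p.2.2) =
      UEL τ D + UEL (dual τ D) D := by
    rw [sum_KK D (fun b V o => Y b V o - E b V o), LS_sub, LS_sub]
    show LS D (yy τ D) - LS D (ee τ D) + (LS D (yy (dual τ D) D) - LS D (ee (dual τ D) D)) = _
    rw [LS_ye hW hG hA hB, LS_ye hW hG hA' hB']
  rw [hL, hR] at key
  exact key

end R5
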