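import Pool.Agent.Work.MP_8b6acb_cap.Interface
import Pool.Agent.Work.MP_8b6acb_r5.SINK

/-! Block CUT3. -/

namespace R5

open Finset MP_8b6acb_co

namespace C3

/-- Sinkhorn scaling for a matched pair of finite sets. -/
theorem sink_finset {σ θ : Type} [DecidableEq σ] [DecidableEq θ] (S : Finset σ) (φ : σ → θ)
    (hφ : Set.InjOn φ S) (z : σ → θ → ℝ) (hz : ∀ s ∈ S, ∀ t ∈ S.image φ, 0 ≤ z s t)
    (hzφ : ∀ s ∈ S, 0 < z s (φ s)) {ε : ℝ} (hε : 0 < ε) :
    ∃ (a : σ → ℝ) (b : θ → ℝ), (∀ s, 0 < a s) ∧ (∀ t, 0 < b t) ∧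
      (∀ s ∈ S, |(∑ t ∈ S.image φ, a s * b t * z s t) - 1| ≤ ε) ∧
      (∀ t ∈ S.image φ, |(∑ s ∈ S, a s * b t * z s t) - 1| ≤ ε) := by
  classical
  set T := S.image φ with hT
  let e : S ≃ T := Equiv.ofBijective (fun s => ⟨φ s.1, mem_image_of_mem φ s.2⟩) (by
    constructor
    · rintro ⟨s, hs⟩ ⟨s', hs'⟩ h
      simp only [Subtype.mk.injEq] at h
      exact Subtype.ext (hφ hs hs' h)
    · rintro ⟨t, ht⟩
      obtain ⟨s, hs, rfl⟩ := mem_image.1 ht
      exact ⟨⟨s, hs⟩, rfl⟩)
  obtain ⟨a, b, ha, hb, h1, h2⟩ := sinkhorn_approx e (fun s t => z s.1 t.1)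
    (fun s t => hz _ s.2 _ t.2) (fun s => hzφ _ s.2) (fun _ => 1) (fun _ => one_pos) hε
  refine ⟨fun s => if h : s ∈ S then a ⟨s, h⟩ else 1, fun t => if h : t ∈ T then b ⟨t, h⟩ else 1,
    ?_, ?_, ?_, ?_⟩
  · intro s; simp only; split_ifs; exacts [ha _, one_pos]
  · intro t; simp only; split_ifs; exacts [hb _, one_pos]
  · intro s hs
    have h := h1 ⟨s, hs⟩
    have e1 : ∑ t ∈ T, (if h : s ∈ S then a ⟨s, h⟩ else 1) * (if h : t ∈ T then b ⟨t, h⟩ else 1) *
        z s t = ∑ t : T, a ⟨s, hs⟩ * b t * z s t.1 := by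
      rw [← sum_attach, dif_pos hs]
      refine sum_congr rfl fun t _ => ?_
      rw [dif_pos t.2]
    rw [e1]; exact h
  · intro t ht
    have h := h2 ⟨t, ht⟩
    have e1 : ∑ s ∈ S, (if h : s ∈ S then a ⟨s, h⟩ else 1) * (if h : t ∈ T then b ⟨t, h⟩ else 1) *
        z s t = ∑ s : S, a s * b ⟨t, ht⟩ * z s.1 t := by
      rw [← sum_attach, dif_pos ht]
      refine sum_congr rfl fun s _ => ?_
      rw [dif_pos s.2]
    rw [e1]; exact h

variable {α : Type} [Fintype α] [DecidableEq α]

theorem Zt_pos {τ : Finset α → Lab} {D : Finset α} (h0 : τ ∅ = Lab.A) : 0 < Zt τ D := by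
  unfold Zt
  have h1 := one_le_aw h0 D
  have h2 := ab_nonneg τ D ∅
  positivity

/-- There is at least one cut object. -/
theorem exists_object {c : Finset α → Lab} {i j : ℕ} {S T : Finset (Finset α)}
    {s t : Finset α} (hs : s ∈ S) (ht : t ∈ T) (hst : s ⊆ t) (hsi : s.card = i) (htj : t.card = j)
    (hcs : c s = Lab.A) (hct : c t = Lab.B) (hij : i < j) :
    0 < (netE c i j S T).card + (netX c i j).card := by
  -- minimal set not labelled A
  have hex : ∃ V : Finset α, V ⊆ t \ s ∧ c (s ∪ V) ≠ Lab.A := by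
    refine ⟨t \ s, Subset.refl _, ?_⟩
    rw [union_sdiff_of_subset hst, hct]; decide
  obtain ⟨V, hV, hmin⟩ := exists_min_image
    ((t \ s).powerset.filter fun V => c (s ∪ V) ≠ Lab.A) card (by
      obtain ⟨V, hV1, hV2⟩ := hex
      exact ⟨V, mem_filter.2 ⟨mem_powerset.2 hV1, hV2⟩⟩)
  rw [mem_filter, mem_powerset] at hV
  have hVne : V.Nonempty := by
    by_contra h
    rw [not_nonempty_iff_eq_empty] at h
    subst h
    exact hV.2 (by simpa using hcs)
  obtain ⟨x, hx⟩ := hVne
  have hxts := mem_sdiff.1 (hV.1 hx)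
  have hdisj : Disjoint s V := by
    rw [Finset.disjoint_left]
    intro y h1 h2
    exact (mem_sdiff.1 (hV.1 h2)).2 h1
  have hA : c (s ∪ V.erase x) = Lab.A := by
    by_contra h
    have := hmin (V.erase x) (mem_filter.2 ⟨mem_powerset.2 ((erase_subset _ _).trans hV.1), h⟩)
    have h2 := card_erase_lt_of_mem hx
    omega
  have hins : insert x (s ∪ V.erase x) = s ∪ V := by
    rw [← union_insert, insert_erase hx]
  have hcard : (s ∪ V).card = i + V.card := by
    rw [card_union_of_disjoint hdisj, hsi]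
  have hVt : s ∪ V ⊆ t := union_subset hst (hV.1.trans sdiff_subset)
  have hle : (s ∪ V).card ≤ j := by rw [← htj]; exact card_le_card hVt
  have hVpos : 0 < V.card := card_pos.2 ⟨x, hx⟩
  cases hc : c (s ∪ V) with
  | A => exact absurd hc hV.2
  | B =>
    have : (s ∪ V.erase x, x) ∈ netE c i j S T := by
      unfold netE
      rw [mem_filter]
      refine ⟨mem_univ _, ?_, ?_, hA, ?_, ?_⟩
      · simp only [mem_union, mem_erase, not_or]
        exact ⟨hxts.2, fun h => h.1 rfl⟩
      · by_cases h1 : V.card = 1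
        · left
          have : V.erase x = ∅ := by
            rw [← card_eq_zero, card_erase_of_mem hx, h1]
          simp only [this, union_empty]
          exact hs
        · right
          rw [mem_Mid]
          have h3 : (s ∪ V.erase x).card = i + (V.card - 1) := by
            rw [card_union_of_disjoint (hdisj.mono_right (erase_subset _ _)), hsi,
              card_erase_of_mem hx]
          rw [h3]
          omega
      · simp only [hins]
        by_cases h1 : (s ∪ V).card = j
        · right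
          have : s ∪ V = t := eq_of_subset_of_card_le hVt (by rw [htj, h1])
          rw [this]; exact ht
        · left
          rw [mem_Mid]; omega
      · simp only [hins]; exact hc
    have := card_pos.2 ⟨_, this⟩
    omega
  | X =>
    have : s ∪ V ∈ netX c i j := by
      unfold netX
      rw [mem_filter, mem_Mid]
      refine ⟨⟨by omega, ?_⟩, hc⟩
      by_contra h1
      have h2 : (s ∪ V).card = j := by omega
      have h3 : s ∪ V = t := eq_of_subset_of_card_le hVt (by rw [htj, h2])
      rw [h3, hct] at hc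
      exact absurd hc (by decide)
    have := card_pos.2 ⟨_, this⟩
    omega

/-- `S`-lights are cut edges of the network. -/
theorem Jl_le {c : Finset α → Lab} {i j : ℕ} {S T : Finset (Finset α)}
    {s t : Finset α} (hs : s ∈ S) (ht : t ∈ T) (hst : s ⊆ t) (hsi : s.card = i) (htj : t.card = j)
    (hcs : c s = Lab.A) :
    Jl (ty c s) (t \ s) ≤ ((netE c i j S T).filter fun e => e.1 = s).card := by
  unfold Jl
  refine card_le_card_of_injOn (fun x => (s, x)) ?_ ?_
  · intro x hx
    rw [mem_coe, mem_filter, mem_sdiff] at hx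
    obtain ⟨⟨hxt, hxs⟩, hB⟩ := hx
    rw [mem_coe, mem_filter]
    refine ⟨?_, rfl⟩
    unfold netE
    rw [mem_filter]
    have hB' : c (insert x s) = Lab.B := by
      have : s ∪ {x} = insert x s := by rw [union_comm]; rfl
      unfold ty at hB
      rwa [this] at hB
    refine ⟨mem_univ _, hxs, Or.inl hs, hcs, ?_, hB'⟩
    have hc1 : (insert x s).card = i + 1 := by rw [card_insert_of_notMem hxs, hsi]
    have hsub : insert x s ⊆ t := insert_subset hxt hst
    have hle := card_le_card hsub
    rw [hc1, htj] at hle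
    by_cases h1 : i + 1 = j
    · right
      have : insert x s = t := eq_of_subset_of_card_le hsub (by rw [hc1, htj, h1])
      simp only [this]; exact ht
    · left
      rw [mem_Mid, hc1]; omega
  · intro x _ y _ h
    simpa using h

theorem Jd_le {c : Finset α → Lab} {i j : ℕ} {S T : Finset (Finset α)}
    {s t : Finset α} (hs : s ∈ S) (ht : t ∈ T) (hst : s ⊆ t) (hsi : s.card = i) (htj : t.card = j)
    (hct : c t = Lab.B) :
    Jd (ty c s) (t \ s) ≤ ((netE c i j S T).filter fun e => insert e.2 e.1 = t).card := by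
  unfold Jd
  refine card_le_card_of_injOn (fun x => (t.erase x, x)) ?_ ?_
  · intro x hx
    rw [mem_coe, mem_filter, mem_sdiff] at hx
    obtain ⟨⟨hxt, hxs⟩, hA⟩ := hx
    have he : s ∪ ((t \ s).erase x) = t.erase x := by
      ext y
      simp only [mem_union, mem_erase, mem_sdiff]
      constructor
      · rintro (h | h)
        · exact ⟨fun hyx => hxs (hyx ▸ h), hst h⟩
        · exact ⟨h.1, h.2.1⟩
      · rintro ⟨h1, h2⟩
        by_cases h3 : y ∈ s
        · exact Or.inl h3
        · exact Or.inr ⟨h1, h2, h3⟩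
    have hA' : c (t.erase x) = Lab.A := by
      unfold ty at hA; rwa [he] at hA
    rw [mem_coe, mem_filter]
    refine ⟨?_, insert_erase hxt⟩
    unfold netE
    rw [mem_filter]
    refine ⟨mem_univ _, notMem_erase _ _, ?_, hA', ?_, ?_⟩
    · have hc1 : (t.erase x).card + 1 = j := by rw [card_erase_add_one hxt, htj]
      have hsub : s ⊆ t.erase x := subset_erase.2 ⟨hst, hxs⟩
      have hle := card_le_card hsub
      by_cases h1 : i + 1 = j
      · left
        have : s = t.erase x := eq_of_subset_of_card_le hsub (by omega)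
        simp only [← this]; exact hs
      · right
        show t.erase x ∈ Mid i j
        rw [mem_Mid]; omega
    · right; simp only [insert_erase hxt]; exact ht
    · simp only [insert_erase hxt]; exact hct
  · intro x hx y hy h
    simp only [Prod.mk.injEq] at h
    exact h.2

end C3

open C3 in
theorem stmt_CUT3 (α : Type) [Fintype α] [DecidableEq α] (hM : Stmt_MAINNET α)
    (hF : Stmt_TYPEFIN α) : Stmt_CUT3 α := by
  intro i j S φ c hij hmat hcS hcT
  set T := S.image φ with hT
  set E := (netE c i j S T).card with hE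
  set X := (netX c i j).card with hX
  set K := ((netE c i j S T).filter (fun e => e.1 ∈ S)).card with hK
  set K' := ((netE c i j S T).filter (fun e => insert e.2 e.1 ∈ T)).card with hK'
  by_cases hSe : S = ∅
  · rw [hSe]; simp
  have hSne : S.Nonempty := nonempty_iff_ne_empty.2 hSe
  have hl : 0 < j - i := by omega
  have hlR : ((j - i : ℕ) : ℝ) = (j : ℝ) - i := Nat.cast_sub hij.le
  have hlpos : (0 : ℝ) < (j : ℝ) - i := by rw [← hlR]; exact_mod_cast hl
  have hcTj : ∀ t ∈ T, t.card = j := by
    intro t ht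
    obtain ⟨s, hs, rfl⟩ := mem_image.1 ht
    exact hmat.cT s hs
  -- the approximate inequality
  have key : ∀ ε : ℝ, 0 < ε → ε < 1 →
      ((j : ℝ) - i) * (S.card * (1 - ε)) ≤
        (1 + ε) * ((E : ℝ) + ((j : ℝ) - i) * X + 2 * K + 2 * K') := by
    intro ε hε hε1
    obtain ⟨a, b, ha, hb, h1, h2⟩ := sink_finset S φ hmat.inj
      (fun s t => if s ⊆ t then Zt (ty c s) (t \ s) else 0)
      (fun s hs t _ => by
        split_ifs
        · exact (Zt_pos (by unfold ty; rw [union_empty]; exact hcS s hs)).le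
        · exact le_rfl)
      (fun s hs => by
        rw [if_pos (hmat.sub s hs)]
        exact Zt_pos (by unfold ty; rw [union_empty]; exact hcS s hs)) hε
    rw [← hT] at h1 h2
    have hnet : Net c i j S T a b :=
      ⟨hij, hmat.cS, hcTj, hcS, hcT, fun s _ => ha s, fun t _ => hb t⟩
    have hMU : ∀ s, MU c T a b s s =
        ∑ t ∈ T, a s * b t * (if s ⊆ t then Zt (ty c s) (t \ s) else 0) := by
      intro s
      unfold MU
      rw [sum_filter]
      refine sum_congr rfl fun t _ => ?_
      split_ifs <;> simp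
    have hNU : ∀ t, NU c S a b t t =
        ∑ s ∈ S, a s * b t * (if s ⊆ t then Zt (ty c s) (t \ s) else 0) := by
      intro t
      unfold NU
      rw [sum_filter]
      refine sum_congr rfl fun s _ => ?_
      split_ifs <;> simp
    have hMU1 : ∀ s ∈ S, 1 - ε ≤ MU c T a b s s ∧ MU c T a b s s ≤ 1 + ε := by
      intro s hs
      have := abs_le.1 (h1 s hs)
      rw [hMU]
      constructor <;> linarith [this.1, this.2]
    have hNU1 : ∀ t ∈ T, NU c S a b t t ≤ 1 + ε := by
      intro t ht
      have := abs_le.1 (h2 t ht)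
      rw [hNU]
      linarith [this.2]
    set W := ∑ s ∈ S, ∑ t ∈ T.filter (fun t => s ⊆ t), a s * b t * Zt (ty c s) (t \ s) with hW
    have hWMU : W = ∑ s ∈ S, MU c T a b s s := rfl
    have hW1 : S.card * (1 - ε) ≤ W := by
      rw [hWMU]
      calc (S.card : ℝ) * (1 - ε) = ∑ _s ∈ S, (1 - ε) := by rw [sum_const, nsmul_eq_mul]
        _ ≤ _ := sum_le_sum fun s hs => (hMU1 s hs).1
    have hWpos : 0 < W := by
      have : (0 : ℝ) < S.card := by exact_mod_cast hSne.card_pos
      have h3 : 0 < 1 - ε := by linarith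
      have := mul_pos this h3
      linarith
    have hmain := hM c i j S T a b (1 + ε) hnet (by linarith) (fun s hs => (hMU1 s hs).2) hNU1 W
      rfl hWpos
    -- C > 0
    have hobj : 0 < E + X := by
      obtain ⟨s, hs⟩ := hSne
      exact exists_object hs (mem_image_of_mem φ hs) (hmat.sub s hs) (hmat.cS s hs)
        (hmat.cT s hs) (hcS s hs) (hcT _ (mem_image_of_mem φ hs)) hij
    set C : ℝ := (E : ℝ) + ((j : ℝ) - i) * X with hC
    have hE0 : (0 : ℝ) ≤ E := Nat.cast_nonneg _
    have hX0 : (0 : ℝ) ≤ X := Nat.cast_nonneg _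
    have hCpos : 0 < C := by
      rcases Nat.eq_zero_or_pos E with h | h
      · have hX1 : (0 : ℝ) < X := by exact_mod_cast (by omega : 0 < X)
        rw [hC]
        have := mul_pos hlpos hX1
        linarith
      · have : (0 : ℝ) < E := by exact_mod_cast h
        have h3 := mul_nonneg hlpos.le hX0
        rw [hC]; linarith
    have hlog : W * Real.log ((1 + ε) * C / (((j : ℝ) - i) * W)) ≤
        (1 + ε) * C / ((j : ℝ) - i) - W := by
      have hpos : 0 < (1 + ε) * C / (((j : ℝ) - i) * W) := by positivity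
      have h3 := Real.log_le_sub_one_of_pos hpos
      have h4 := mul_le_mul_of_nonneg_left h3 hWpos.le
      refine h4.trans (le_of_eq ?_)
      field_simp
    -- lower bound for the left side
    have hlow : -(2 / ((j : ℝ) - i)) * ((1 + ε) * (K + K')) ≤
        ∑ s ∈ S, ∑ t ∈ T.filter (fun t => s ⊆ t), a s * b t * VAL (ty c s) (t \ s) := by
      have e1 : ∀ s ∈ S, ∀ t ∈ T.filter (fun t => s ⊆ t),
          -(2 / ((j : ℝ) - i)) * (a s * b t * Zt (ty c s) (t \ s) *
            ((Jl (ty c s) (t \ s) : ℝ) + (Jd (ty c s) (t \ s) : ℝ))) ≤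
          a s * b t * VAL (ty c s) (t \ s) := by
        intro s hs t ht
        rw [mem_filter] at ht
        have hcard : (t \ s).card = j - i := by
          rw [card_sdiff_of_subset ht.2, hcTj t ht.1, hmat.cS s hs]
        have h3 := hF (ty c s) (t \ s) (by unfold ty; rw [union_empty]; exact hcS s hs)
          (by unfold ty; rw [union_sdiff_of_subset ht.2]; exact hcT t ht.1)
          (by rw [← card_pos, hcard]; exact hl)
        rw [hcard, hlR] at h3
        have h4 := mul_le_mul_of_nonneg_left h3 (mul_pos (ha s) (hb t)).le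
        refine le_trans (le_of_eq ?_) h4
        ring
      have e2 : ∑ s ∈ S, ∑ t ∈ T.filter (fun t => s ⊆ t),
          -(2 / ((j : ℝ) - i)) * (a s * b t * Zt (ty c s) (t \ s) *
            ((Jl (ty c s) (t \ s) : ℝ) + (Jd (ty c s) (t \ s) : ℝ))) ≤
          ∑ s ∈ S, ∑ t ∈ T.filter (fun t => s ⊆ t), a s * b t * VAL (ty c s) (t \ s) :=
        sum_le_sum fun s hs => sum_le_sum fun t ht => e1 s hs t ht
      refine le_trans ?_ e2
      have e3 : ∑ s ∈ S, ∑ t ∈ T.filter (fun t => s ⊆ t),
          -(2 / ((j : ℝ) - i)) * (a s * b t * Zt (ty c s) (t \ s) *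
            ((Jl (ty c s) (t \ s) : ℝ) + (Jd (ty c s) (t \ s) : ℝ))) =
          -(2 / ((j : ℝ) - i)) * ((∑ s ∈ S, ∑ t ∈ T.filter (fun t => s ⊆ t),
            a s * b t * Zt (ty c s) (t \ s) * (Jl (ty c s) (t \ s) : ℝ)) +
            ∑ s ∈ S, ∑ t ∈ T.filter (fun t => s ⊆ t),
            a s * b t * Zt (ty c s) (t \ s) * (Jd (ty c s) (t \ s) : ℝ)) := by
        rw [← sum_add_distrib, mul_sum]
        refine sum_congr rfl fun s _ => ?_
        rw [← sum_add_distrib, mul_sum]
        refine sum_congr rfl fun t _ => ?_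
        ring
      rw [e3]
      have hneg : -(2 / ((j : ℝ) - i)) ≤ 0 := by
        have : 0 ≤ 2 / ((j : ℝ) - i) := by positivity
        linarith
      apply mul_le_mul_of_nonpos_left _ hneg
      have hZ0 : ∀ s ∈ S, ∀ t : Finset α, 0 ≤ a s * b t * Zt (ty c s) (t \ s) := by
        intro s hs t
        exact (mul_pos (mul_pos (ha s) (hb t))
          (Zt_pos (by unfold ty; rw [union_empty]; exact hcS s hs))).le
      -- S-lights
      have f1 : ∑ s ∈ S, ∑ t ∈ T.filter (fun t => s ⊆ t),
            a s * b t * Zt (ty c s) (t \ s) * (Jl (ty c s) (t \ s) : ℝ) ≤ (1 + ε) * K := by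
        have g1 : (K : ℝ) = ∑ s ∈ S, ((((netE c i j S T).filter fun e => e.1 = s).card : ℕ) : ℝ) := by
          rw [hK, ← Nat.cast_sum]
          congr 1
          rw [card_eq_sum_card_fiberwise (f := fun e : Finset α × α => e.1) (t := S)]
          · refine sum_congr rfl fun s hs => ?_
            congr 1
            ext e
            simp only [mem_filter]
            constructor
            · rintro ⟨⟨h3, _⟩, h4⟩; exact ⟨h3, h4⟩
            · rintro ⟨h3, h4⟩; exact ⟨⟨h3, h4 ▸ hs⟩, h4⟩
          · intro e he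
            exact (mem_filter.1 he).2
        rw [g1, mul_sum]
        refine sum_le_sum fun s hs => ?_
        calc ∑ t ∈ T.filter (fun t => s ⊆ t),
            a s * b t * Zt (ty c s) (t \ s) * (Jl (ty c s) (t \ s) : ℝ)
            ≤ ∑ t ∈ T.filter (fun t => s ⊆ t), a s * b t * Zt (ty c s) (t \ s) *
              ((((netE c i j S T).filter fun e => e.1 = s).card : ℕ) : ℝ) := by
              refine sum_le_sum fun t ht => mul_le_mul_of_nonneg_left ?_ (hZ0 s hs t)
              rw [mem_filter] at ht
              exact_mod_cast Jl_le hs ht.1 ht.2 (hmat.cS s hs) (hcTj t ht.1) (hcS s hs)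
          _ = MU c T a b s s * ((((netE c i j S T).filter fun e => e.1 = s).card : ℕ) : ℝ) := by
              rw [← sum_mul]; rfl
          _ ≤ _ := mul_le_mul_of_nonneg_right (hMU1 s hs).2 (Nat.cast_nonneg _)
      have f2 : ∑ s ∈ S, ∑ t ∈ T.filter (fun t => s ⊆ t),
            a s * b t * Zt (ty c s) (t \ s) * (Jd (ty c s) (t \ s) : ℝ) ≤ (1 + ε) * K' := by
        have g0 : ∑ s ∈ S, ∑ t ∈ T.filter (fun t => s ⊆ t),
            a s * b t * Zt (ty c s) (t \ s) * (Jd (ty c s) (t \ s) : ℝ) =
            ∑ t ∈ T, ∑ s ∈ S.filter (fun s => s ⊆ t),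
            a s * b t * Zt (ty c s) (t \ s) * (Jd (ty c s) (t \ s) : ℝ) := by
          refine sum_comm' ?_
          intro s t
          simp only [mem_filter]; tauto
        rw [g0]
        have g1 : (K' : ℝ) =
            ∑ t ∈ T, ((((netE c i j S T).filter fun e => insert e.2 e.1 = t).card : ℕ) : ℝ) := by
          rw [hK', ← Nat.cast_sum]
          congr 1
          rw [card_eq_sum_card_fiberwise (f := fun e : Finset α × α => insert e.2 e.1) (t := T)]
          · refine sum_congr rfl fun t ht => ?_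
            congr 1
            ext e
            simp only [mem_filter]
            constructor
            · rintro ⟨⟨h3, _⟩, h4⟩; exact ⟨h3, h4⟩
            · rintro ⟨h3, h4⟩; exact ⟨⟨h3, h4 ▸ ht⟩, h4⟩
          · intro e he
            exact (mem_filter.1 he).2
        rw [g1, mul_sum]
        refine sum_le_sum fun t ht => ?_
        calc ∑ s ∈ S.filter (fun s => s ⊆ t),
            a s * b t * Zt (ty c s) (t \ s) * (Jd (ty c s) (t \ s) : ℝ)
            ≤ ∑ s ∈ S.filter (fun s => s ⊆ t), a s * b t * Zt (ty c s) (t \ s) *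
              ((((netE c i j S T).filter fun e => insert e.2 e.1 = t).card : ℕ) : ℝ) := by
              refine sum_le_sum fun s hs => ?_
              rw [mem_filter] at hs
              refine mul_le_mul_of_nonneg_left ?_ (hZ0 s hs.1 t)
              exact_mod_cast Jd_le hs.1 ht hs.2 (hmat.cS s hs.1) (hcTj t ht) (hcT t ht)
          _ = NU c S a b t t *
              ((((netE c i j S T).filter fun e => insert e.2 e.1 = t).card : ℕ) : ℝ) := by
              rw [← sum_mul]; rfl
          _ ≤ _ := mul_le_mul_of_nonneg_right (hNU1 t ht) (Nat.cast_nonneg _)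
      have : (1 + ε) * ((K : ℝ) + K') = (1 + ε) * K + (1 + ε) * K' := by ring
      rw [this]
      exact add_le_add f1 f2
    have hfin := (hlow.trans hmain).trans hlog
    have h5 : W ≤ (1 + ε) * C / ((j : ℝ) - i) + 2 / ((j : ℝ) - i) * ((1 + ε) * (K + K')) := by
      linarith
    have h6 : ((j : ℝ) - i) * W ≤ (1 + ε) * C + 2 * ((1 + ε) * (K + K')) := by
      have h7 := mul_le_mul_of_nonneg_left h5 hlpos.le
      refine h7.trans (le_of_eq ?_)
      field_simp
    have h8 : ((j : ℝ) - i) * (S.card * (1 - ε)) ≤ ((j : ℝ) - i) * W :=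
      mul_le_mul_of_nonneg_left hW1 hlpos.le
    refine (h8.trans h6).trans (le_of_eq ?_)
    rw [hC]; ring
  -- let ε → 0
  by_contra hcon
  rw [not_le] at hcon
  set R := E + (j - i) * X + 2 * K + 2 * K' with hR
  have hint : (R : ℝ) + 1 ≤ ((j : ℝ) - i) * S.card := by
    rw [← hlR]
    exact_mod_cast hcon
  have hRR : (R : ℝ) = (E : ℝ) + ((j : ℝ) - i) * X + 2 * K + 2 * K' := by
    rw [hR, ← hlR]; push_cast; ring
  set N : ℝ := ((j : ℝ) - i) * S.card with hN
  have hR0 : (0 : ℝ) ≤ R := Nat.cast_nonneg _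
  have hN0 : 0 < N := by linarith
  have h := key (1 / (2 * (N + R + 1))) (by positivity) (by
    rw [div_lt_one (by positivity)]; linarith)
  rw [← hRR] at h
  have h2 : ((j : ℝ) - i) * (S.card * (1 - 1 / (2 * (N + R + 1)))) =
      N - N / (2 * (N + R + 1)) := by rw [hN]; ring
  rw [h2] at h
  have h3 : (N + R) / (2 * (N + R + 1)) < 1 := by
    rw [div_lt_one (by positivity)]; linarith
  have h4 : (1 + 1 / (2 * (N + R + 1))) * (R : ℝ) = R + R / (2 * (N + R + 1)) := by ring
  rw [h4] at h
  have h5 : (N + R) / (2 * (N + R + 1)) = N / (2 * (N + R + 1)) + R / (2 * (N + R + 1)) := by ring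
  linarith

end R5
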