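import Pool.Agent.Work.MP_8b6acb_cap.CONVL

/-! Block DEF: the deficit of a light element, summed over the states. -/

namespace R5

open Finset

variable {α : Type} [DecidableEq α]

theorem stmt_DEF (hC : Stmt_CHAIN α) : Stmt_DEF α := by
  intro τ D g hg
  have hE : (D.erase g).card = D.card - 1 := card_erase_of_mem hg
  have hpos : 0 < D.card := card_pos.2 ⟨g, hg⟩
  have hposR : (0 : ℝ) < (D.card : ℝ) := by exact_mod_cast hpos
  have h := conv_aw hC τ (D.erase g) (fun i => lamn (D.card - i))
  rw [hE] at h
  have h1 : ∀ X ∈ (D.erase g).powerset,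
      fw τ X / (((D.card : ℝ) + 1) * (D.card.choose X.card : ℝ)) *
        (lamn (D.card - X.card) / ((D.card : ℝ) - X.card)) *
        (aw (shift τ X) ((D.erase g) \ X) - 1) =
      1 / ((D.card : ℝ) * ((D.card : ℝ) + 1)) *
        (fw τ X / ((D.card - 1).choose X.card : ℝ) *
          (lamn (D.card - X.card) * aw (shift τ X) ((D.erase g) \ X)) -
        fw τ X / ((D.card - 1).choose X.card : ℝ) * lamn (D.card - X.card)) := by
    intro X hX
    have hle : X.card ≤ D.card - 1 := by
      rw [← hE]; exact card_le_card (mem_powerset.1 hX)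
    have hlt : X.card < D.card := by omega
    have hid : (D.card.choose X.card : ℝ) * ((D.card : ℝ) - X.card) =
        (D.card : ℝ) * ((D.card - 1).choose X.card : ℝ) := by
      obtain ⟨m, hm⟩ : ∃ m, D.card = m + 1 := ⟨D.card - 1, by omega⟩
      rw [hm] at hlt ⊢
      have h3 : (((m + 1) - X.card : ℕ) : ℝ) = ((m + 1 : ℕ) : ℝ) - X.card := Nat.cast_sub hlt.le
      rw [← h3, Nat.add_sub_cancel]
      have h4 : (m + 1).choose X.card * (m + 1 - X.card) = (m + 1) * m.choose X.card := by
        rw [← Nat.choose_mul_succ_eq, mul_comm]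
      exact_mod_cast h4
    have hp1 : (0 : ℝ) < (D.card.choose X.card : ℝ) := choose_pos_real hlt.le
    have hp2 : (0 : ℝ) < ((D.card - 1).choose X.card : ℝ) := choose_pos_real hle
    have hp3 : (0 : ℝ) < (D.card : ℝ) - X.card := by
      have : (X.card : ℝ) < D.card := by exact_mod_cast hlt
      linarith
    have e1 : fw τ X / (((D.card : ℝ) + 1) * (D.card.choose X.card : ℝ)) *
        (lamn (D.card - X.card) / ((D.card : ℝ) - X.card)) *
        (aw (shift τ X) ((D.erase g) \ X) - 1) =
        fw τ X * lamn (D.card - X.card) * (aw (shift τ X) ((D.erase g) \ X) - 1) /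
          (((D.card : ℝ) + 1) * ((D.card.choose X.card : ℝ) * ((D.card : ℝ) - X.card))) := by
      field_simp
    rw [e1, hid]
    field_simp
  rw [sum_congr rfl h1, ← mul_sum, sum_sub_distrib, h, ← sum_sub_distrib]
  congr 1
  refine sum_congr rfl fun X hX => ?_
  have hle : X.card ≤ D.card - 1 := by
    rw [← hE]; exact card_le_card (mem_powerset.1 hX)
  have hlt : X.card < D.card := by omega
  have hp3 : (0 : ℝ) < (D.card : ℝ) - X.card := by
    have : (X.card : ℝ) < D.card := by exact_mod_cast hlt
    linarith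
  rw [sum_range_succ, sum_lamn D.card X.card hlt, Real.log_div hposR.ne' hp3.ne']
  ring

end R5
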