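import Pool.Agent.Work.MP_8b6acb_cap.Interface

/-! Block DEFB: bound for the deficit. -/

namespace R5

open Finset

variable {α : Type} [DecidableEq α]

/-- Level averages of the forward weights on the subsets of `E`. -/
noncomputable def lavg (τ : Finset α → Lab) (E : Finset α) (k : ℕ) : ℝ :=
  (∑ X ∈ powersetCard k E, fw τ X) / (E.card.choose k : ℝ)

theorem lavg_nonneg (τ : Finset α → Lab) (E : Finset α) (k : ℕ) : 0 ≤ lavg τ E k :=
  div_nonneg (sum_nonneg fun _ _ => fw_nonneg _ _) (Nat.cast_nonneg _)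

/-- Double counting between two levels. -/
theorem sum_level_up (E : Finset α) (k : ℕ) (f : Finset α → ℝ) :
    ∑ Y ∈ powersetCard (k + 1) E, ∑ x ∈ Y, f (Y.erase x) =
      ((E.card : ℝ) - k) * ∑ X ∈ powersetCard k E, f X := by
  have h := sum_up_down E (fun V _ => if V.card = k then f V else 0)
  have h1 : ∑ V ∈ E.powerset, ∑ _x ∈ E \ V, (if V.card = k then f V else 0) =
      ((E.card : ℝ) - k) * ∑ X ∈ powersetCard k E, f X := by
    rw [powersetCard_eq_filter, sum_filter, mul_sum]
    refine sum_congr rfl fun V hV => ?_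
    rw [mem_powerset] at hV
    rw [sum_const, nsmul_eq_mul, card_sdiff_cast hV]
    split_ifs with h
    · rw [h]
    · ring
  have h2 : ∑ U ∈ E.powerset, ∑ x ∈ U, (if (U.erase x).card = k then f (U.erase x) else 0) =
      ∑ Y ∈ powersetCard (k + 1) E, ∑ x ∈ Y, f (Y.erase x) := by
    rw [powersetCard_eq_filter, sum_filter]
    refine sum_congr rfl fun U _ => ?_
    split_ifs with h
    · refine sum_congr rfl fun x hx => ?_
      rw [if_pos]
      rw [card_erase_of_mem hx, h, Nat.add_sub_cancel]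
    · refine sum_eq_zero fun x hx => ?_
      rw [if_neg]
      intro h'
      apply h
      rw [← h', card_erase_add_one hx]
  rw [← h1, ← h2]
  exact h.symm

theorem lavg_succ_le (τ : Finset α → Lab) (E : Finset α) (k : ℕ) :
    lavg τ E (k + 1) ≤ lavg τ E k := by
  by_cases hk : k < E.card
  · unfold lavg
    have hp : (0 : ℝ) < (E.card.choose k : ℝ) := choose_pos_real hk.le
    have hp2 : (0 : ℝ) < (E.card.choose (k + 1) : ℝ) := choose_pos_real hk
    have hk1 : (0 : ℝ) < (k : ℝ) + 1 := by positivity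
    have h1 : ((k : ℝ) + 1) * ∑ Y ∈ powersetCard (k + 1) E, fw τ Y ≤
        ((E.card : ℝ) - k) * ∑ X ∈ powersetCard k E, fw τ X := by
      rw [← sum_level_up, mul_sum]
      refine sum_le_sum fun Y hY => ?_
      rw [mem_powersetCard] at hY
      have hne : Y ≠ ∅ := by
        intro h
        rw [h, card_empty] at hY
        omega
      have h2 : fw τ Y ≤ fwb τ Y := by
        rw [fw_rec hne]
        split_ifs
        · exact le_refl _
        · exact fwb_nonneg _ _
      have h3 : ((k : ℝ) + 1) * fwb τ Y = ∑ x ∈ Y, fw τ (Y.erase x) := by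
        unfold fwb
        rw [hY.2]
        push_cast
        field_simp
      rw [← h3]
      exact mul_le_mul_of_nonneg_left h2 hk1.le
    rw [div_le_div_iff₀ hp2 hp]
    have h4 := choose_up hk
    have h5 : ((k : ℝ) + 1) * ((∑ Y ∈ powersetCard (k + 1) E, fw τ Y) * (E.card.choose k : ℝ)) ≤
        ((k : ℝ) + 1) * ((∑ X ∈ powersetCard k E, fw τ X) * (E.card.choose (k + 1) : ℝ)) := by
      calc ((k : ℝ) + 1) * ((∑ Y ∈ powersetCard (k + 1) E, fw τ Y) * (E.card.choose k : ℝ))
          = (((k : ℝ) + 1) * ∑ Y ∈ powersetCard (k + 1) E, fw τ Y) * (E.card.choose k : ℝ) := by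
            ring
        _ ≤ (((E.card : ℝ) - k) * ∑ X ∈ powersetCard k E, fw τ X) * (E.card.choose k : ℝ) :=
            mul_le_mul_of_nonneg_right h1 hp.le
        _ = (∑ X ∈ powersetCard k E, fw τ X) * ((E.card.choose k : ℝ) * ((E.card : ℝ) - k)) := by
            ring
        _ = _ := by rw [h4]; ring
    exact le_of_mul_le_mul_left h5 hk1
  · have h : powersetCard (k + 1) E = ∅ := powersetCard_eq_empty.2 (by omega)
    unfold lavg
    rw [h, sum_empty, zero_div]
    exact lavg_nonneg τ E k

theorem sum_lavg (τ : Finset α → Lab) (E : Finset α) (h : ℕ → ℝ) :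
    ∑ X ∈ E.powerset, fw τ X / (E.card.choose X.card : ℝ) * h X.card =
      ∑ k ∈ range (E.card + 1), lavg τ E k * h k := by
  rw [sum_powerset]
  refine sum_congr rfl fun k _ => ?_
  unfold lavg
  rw [sum_div, sum_mul]
  refine sum_congr rfl fun X hX => ?_
  rw [(mem_powersetCard.1 hX).2]

theorem sum_log_range (l : ℕ) : ∑ j ∈ range l, Real.log ((j : ℝ) + 1) =
    Real.log (l.factorial : ℝ) := by
  induction l with
  | zero => simp
  | succ l ih =>
    rw [sum_range_succ, ih, Nat.factorial_succ, Nat.cast_mul, Real.log_mul (by positivity)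
      (by positivity)]
    push_cast
    ring

theorem sum_id_range (l : ℕ) : ∑ j ∈ range l, ((j : ℝ) + 1) = (l : ℝ) * ((l : ℝ) + 1) / 2 := by
  induction l with
  | zero => simp
  | succ l ih =>
    rw [sum_range_succ, ih]
    push_cast
    ring

theorem sum_reflect' (l : ℕ) (f : ℝ → ℝ) : ∑ k ∈ range l, f ((l : ℝ) - k) =
    ∑ j ∈ range l, f ((j : ℝ) + 1) := by
  rw [← sum_range_reflect (fun j : ℕ => f ((j : ℝ) + 1)) l]
  refine sum_congr rfl fun k hk => ?_
  rw [mem_range] at hk
  have h1 : (((l - 1 - k : ℕ) : ℝ)) = (l : ℝ) - 1 - k := by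
    rw [Nat.cast_sub (by omega), Nat.cast_sub (by omega)]
    simp
  simp only [h1]
  congr 1
  ring

theorem stmt_DEFB : Stmt_DEFB α := by
  intro τ D g hg hA
  obtain ⟨l, hl⟩ : ∃ l, l = D.card := ⟨_, rfl⟩
  have hcard : (D.erase g).card + 1 = l := by rw [hl]; exact card_erase_add_one hg
  have hl1 : 1 ≤ l := by omega
  have hl0 : (0 : ℝ) < l := by exact_mod_cast hl1
  have hE : D.card - 1 = (D.erase g).card := by omega
  rw [hE, ← hl]
  rw [sum_lavg τ (D.erase g) (fun k => Real.log ((l : ℝ) / ((l : ℝ) - k))), hcard]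
  -- lower bound for `aw`
  have h1 : ∑ k ∈ range l, lavg τ (D.erase g) k * (((l : ℝ) - k) / l) ≤ aw τ D := by
    rw [← hcard, ← sum_lavg τ (D.erase g) (fun k => ((((D.erase g).card + 1 : ℕ) : ℝ) - k) /
      (((D.erase g).card + 1 : ℕ) : ℝ)), hcard]
    unfold aw
    refine le_trans ?_ (sum_le_sum_of_subset_of_nonneg
      (powerset_mono.2 (erase_subset g D)) fun X _ _ =>
        div_nonneg (fw_nonneg _ _) (Nat.cast_nonneg _))
    refine sum_le_sum fun X hX => le_of_eq ?_
    have hX1 : X.card ≤ (D.erase g).card := card_le_card (mem_powerset.1 hX)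
    have hp : (0 : ℝ) < ((D.erase g).card.choose X.card : ℝ) := choose_pos_real hX1
    have hp2 : (0 : ℝ) < (D.card.choose X.card : ℝ) := choose_pos_real (by omega)
    have hid : (D.card.choose X.card : ℝ) * ((l : ℝ) - X.card) =
        (l : ℝ) * ((D.erase g).card.choose X.card : ℝ) := by
      have h3 : ((l - X.card : ℕ) : ℝ) = (l : ℝ) - X.card := Nat.cast_sub (by omega)
      rw [← h3, ← hl, ← hcard]
      have h4 : ((D.erase g).card + 1).choose X.card * ((D.erase g).card + 1 - X.card) =
          ((D.erase g).card + 1) * (D.erase g).card.choose X.card := by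
        rw [← Nat.choose_mul_succ_eq, mul_comm]
      exact_mod_cast h4
    rw [div_mul_div_comm, div_eq_div_iff (by positivity) hp2.ne']
    have h5 : fw τ X * ((l : ℝ) - X.card) * (D.card.choose X.card : ℝ) =
        fw τ X * ((D.card.choose X.card : ℝ) * ((l : ℝ) - X.card)) := by ring
    rw [h5, hid]
    ring
  -- Chebyshev
  obtain ⟨G, hG⟩ : ∃ G : ℕ → ℝ, G = fun k : ℕ => Real.log ((l : ℝ) / ((l : ℝ) - k)) -
    2 * (((l : ℝ) - k) / l) := ⟨_, rfl⟩
  have hF : AntitoneOn (lavg τ (D.erase g)) (range l : Set ℕ) := by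
    have : Antitone (lavg τ (D.erase g)) := antitone_nat_of_succ_le (lavg_succ_le τ _)
    exact this.antitoneOn _
  have hGm : MonotoneOn G (range l : Set ℕ) := by
    intro i hi j hj hij
    rw [mem_coe, mem_range] at hi hj
    have hi' : (i : ℝ) < l := by exact_mod_cast hi
    have hj' : (j : ℝ) < l := by exact_mod_cast hj
    have hij' : (i : ℝ) ≤ j := by exact_mod_cast hij
    have e1 : (0 : ℝ) < (l : ℝ) - i := by linarith
    have e2 : (0 : ℝ) < (l : ℝ) - j := by linarith
    rw [hG]
    simp only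
    have h2 : Real.log ((l : ℝ) / ((l : ℝ) - i)) ≤ Real.log ((l : ℝ) / ((l : ℝ) - j)) := by
      refine Real.log_le_log (by positivity) ?_
      exact div_le_div_of_nonneg_left hl0.le e2 (by linarith)
    have h3 : ((l : ℝ) - j) / l ≤ ((l : ℝ) - i) / l :=
      div_le_div_of_nonneg_right (by linarith) hl0.le
    linarith
  have hC := (hF.antivaryOn hGm).card_mul_sum_le_sum_mul_sum
  rw [card_range] at hC
  -- the sum of `G`
  have hGs : ∑ k ∈ range l, G k ≤ 0 := by
    have h2 : ∑ k ∈ range l, G k = (l : ℝ) * Real.log l - Real.log (l.factorial : ℝ) -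
        ((l : ℝ) + 1) := by
      rw [← sum_log_range l, ← sum_reflect' l Real.log]
      have h3 : ((l : ℝ) + 1) = 2 / l * ∑ k ∈ range l, ((l : ℝ) - k) := by
        rw [sum_reflect' l (fun x => x), sum_id_range]
        field_simp
      rw [h3, mul_sum]
      have h4 : (l : ℝ) * Real.log l = ∑ _k ∈ range l, Real.log l := by
        rw [sum_const, card_range, nsmul_eq_mul]
      rw [h4, ← sum_sub_distrib, ← sum_sub_distrib]
      refine sum_congr rfl fun k hk => ?_
      rw [mem_range] at hk
      have hk' : (k : ℝ) < l := by exact_mod_cast hk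
      rw [hG]
      simp only
      rw [Real.log_div hl0.ne' (by linarith)]
      ring
    rw [h2]
    have h5 := Real.pow_div_factorial_le_exp (l : ℝ) hl0.le l
    have h6 : Real.log ((l : ℝ) ^ l / (l.factorial : ℝ)) ≤ l := by
      rw [Real.log_le_iff_le_exp (by positivity)]
      exact h5
    rw [Real.log_div (by positivity) (by positivity), Real.log_pow] at h6
    linarith
  have hFs : 0 ≤ ∑ k ∈ range l, lavg τ (D.erase g) k :=
    sum_nonneg fun k _ => lavg_nonneg _ _ _
  have hC2 : (l : ℝ) * ∑ k ∈ range l, lavg τ (D.erase g) k * G k ≤ 0 :=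
    hC.trans (mul_nonpos_of_nonneg_of_nonpos hFs hGs)
  have hC3 : ∑ k ∈ range l, lavg τ (D.erase g) k * G k ≤ 0 := by
    by_contra hcon
    push Not at hcon
    have := mul_pos hl0 hcon
    linarith
  have h7 : ∑ k ∈ range l, lavg τ (D.erase g) k * G k =
      ∑ k ∈ range l, lavg τ (D.erase g) k * Real.log ((l : ℝ) / ((l : ℝ) - k)) -
        2 * ∑ k ∈ range l, lavg τ (D.erase g) k * (((l : ℝ) - k) / l) := by
    rw [mul_sum, ← sum_sub_distrib]
    refine sum_congr rfl fun k _ => ?_
    rw [hG]
    ring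
  rw [h7] at hC3
  linarith

end R5
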