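import Pool.Agent.Work.MP_8b6acb_cap.Interface
import Pool.Agent.Work.MP_8b6acb_co.Final
import Pool.Agent.Work.MP_8b6acb_co_R.RFinal

/-! Block FINAL: from the capacitated cut condition to LR solutions (helper22; adapted from
`hasEdgeDisjointLR`). -/

set_option linter.unusedSectionVars false

namespace R5

open Finset MP_8b6acb_co

/-- The cut condition gives edge-disjoint LR solutions. -/
theorem final_two {d i j : ℕ} (hP : Stmt_PPW (Fin d)) (hW : Stmt_PATHW (Fin d)) (hij : i + 2 ≤ j)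
    (S T : Finset (Vtx d)) (hS : ∀ s ∈ S, wt s = i) (hT : ∀ t ∈ T, wt t = j)
    (hST : Matched S T) :
    ∃ P : Fin (j - i) → Finset (List (Vtx d)), (∀ c, IsLRSolution S T (P c)) ∧
    ∀ e : Vtx d × Vtx d, (univ.filter (fun c => ∃ p ∈ P c, e ∈ edgesOf p)).card ≤
      if wt e.1 = i ∨ wt e.2 = j then 3 else 1 := by
  classical
  obtain ⟨φ, hφ⟩ := hST
  obtain ⟨S', hS'⟩ : ∃ S', S' = S.image toS := ⟨_, rfl⟩
  let φ' : Finset (Fin d) → Finset (Fin d) := fun u =>
    if h : ofS u ∈ S then toS (φ ⟨ofS u, h⟩).1 else ∅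
  have hmem : ∀ u, u ∈ S' ↔ ofS u ∈ S := by
    intro u
    rw [hS', mem_image]
    constructor
    · rintro ⟨x, hx, rfl⟩
      rw [ofS_toS]; exact hx
    · intro h
      exact ⟨ofS u, h, toS_ofS u⟩
  have hm : Mat i j S' φ' := by
    refine ⟨?_, ?_, ?_, ?_⟩
    · intro u hu
      rw [← hS _ ((hmem u).1 hu), wt_ofS]
    · intro u hu
      have h := (hmem u).1 hu
      simp only [φ', h, dif_pos]
      rw [card_toS]
      exact hT _ (φ ⟨ofS u, h⟩).2
    · intro u hu v hv he
      have h := (hmem u).1 (mem_coe.1 hu)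
      have h' := (hmem v).1 (mem_coe.1 hv)
      simp only [φ', h, h', dif_pos] at he
      have h1 := φ.injective (Subtype.ext (toS_inj he))
      exact ofS_inj (congrArg Subtype.val h1)
    · intro u hu k hk
      have h := (hmem u).1 hu
      simp only [φ', h, dif_pos]
      have h1 := (hφ ⟨ofS u, h⟩).1 k
      simp only [toS, mem_filter, mem_univ, true_and]
      have h2 : ofS u k = true := by simp [ofS, hk]
      simp only [h2] at h1
      exact top_le_iff.1 h1
  have himg : S'.image φ' ⊆ T.image toS := by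
    intro v hv
    rw [mem_image] at hv
    obtain ⟨u, hu, rfl⟩ := hv
    have h := (hmem u).1 hu
    simp only [φ', h, dif_pos]
    exact mem_image_of_mem _ (φ ⟨ofS u, h⟩).2
  obtain ⟨p, hp0, hp1, hp2, hp3, hp4⟩ := hW (cap3 i j) (j - i) i j S' φ' (by omega) hm
    (fun S'' hS'' A hSA hA => hP i j S'' φ' A hij (hm.mono hS'') hSA hA)
  let lst : Fin (j - i) → Finset (Fin d) → List (Vtx d) := fun c s =>
    (List.range (j - i + 1)).map (fun k => ofS (p c s k))
  have hmemlst : ∀ c s v, v ∈ lst c s → ∃ k ≤ j - i, v = ofS (p c s k) := by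
    intro c s v hv
    simp only [lst, List.mem_map, List.mem_range] at hv
    obtain ⟨k, hk, rfl⟩ := hv
    exact ⟨k, by omega, rfl⟩
  have hhead : ∀ c s, (lst c s).head? = some (ofS (p c s 0)) := by
    intro c s
    simp [lst, List.head?_range]
  have hlast : ∀ c s, (lst c s).getLast? = some (ofS (p c s (j - i))) := by
    intro c s
    simp [lst, List.getLast?_range]
  have hinj : ∀ c, ∀ s ∈ S', ∀ s' ∈ S', lst c s = lst c s' → s = s' := by
    intro c s hs s' hs' he
    have h1 := hhead c s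
    rw [he, hhead c s', hp0 c s hs, hp0 c s' hs'] at h1
    exact (ofS_inj (Option.some_injective _ h1)).symm
  refine ⟨fun c => S'.image (lst c), ?_, ?_⟩
  · intro c
    refine ⟨?_, ?_, ?_, ?_, ?_⟩
    · rw [card_image_of_injOn, hS', card_image_of_injective]
      · intro x y h; exact toS_inj h
      · intro s hs s' hs' he
        exact hinj c s (mem_coe.1 hs) s' (mem_coe.1 hs') he
    · intro l hl
      rw [mem_image] at hl
      obtain ⟨s, hs, rfl⟩ := hl
      constructor
      · simp [lst]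
      · simp only [lst]
        rw [List.isChain_map]
        exact (List.isChain_range_succ _ _).2 (fun m hm => dedge_of_cov (hp1 c s hs m hm))
    · intro l hl
      rw [mem_image] at hl
      obtain ⟨s, hs, rfl⟩ := hl
      refine ⟨ofS s, (hmem s).1 hs, ?_⟩
      rw [hhead, hp0 c s hs]
    · intro l hl
      rw [mem_image] at hl
      obtain ⟨s, hs, rfl⟩ := hl
      have h1 := himg (hp2 c s hs)
      rw [mem_image] at h1
      obtain ⟨t, ht, he⟩ := h1
      refine ⟨t, ht, ?_⟩
      rw [hlast, ← he, ofS_toS]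
    · intro l hl l' hl' hne v hv hv'
      rw [mem_image] at hl hl'
      obtain ⟨s, hs, rfl⟩ := hl
      obtain ⟨s', hs', rfl⟩ := hl'
      obtain ⟨k, hk, he⟩ := hmemlst _ _ _ hv
      obtain ⟨k', hk', he'⟩ := hmemlst _ _ _ hv'
      apply hne
      rw [he] at he'
      rw [hp3 c s hs s' hs' k hk k' hk' (ofS_inj he')]
  · intro e
    by_cases hemp : (univ.filter (fun c : Fin (j - i) => ∃ p ∈ S'.image (lst c), e ∈ edgesOf p)) = ∅
    · rw [hemp, card_empty]
      exact Nat.zero_le _
    · obtain ⟨c₀, hc₀⟩ := nonempty_iff_ne_empty.2 hemp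
      rw [mem_filter] at hc₀
      obtain ⟨-, l₀, hl₀, he₀⟩ := hc₀
      rw [mem_image] at hl₀
      obtain ⟨s₀, hs₀, rfl⟩ := hl₀
      obtain ⟨k₀, hk₀, h₀⟩ := mem_edges _ _ _ he₀
      obtain ⟨x, hx, hux⟩ := hp1 c₀ s₀ hs₀ k₀ hk₀
      have h1 := hp4 (p c₀ s₀ k₀) x hx
      have he1 : e.1 = ofS (p c₀ s₀ k₀) := by rw [h₀]
      have he2 : e.2 = ofS (insert x (p c₀ s₀ k₀)) := by rw [h₀, hux]
      have h2 : cap3 i j (p c₀ s₀ k₀) x = if wt e.1 = i ∨ wt e.2 = j then 3 else 1 := by
        unfold cap3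
        rw [he1, he2, wt_ofS, wt_ofS, card_insert_of_notMem hx]
      rw [← h2]
      refine le_trans (card_le_card ?_) h1
      intro c hc
      rw [mem_filter] at hc ⊢
      obtain ⟨-, l, hl, hel⟩ := hc
      rw [mem_image] at hl
      obtain ⟨s, hs, rfl⟩ := hl
      obtain ⟨k, hk, h3⟩ := mem_edges _ _ _ hel
      refine ⟨mem_univ _, s, hs, k, hk, ?_, ?_⟩
      · apply ofS_inj
        rw [← he1, h3]
      · apply ofS_inj
        rw [← he2, h3]

/-- The final statement. -/
theorem stmt_FINAL (hP : ∀ d, Stmt_PPW (Fin d)) (hW : ∀ d, Stmt_PATHW (Fin d)) : Stmt_FINAL := by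
  intro d i j hij S T hS hT hST
  rcases Nat.lt_or_ge (j - i) 2 with h1 | h1
  · have h2 : j = i + 1 := by omega
    subst h2
    have h3 : HasEdgeDisjointLR (i + 1 - i) S T :=
      hasEdgeDisjointLR (MP_8b6acb_co.R.PP_one_one (by omega)) hij S T hS hT hST
    obtain ⟨P, hP1, -⟩ := h3
    refine ⟨P, hP1, fun e => ?_⟩
    refine le_trans (card_le_univ _) ?_
    rw [Fintype.card_fin]
    split_ifs <;> omega
  · exact final_two (hP d) (hW d) (by omega) S T hS hT hST

end R5
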