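import Pool.Agent.Work.MP_8b6acb_cap.Interface

/-! Block FPART: the colour F part, by complementation. -/

namespace R5

open Finset MP_8b6acb_co

namespace FPARTAux

section congr

variable {α : Type} [DecidableEq α] {τ τ' : Finset α → Lab} {D : Finset α}

theorem dual_congr (h : ∀ U ⊆ D, τ U = τ' U) : dual τ D = dual τ' D := by
  funext U
  unfold dual
  rw [h _ sdiff_subset]

theorem bw_congr (h : ∀ U ⊆ D, τ U = τ' U) : bw τ D = bw τ' D := by
  funext V
  unfold bw
  rw [dual_congr h]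

theorem bwb_congr (h : ∀ U ⊆ D, τ U = τ' U) : bwb τ D = bwb τ' D := by
  funext V
  unfold bwb
  rw [bw_congr h]

theorem ab_congr (h : ∀ U ⊆ D, τ U = τ' U) : ab τ D = ab τ' D := by
  funext V
  unfold ab
  rw [dual_congr h]

theorem Zt_congr (h : ∀ U ⊆ D, τ U = τ' U) : Zt τ D = Zt τ' D := by
  unfold Zt
  rw [ab_congr h, aw_congr h]

theorem isE_congr (h : ∀ U ⊆ D, τ U = τ' U) {V : Finset α} {x : α} (hV : V ⊆ D) (hx : x ∈ D) :
    isE τ V x ↔ isE τ' V x := by
  unfold isE
  rw [h V hV, h _ (insert_subset hx hV)]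

theorem pe_congr (h : ∀ U ⊆ D, τ U = τ' U) {X V : Finset α} {x : α} (hX : X ⊆ D) (hV : V ⊆ D)
    (hx : x ∈ D) : pe τ D X V x = pe τ' D X V x := by
  unfold pe
  simp only [isE_congr h hV hx, bw_congr h]
  rw [fw_congr fun U hU => h U (hU.trans hX)]

theorem pv_congr (h : ∀ U ⊆ D, τ U = τ' U) {X V : Finset α} (hX : X ⊆ D) (hV : V ⊆ D) :
    pv τ D X V = pv τ' D X V := by
  unfold pv
  rw [h V hV, bwb_congr h, fw_congr fun U hU => h U (hU.trans hX)]

theorem yLe_congr (h : ∀ U ⊆ D, τ U = τ' U) {V : Finset α} {x : α} (hV : V ⊆ D)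
    (hx : x ∈ D) : yLe τ D V x = yLe τ' D V x := by
  unfold yLe
  simp only [isE_congr h hV hx, bw_congr h]
  rw [aw_congr fun U hU => h U (hU.trans hV)]

theorem yLv_congr (h : ∀ U ⊆ D, τ U = τ' U) {V : Finset α} (hV : V ⊆ D) :
    yLv τ D V = yLv τ' D V := by
  unfold yLv
  rw [h V hV, bwb_congr h, aw_congr fun U hU => h U (hU.trans hV)]

theorem KB_congr {ρ ρ' : Finset α → α → ℝ} {X U : Finset α}
    (hρ : ∀ g ∈ D, ρ X g = ρ' X g) (hU : U ⊆ D) : KB ρ D X U = KB ρ' D X U := by
  unfold KB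
  have h1 : ∑ g ∈ D \ U, Real.log (ρ X g) = ∑ g ∈ D \ U, Real.log (ρ' X g) :=
    sum_congr rfl fun g hg => by rw [hρ g (mem_sdiff.1 hg).1]
  have h2 : (∑ g ∈ U \ X, -Real.log (1 - ρ X g / ((D.card : ℝ) - X.card))) =
      ∑ g ∈ U \ X, -Real.log (1 - ρ' X g / ((D.card : ℝ) - X.card)) :=
    sum_congr rfl fun g hg => by rw [hρ g (hU (mem_sdiff.1 hg).1)]
  have h3 : (∑ g ∈ D \ U, -Real.log (1 - ρ X g / ((D.card : ℝ) - X.card))) =
      ∑ g ∈ D \ U, -Real.log (1 - ρ' X g / ((D.card : ℝ) - X.card)) :=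
    sum_congr rfl fun g hg => by rw [hρ g (mem_sdiff.1 hg).1]
  rw [h1, h2, h3]

theorem LV_congr {ρ ρ' : Finset α → α → ℝ} {H H' : Finset α → ℝ} (h : ∀ U ⊆ D, τ U = τ' U)
    (hρ : ∀ X ⊆ D, ∀ g ∈ D, ρ X g = ρ' X g) (hH : ∀ V ⊆ D, H V = H' V) :
    LV τ D ρ H = LV τ' D ρ' H' := by
  unfold LV
  congr 1
  · congr 1
    · refine sum_congr rfl fun X hX => ?_
      rw [mem_powerset] at hX
      congr 1
      · refine sum_congr rfl fun V hV => sum_congr rfl fun x hx => ?_
        rw [mem_powerset] at hV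
        rw [mem_sdiff] at hx
        rw [pe_congr h hX hV hx.1, KB_congr (hρ X hX) (insert_subset hx.1 hV)]
      · refine sum_congr rfl fun V hV => ?_
        rw [mem_powerset] at hV
        rw [pv_congr h hX hV, KB_congr (hρ X hX) hV]
    · refine sum_congr rfl fun V hV => sum_congr rfl fun x hx => ?_
      rw [mem_powerset] at hV
      rw [mem_sdiff] at hx
      rw [yLe_congr h hV hx.1, hH V hV, Zt_congr h]
  · refine sum_congr rfl fun V hV => ?_
    rw [mem_powerset] at hV
    rw [yLv_congr h hV, hH V hV, Zt_congr h]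

end congr

section network

variable {α : Type} [Fintype α] [DecidableEq α]

/-- The complemented labelling. -/
def cc (c : Finset α → Lab) : Finset α → Lab := fun v => (c vᶜ).flip

theorem compl_un {s t V : Finset α} (hst : s ⊆ t) (hV : V ⊆ t \ s) :
    (tᶜ ∪ V)ᶜ = s ∪ ((t \ s) \ V) := by
  ext y
  simp only [mem_compl, mem_union, mem_sdiff, not_or, not_not]
  constructor
  · rintro ⟨h1, h2⟩
    by_cases hs : y ∈ s
    · exact Or.inl hs
    · exact Or.inr ⟨⟨h1, hs⟩, h2⟩
  · rintro (h1 | h1)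
    · exact ⟨hst h1, fun h2 => (mem_sdiff.1 (hV h2)).2 h1⟩
    · exact ⟨h1.1.1, h1.2⟩

theorem ty_compl (c : Finset α → Lab) {s t : Finset α} (hst : s ⊆ t) :
    ∀ V ⊆ t \ s, ty (cc c) tᶜ V = dual (ty c s) (t \ s) V := by
  intro V hV
  unfold ty cc dual
  rw [compl_un hst hV]

theorem sum_filter_compl (T : Finset (Finset α)) (p : Finset α → Prop) [DecidablePred p]
    (F : Finset α → ℝ) :
    ∑ t ∈ (T.image compl).filter p, F t = ∑ t ∈ T.filter (fun t => p tᶜ), F tᶜ := by
  rw [filter_image, sum_image compl_injective.injOn]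

theorem Zt_compl (c : Finset α → Lab) {s t : Finset α} (hst : s ⊆ t) :
    Zt (ty (cc c) tᶜ) (sᶜ \ tᶜ) = Zt (ty c s) (t \ s) := by
  rw [compl_sdiff_compl, Zt_congr (ty_compl c hst), Zt_dual]

theorem MU_compl (c : Finset α → Lab) (S : Finset (Finset α)) (a b : Finset α → ℝ)
    {t v : Finset α} (hv : tᶜ ⊆ v) :
    MU (cc c) (S.image compl) (fun u => b uᶜ) (fun u => a uᶜ) tᶜ v = NU c S a b t vᶜ := by
  unfold MU NU
  rw [sum_filter_compl S (fun t => v ⊆ t)]
  have hf : S.filter (fun s => v ⊆ sᶜ) = S.filter (fun s => s ⊆ vᶜ) := by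
    refine filter_congr fun s _ => ?_
    exact le_compl_comm
  rw [hf]
  refine sum_congr rfl fun s hs => ?_
  rw [mem_filter] at hs
  have hst : s ⊆ t := by
    have : vᶜ ⊆ t := by
      intro y hy
      rw [mem_compl] at hy
      by_contra hyt
      exact hy (hv (mem_compl.2 hyt))
    exact hs.2.trans this
  rw [Zt_compl c hst]
  simp only [compl_compl]
  ring

theorem NU_compl (c : Finset α → Lab) (T : Finset (Finset α)) (a b : Finset α → ℝ)
    {s v : Finset α} (hv : v ⊆ sᶜ) :
    NU (cc c) (T.image compl) (fun u => b uᶜ) (fun u => a uᶜ) sᶜ v = MU c T a b s vᶜ := by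
  unfold MU NU
  rw [sum_filter_compl T (fun t => t ⊆ v)]
  have hf : T.filter (fun t => tᶜ ⊆ v) = T.filter (fun t => vᶜ ⊆ t) := by
    refine filter_congr fun s _ => ?_
    exact compl_le_iff_compl_le
  rw [hf]
  refine sum_congr rfl fun t ht => ?_
  rw [mem_filter] at ht
  have hst : s ⊆ t := by
    have : s ⊆ vᶜ := by
      intro y hy
      rw [mem_compl]
      intro hyv
      exact (mem_compl.1 (hv hyv)) hy
    exact this.trans ht.2
  rw [Zt_compl c hst]
  simp only [compl_compl]
  ring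

theorem sum_pairs_compl (S T : Finset (Finset α)) (F : Finset α → Finset α → ℝ) :
    ∑ s ∈ T.image compl, ∑ t ∈ (S.image compl).filter (fun t => s ⊆ t), F s t =
      ∑ s ∈ S, ∑ t ∈ T.filter (fun t => s ⊆ t), F tᶜ sᶜ := by
  rw [sum_image compl_injective.injOn]
  have h1 : ∀ t ∈ T, (∑ s ∈ (S.image compl).filter (fun s => tᶜ ⊆ s), F tᶜ s) =
      ∑ s ∈ S, if s ⊆ t then F tᶜ sᶜ else 0 := by
    intro t _
    rw [sum_filter_compl S (fun s => tᶜ ⊆ s), ← sum_filter]
    refine sum_congr (filter_congr fun s _ => ?_) fun _ _ => rfl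
    exact compl_le_compl_iff_le
  rw [sum_congr rfl h1, sum_comm]
  refine sum_congr rfl fun s _ => ?_
  rw [sum_filter]

theorem net_compl {c : Finset α → Lab} {i j : ℕ} {S T : Finset (Finset α)} {a b : Finset α → ℝ}
    (hN : Net c i j S T a b) (hj : j ≤ Fintype.card α) :
    Net (cc c) (Fintype.card α - j) (Fintype.card α - i) (T.image compl) (S.image compl)
      (fun u => b uᶜ) (fun u => a uᶜ) := by
  have hij := hN.hij
  refine ⟨by omega, ?_, ?_, ?_, ?_, ?_, ?_⟩
  · intro s hs
    obtain ⟨t, ht, rfl⟩ := mem_image.1 hs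
    rw [card_compl, hN.cT t ht]
  · intro s hs
    obtain ⟨t, ht, rfl⟩ := mem_image.1 hs
    rw [card_compl, hN.cS t ht]
  · intro s hs
    obtain ⟨t, ht, rfl⟩ := mem_image.1 hs
    unfold cc
    rw [compl_compl, hN.lT t ht]
    rfl
  · intro s hs
    obtain ⟨t, ht, rfl⟩ := mem_image.1 hs
    unfold cc
    rw [compl_compl, hN.lS t ht]
    rfl
  · intro s hs
    obtain ⟨t, ht, rfl⟩ := mem_image.1 hs
    simp only [compl_compl]
    exact hN.pb t ht
  · intro s hs
    obtain ⟨t, ht, rfl⟩ := mem_image.1 hs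
    simp only [compl_compl]
    exact hN.pa t ht

theorem ins_compl {v : Finset α} {x : α} (hx : x ∉ v) : insert x (insert x v)ᶜ = vᶜ := by
  ext y
  simp only [mem_insert, mem_compl, not_or]
  by_cases h : y = x
  · subst h; simp [hx]
  · simp [h]

theorem mem_Mid_compl {i j : ℕ} (hij : i < j) (hj : j ≤ Fintype.card α) (v : Finset α) :
    vᶜ ∈ Mid (Fintype.card α - j) (Fintype.card α - i) ↔ v ∈ Mid i j := by
  rw [mem_Mid, mem_Mid, card_compl]
  have := card_le_univ v
  omega

theorem mem_im_compl {S : Finset (Finset α)} {v : Finset α} : vᶜ ∈ S.image compl ↔ v ∈ S := by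
  constructor
  · intro h
    obtain ⟨t, ht, he⟩ := mem_image.1 h
    rw [compl_inj_iff] at he
    rwa [← he]
  · exact fun h => mem_image_of_mem _ h

/-- Reindexing of the cut edges. -/
theorem sum_netE_compl {c : Finset α → Lab} {i j : ℕ} {S T : Finset (Finset α)}
    (hij : i < j) (hj : j ≤ Fintype.card α) (F : Finset α → α → ℝ) :
    ∑ e ∈ netE (cc c) (Fintype.card α - j) (Fintype.card α - i) (T.image compl) (S.image compl),
      F e.1 e.2 =
    ∑ e ∈ netE c i j S T, F (insert e.2 e.1)ᶜ e.2 := by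
  have hmem : ∀ (v : Finset α) (x : α), x ∉ v →
      (((insert x v)ᶜ, x) ∈ netE (cc c) (Fintype.card α - j) (Fintype.card α - i)
        (T.image compl) (S.image compl) ↔ (v, x) ∈ netE c i j S T) := by
    intro v x hx
    simp only [netE, mem_filter, mem_univ, true_and]
    rw [ins_compl hx, mem_im_compl, mem_im_compl, mem_Mid_compl hij hj, mem_Mid_compl hij hj]
    unfold cc
    rw [compl_compl, compl_compl, flip_eq_A, flip_eq_B]
    have hx2 : x ∉ (insert x v)ᶜ := by
      rw [mem_compl, not_not]; exact mem_insert_self _ _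
    tauto
  symm
  refine sum_bij' (fun e _ => ((insert e.2 e.1)ᶜ, e.2)) (fun e _ => ((insert e.2 e.1)ᶜ, e.2))
    ?_ ?_ ?_ ?_ ?_
  · rintro ⟨v, x⟩ h
    have hx : x ∉ v := by
      simp only [netE, mem_filter] at h; exact h.2.1
    exact (hmem v x hx).2 h
  · rintro ⟨v, x⟩ h
    have hx : x ∉ v := by
      simp only [netE, mem_filter] at h; exact h.2.1
    have hx2 : x ∉ (insert x v)ᶜ := by
      rw [mem_compl, not_not]; exact mem_insert_self _ _
    rw [← hmem _ x hx2]
    simp only [ins_compl hx, compl_compl]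
    exact h
  · rintro ⟨v, x⟩ h
    have hx : x ∉ v := by
      simp only [netE, mem_filter] at h; exact h.2.1
    simp only [ins_compl hx, compl_compl]
  · rintro ⟨v, x⟩ h
    have hx : x ∉ v := by
      simp only [netE, mem_filter] at h; exact h.2.1
    simp only [ins_compl hx, compl_compl]
  · rintro ⟨v, x⟩ h
    rfl

theorem sum_netX_compl {c : Finset α → Lab} {i j : ℕ}
    (hij : i < j) (hj : j ≤ Fintype.card α) (F : Finset α → ℝ) :
    ∑ v ∈ netX (cc c) (Fintype.card α - j) (Fintype.card α - i), F v =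
    ∑ v ∈ netX c i j, F vᶜ := by
  have hmem : ∀ (v : Finset α),
      (vᶜ ∈ netX (cc c) (Fintype.card α - j) (Fintype.card α - i) ↔ v ∈ netX c i j) := by
    intro v
    simp only [netX, mem_filter]
    rw [mem_Mid_compl hij hj]
    unfold cc
    rw [compl_compl, flip_eq_X]
  symm
  refine sum_bij' (fun v _ => vᶜ) (fun v _ => vᶜ) ?_ ?_ ?_ ?_ ?_
  · intro v h
    exact (hmem v).2 h
  · intro v h
    rw [← hmem, compl_compl]
    exact h
  · intro v _; exact compl_compl v
  · intro v _; exact compl_compl v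
  · intro v _; rfl

theorem WE_compl (c : Finset α → Lab) (S T : Finset (Finset α)) (a b : Finset α → ℝ)
    {v : Finset α} {x : α} (hx : x ∉ v) :
    WE (cc c) (T.image compl) (S.image compl) (fun u => b uᶜ) (fun u => a uᶜ) (insert x v)ᶜ x =
      WFE c S T a b v x := by
  unfold WE WFE
  rw [sum_filter_compl T (fun s => s ⊆ (insert x v)ᶜ)]
  have h1 : ∀ t ∈ T.filter (fun t => tᶜ ⊆ (insert x v)ᶜ),
      (∑ s ∈ (S.image compl).filter (fun s => insert x (insert x v)ᶜ ⊆ s),
        b tᶜᶜ * a sᶜ * yLe (ty (cc c) tᶜ) (s \ tᶜ) ((insert x v)ᶜ \ tᶜ) x) =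
      ∑ s ∈ S.filter (fun s => s ⊆ v), a s * b t * yFe (ty c s) (t \ s) (v \ s) x := by
    intro t ht
    rw [mem_filter] at ht
    have ht2 : insert x v ⊆ t := compl_le_compl_iff_le.1 ht.2
    rw [sum_filter_compl S (fun s => insert x (insert x v)ᶜ ⊆ s)]
    have hf : S.filter (fun s => insert x (insert x v)ᶜ ⊆ sᶜ) = S.filter (fun s => s ⊆ v) := by
      refine filter_congr fun s _ => ?_
      rw [ins_compl hx]
      exact compl_le_compl_iff_le
    rw [hf]
    refine sum_congr rfl fun s hs => ?_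
    rw [mem_filter] at hs
    have hxv : x ∉ s := fun h => hx (hs.2 h)
    have hst : s ⊆ t := hs.2.trans ((subset_insert _ _).trans ht2)
    have hvt : v \ s ⊆ t \ s := sdiff_subset_sdiff ((subset_insert _ _).trans ht2) (Subset.refl _)
    have hxm : x ∈ (t \ s) \ (v \ s) := by
      simp only [mem_sdiff, not_and, not_not]
      exact ⟨⟨ht2 (mem_insert_self _ _), hxv⟩, fun h => absurd h hx⟩
    have hset : (insert x v)ᶜ \ tᶜ = (t \ s) \ insert x (v \ s) := by
      ext y
      simp only [mem_sdiff, mem_compl, mem_insert, not_or, not_not, not_and]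
      constructor
      · rintro ⟨⟨h1, h2⟩, h3⟩
        exact ⟨⟨h3, fun h => h2 (hs.2 h)⟩, h1, fun h => absurd h h2⟩
      · rintro ⟨⟨h1, h2⟩, h3, h4⟩
        exact ⟨⟨h3, fun h => h2 (h4 h)⟩, h1⟩
    rw [compl_sdiff_compl, hset, compl_compl, compl_compl,
      yLe_congr (ty_compl c hst) sdiff_subset (mem_sdiff.1 hxm).1,
      yLe_dual hvt hxm]
    ring
  rw [sum_congr rfl h1, sum_comm]
  refine sum_congr rfl fun s _ => ?_
  refine sum_congr (filter_congr fun t _ => ?_) fun _ _ => rfl
  exact compl_le_compl_iff_le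

theorem WX_compl (c : Finset α → Lab) (S T : Finset (Finset α)) (a b : Finset α → ℝ)
    {v : Finset α} :
    WX (cc c) (T.image compl) (S.image compl) (fun u => b uᶜ) (fun u => a uᶜ) vᶜ =
      WFX c S T a b v := by
  unfold WX WFX
  rw [sum_filter_compl T (fun s => s ⊆ vᶜ)]
  have h1 : ∀ t ∈ T.filter (fun t => tᶜ ⊆ vᶜ),
      (∑ s ∈ (S.image compl).filter (fun s => vᶜ ⊆ s),
        b tᶜᶜ * a sᶜ * yLv (ty (cc c) tᶜ) (s \ tᶜ) (vᶜ \ tᶜ)) =
      ∑ s ∈ S.filter (fun s => s ⊆ v), a s * b t * yFv (ty c s) (t \ s) (v \ s) := by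
    intro t ht
    rw [mem_filter] at ht
    have ht2 : v ⊆ t := compl_le_compl_iff_le.1 ht.2
    rw [sum_filter_compl S (fun s => vᶜ ⊆ s)]
    have hf : S.filter (fun s => vᶜ ⊆ sᶜ) = S.filter (fun s => s ⊆ v) := by
      refine filter_congr fun s _ => ?_
      exact compl_le_compl_iff_le
    rw [hf]
    refine sum_congr rfl fun s hs => ?_
    rw [mem_filter] at hs
    have hst : s ⊆ t := hs.2.trans ht2
    have hvt : v \ s ⊆ t \ s := sdiff_subset_sdiff ht2 (Subset.refl _)
    have hset : vᶜ \ tᶜ = (t \ s) \ (v \ s) := by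
      ext y
      simp only [mem_sdiff, mem_compl, not_not, not_and]
      constructor
      · rintro ⟨h1, h3⟩
        exact ⟨⟨h3, fun h => h1 (hs.2 h)⟩, fun h => absurd h h1⟩
      · rintro ⟨⟨h1, h2⟩, h4⟩
        exact ⟨fun h => h2 (h4 h), h1⟩
    rw [compl_sdiff_compl, hset, compl_compl, compl_compl,
      yLv_congr (ty_compl c hst) sdiff_subset, yLv_dual hvt]
    ring
  rw [sum_congr rfl h1, sum_comm]
  refine sum_congr rfl fun s _ => ?_
  refine sum_congr (filter_congr fun t _ => ?_) fun _ _ => rfl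
  exact compl_le_compl_iff_le

end network

end FPARTAux

open FPARTAux in
theorem stmt_FPART (α : Type) [Fintype α] [DecidableEq α] (hLP : Stmt_LPART α) :
    Stmt_FPART α := by
  intro c i j S T a b hN
  by_cases hT : T = ∅
  · subst hT
    have e1 : ∀ v x, WFE c S ∅ a b v x = 0 := by
      intro v x; unfold WFE; simp
    have e2 : ∀ v, WFX c S ∅ a b v = 0 := by
      intro v; unfold WFX; simp
    simp [e1, e2]
  obtain ⟨t0, ht0⟩ := nonempty_iff_ne_empty.2 hT
  have hj : j ≤ Fintype.card α := by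
    rw [← hN.cT t0 ht0]; exact card_le_univ t0
  have hij := hN.hij
  have hmain := hLP (cc c) (Fintype.card α - j) (Fintype.card α - i) (T.image compl)
    (S.image compl) (fun u => b uᶜ) (fun u => a uᶜ) (net_compl hN hj)
  have hL : ∑ s ∈ T.image compl, ∑ t ∈ (S.image compl).filter (fun t => s ⊆ t),
      b sᶜ * a tᶜ * LV (ty (cc c) s) (t \ s)
        (fun X g => MU (cc c) (S.image compl) (fun u => b uᶜ) (fun u => a uᶜ) s (s ∪ insert g X) /
          MU (cc c) (S.image compl) (fun u => b uᶜ) (fun u => a uᶜ) s (s ∪ X))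
        (fun V => -Real.log (NU (cc c) (T.image compl) (fun u => b uᶜ) (fun u => a uᶜ) t
          (s ∪ V))) =
      ∑ s ∈ S, ∑ t ∈ T.filter (fun t => s ⊆ t), a s * b t *
        LV (dual (ty c s) (t \ s)) (t \ s)
          (fun U g => NU c S a b t (s ∪ ((t \ s) \ insert g U)) /
            NU c S a b t (s ∪ ((t \ s) \ U)))
          (fun U => -Real.log (MU c T a b s (s ∪ ((t \ s) \ U)))) := by
    rw [sum_pairs_compl S T]
    refine sum_congr rfl fun s _ => sum_congr rfl fun t ht => ?_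
    rw [mem_filter] at ht
    have hst := ht.2
    rw [compl_compl, compl_compl, compl_sdiff_compl, mul_comm (b t) (a s)]
    congr 1
    refine LV_congr (ty_compl c hst) ?_ ?_
    · intro X hX g hg
      rw [MU_compl c S a b subset_union_left, MU_compl c S a b subset_union_left,
        compl_un hst (insert_subset hg hX), compl_un hst hX]
    · intro V hV
      have : tᶜ ∪ V ⊆ sᶜ := by
        refine union_subset (compl_le_compl_iff_le.2 hst) ?_
        intro y hy
        exact mem_compl.2 (mem_sdiff.1 (hV hy)).2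
      rw [NU_compl c T a b this, compl_un hst hV]
  rw [hL] at hmain
  refine hmain.trans (le_of_eq ?_)
  have hc1 : ((Fintype.card α - j : ℕ) : ℝ) = (Fintype.card α : ℝ) - j := Nat.cast_sub hj
  have hc2 : ((Fintype.card α - i : ℕ) : ℝ) = (Fintype.card α : ℝ) - i :=
    Nat.cast_sub (by omega)
  have hE := sum_netE_compl (c := c) (S := S) (T := T) hij hj (fun v x =>
    WE (cc c) (T.image compl) (S.image compl) (fun u => b uᶜ) (fun u => a uᶜ) v x *
      Real.log (((v.card : ℝ) - (Fintype.card α - j : ℕ) + 1) /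
        (((Fintype.card α - i : ℕ) : ℝ) - (Fintype.card α - j : ℕ) + 1)) -
    WE (cc c) (T.image compl) (S.image compl) (fun u => b uᶜ) (fun u => a uᶜ) v x *
      Real.log (WE (cc c) (T.image compl) (S.image compl) (fun u => b uᶜ) (fun u => a uᶜ) v x))
  have hX := sum_netX_compl (c := c) hij hj (fun v =>
    WX (cc c) (T.image compl) (S.image compl) (fun u => b uᶜ) (fun u => a uᶜ) v *
      (Real.log (((Fintype.card α - i : ℕ) : ℝ) - (Fintype.card α - j : ℕ)) +
        Real.log (((v.card : ℝ) - (Fintype.card α - j : ℕ)) /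
        (((Fintype.card α - i : ℕ) : ℝ) - (Fintype.card α - j : ℕ)))) -
    WX (cc c) (T.image compl) (S.image compl) (fun u => b uᶜ) (fun u => a uᶜ) v *
      Real.log (WX (cc c) (T.image compl) (S.image compl) (fun u => b uᶜ) (fun u => a uᶜ) v))
  rw [hE, hX]
  congr 1
  · refine sum_congr rfl fun e he => ?_
    have hx : e.2 ∉ e.1 := by
      simp only [netE, mem_filter] at he; exact he.2.1
    have hcard : (((insert e.2 e.1)ᶜ.card : ℕ) : ℝ) = (Fintype.card α : ℝ) - (e.1.card + 1) := by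
      rw [card_compl, Nat.cast_sub (card_le_univ _), card_insert_of_notMem hx]
      push_cast
      ring
    rw [WE_compl c S T a b hx, hcard, hc1, hc2]
    have r1 : (Fintype.card α : ℝ) - (e.1.card + 1) - (Fintype.card α - j) + 1 =
        (j : ℝ) - e.1.card := by ring
    have r2 : (Fintype.card α : ℝ) - i - (Fintype.card α - j) + 1 = (j : ℝ) - i + 1 := by ring
    rw [r1, r2]
  · refine sum_congr rfl fun v hv => ?_
    have hcard : ((vᶜ.card : ℕ) : ℝ) = (Fintype.card α : ℝ) - v.card := by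
      rw [card_compl, Nat.cast_sub (card_le_univ _)]
    rw [WX_compl c S T a b, hcard, hc1, hc2]
    have r1 : (Fintype.card α : ℝ) - v.card - (Fintype.card α - j) = (j : ℝ) - v.card := by ring
    have r2 : (Fintype.card α : ℝ) - i - (Fintype.card α - j) = (j : ℝ) - i := by ring
    rw [r1, r2]

end R5
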