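import Pool.Agent.Work.MP_8b6acb_cap.Interface

/-! Block GIBBS: the Gibbs inequality. -/

namespace R5

open Finset

theorem stmt_GIBBS : Stmt_GIBBS := by
  intro ι K w c hw hc hwc
  have hW0 : 0 ≤ ∑ k ∈ K, w k := sum_nonneg hw
  have hC0 : 0 ≤ ∑ k ∈ K, c k := sum_nonneg hc
  rcases eq_or_lt_of_le hW0 with hW | hW
  · have h0 : ∀ k ∈ K, w k = 0 := (sum_eq_zero_iff_of_nonneg hw).1 hW.symm
    rw [← hW, zero_mul]
    refine le_of_eq (sum_eq_zero fun k hk => ?_)
    rw [h0 k hk, zero_mul]
  · obtain ⟨k0, hk0, hk0'⟩ : ∃ k ∈ K, 0 < w k := by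
      by_contra h
      push Not at h
      exact absurd (sum_nonpos h) (not_le.2 hW)
    have hC : 0 < ∑ k ∈ K, c k :=
      lt_of_lt_of_le (hwc k0 hk0 hk0') (single_le_sum hc hk0)
    set W := ∑ k ∈ K, w k with hWd
    set C := ∑ k ∈ K, c k with hCd
    have hterm : ∀ k ∈ K, w k * Real.log (c k / w k) ≤ w k * Real.log (C / W) +
        (c k * (W / C) - w k) := by
      intro k hk
      rcases eq_or_lt_of_le (hw k hk) with h | h
      · rw [← h, zero_mul, zero_mul, zero_add, sub_zero]
        exact mul_nonneg (hc k hk) (div_nonneg hW0 hC0)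
      · have hck := hwc k hk h
        have h1 : Real.log (c k / w k) - Real.log (C / W) =
            Real.log (c k / w k / (C / W)) := by
          rw [Real.log_div (div_pos hck h).ne' (div_pos hC hW).ne']
        have h2 : Real.log (c k / w k / (C / W)) ≤ c k / w k / (C / W) - 1 :=
          Real.log_le_sub_one_of_pos (div_pos (div_pos hck h) (div_pos hC hW))
        have h3 : w k * (c k / w k / (C / W) - 1) = c k * (W / C) - w k := by
          field_simp
        have h4 := mul_le_mul_of_nonneg_left (h1 ▸ h2) h.le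
        rw [h3] at h4
        linarith
    calc ∑ k ∈ K, w k * Real.log (c k / w k)
        ≤ ∑ k ∈ K, (w k * Real.log (C / W) + (c k * (W / C) - w k)) := sum_le_sum hterm
      _ = W * Real.log (C / W) + (C * (W / C) - W) := by
          rw [sum_add_distrib, sum_sub_distrib, ← sum_mul, ← sum_mul]
      _ = W * Real.log (C / W) := by
          field_simp
          ring

end R5
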