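import Pool.Agent.Work.MP_8b6acb_cap.Interface

namespace R5

open Finset

variable {α : Type} [DecidableEq α]

/-- The term of one set in `GMASS`. -/
theorem gmass_term (τ : Finset α → Lab) (D : Finset α) (G : Finset α → ℝ) {V : Finset α}
    (hV : V ⊆ D) (hne : V ≠ D) :
    (∑ x ∈ D \ V, if isE τ V x then
      G V * bw τ D (insert x V) / ((D.card.choose V.card : ℝ) * ((D.card : ℝ) - V.card)) else 0) +
    (if τ V = Lab.X then G V * bwb τ D V / (D.card.choose V.card : ℝ) else 0) =
    G V * bwb τ D V / (D.card.choose V.card : ℝ) - G V * bw τ D V / (D.card.choose V.card : ℝ) := by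
  have hlt : V.card < D.card := card_lt_card (ssubset_of_subset_of_ne hV hne)
  have hpos : (0 : ℝ) < (D.card : ℝ) - V.card := by
    have : (V.card : ℝ) < D.card := by exact_mod_cast hlt
    linarith
  by_cases hA : τ V = Lab.A
  · have hX : τ V ≠ Lab.X := by rw [hA]; exact fun h => Lab.noConfusion h
    have hB : τ V ≠ Lab.B := by rw [hA]; exact fun h => Lab.noConfusion h
    rw [if_neg hX, bw_of_ne hV hB, mul_zero, zero_div, sub_zero, add_zero]
    unfold bwb
    rw [card_sdiff_cast hV, mul_div_assoc', div_div, mul_sum, sum_div]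
    refine sum_congr rfl fun x hx => ?_
    have hx' := mem_sdiff.1 hx
    by_cases hE : isE τ V x
    · rw [if_pos hE, mul_comm (D.card.choose V.card : ℝ)]
    · rw [if_neg hE]
      have : τ (insert x V) ≠ Lab.B := fun h => hE ⟨hA, h⟩
      rw [bw_of_ne (insert_subset hx'.1 hV) this, mul_zero, zero_div]
  · have hE : ∀ x, ¬ isE τ V x := fun x h => hA h.1
    simp only [hE, if_false, sum_const_zero, zero_add]
    by_cases hX : τ V = Lab.X
    · have hB : τ V ≠ Lab.B := by rw [hX]; exact fun h => Lab.noConfusion h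
      rw [if_pos hX, bw_of_ne hV hB, mul_zero, zero_div, sub_zero]
    · have hB : τ V = Lab.B := by
        cases h : τ V with
        | A => exact absurd h hA
        | B => rfl
        | X => exact absurd h hX
      rw [if_neg hX, bw_rec hV hne, if_pos hB, sub_self]

theorem gmass_up (τ : Finset α → Lab) (D : Finset α) (G : Finset α → ℝ)
    (h0 : τ ∅ = Lab.A)
    (hG : ∀ Y ⊆ D, Y ≠ ∅ → τ Y = Lab.B → G Y = (∑ x ∈ Y, G (Y.erase x)) / (Y.card : ℝ)) :
    ∑ V ∈ D.powerset.erase D, G V * bwb τ D V / (D.card.choose V.card : ℝ) =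
    ∑ U ∈ D.powerset, G U * bw τ D U / (D.card.choose U.card : ℝ) := by
  have h1 : ∑ V ∈ D.powerset.erase D, G V * bwb τ D V / (D.card.choose V.card : ℝ) =
      ∑ V ∈ D.powerset, ∑ x ∈ D \ V,
        G V * bw τ D (insert x V) / ((D.card.choose V.card : ℝ) * ((D.card : ℝ) - V.card)) := by
    rw [← add_sum_erase D.powerset (fun V => ∑ x ∈ D \ V,
        G V * bw τ D (insert x V) / ((D.card.choose V.card : ℝ) * ((D.card : ℝ) - V.card)))
        (mem_powerset_self D)]
    simp only [sdiff_self, bot_eq_empty, sum_empty, zero_add]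
    refine sum_congr rfl fun V hV => ?_
    rw [mem_erase, mem_powerset] at hV
    unfold bwb
    rw [card_sdiff_cast hV.2, mul_div_assoc', div_div, mul_sum, sum_div]
    refine sum_congr rfl fun x _ => ?_
    rw [mul_comm (D.card.choose V.card : ℝ)]
  rw [h1, sum_up_down D (fun V x => G V * bw τ D (insert x V) /
    ((D.card.choose V.card : ℝ) * ((D.card : ℝ) - V.card)))]
  refine sum_congr rfl fun U hU => ?_
  rw [mem_powerset] at hU
  by_cases hU0 : U = ∅
  · subst hU0
    rw [sum_empty, bw_of_ne (empty_subset D) (by rw [h0]; exact fun h => Lab.noConfusion h),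
      mul_zero, zero_div]
  have hc : (0 : ℝ) < U.card := by
    rw [Nat.cast_pos, card_pos]; exact nonempty_iff_ne_empty.2 hU0
  have hcn : 0 < U.card := by rw [card_pos]; exact nonempty_iff_ne_empty.2 hU0
  by_cases hB : τ U = Lab.B
  · rw [hG U hU hU0 hB, sum_div, sum_mul, sum_div]
    refine sum_congr rfl fun x hx => ?_
    rw [insert_erase hx, card_erase_of_mem hx]
    have hle : U.card ≤ D.card := card_le_card hU
    have h2 := choose_up (l := D.card) (k := U.card - 1) (by omega)
    rw [Nat.sub_add_cancel (by omega : 1 ≤ U.card)] at h2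
    have h3 : ((U.card - 1 : ℕ) : ℝ) = (U.card : ℝ) - 1 := by
      rw [Nat.cast_sub (by omega)]; simp
    rw [h2, h3, sub_add_cancel, div_mul_eq_mul_div, div_div, mul_comm (U.card : ℝ)]
  · rw [bw_of_ne hU hB, mul_zero, zero_div]
    refine sum_eq_zero fun x hx => ?_
    rw [insert_erase hx, bw_of_ne hU hB, mul_zero, zero_div]

theorem stmt_GMASS : Stmt_GMASS α := by
  intro τ D G h0 hD hG
  rw [← sum_add_distrib]
  rw [← add_sum_erase D.powerset (fun V => (∑ x ∈ D \ V, if isE τ V x then
      G V * bw τ D (insert x V) / ((D.card.choose V.card : ℝ) * ((D.card : ℝ) - V.card)) else 0) +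
      (if τ V = Lab.X then G V * bwb τ D V / (D.card.choose V.card : ℝ) else 0))
      (mem_powerset_self D)]
  have hX : τ D ≠ Lab.X := by rw [hD]; exact fun h => Lab.noConfusion h
  simp only [sdiff_self, bot_eq_empty, sum_empty, zero_add, if_neg hX]
  have e1 : ∑ V ∈ D.powerset.erase D, ((∑ x ∈ D \ V, if isE τ V x then
      G V * bw τ D (insert x V) / ((D.card.choose V.card : ℝ) * ((D.card : ℝ) - V.card)) else 0) +
      (if τ V = Lab.X then G V * bwb τ D V / (D.card.choose V.card : ℝ) else 0)) =
      ∑ V ∈ D.powerset.erase D, (G V * bwb τ D V / (D.card.choose V.card : ℝ) -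
        G V * bw τ D V / (D.card.choose V.card : ℝ)) := by
    refine sum_congr rfl fun V hV => ?_
    rw [mem_erase, mem_powerset] at hV
    exact gmass_term τ D G hV.2 hV.1
  rw [e1, sum_sub_distrib, gmass_up τ D G h0 hG,
    ← add_sum_erase D.powerset (fun U => G U * bw τ D U / (D.card.choose U.card : ℝ))
      (mem_powerset_self D), bw_top, if_pos hD, Nat.choose_self]
  simp

end R5
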