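import Pool.Agent.Work.MP_8b6acb_cap.Interface

namespace R5

open Finset

theorem inf_key (n ρ : ℝ) (hn : 2 ≤ n) (h0 : 0 < ρ) (h1 : ρ ≤ 1) :
    (n - 1) * (Real.log (n - ρ) - Real.log (n - 1)) ≤ -Real.log ρ := by
  have hn1 : (0 : ℝ) < n - 1 := by linarith
  have hnr : (0 : ℝ) < n - ρ := by linarith
  have a1 : Real.log ρ ≤ ρ - 1 := Real.log_le_sub_one_of_pos h0
  have a2 : Real.log ((n - ρ) / (n - 1)) ≤ (n - ρ) / (n - 1) - 1 :=
    Real.log_le_sub_one_of_pos (div_pos hnr hn1)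
  rw [Real.log_div hnr.ne' hn1.ne'] at a2
  have a3 : (n - 1) * (Real.log (n - ρ) - Real.log (n - 1)) ≤ (n - 1) * ((n - ρ) / (n - 1) - 1) :=
    mul_le_mul_of_nonneg_left a2 hn1.le
  have a4 : (n - 1) * ((n - ρ) / (n - 1) - 1) = 1 - ρ := by
    field_simp
    ring
  linarith

theorem stmt_INF : Stmt_INF := by
  intro n p q ρ hn hp hq hq1 h0 h1
  have hlr : 0 ≤ -Real.log ρ := by
    have := Real.log_nonpos h0.le h1
    linarith
  rcases Nat.lt_or_ge 1 n with h2 | h2
  · have hn2 : (2 : ℝ) ≤ (n : ℝ) := by exact_mod_cast h2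
    have hnpos : (0 : ℝ) < n := by linarith
    have hn1 : (0 : ℝ) < (n : ℝ) - 1 := by linarith
    have hnr : (0 : ℝ) < (n : ℝ) - ρ := by linarith
    have key := inf_key n ρ hn2 h0 h1
    have e1 : Real.log (1 - ρ / (n : ℝ)) = Real.log ((n : ℝ) - ρ) - Real.log n := by
      rw [← Real.log_div hnr.ne' hnpos.ne']
      congr 1
      field_simp
    have e2 : lamn n = Real.log n - Real.log ((n : ℝ) - 1) := by
      unfold lamn
      rw [Real.log_div hnpos.ne' hn1.ne']
    have hmono : 0 ≤ -Real.log (1 - ρ / (n : ℝ)) := by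
      rw [e1]
      have := Real.log_le_log hnr (by linarith : (n : ℝ) - ρ ≤ n)
      linarith
    set m := min (((n : ℝ) - 1) * p) q with hm
    have hm0 : 0 ≤ m := le_min (mul_nonneg hn1.le hp) hq
    have hmp : m / ((n : ℝ) - 1) ≤ p := by
      rw [div_le_iff₀ hn1, mul_comm]
      exact min_le_left _ _
    have hmq : m ≤ q := min_le_right _ _
    have b1 : m / ((n : ℝ) - 1) * (-Real.log ρ) ≤ p * (-Real.log ρ) :=
      mul_le_mul_of_nonneg_right hmp hlr
    have b2 : m * (-Real.log (1 - ρ / (n : ℝ))) ≤ q * (-Real.log (1 - ρ / (n : ℝ))) :=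
      mul_le_mul_of_nonneg_right hmq hmono
    have b3 : m / ((n : ℝ) - 1) * (((n : ℝ) - 1) * (Real.log (n - ρ) - Real.log (n - 1))) ≤
        m / ((n : ℝ) - 1) * (-Real.log ρ) :=
      mul_le_mul_of_nonneg_left key (div_nonneg hm0 hn1.le)
    have b4 : m / ((n : ℝ) - 1) * (((n : ℝ) - 1) * (Real.log (n - ρ) - Real.log (n - 1))) =
        m * (Real.log (n - ρ) - Real.log (n - 1)) := by
      field_simp
    rw [b4] at b3
    rw [e2]
    rw [e1] at b2 ⊢
    nlinarith [b1, b2, b3]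
  · have hn1 : n = 1 := le_antisymm h2 hn
    have hq0 := hq1 hn1
    subst hn1
    subst hq0
    have : lamn 1 = 0 := by simp [lamn]
    rw [this, zero_mul, zero_mul, add_zero]
    exact mul_nonneg hp hlr

end R5
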