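import Pool.Agent.Work.MP_8b6acb_cap.Interface

/-! Block KONE: the sequential kernel is a sub-probability. -/

namespace R5

open Finset

variable {α : Type} [DecidableEq α]

theorem seqk_sum_step (B : Finset α) (r : ℕ) (F : α → Finset α → ℝ) :
    ∑ R ∈ powersetCard (r + 1) B, ∑ g ∈ R, F g (R.erase g) =
      ∑ g ∈ B, ∑ R ∈ powersetCard r (B.erase g), F g R := by
  rw [sum_sigma', sum_sigma']
  refine sum_bij' (fun p _ => (⟨p.2, p.1.erase p.2⟩ : (_ : α) × Finset α))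
    (fun p _ => (⟨insert p.1 p.2, p.1⟩ : (_ : Finset α) × α)) ?_ ?_ ?_ ?_ ?_
  · rintro ⟨R, g⟩ h
    simp only [mem_sigma, mem_powersetCard] at h ⊢
    refine ⟨h.1.1 h.2, erase_subset_erase _ h.1.1, ?_⟩
    rw [card_erase_of_mem h.2, h.1.2]
    rfl
  · rintro ⟨g, R⟩ h
    simp only [mem_sigma, mem_powersetCard] at h ⊢
    have hg : g ∉ R := fun hh => notMem_erase g B (h.2.1 hh)
    refine ⟨⟨insert_subset h.1 (h.2.1.trans (erase_subset _ _)), ?_⟩, mem_insert_self _ _⟩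
    rw [card_insert_of_notMem hg, h.2.2]
  · rintro ⟨R, g⟩ h
    simp only [mem_sigma, mem_powersetCard] at h
    simp only [insert_erase h.2]
  · rintro ⟨g, R⟩ h
    simp only [mem_sigma, mem_powersetCard] at h
    have hg : g ∉ R := fun hh => notMem_erase g B (h.2.1 hh)
    simp only [erase_insert hg]
  · rintro ⟨R, g⟩ _
    rfl

theorem stmt_KONE : Stmt_KONE α := by
  intro ρ G U r hρ hU
  induction r generalizing U with
  | zero =>
    rw [powersetCard_zero, sum_singleton]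
    simp [seqk]
  | succ r ih =>
    have h1 : ∑ R ∈ powersetCard (r + 1) (G \ U), seqk ρ (∑ g ∈ G, ρ g) (r + 1) U R =
        ∑ g ∈ G \ U, (ρ g / (∑ g ∈ G, ρ g - ∑ h ∈ U, ρ h)) *
          ∑ R ∈ powersetCard r (G \ insert g U), seqk ρ (∑ g ∈ G, ρ g) r (insert g U) R := by
      have h2 := seqk_sum_step (G \ U) r (fun g R => ρ g / (∑ g ∈ G, ρ g - ∑ h ∈ U, ρ h) *
        seqk ρ (∑ g ∈ G, ρ g) r (insert g U) R)
      simp only [seqk]
      rw [h2]
      refine sum_congr rfl fun g _ => ?_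
      rw [sdiff_erase_eq, mul_sum]
    have h0 : 0 ≤ ∑ g ∈ G, ρ g - ∑ h ∈ U, ρ h := by
      have := sum_le_sum_of_subset_of_nonneg (f := ρ) hU (fun g hg _ => hρ g hg)
      linarith
    rw [h1]
    calc ∑ g ∈ G \ U, (ρ g / (∑ g ∈ G, ρ g - ∑ h ∈ U, ρ h)) *
          ∑ R ∈ powersetCard r (G \ insert g U), seqk ρ (∑ g ∈ G, ρ g) r (insert g U) R
        ≤ ∑ g ∈ G \ U, (ρ g / (∑ g ∈ G, ρ g - ∑ h ∈ U, ρ h)) * 1 := by
          refine sum_le_sum fun g hg => ?_
          rw [mem_sdiff] at hg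
          exact mul_le_mul_of_nonneg_left (ih (insert g U) (insert_subset hg.1 hU))
            (div_nonneg (hρ g hg.1) h0)
      _ = (∑ g ∈ G, ρ g - ∑ h ∈ U, ρ h) / (∑ g ∈ G, ρ g - ∑ h ∈ U, ρ h) := by
          simp only [mul_one]
          rw [← sum_div, ← sum_sdiff hU]
          ring_nf
      _ ≤ 1 := div_self_le_one _

end R5
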