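import Pool.Agent.Work.MP_8b6acb_cap.Interface

/-!
# Block KTWO: lower bound for the sequential kernel
-/

namespace R5

open Finset

namespace KTwoAux

variable {α : Type} [DecidableEq α]

/-- Weierstrass inequality in logarithmic form. -/
theorem log_sub_sum_le (ρ : α → ℝ) (n : ℝ) (hn : 0 < n) (U : Finset α) :
    (∀ g ∈ U, 0 < ρ g) → ∑ g ∈ U, ρ g < n →
    Real.log (n - ∑ h ∈ U, ρ h) ≤ Real.log n + ∑ g ∈ U, Real.log (1 - ρ g / n) := by
  classical
  induction U using Finset.induction_on with
  | empty => intro _ _; simp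
  | @insert g U hg ih =>
    intro hp hs
    rw [Finset.sum_insert hg] at hs
    have hpU : ∀ h ∈ U, 0 < ρ h := fun h hh => hp h (mem_insert_of_mem hh)
    have hgp : 0 < ρ g := hp g (mem_insert_self g U)
    have hsU : ∑ h ∈ U, ρ h < n := by linarith
    have h0 : 0 ≤ ∑ h ∈ U, ρ h := sum_nonneg fun h hh => (hpU h hh).le
    have ih' := ih hpU hsU
    rw [Finset.sum_insert hg, Finset.sum_insert hg]
    have hgn : ρ g < n := by linarith
    have h1 : 0 < 1 - ρ g / n := by
      rw [sub_pos, div_lt_one hn]; exact hgn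
    have h2 : n - (ρ g + ∑ h ∈ U, ρ h) ≤ (n - ∑ h ∈ U, ρ h) * (1 - ρ g / n) := by
      have h3 : (n - ∑ h ∈ U, ρ h) * (ρ g / n) ≤ ρ g := by
        rw [← mul_div_assoc, div_le_iff₀ hn]
        nlinarith
      nlinarith
    have h4 : Real.log (n - (ρ g + ∑ h ∈ U, ρ h)) ≤
        Real.log ((n - ∑ h ∈ U, ρ h) * (1 - ρ g / n)) :=
      Real.log_le_log (by linarith) h2
    rw [Real.log_mul (by linarith) h1.ne'] at h4
    linarith

/-- Jensen for the logarithm. -/
theorem log_sum_ge {ι : Type} (K : Finset ι) (a : ι → ℝ) (hK : K.Nonempty)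
    (ha : ∀ k ∈ K, 0 < a k) :
    (K.card : ℝ) * Real.log (K.card : ℝ) + ∑ k ∈ K, Real.log (a k) ≤
      (K.card : ℝ) * Real.log (∑ k ∈ K, a k) := by
  have hc : (0 : ℝ) < (K.card : ℝ) := by exact_mod_cast hK.card_pos
  have hs : 0 < ∑ k ∈ K, a k := sum_pos ha hK
  have h1 : ∀ k ∈ K, Real.log (a k) ≤
      Real.log (∑ k ∈ K, a k) - Real.log (K.card : ℝ) +
        ((K.card : ℝ) * a k / (∑ k ∈ K, a k) - 1) := by
    intro k hk
    have h2 := Real.log_le_sub_one_of_pos (x := (K.card : ℝ) * a k / (∑ k ∈ K, a k))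
      (by have := ha k hk; positivity)
    rw [Real.log_div (by have := ha k hk; positivity) hs.ne',
      Real.log_mul hc.ne' (ha k hk).ne'] at h2
    linarith
  have h3 := sum_le_sum h1
  rw [sum_add_distrib, sum_sub_distrib, sum_const, sum_const, sum_sub_distrib, sum_const,
    nsmul_eq_mul, nsmul_eq_mul, nsmul_eq_mul, ← sum_div, ← mul_sum,
    mul_div_assoc, div_self hs.ne'] at h3
  linarith

end KTwoAux

open KTwoAux

theorem stmt_KTWO (α : Type) [DecidableEq α] : Stmt_KTWO α := by
  intro ρ n U R hd hp hn hs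
  obtain ⟨r, hr⟩ : ∃ r, R.card = r := ⟨_, rfl⟩
  rw [hr]
  induction r generalizing U R with
  | zero =>
    rw [card_eq_zero] at hr
    subst hr
    simp [seqk]
  | succ r ih =>
    have hRne : R.Nonempty := by rw [← card_pos, hr]; omega
    have hRpos : 0 < ∑ g ∈ R, ρ g := sum_pos (fun g hg => hp g (mem_union_right _ hg)) hRne
    rw [sum_union hd] at hs
    have hU : ∑ g ∈ U, ρ g < n := by linarith
    have hUpos : 0 < n - ∑ h ∈ U, ρ h := by linarith
    have key : ∀ g ∈ R, 0 < seqk ρ n r (insert g U) (R.erase g) ∧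
        Real.log (r.factorial : ℝ) - (r : ℝ) * Real.log n +
          (∑ h ∈ R.erase g, Real.log (ρ h)) +
          (r : ℝ) * (∑ h ∈ insert g U, -Real.log (1 - ρ h / n)) +
          (((r : ℝ) - 1) / 2) * (∑ h ∈ R.erase g, -Real.log (1 - ρ h / n)) ≤
        Real.log (seqk ρ n r (insert g U) (R.erase g)) := by
      intro g hg
      have hgU : g ∉ U := fun h => disjoint_left.1 hd h hg
      have hun : insert g U ∪ R.erase g = U ∪ R := by
        ext h
        simp only [mem_union, mem_insert, mem_erase]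
        constructor
        · rintro ((rfl | h1) | ⟨_, h2⟩)
          · exact Or.inr hg
          · exact Or.inl h1
          · exact Or.inr h2
        · rintro (h1 | h1)
          · exact Or.inl (Or.inr h1)
          · by_cases h2 : h = g
            · exact Or.inl (Or.inl h2)
            · exact Or.inr ⟨h2, h1⟩
      have hd' : Disjoint (insert g U) (R.erase g) := by
        rw [disjoint_left]
        intro h h1 h2
        rw [mem_erase] at h2
        rcases mem_insert.1 h1 with h3 | h3
        · exact h2.1 h3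
        · exact disjoint_left.1 hd h3 h2.2
      refine ih (insert g U) (R.erase g) hd' (by rw [hun]; exact hp) ?_ ?_
      · rw [hun, sum_union hd]; exact hs
      · rw [card_erase_of_mem hg, hr]; rfl
    have hpos : ∀ g ∈ R, 0 < ρ g / (n - ∑ h ∈ U, ρ h) * seqk ρ n r (insert g U) (R.erase g) := by
      intro g hg
      exact mul_pos (div_pos (hp g (mem_union_right _ hg)) hUpos) (key g hg).1
    have hseq : seqk ρ n (r + 1) U R = ∑ g ∈ R, ρ g / (n - ∑ h ∈ U, ρ h) *
        seqk ρ n r (insert g U) (R.erase g) := rfl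
    refine ⟨by rw [hseq]; exact sum_pos hpos hRne, ?_⟩
    rw [hseq]
    have hJ := log_sum_ge R (fun g => ρ g / (n - ∑ h ∈ U, ρ h) *
        seqk ρ n r (insert g U) (R.erase g)) hRne hpos
    have hW := log_sub_sum_le ρ n hn U (fun g hg => hp g (mem_union_left _ hg)) hU
    -- lower bound for each term
    have hterm : ∀ g ∈ R, Real.log (ρ g) - Real.log n - (∑ h ∈ U, Real.log (1 - ρ h / n)) +
        (Real.log (r.factorial : ℝ) - (r : ℝ) * Real.log n +
          ((∑ h ∈ R, Real.log (ρ h)) - Real.log (ρ g)) +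
          (r : ℝ) * (-Real.log (1 - ρ g / n) + ∑ h ∈ U, -Real.log (1 - ρ h / n)) +
          (((r : ℝ) - 1) / 2) * ((∑ h ∈ R, -Real.log (1 - ρ h / n)) - -Real.log (1 - ρ g / n))) ≤
        Real.log (ρ g / (n - ∑ h ∈ U, ρ h) * seqk ρ n r (insert g U) (R.erase g)) := by
      intro g hg
      have hgU : g ∉ U := fun h => disjoint_left.1 hd h hg
      have h1 := (key g hg).2
      rw [sum_insert hgU] at h1
      have h2 : ∑ h ∈ R.erase g, Real.log (ρ h) = (∑ h ∈ R, Real.log (ρ h)) - Real.log (ρ g) := by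
        rw [← add_sum_erase R (fun h => Real.log (ρ h)) hg]; ring
      have h3 : ∑ h ∈ R.erase g, -Real.log (1 - ρ h / n) =
          (∑ h ∈ R, -Real.log (1 - ρ h / n)) - -Real.log (1 - ρ g / n) := by
        rw [← add_sum_erase R (fun h => -Real.log (1 - ρ h / n)) hg]; ring
      rw [h2, h3] at h1
      rw [Real.log_mul (div_pos (hp g (mem_union_right _ hg)) hUpos).ne' (key g hg).1.ne',
        Real.log_div (hp g (mem_union_right _ hg)).ne' hUpos.ne']
      linarith
    have hsum := sum_le_sum hterm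
    have hcard : (R.card : ℝ) = (r : ℝ) + 1 := by rw [hr]; push_cast; ring
    simp only [sum_add_distrib, sum_sub_distrib, sum_const, nsmul_eq_mul, ← mul_sum, hcard,
      sum_neg_distrib] at hsum hJ ⊢
    have hfac : Real.log ((r + 1).factorial : ℝ) =
        Real.log ((r : ℝ) + 1) + Real.log (r.factorial : ℝ) := by
      rw [Nat.factorial_succ]
      push_cast
      rw [Real.log_mul (by positivity) (by positivity)]
    rw [hfac]
    push_cast
    have hr1 : (0 : ℝ) < (r : ℝ) + 1 := by positivity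
    refine le_of_mul_le_mul_left ?_ hr1
    nlinarith [hsum, hJ]

end R5
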