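import Pool.Agent.Work.MP_8b6acb_cap.Interface

/-! Block MAINNET. -/

namespace R5

open Finset MP_8b6acb_co

namespace MN

section
variable {α : Type} [DecidableEq α]

theorem yLe_nn (τ : Finset α → Lab) {D V : Finset α} (x : α) (hV : V ⊆ D) : 0 ≤ yLe τ D V x := by
  unfold yLe
  have h1 : (0 : ℝ) ≤ (D.card : ℝ) - V.card := by
    rw [sub_nonneg]; exact_mod_cast card_le_card hV
  split_ifs
  · exact div_nonneg (mul_nonneg (aw_nonneg _ _) (bw_nonneg _ _ _))
      (mul_nonneg (by positivity) h1)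
  · exact le_rfl

theorem yFe_nn (τ : Finset α → Lab) {D V : Finset α} (x : α) (hV : V ⊆ D) : 0 ≤ yFe τ D V x := by
  unfold yFe
  have h1 : (0 : ℝ) ≤ (D.card : ℝ) - V.card := by
    rw [sub_nonneg]; exact_mod_cast card_le_card hV
  split_ifs
  · exact div_nonneg (mul_nonneg (fw_nonneg _ _) (ab_nonneg _ _ _))
      (mul_nonneg (by positivity) h1)
  · exact le_rfl

theorem yLv_nn (τ : Finset α → Lab) (D V : Finset α) : 0 ≤ yLv τ D V := by
  unfold yLv
  split_ifs
  · exact div_nonneg (mul_nonneg (aw_nonneg _ _) (bwb_nonneg _ _ _)) (by positivity)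
  · exact le_rfl

theorem yFv_nn (τ : Finset α → Lab) (D V : Finset α) : 0 ≤ yFv τ D V := by
  unfold yFv
  split_ifs
  · exact div_nonneg (mul_nonneg (fwb_nonneg _ _) (ab_nonneg _ _ _)) (by positivity)
  · exact le_rfl

theorem Zt_pos {τ : Finset α → Lab} {D : Finset α} (h0 : τ ∅ = Lab.A) : 0 < Zt τ D := by
  unfold Zt
  have h1 := one_le_aw h0 D
  have h2 := ab_nonneg τ D ∅
  positivity

/-- Total mass of a type. -/
theorem tot (hMa : Stmt_MASS α) (τ : Finset α → Lab) (D : Finset α) (h0 : τ ∅ = Lab.A)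
    (hD : τ D = Lab.B) :
    (∑ V ∈ D.powerset, ∑ x ∈ D \ V, yLe τ D V x) + (∑ V ∈ D.powerset, yLv τ D V) +
      (∑ V ∈ D.powerset, ∑ x ∈ D \ V, yFe τ D V x) + (∑ V ∈ D.powerset, yFv τ D V) = Zt τ D := by
  have h1 := hMa τ D h0 hD
  have h2 := hMa (dual τ D) D (by unfold dual; rw [sdiff_empty, hD]; rfl)
    (by unfold dual; rw [Finset.sdiff_self, h0]; rfl)
  have e1 : PEL (dual τ D) D = ∑ V ∈ D.powerset, ∑ x ∈ D \ V, yFe τ D V x := by
    unfold PEL
    rw [← sum_edge_compl]
    refine sum_congr rfl fun V hV => sum_congr rfl fun x hx => ?_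
    exact yLe_dual (mem_powerset.1 hV) hx
  have e2 : ∑ V ∈ D.powerset, yLv (dual τ D) D V = ∑ V ∈ D.powerset, yFv τ D V := by
    rw [← sum_powerset_compl]
    refine sum_congr rfl fun V hV => yLv_dual (mem_powerset.1 hV)
  rw [e1, e2] at h2
  have e3 : aw (dual τ D) D = ab τ D ∅ := by unfold ab; rw [sdiff_empty]
  rw [e3] at h2
  unfold PEL at h1
  unfold Zt
  rw [add_div, ← h1, ← h2]
  ring

theorem mul_log_div {w c : ℝ} (hw : 0 ≤ w) (hc : 0 < c) :
    w * Real.log (c / w) = w * Real.log c - w * Real.log w := by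
  rcases hw.eq_or_lt with h | h
  · rw [← h]; simp
  · rw [Real.log_div hc.ne' h.ne']; ring

end

variable {α : Type} [Fintype α] [DecidableEq α]

theorem MU_pos {c : Finset α → Lab} {i j : ℕ} {S T : Finset (Finset α)} {a b : Finset α → ℝ}
    (h : Net c i j S T a b) {s t v : Finset α} (hs : s ∈ S) (ht : t ∈ T) (hv : v ⊆ t) :
    0 < MU c T a b s v := by
  unfold MU
  refine sum_pos (fun t' ht' => ?_) ⟨t, mem_filter.2 ⟨ht, hv⟩⟩
  have := (mem_filter.1 ht').1
  exact mul_pos (mul_pos (h.pa s hs) (h.pb t' this))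
    (Zt_pos (by unfold ty; rw [union_empty]; exact h.lS s hs))

theorem NU_pos {c : Finset α → Lab} {i j : ℕ} {S T : Finset (Finset α)} {a b : Finset α → ℝ}
    (h : Net c i j S T a b) {s t v : Finset α} (hs : s ∈ S) (ht : t ∈ T) (hv : s ⊆ v) :
    0 < NU c S a b t v := by
  unfold NU
  refine sum_pos (fun s' hs' => ?_) ⟨s, mem_filter.2 ⟨hs, hv⟩⟩
  have := (mem_filter.1 hs').1
  exact mul_pos (mul_pos (h.pa s' this) (h.pb t ht))
    (Zt_pos (by unfold ty; rw [union_empty]; exact h.lS s' this))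

theorem MU_anti {c : Finset α → Lab} {i j : ℕ} {S T : Finset (Finset α)} {a b : Finset α → ℝ}
    (h : Net c i j S T a b) {s v w : Finset α} (hs : s ∈ S) (hv : v ⊆ w) :
    MU c T a b s w ≤ MU c T a b s v := by
  unfold MU
  refine sum_le_sum_of_subset_of_nonneg ?_ ?_
  · intro t ht
    rw [mem_filter] at ht ⊢
    exact ⟨ht.1, hv.trans ht.2⟩
  · intro t ht _
    have := (mem_filter.1 ht).1
    exact (mul_pos (mul_pos (h.pa s hs) (h.pb t this))
      (Zt_pos (by unfold ty; rw [union_empty]; exact h.lS s hs))).le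

theorem NU_mono {c : Finset α → Lab} {i j : ℕ} {S T : Finset (Finset α)} {a b : Finset α → ℝ}
    (h : Net c i j S T a b) {t v w : Finset α} (ht : t ∈ T) (hv : v ⊆ w) :
    NU c S a b t v ≤ NU c S a b t w := by
  unfold NU
  refine sum_le_sum_of_subset_of_nonneg ?_ ?_
  · intro s hs
    rw [mem_filter] at hs ⊢
    exact ⟨hs.1, hs.2.trans hv⟩
  · intro s hs _
    have := (mem_filter.1 hs).1
    exact (mul_pos (mul_pos (h.pa s this) (h.pb t ht))
      (Zt_pos (by unfold ty; rw [union_empty]; exact h.lS s this))).le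

end MN

open MN in
theorem stmt_MAINNET (α : Type) [Fintype α] [DecidableEq α] (hL : Stmt_LPART α)
    (hF : Stmt_FPART α) (hTy : Stmt_TYPE α) (hMa : Stmt_MASS α) (hG : Stmt_GIBBS)
    (hNE : Stmt_NETE α) (hNX : Stmt_NETX α) : Stmt_MAINNET α := by
  intro c i j S T a b κ hnet hκ hMU hNU W hW hWpos
  have hij := hnet.hij
  have hl : 0 < j - i := by omega
  have hlR : ((j - i : ℕ) : ℝ) = (j : ℝ) - i := Nat.cast_sub hij.le
  have hlpos : (0 : ℝ) < (j : ℝ) - i := by rw [← hlR]; exact_mod_cast hl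
  set E := netE c i j S T with hE
  set X := netX c i j with hX
  -- facts on pairs
  have hpair : ∀ s ∈ S, ∀ t ∈ T.filter (fun t => s ⊆ t), ty c s ∅ = Lab.A ∧
      ty c s (t \ s) = Lab.B ∧ ((t \ s).card : ℝ) = (j : ℝ) - i ∧ (t \ s).Nonempty := by
    intro s hs t ht
    rw [mem_filter] at ht
    have hcard : (t \ s).card = j - i := by
      rw [card_sdiff_of_subset ht.2, hnet.cT t ht.1, hnet.cS s hs]
    refine ⟨?_, ?_, ?_, ?_⟩
    · unfold ty; rw [union_empty]; exact hnet.lS s hs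
    · unfold ty; rw [union_sdiff_of_subset ht.2]; exact hnet.lT t ht.1
    · rw [hcard, hlR]
    · rw [← card_pos, hcard]; exact hl
  -- step 1
  have step1 : ∀ s ∈ S, ∀ t ∈ T.filter (fun t => s ⊆ t),
      a s * b t * VAL (ty c s) (t \ s) ≤
      a s * b t * LV (ty c s) (t \ s)
        (fun X g => MU c T a b s (s ∪ insert g X) / MU c T a b s (s ∪ X))
        (fun V => -Real.log (NU c S a b t (s ∪ V))) +
      a s * b t * LV (dual (ty c s) (t \ s)) (t \ s)
        (fun U g => NU c S a b t (s ∪ ((t \ s) \ insert g U)) / NU c S a b t (s ∪ ((t \ s) \ U)))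
        (fun U => -Real.log (MU c T a b s (s ∪ ((t \ s) \ U)))) +
      (Real.log κ - Real.log ((j : ℝ) - i)) * (a s * b t * Zt (ty c s) (t \ s)) := by
    intro s hs t ht
    obtain ⟨h0, hD, hc, hne⟩ := hpair s hs t ht
    have ht' := mem_filter.1 ht
    have hst : s ∪ (t \ s) = t := union_sdiff_of_subset ht'.2
    have h := hTy (ty c s) (t \ s) (fun V => MU c T a b s (s ∪ V)) (fun V => NU c S a b t (s ∪ V))
      h0 hD hne
      (fun V hV => MU_pos hnet hs ht'.1 (union_subset ht'.2 (hV.trans sdiff_subset)))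
      (fun V _ => NU_pos hnet hs ht'.1 subset_union_left)
      (fun V _ x _ => MU_anti hnet hs (union_subset_union_right (subset_insert _ _)))
      (fun V _ x _ => NU_mono hnet ht'.1 (union_subset_union_right (subset_insert _ _)))
    simp only [union_empty, hst, hc] at h
    have h1 : Real.log (MU c T a b s s) ≤ Real.log κ :=
      Real.log_le_log (MU_pos hnet hs ht'.1 ht'.2) (hMU s hs)
    have h2 : Real.log (NU c S a b t t) ≤ Real.log κ :=
      Real.log_le_log (NU_pos hnet hs ht'.1 ht'.2) (hNU t ht'.1)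
    have hl1 : (0 : ℝ) < (j : ℝ) - i + 1 := by linarith
    have h3 : ab (ty c s) (t \ s) ∅ / ((j : ℝ) - i + 1) * Real.log (MU c T a b s s) ≤
        ab (ty c s) (t \ s) ∅ / ((j : ℝ) - i + 1) * Real.log κ :=
      mul_le_mul_of_nonneg_left h1 (div_nonneg (ab_nonneg _ _ _) hl1.le)
    have h4 : aw (ty c s) (t \ s) / ((j : ℝ) - i + 1) * Real.log (NU c S a b t t) ≤
        aw (ty c s) (t \ s) / ((j : ℝ) - i + 1) * Real.log κ :=
      mul_le_mul_of_nonneg_left h2 (div_nonneg (aw_nonneg _ _) hl1.le)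
    have h5 : Zt (ty c s) (t \ s) = ab (ty c s) (t \ s) ∅ / ((j : ℝ) - i + 1) +
        aw (ty c s) (t \ s) / ((j : ℝ) - i + 1) := by
      unfold Zt
      rw [hc, add_div, add_comm]
    have h6 : (0 : ℝ) ≤ a s * b t := (mul_pos (hnet.pa s hs) (hnet.pb t ht'.1)).le
    have h7 : VAL (ty c s) (t \ s) ≤
        LV (ty c s) (t \ s)
          (fun X g => MU c T a b s (s ∪ insert g X) / MU c T a b s (s ∪ X))
          (fun V => -Real.log (NU c S a b t (s ∪ V))) +
        LV (dual (ty c s) (t \ s)) (t \ s)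
          (fun U g => NU c S a b t (s ∪ ((t \ s) \ insert g U)) /
            NU c S a b t (s ∪ ((t \ s) \ U)))
          (fun U => -Real.log (MU c T a b s (s ∪ ((t \ s) \ U)))) +
        (Real.log κ - Real.log ((j : ℝ) - i)) * Zt (ty c s) (t \ s) := by
      have h8 : (Real.log κ - Real.log ((j : ℝ) - i)) * Zt (ty c s) (t \ s) =
          ab (ty c s) (t \ s) ∅ / ((j : ℝ) - i + 1) * Real.log κ +
          aw (ty c s) (t \ s) / ((j : ℝ) - i + 1) * Real.log κ -
          Zt (ty c s) (t \ s) * Real.log ((j : ℝ) - i) := by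
        rw [sub_mul, h5]; ring
      rw [h8]
      linarith
    have h9 := mul_le_mul_of_nonneg_left h7 h6
    refine h9.trans (le_of_eq ?_)
    ring
  -- step 2: sum over the pairs
  have step2 : ∑ s ∈ S, ∑ t ∈ T.filter (fun t => s ⊆ t), a s * b t * VAL (ty c s) (t \ s) ≤
      (∑ s ∈ S, ∑ t ∈ T.filter (fun t => s ⊆ t), a s * b t * LV (ty c s) (t \ s)
        (fun X g => MU c T a b s (s ∪ insert g X) / MU c T a b s (s ∪ X))
        (fun V => -Real.log (NU c S a b t (s ∪ V)))) +
      (∑ s ∈ S, ∑ t ∈ T.filter (fun t => s ⊆ t), a s * b t * LV (dual (ty c s) (t \ s)) (t \ s)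
        (fun U g => NU c S a b t (s ∪ ((t \ s) \ insert g U)) / NU c S a b t (s ∪ ((t \ s) \ U)))
        (fun U => -Real.log (MU c T a b s (s ∪ ((t \ s) \ U))))) +
      (Real.log κ - Real.log ((j : ℝ) - i)) * W := by
    rw [hW, mul_sum]
    simp only [mul_sum]
    rw [← sum_add_distrib, ← sum_add_distrib]
    refine sum_le_sum fun s hs => ?_
    rw [← sum_add_distrib, ← sum_add_distrib]
    exact sum_le_sum fun t ht => step1 s hs t ht
  have hLp := hL c i j S T a b hnet
  have hFp := hF c i j S T a b hnet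
  rw [← hE, ← hX] at hLp hFp
  -- nonnegativity of the masses
  have hab : ∀ s ∈ S, ∀ t ∈ T, 0 ≤ a s * b t := fun s hs t ht =>
    (mul_pos (hnet.pa s hs) (hnet.pb t ht)).le
  have nWE : ∀ e : Finset α × α, 0 ≤ WE c S T a b e.1 e.2 := by
    intro e
    refine sum_nonneg fun s hs => sum_nonneg fun t ht => ?_
    rw [mem_filter] at hs ht
    exact mul_nonneg (hab s hs.1 t ht.1) (yLe_nn _ _
      (sdiff_subset_sdiff ((subset_insert _ _).trans ht.2) (Subset.refl _)))
  have nWFE : ∀ e : Finset α × α, 0 ≤ WFE c S T a b e.1 e.2 := by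
    intro e
    refine sum_nonneg fun s hs => sum_nonneg fun t ht => ?_
    rw [mem_filter] at hs ht
    exact mul_nonneg (hab s hs.1 t ht.1) (yFe_nn _ _
      (sdiff_subset_sdiff ((subset_insert _ _).trans ht.2) (Subset.refl _)))
  have nWX : ∀ v, 0 ≤ WX c S T a b v := by
    intro v
    refine sum_nonneg fun s hs => sum_nonneg fun t ht => ?_
    rw [mem_filter] at hs ht
    exact mul_nonneg (hab s hs.1 t ht.1) (yLv_nn _ _ _)
  have nWFX : ∀ v, 0 ≤ WFX c S T a b v := by
    intro v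
    refine sum_nonneg fun s hs => sum_nonneg fun t ht => ?_
    rw [mem_filter] at hs ht
    exact mul_nonneg (hab s hs.1 t ht.1) (yFv_nn _ _ _)
  -- total mass
  have hmass : (∑ e ∈ E, WE c S T a b e.1 e.2) + (∑ e ∈ E, WFE c S T a b e.1 e.2) +
      ((∑ v ∈ X, WX c S T a b v) + ∑ v ∈ X, WFX c S T a b v) = W := by
    have e1 : ∑ e ∈ E, WE c S T a b e.1 e.2 = ∑ s ∈ S, ∑ t ∈ T.filter (fun t => s ⊆ t),
        ∑ V ∈ (t \ s).powerset, ∑ x ∈ (t \ s) \ V, a s * b t * yLe (ty c s) (t \ s) V x := by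
      unfold WE
      rw [hE, hNE c i j S T a b hnet (fun s t V x => a s * b t * yLe (ty c s) (t \ s) V x)]
      refine sum_congr rfl fun s _ => sum_congr rfl fun t _ => sum_congr rfl fun V _ =>
        sum_congr rfl fun x _ => ?_
      split_ifs with h
      · rfl
      · unfold yLe; rw [if_neg h, mul_zero]
    have e2 : ∑ e ∈ E, WFE c S T a b e.1 e.2 = ∑ s ∈ S, ∑ t ∈ T.filter (fun t => s ⊆ t),
        ∑ V ∈ (t \ s).powerset, ∑ x ∈ (t \ s) \ V, a s * b t * yFe (ty c s) (t \ s) V x := by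
      unfold WFE
      rw [hE, hNE c i j S T a b hnet (fun s t V x => a s * b t * yFe (ty c s) (t \ s) V x)]
      refine sum_congr rfl fun s _ => sum_congr rfl fun t _ => sum_congr rfl fun V _ =>
        sum_congr rfl fun x _ => ?_
      split_ifs with h
      · rfl
      · unfold yFe; rw [if_neg h, mul_zero]
    have e3 : ∑ v ∈ X, WX c S T a b v = ∑ s ∈ S, ∑ t ∈ T.filter (fun t => s ⊆ t),
        ∑ V ∈ (t \ s).powerset, a s * b t * yLv (ty c s) (t \ s) V := by
      unfold WX
      rw [hX, hNX c i j S T a b hnet (fun s t V => a s * b t * yLv (ty c s) (t \ s) V)]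
      refine sum_congr rfl fun s _ => sum_congr rfl fun t _ => sum_congr rfl fun V _ => ?_
      split_ifs with h
      · rfl
      · unfold yLv; rw [if_neg h, mul_zero]
    have e4 : ∑ v ∈ X, WFX c S T a b v = ∑ s ∈ S, ∑ t ∈ T.filter (fun t => s ⊆ t),
        ∑ V ∈ (t \ s).powerset, a s * b t * yFv (ty c s) (t \ s) V := by
      unfold WFX
      rw [hX, hNX c i j S T a b hnet (fun s t V => a s * b t * yFv (ty c s) (t \ s) V)]
      refine sum_congr rfl fun s _ => sum_congr rfl fun t _ => sum_congr rfl fun V _ => ?_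
      split_ifs with h
      · rfl
      · unfold yFv; rw [if_neg h, mul_zero]
    rw [e1, e2, e3, e4, hW, ← sum_add_distrib, ← sum_add_distrib, ← sum_add_distrib]
    refine sum_congr rfl fun s hs => ?_
    rw [← sum_add_distrib, ← sum_add_distrib, ← sum_add_distrib]
    refine sum_congr rfl fun t ht => ?_
    obtain ⟨h0, hD, -, -⟩ := hpair s hs t ht
    rw [← tot hMa (ty c s) (t \ s) h0 hD]
    simp only [← mul_sum]
    ring
  -- Gibbs
  have cE : ∀ e ∈ E, (i : ℝ) ≤ e.1.card ∧ (e.1.card : ℝ) + 1 ≤ j := by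
    intro e he
    rw [hE] at he
    unfold netE at he
    rw [mem_filter] at he
    obtain ⟨-, h2, h3, -, h5, -⟩ := he
    have h7 : (insert e.2 e.1).card = e.1.card + 1 := card_insert_of_notMem h2
    constructor
    · rcases h3 with h3 | h3
      · rw [hnet.cS _ h3]
      · rw [mem_Mid] at h3; exact_mod_cast h3.1.le
    · rcases h5 with h5 | h5
      · rw [mem_Mid, h7] at h5; exact_mod_cast h5.2.le
      · have := hnet.cT _ h5
        rw [h7] at this
        rw [← this]; push_cast; exact le_rfl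
  have cX : ∀ v ∈ X, (i : ℝ) < v.card ∧ (v.card : ℝ) < j := by
    intro v hv
    rw [hX] at hv
    unfold netX at hv
    rw [mem_filter, mem_Mid] at hv
    exact ⟨by exact_mod_cast hv.1.1, by exact_mod_cast hv.1.2⟩
  have hl1 : (0 : ℝ) < (j : ℝ) - i + 1 := by linarith
  set K : Finset (((Finset α × α) ⊕ (Finset α × α)) ⊕ (Finset α ⊕ Finset α)) :=
    (E.disjSum E).disjSum (X.disjSum X) with hK
  let w : ((Finset α × α) ⊕ (Finset α × α)) ⊕ (Finset α ⊕ Finset α) → ℝ :=
    Sum.elim (Sum.elim (fun e => WE c S T a b e.1 e.2) (fun e => WFE c S T a b e.1 e.2))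
      (Sum.elim (fun v => WX c S T a b v) (fun v => WFX c S T a b v))
  let q : ((Finset α × α) ⊕ (Finset α × α)) ⊕ (Finset α ⊕ Finset α) → ℝ :=
    Sum.elim (Sum.elim (fun e => ((e.1.card : ℝ) - i + 1) / ((j : ℝ) - i + 1))
        (fun e => ((j : ℝ) - e.1.card) / ((j : ℝ) - i + 1)))
      (Sum.elim (fun v => (v.card : ℝ) - i) (fun v => (j : ℝ) - v.card))
  have hsum : ∀ f : ((Finset α × α) ⊕ (Finset α × α)) ⊕ (Finset α ⊕ Finset α) → ℝ,
      ∑ k ∈ K, f k = (∑ e ∈ E, f (Sum.inl (Sum.inl e))) + (∑ e ∈ E, f (Sum.inl (Sum.inr e))) +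
        ((∑ v ∈ X, f (Sum.inr (Sum.inl v))) + ∑ v ∈ X, f (Sum.inr (Sum.inr v))) := by
    intro f
    rw [hK, sum_disjSum, sum_disjSum, sum_disjSum]
  have hqpos : ∀ k ∈ K, 0 < q k := by
    rintro ((e | e) | (v | v)) hk
    · have he : e ∈ E := by simpa [hK] using hk
      have := cE e he
      exact div_pos (by linarith [this.1]) hl1
    · have he : e ∈ E := by simpa [hK] using hk
      have := cE e he
      exact div_pos (by linarith [this.2]) hl1
    · have hv : v ∈ X := by simpa [hK] using hk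
      have := cX v hv
      show 0 < (v.card : ℝ) - i
      linarith [this.1]
    · have hv : v ∈ X := by simpa [hK] using hk
      have := cX v hv
      show 0 < (j : ℝ) - v.card
      linarith [this.2]
  have hwnn : ∀ k ∈ K, 0 ≤ w k := by
    rintro ((e | e) | (v | v)) _
    · exact nWE e
    · exact nWFE e
    · exact nWX v
    · exact nWFX v
  have hGi := hG _ K w q hwnn (fun k hk => (hqpos k hk).le) (fun k hk _ => hqpos k hk)
  have hwsum : ∑ k ∈ K, w k = W := by rw [hsum]; exact hmass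
  set C : ℝ := (E.card : ℝ) + ((j : ℝ) - i) * (X.card : ℝ) with hC
  have hqsum : ∑ k ∈ K, q k = C := by
    rw [hsum]
    show (∑ e ∈ E, ((e.1.card : ℝ) - i + 1) / ((j : ℝ) - i + 1)) +
      (∑ e ∈ E, ((j : ℝ) - e.1.card) / ((j : ℝ) - i + 1)) +
      ((∑ v ∈ X, ((v.card : ℝ) - i)) + ∑ v ∈ X, ((j : ℝ) - v.card)) = C
    rw [← sum_add_distrib, ← sum_add_distrib]
    have e1 : ∑ e ∈ E, (((e.1.card : ℝ) - i + 1) / ((j : ℝ) - i + 1) +
        ((j : ℝ) - e.1.card) / ((j : ℝ) - i + 1)) = E.card := by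
      rw [card_eq_sum_ones, Nat.cast_sum]
      refine sum_congr rfl fun e _ => ?_
      push_cast
      field_simp
      ring
    have e2 : ∑ v ∈ X, (((v.card : ℝ) - i) + ((j : ℝ) - v.card)) =
        ((j : ℝ) - i) * (X.card : ℝ) := by
      rw [mul_comm, ← nsmul_eq_mul, ← sum_const]
      refine sum_congr rfl fun v _ => ?_
      ring
    rw [e1, e2]
  have hwlog : ∑ k ∈ K, w k * Real.log (q k / w k) =
      ((∑ e ∈ E, (WE c S T a b e.1 e.2 *
        Real.log (((e.1.card : ℝ) - i + 1) / ((j : ℝ) - i + 1)) -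
        WE c S T a b e.1 e.2 * Real.log (WE c S T a b e.1 e.2))) +
      ∑ v ∈ X, (WX c S T a b v *
        (Real.log ((j : ℝ) - i) + Real.log (((v.card : ℝ) - i) / ((j : ℝ) - i))) -
        WX c S T a b v * Real.log (WX c S T a b v))) +
      ((∑ e ∈ E, (WFE c S T a b e.1 e.2 *
        Real.log (((j : ℝ) - e.1.card) / ((j : ℝ) - i + 1)) -
        WFE c S T a b e.1 e.2 * Real.log (WFE c S T a b e.1 e.2))) +
      ∑ v ∈ X, (WFX c S T a b v *
        (Real.log ((j : ℝ) - i) + Real.log (((j : ℝ) - v.card) / ((j : ℝ) - i))) -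
        WFX c S T a b v * Real.log (WFX c S T a b v))) := by
    rw [sum_congr rfl (fun k hk => mul_log_div (hwnn k hk) (hqpos k hk)), hsum]
    have e1 : ∀ v ∈ X, Real.log ((j : ℝ) - i) + Real.log (((v.card : ℝ) - i) / ((j : ℝ) - i)) =
        Real.log ((v.card : ℝ) - i) := by
      intro v hv
      have := (cX v hv).1
      rw [Real.log_div (by linarith) hlpos.ne']
      ring
    have e2 : ∀ v ∈ X, Real.log ((j : ℝ) - i) + Real.log (((j : ℝ) - v.card) / ((j : ℝ) - i)) =
        Real.log ((j : ℝ) - v.card) := by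
      intro v hv
      have := (cX v hv).2
      rw [Real.log_div (by linarith) hlpos.ne']
      ring
    have e3 : ∑ v ∈ X, (WX c S T a b v *
        (Real.log ((j : ℝ) - i) + Real.log (((v.card : ℝ) - i) / ((j : ℝ) - i))) -
        WX c S T a b v * Real.log (WX c S T a b v)) = ∑ v ∈ X, (WX c S T a b v *
        Real.log ((v.card : ℝ) - i) - WX c S T a b v * Real.log (WX c S T a b v)) :=
      sum_congr rfl fun v hv => by rw [e1 v hv]
    have e4 : ∑ v ∈ X, (WFX c S T a b v *
        (Real.log ((j : ℝ) - i) + Real.log (((j : ℝ) - v.card) / ((j : ℝ) - i))) -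
        WFX c S T a b v * Real.log (WFX c S T a b v)) = ∑ v ∈ X, (WFX c S T a b v *
        Real.log ((j : ℝ) - v.card) - WFX c S T a b v * Real.log (WFX c S T a b v)) :=
      sum_congr rfl fun v hv => by rw [e2 v hv]
    rw [e3, e4]
    show (∑ e ∈ E, (WE c S T a b e.1 e.2 *
        Real.log (((e.1.card : ℝ) - i + 1) / ((j : ℝ) - i + 1)) -
        WE c S T a b e.1 e.2 * Real.log (WE c S T a b e.1 e.2))) +
      (∑ e ∈ E, (WFE c S T a b e.1 e.2 *
        Real.log (((j : ℝ) - e.1.card) / ((j : ℝ) - i + 1)) -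
        WFE c S T a b e.1 e.2 * Real.log (WFE c S T a b e.1 e.2))) +
      ((∑ v ∈ X, (WX c S T a b v *
        Real.log ((v.card : ℝ) - i) - WX c S T a b v * Real.log (WX c S T a b v))) +
      ∑ v ∈ X, (WFX c S T a b v *
        Real.log ((j : ℝ) - v.card) - WFX c S T a b v * Real.log (WFX c S T a b v))) = _
    ring
  rw [hwsum, hqsum, hwlog] at hGi
  -- C > 0
  have hCpos : 0 < C := by
    by_contra h
    have hE0 : (0 : ℝ) ≤ E.card := Nat.cast_nonneg _
    have hX0 : (0 : ℝ) ≤ ((j : ℝ) - i) * (X.card : ℝ) := mul_nonneg hlpos.le (Nat.cast_nonneg _)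
    have h1 : (E.card : ℝ) = 0 := by linarith
    have h2 : ((j : ℝ) - i) * (X.card : ℝ) = 0 := by linarith
    have h3 : E = ∅ := by rw [← card_eq_zero]; exact_mod_cast h1
    have h4 : X = ∅ := by
      rw [← card_eq_zero]
      rcases mul_eq_zero.1 h2 with h5 | h5
      · linarith
      · exact_mod_cast h5
    rw [h3, h4] at hmass
    simp at hmass
    linarith
  have hfin : Real.log (κ * C / (((j : ℝ) - i) * W)) =
      Real.log κ - Real.log ((j : ℝ) - i) + Real.log (C / W) := by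
    rw [Real.log_div (mul_pos hκ hCpos).ne' (mul_pos hlpos hWpos).ne',
      Real.log_mul hκ.ne' hCpos.ne', Real.log_mul hlpos.ne' hWpos.ne',
      Real.log_div hCpos.ne' hWpos.ne']
    ring
  rw [hfin]
  have : W * (Real.log κ - Real.log ((j : ℝ) - i) + Real.log (C / W)) =
      (Real.log κ - Real.log ((j : ℝ) - i)) * W + W * Real.log (C / W) := by ring
  rw [this]
  linarith

end R5
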