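import Pool.Agent.Work.MP_8b6acb_cap.Interface

namespace R5

open Finset

variable {α : Type} [DecidableEq α]

theorem stmt_MASS (hG : Stmt_GMASS α) : Stmt_MASS α := by
  intro τ D h0 hD
  have h := hG τ D (fun V => aw τ V / ((D.card : ℝ) + 1)) h0 hD (by
    intro Y hY hY0 hB
    have h1 := aw_rec (τ := τ) hY0
    rw [fw_of_ne (by rw [hB]; exact fun h => Lab.noConfusion h), zero_add] at h1
    rw [h1, ← sum_div, div_div, div_div, mul_comm])
  rw [← h]
  congr 1
  · unfold PEL
    refine sum_congr rfl fun V _ => sum_congr rfl fun x _ => ?_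
    unfold yLe
    split_ifs with hE
    · rw [div_mul_eq_mul_div, div_div]
      congr 1
      ring
    · rfl
  · refine sum_congr rfl fun V _ => ?_
    unfold yLv
    split_ifs with hE
    · rw [div_mul_eq_mul_div, div_div]
    · rfl

end R5
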