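import Pool.Agent.Work.MP_8b6acb_cap.Interface

/-! Block NETE: reindexing of the pairs (cut edge, comparable pair). -/

namespace R5

open Finset MP_8b6acb_co

theorem netE_aux_un {α : Type} [DecidableEq α] {s v : Finset α} (h : s ⊆ v) : s ∪ (v \ s) = v :=
  union_sdiff_of_subset h

theorem netE_aux_ins {α : Type} [DecidableEq α] {s v : Finset α} {x : α} (h : s ⊆ v) :
    s ∪ insert x (v \ s) = insert x v := by
  rw [union_insert, union_sdiff_of_subset h]

theorem netE_aux_sd {α : Type} [DecidableEq α] {s t V : Finset α} (h : V ⊆ t \ s) :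
    (s ∪ V) \ s = V := by
  ext y
  simp only [mem_sdiff, mem_union]
  constructor
  · rintro ⟨h1 | h1, h2⟩
    · exact absurd h1 h2
    · exact h1
  · intro hy
    exact ⟨Or.inr hy, (mem_sdiff.1 (h hy)).2⟩

theorem netE_aux_card {α : Type} [DecidableEq α] {s t V : Finset α} (h : V ⊆ t \ s) :
    (s ∪ V).card = s.card + V.card := by
  apply card_union_of_disjoint
  rw [Finset.disjoint_left]
  intro y h1 h2
  exact (mem_sdiff.1 (h h2)).2 h1

theorem stmt_NETE (α : Type) [Fintype α] [DecidableEq α] : Stmt_NETE α := by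
  intro c i j S T a b hN Φ
  have hR : ∀ s ∈ S, ∀ t ∈ T.filter (fun t => s ⊆ t),
      (∑ V ∈ (t \ s).powerset, ∑ x ∈ (t \ s) \ V, if isE (ty c s) V x then Φ s t V x else 0) =
      ∑ V ∈ (t \ s).powerset, ∑ x ∈ ((t \ s) \ V).filter (fun x => isE (ty c s) V x),
        Φ s t V x := by
    intro s _ t _
    refine sum_congr rfl fun V _ => ?_
    rw [sum_filter]
  rw [sum_congr rfl fun s hs => sum_congr rfl fun t ht => hR s hs t ht]
  simp only [sum_sigma']
  refine sum_bij'
    (fun p _ => (⟨p.2.1, p.2.2, p.1.1 \ p.2.1, p.1.2⟩ :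
      (_ : Finset α) × (_ : Finset α) × (_ : Finset α) × α))
    (fun q _ => (⟨(q.1 ∪ q.2.2.1, q.2.2.2), q.1, q.2.1⟩ :
      (_ : Finset α × α) × (_ : Finset α) × Finset α)) ?_ ?_ ?_ ?_ ?_
  · rintro ⟨⟨v, x⟩, s, t⟩ h
    simp only [mem_sigma, mem_filter, netE, mem_univ, true_and, mem_powerset, mem_sdiff] at h ⊢
    obtain ⟨⟨hxv, _, hcA, _, hcB⟩, ⟨hs, hsv⟩, ht, hvt⟩ := h
    refine ⟨hs, ⟨ht, hsv.trans ((subset_insert _ _).trans hvt)⟩, ?_, ⟨⟨?_, ?_⟩, ?_⟩, ?_, ?_⟩
    · exact sdiff_subset_sdiff ((subset_insert _ _).trans hvt) (Subset.refl _)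
    · exact hvt (mem_insert_self _ _)
    · exact fun hxs => hxv (hsv hxs)
    · exact fun hx => hxv hx.1
    · unfold ty
      rw [netE_aux_un hsv]
      exact hcA
    · unfold ty
      rw [netE_aux_ins hsv]
      exact hcB
  · rintro ⟨s, t, V, x⟩ h
    simp only [mem_sigma, mem_filter, netE, mem_univ, true_and, mem_powerset, mem_sdiff] at h ⊢
    obtain ⟨hs, ⟨ht, hst⟩, hV, ⟨⟨hxt, hxs⟩, hxV⟩, hA, hB⟩ := h
    unfold ty at hA hB
    rw [union_insert] at hB
    have hxsV : x ∉ s ∪ V := by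
      rw [mem_union]; rintro (h | h)
      · exact hxs h
      · exact hxV h
    have hsub : s ∪ V ⊆ t := union_subset hst (hV.trans sdiff_subset)
    have hsub2 : insert x (s ∪ V) ⊆ t := insert_subset hxt hsub
    have hc1 : (s ∪ V).card = s.card + V.card := netE_aux_card hV
    have hc2 : (insert x (s ∪ V)).card = (s ∪ V).card + 1 := card_insert_of_notMem hxsV
    have hc3 := card_le_card hsub2
    have hcs := hN.cS s hs
    have hct := hN.cT t ht
    refine ⟨⟨hxsV, ?_, hA, ?_, hB⟩, ⟨hs, subset_union_left⟩, ht, hsub2⟩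
    · by_cases hVe : V = ∅
      · left; rw [hVe, union_empty]; exact hs
      · right
        rw [mem_Mid]
        have : 0 < V.card := card_pos.2 (nonempty_iff_ne_empty.2 hVe)
        omega
    · by_cases he : (insert x (s ∪ V)).card = j
      · right
        rw [eq_of_subset_of_card_le hsub2 (by omega)]
        exact ht
      · left
        rw [mem_Mid]
        omega
  · rintro ⟨⟨v, x⟩, s, t⟩ h
    simp only [mem_sigma, mem_filter] at h
    simp only [netE_aux_un h.2.1.2]
  · rintro ⟨s, t, V, x⟩ h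
    simp only [mem_sigma, mem_powerset] at h
    simp only [netE_aux_sd h.2.2.1]
  · rintro ⟨⟨v, x⟩, s, t⟩ h
    rfl

end R5
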