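import Pool.Agent.Work.MP_8b6acb_cap.OBJ

/-! Block OBJE, and its version OBJEG for an arbitrary kernel (helper51). -/

namespace R5

open Finset MP_8b6acb_co

section

variable {α : Type} [Fintype α] [DecidableEq α] {c : Finset α → Lab} {i j : ℕ}
  {S T : Finset (Finset α)} {a b : Finset α → ℝ}

/-- `pe` is a product of a function of `(s, X)` and a function of `t`. -/
theorem pe_split (h : Net c i j S T a b) (e : Finset α × α) (he : e ∈ netE c i j S T) :
    (∃ (F0 : Finset α → Finset α → ℝ) (G0 : Finset α → ℝ), (∀ s ∈ S, ∀ X, 0 ≤ F0 s X) ∧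
      (∀ t, 0 ≤ G0 t) ∧ ∀ s ∈ S, s ⊆ e.1 → ∀ t ∈ T, insert e.2 e.1 ⊆ t → ∀ X,
        pe (ty c s) (t \ s) X (e.1 \ s) e.2 = if X ⊆ e.1 \ s then F0 s X * G0 t else 0) ∧
    (∀ s : Finset α, s ⊆ e.1 → e.2 ∉ s) ∧
    (∀ s : Finset α, s ⊆ e.1 → insert e.2 (e.1 \ s) = insert e.2 e.1 \ s) ∧
    (∀ s : Finset α, s ⊆ e.1 → s ∪ (e.1 \ s) = e.1) := by
  obtain ⟨v, x⟩ := e
  unfold netE at he
  rw [mem_filter] at he
  obtain ⟨-, hxv, hv, hcv, hvx, hcx⟩ := he
  simp only at hxv hv hcv hvx hcx ⊢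
  have hi1 : i ≤ v.card := by
    rcases hv with h1 | h1
    · exact (h.cS v h1).ge
    · unfold Mid at h1
      rw [mem_filter] at h1
      omega
  have hi2 : v.card + 1 ≤ j := by
    rw [← card_insert_of_notMem hxv]
    rcases hvx with h1 | h1
    · unfold Mid at h1
      rw [mem_filter] at h1
      omega
    · exact (h.cT _ h1).le
  have hxs : ∀ s : Finset α, s ⊆ v → x ∉ s := fun s hs h1 => hxv (hs h1)
  have eI : ∀ s : Finset α, s ⊆ v → insert x (v \ s) = insert x v \ s := fun s hs =>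
    (insert_sdiff_of_notMem v (hxs s hs)).symm
  have eU : ∀ s : Finset α, s ⊆ v → s ∪ (v \ s) = v := fun s hs => union_sdiff_of_subset hs
  have hisE : ∀ s : Finset α, s ⊆ v → isE (ty c s) (v \ s) x := by
    intro s hs
    unfold isE ty
    rw [eU s hs, union_insert, eU s hs]
    exact ⟨hcv, hcx⟩
  have hden : (0 : ℝ) < (j : ℝ) - i - ((v.card : ℝ) - i) := by
    have : (v.card : ℝ) + 1 ≤ j := by exact_mod_cast hi2
    linarith
  have hl : (0 : ℝ) < (j : ℝ) - i + 1 := by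
    have : (i : ℝ) < j := by exact_mod_cast h.hij
    linarith
  refine ⟨⟨fun s X => fw (ty c s) X / (((j : ℝ) - i + 1) * ((j - i).choose X.card : ℝ) *
      ((j - i - X.card).choose (v.card - i - X.card) : ℝ) * ((j : ℝ) - i - ((v.card : ℝ) - i))),
    fun t => fw (fun U => (c (t \ U)).flip) (t \ insert x v),
    fun s _ X => div_nonneg (fw_nonneg _ _) (by positivity), fun t => fw_nonneg _ _, ?_⟩,
    hxs, eI, eU⟩
  intro s hs hsv t ht htv X
  have hvt : v ⊆ t := (subset_insert _ _).trans htv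
  have hst : s ⊆ t := hsv.trans hvt
  have c1 : (t \ s).card = j - i := by
    rw [card_sdiff_of_subset hst, h.cS s hs, h.cT t ht]
  have c2 : ((t \ s).card : ℝ) = (j : ℝ) - i := by
    rw [card_sdiff_cast hst, h.cS s hs, h.cT t ht]
  have c3 : (v \ s).card = v.card - i := by
    rw [card_sdiff_of_subset hsv, h.cS s hs]
  have c4 : ((v \ s).card : ℝ) = (v.card : ℝ) - i := by
    rw [card_sdiff_cast hsv, h.cS s hs]
  unfold pe
  have b1 : bw (ty c s) (t \ s) (insert x (v \ s)) =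
      fw (fun U => (c (t \ U)).flip) (t \ insert x v) := by
    rw [eI s hsv]
    exact bw_ty c (hsv.trans (subset_insert _ _)) hst
  rw [b1, c2, c4, c1, c3]
  by_cases hX : X ⊆ v \ s
  · rw [if_pos ⟨hX, hisE s hsv⟩, if_pos hX]
    ring
  · rw [if_neg (fun g => hX g.1), if_neg hX]

theorem ysum_e (hY : Stmt_YSUM α) (e : Finset α × α)
    (he : e.2 ∉ e.1) (s t : Finset α) (hsv : s ⊆ e.1)
    (htv : insert e.2 e.1 ⊆ t) :
    ∑ X ∈ (t \ s).powerset, pe (ty c s) (t \ s) X (e.1 \ s) e.2 =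
      yLe (ty c s) (t \ s) (e.1 \ s) e.2 := by
  have hvt : e.1 ⊆ t := (subset_insert _ _).trans htv
  refine (hY (ty c s) (t \ s) (e.1 \ s) (sdiff_subset_sdiff hvt (Subset.refl _))).1 e.2 ?_
  simp only [mem_sdiff, not_and, not_not]
  exact ⟨⟨htv (mem_insert_self _ _), fun g => he (hsv g)⟩, fun g => absurd g he⟩

/-- OBJEG: the entropy inequality of one cut edge for an arbitrary kernel of the `S`-side. -/
theorem objeg (hO : Stmt_ONE) (hY : Stmt_YSUM α) (h : Net c i j S T a b) (e : Finset α × α)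
    (he : e ∈ netE c i j S T) (qS : Finset α → Finset α → Finset α → ℝ)
    (hq : ∀ s ∈ S, s ⊆ e.1 → ∀ X ⊆ e.1 \ s, ∀ t ∈ T, insert e.2 e.1 ⊆ t → 0 < qS s X t)
    (hq1 : ∀ s ∈ S, s ⊆ e.1 → ∀ X ⊆ e.1 \ s,
      ∑ t ∈ T.filter (fun t => insert e.2 e.1 ⊆ t), qS s X t ≤ 1) :
    ∑ s ∈ S.filter (fun s => s ⊆ e.1), ∑ t ∈ T.filter (fun t => insert e.2 e.1 ⊆ t), a s * b t *
      ((∑ X ∈ (t \ s).powerset, pe (ty c s) (t \ s) X (e.1 \ s) e.2 * Real.log (qS s X t)) +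
        yLe (ty c s) (t \ s) (e.1 \ s) e.2 * (-Real.log (NU c S a b t (s ∪ (e.1 \ s))) +
          Real.log (Zt (ty c s) (t \ s) / yLe (ty c s) (t \ s) (e.1 \ s) e.2))) ≤
      -(WE c S T a b e.1 e.2 * Real.log (WE c S T a b e.1 e.2)) := by
  obtain ⟨⟨F0, G0, hF0, hG0, hp⟩, hxs, eI, eU⟩ := pe_split h e he
  have hxv : e.2 ∉ e.1 := hxs e.1 (Subset.refl _)
  have hgen := obj_ker hO h e.1 (insert e.2 e.1) (subset_insert _ _) F0 G0 hF0 hG0
    (fun s t X => pe (ty c s) (t \ s) X (e.1 \ s) e.2)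
    (fun s t => yLe (ty c s) (t \ s) (e.1 \ s) e.2) hp
    (fun s _ hsv t _ htv => ysum_e hY e hxv s t hsv htv) qS hq hq1
  unfold WE
  refine le_trans (le_of_eq ?_) hgen
  refine sum_congr rfl fun s hs => sum_congr rfl fun t _ => ?_
  rw [eU s (mem_filter.1 hs).2]

end

theorem stmt_OBJE {α : Type} [Fintype α] [DecidableEq α] (hO : Stmt_ONE) (hK1 : Stmt_KONE α)
    (hK2 : Stmt_KTWO α) (hY : Stmt_YSUM α) : Stmt_OBJE α := by
  intro c i j S T a b h e he
  obtain ⟨⟨F0, G0, hF0, hG0, hp⟩, hxs, eI, eU⟩ := pe_split h e he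
  have hxv : e.2 ∉ e.1 := hxs e.1 (Subset.refl _)
  have hgen := obj_gen hO hK1 hK2 h e.1 (insert e.2 e.1) (subset_insert _ _) F0 G0 hF0 hG0
    (fun s t X => pe (ty c s) (t \ s) X (e.1 \ s) e.2)
    (fun s t => yLe (ty c s) (t \ s) (e.1 \ s) e.2) hp
    (fun s _ hsv t _ htv => ysum_e hY e hxv s t hsv htv)
  unfold WE
  refine le_trans (le_of_eq ?_) hgen
  refine sum_congr rfl fun s hs => sum_congr rfl fun t _ => ?_
  have hsv := (mem_filter.1 hs).2
  rw [eI s hsv, eU s hsv]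

end R5
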