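import Pool.Agent.Work.MP_8b6acb_cap.OBJ

/-! Block OBJX, and its version OBJXG for an arbitrary kernel (helper51). -/

namespace R5

open Finset MP_8b6acb_co

section

variable {α : Type} [Fintype α] [DecidableEq α] {c : Finset α → Lab} {i j : ℕ}
  {S T : Finset (Finset α)} {a b : Finset α → ℝ}

/-- `pv` is a product of a function of `(s, X)` and a function of `t`. -/
theorem pv_split (h : Net c i j S T a b) (v : Finset α) (hv : v ∈ netX c i j) :
    ∃ (F0 : Finset α → Finset α → ℝ) (G0 : Finset α → ℝ), (∀ s ∈ S, ∀ X, 0 ≤ F0 s X) ∧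
      (∀ t, 0 ≤ G0 t) ∧ ∀ s ∈ S, s ⊆ v → ∀ t ∈ T, v ⊆ t → ∀ X,
        pv (ty c s) (t \ s) X (v \ s) = if X ⊆ v \ s then F0 s X * G0 t else 0 := by
  unfold netX at hv
  rw [mem_filter] at hv
  obtain ⟨hv, hcv⟩ := hv
  unfold Mid at hv
  rw [mem_filter] at hv
  have hi1 : i ≤ v.card := by omega
  have hi2 : v.card ≤ j := by omega
  have eU : ∀ s : Finset α, s ⊆ v → s ∪ (v \ s) = v := fun s hs => union_sdiff_of_subset hs
  have hl : (0 : ℝ) < (j : ℝ) - i + 1 := by
    have : (i : ℝ) < j := by exact_mod_cast h.hij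
    linarith
  refine ⟨fun s X => fw (ty c s) X / (((j : ℝ) - i + 1) * ((j - i).choose X.card : ℝ) *
      ((j - i - X.card).choose (v.card - i - X.card) : ℝ)),
    fun t => (∑ x ∈ t \ v, fw (fun U => (c (t \ U)).flip) (t \ insert x v)) /
      ((t \ v).card : ℝ),
    fun s _ X => div_nonneg (fw_nonneg _ _) (by positivity),
    fun t => div_nonneg (sum_nonneg fun _ _ => fw_nonneg _ _) (Nat.cast_nonneg _), ?_⟩
  intro s hs hsv t ht hvt X
  have hst : s ⊆ t := hsv.trans hvt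
  have c1 : (t \ s).card = j - i := by
    rw [card_sdiff_of_subset hst, h.cS s hs, h.cT t ht]
  have c2 : ((t \ s).card : ℝ) = (j : ℝ) - i := by
    rw [card_sdiff_cast hst, h.cS s hs, h.cT t ht]
  have c3 : (v \ s).card = v.card - i := by
    rw [card_sdiff_of_subset hsv, h.cS s hs]
  have eD : (t \ s) \ (v \ s) = t \ v := by
    ext z
    simp only [mem_sdiff, not_and, not_not]
    constructor
    · rintro ⟨⟨h1, h2⟩, h3⟩
      exact ⟨h1, fun h4 => h2 (h3 h4)⟩
    · rintro ⟨h1, h2⟩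
      exact ⟨⟨h1, fun h3 => h2 (hsv h3)⟩, fun h3 => absurd h3 h2⟩
  unfold pv
  have b1 : bwb (ty c s) (t \ s) (v \ s) =
      (∑ x ∈ t \ v, fw (fun U => (c (t \ U)).flip) (t \ insert x v)) /
        ((t \ v).card : ℝ) := by
    unfold bwb
    rw [eD]
    congr 1
    refine sum_congr rfl fun x hx => ?_
    have hxs : x ∉ s := fun g => (mem_sdiff.1 hx).2 (hsv g)
    rw [← insert_sdiff_of_notMem v hxs]
    exact bw_ty c (hsv.trans (subset_insert _ _)) hst
  rw [b1, c2, c1, c3]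
  have hX0 : ty c s (v \ s) = Lab.X := by
    unfold ty
    rw [eU s hsv]
    exact hcv
  by_cases hX : X ⊆ v \ s
  · rw [if_pos ⟨hX, hX0⟩, if_pos hX]
    ring
  · rw [if_neg (fun g => hX g.1), if_neg hX]

/-- OBJXG: the entropy inequality of one cut vertex for an arbitrary kernel of the `S`-side. -/
theorem objxg (hO : Stmt_ONE) (hY : Stmt_YSUM α) (h : Net c i j S T a b) (v : Finset α)
    (hv : v ∈ netX c i j) (qS : Finset α → Finset α → Finset α → ℝ)
    (hq : ∀ s ∈ S, s ⊆ v → ∀ X ⊆ v \ s, ∀ t ∈ T, v ⊆ t → 0 < qS s X t)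
    (hq1 : ∀ s ∈ S, s ⊆ v → ∀ X ⊆ v \ s,
      ∑ t ∈ T.filter (fun t => v ⊆ t), qS s X t ≤ 1) :
    ∑ s ∈ S.filter (fun s => s ⊆ v), ∑ t ∈ T.filter (fun t => v ⊆ t), a s * b t *
      ((∑ X ∈ (t \ s).powerset, pv (ty c s) (t \ s) X (v \ s) * Real.log (qS s X t)) +
        yLv (ty c s) (t \ s) (v \ s) * (-Real.log (NU c S a b t (s ∪ (v \ s))) +
          Real.log (Zt (ty c s) (t \ s) / yLv (ty c s) (t \ s) (v \ s)))) ≤
      -(WX c S T a b v * Real.log (WX c S T a b v)) := by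
  obtain ⟨F0, G0, hF0, hG0, hp⟩ := pv_split h v hv
  have hgen := obj_ker hO h v v (Subset.refl _) F0 G0 hF0 hG0
    (fun s t X => pv (ty c s) (t \ s) X (v \ s))
    (fun s t => yLv (ty c s) (t \ s) (v \ s)) hp
    (fun s _ hsv t _ hvt =>
      (hY (ty c s) (t \ s) (v \ s) (sdiff_subset_sdiff hvt (Subset.refl _))).2) qS hq hq1
  unfold WX
  refine le_trans (le_of_eq ?_) hgen
  refine sum_congr rfl fun s hs => sum_congr rfl fun t _ => ?_
  rw [union_sdiff_of_subset (mem_filter.1 hs).2]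

end

theorem stmt_OBJX {α : Type} [Fintype α] [DecidableEq α] (hO : Stmt_ONE) (hK1 : Stmt_KONE α)
    (hK2 : Stmt_KTWO α) (hY : Stmt_YSUM α) : Stmt_OBJX α := by
  intro c i j S T a b h v hv
  obtain ⟨F0, G0, hF0, hG0, hp⟩ := pv_split h v hv
  have hgen := obj_gen hO hK1 hK2 h v v (Subset.refl _) F0 G0 hF0 hG0
    (fun s t X => pv (ty c s) (t \ s) X (v \ s))
    (fun s t => yLv (ty c s) (t \ s) (v \ s)) hp
    (fun s _ hsv t _ hvt =>
      (hY (ty c s) (t \ s) (v \ s) (sdiff_subset_sdiff hvt (Subset.refl _))).2)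
  unfold WX
  refine le_trans (le_of_eq ?_) hgen
  refine sum_congr rfl fun s hs => sum_congr rfl fun t _ => ?_
  have hsv := (mem_filter.1 hs).2
  rw [union_sdiff_of_subset hsv]

end R5
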