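import Pool.Agent.Work.MP_8b6acb_cap.Interface

/-! Block ONE: the entropy of a product measure against kernels. -/

namespace R5

open Finset

/-- Gibbs inequality against a sub-probability. -/
theorem one_gibbs (hG : Stmt_GIBBS) {ι : Type} (K : Finset ι) (w c : ι → ℝ)
    (hw : ∀ k ∈ K, 0 ≤ w k) (hc : ∀ k ∈ K, 0 ≤ c k) (hwc : ∀ k ∈ K, 0 < w k → 0 < c k)
    (h1 : ∑ k ∈ K, c k ≤ 1) :
    ∑ k ∈ K, w k * (Real.log (c k) - Real.log (w k)) ≤
      -((∑ k ∈ K, w k) * Real.log (∑ k ∈ K, w k)) := by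
  have hW0 : 0 ≤ ∑ k ∈ K, w k := sum_nonneg hw
  rcases eq_or_lt_of_le hW0 with hW | hW
  · have h0 : ∀ k ∈ K, w k = 0 := (sum_eq_zero_iff_of_nonneg hw).1 hW.symm
    rw [← hW, zero_mul, neg_zero]
    refine le_of_eq (sum_eq_zero fun k hk => ?_)
    rw [h0 k hk, zero_mul]
  · obtain ⟨k0, hk0, hk0'⟩ : ∃ k ∈ K, 0 < w k := by
      by_contra h
      push Not at h
      exact absurd (sum_nonpos h) (not_le.2 hW)
    have hC : 0 < ∑ k ∈ K, c k :=
      lt_of_lt_of_le (hwc k0 hk0 hk0') (single_le_sum hc hk0)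
    have h2 := hG ι K w c hw hc hwc
    have h3 : ∑ k ∈ K, w k * Real.log (c k / w k) =
        ∑ k ∈ K, w k * (Real.log (c k) - Real.log (w k)) := by
      refine sum_congr rfl fun k hk => ?_
      rcases eq_or_lt_of_le (hw k hk) with h | h
      · rw [← h, zero_mul, zero_mul]
      · rw [Real.log_div (hwc k hk h).ne' h.ne']
    rw [h3, Real.log_div hC.ne' hW.ne'] at h2
    have h4 : Real.log (∑ k ∈ K, c k) ≤ 0 := Real.log_nonpos hC.le h1
    have h5 : (∑ k ∈ K, w k) * Real.log (∑ k ∈ K, c k) ≤ 0 := mul_nonpos_of_nonneg_of_nonpos hW0 h4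
    linarith

theorem stmt_ONE (hGI : Stmt_GIBBS) : Stmt_ONE := by
  intro ι σ θ _ P S T pr F G qS qT hpr hF hG hqS hqT hqS0 hqT0 hqS1 hqT1
  set FS : σ → ℝ := fun s => ∑ p' ∈ P.filter (fun p' => pr p' = s), F p' with hFS
  have hFS0 : ∀ s, 0 ≤ FS s := fun s => sum_nonneg fun p hp => hF p (mem_filter.1 hp).1
  have hSum : ∀ h : σ → ℝ, ∑ p ∈ P, F p * h (pr p) = ∑ s ∈ S, FS s * h s := by
    intro h
    rw [← sum_fiberwise_of_maps_to hpr]
    refine sum_congr rfl fun s _ => ?_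
    rw [hFS, sum_mul]
    refine sum_congr rfl fun p hp => ?_
    rw [(mem_filter.1 hp).2]
  have hF0 : 0 ≤ ∑ p ∈ P, F p := sum_nonneg hF
  have hG0 : 0 ≤ ∑ t ∈ T, G t := sum_nonneg hG
  have hFSs : ∑ s ∈ S, FS s = ∑ p ∈ P, F p := by
    have := hSum (fun _ => 1)
    simp only [mul_one] at this
    exact this.symm
  set FF := ∑ p ∈ P, F p with hFF
  set GG := ∑ t ∈ T, G t with hGG
  -- splitting
  have hsplit : ∑ p ∈ P, ∑ t ∈ T, F p * G t * (Real.log (qS p t) + Real.log (qT t (pr p)) -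
      Real.log (FS (pr p)) - Real.log (G t)) =
      (∑ p ∈ P, F p * ∑ t ∈ T, G t * (Real.log (qS p t) - Real.log (G t))) +
      ∑ t ∈ T, G t * ∑ p ∈ P, F p * (Real.log (qT t (pr p)) - Real.log (FS (pr p))) := by
    have e1 : ∑ t ∈ T, G t * ∑ p ∈ P, F p * (Real.log (qT t (pr p)) - Real.log (FS (pr p))) =
        ∑ p ∈ P, ∑ t ∈ T, F p * G t * (Real.log (qT t (pr p)) - Real.log (FS (pr p))) := by
      rw [sum_comm]
      refine sum_congr rfl fun t _ => ?_
      rw [mul_sum]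
      exact sum_congr rfl fun p _ => by ring
    have e2 : ∑ p ∈ P, F p * ∑ t ∈ T, G t * (Real.log (qS p t) - Real.log (G t)) =
        ∑ p ∈ P, ∑ t ∈ T, F p * G t * (Real.log (qS p t) - Real.log (G t)) := by
      refine sum_congr rfl fun p _ => ?_
      rw [mul_sum]
      exact sum_congr rfl fun t _ => by ring
    rw [e1, e2, ← sum_add_distrib]
    refine sum_congr rfl fun p _ => ?_
    rw [← sum_add_distrib]
    exact sum_congr rfl fun t _ => by ring
  have hA : ∑ p ∈ P, F p * ∑ t ∈ T, G t * (Real.log (qS p t) - Real.log (G t)) ≤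
      FF * -(GG * Real.log GG) := by
    rw [hFF, sum_mul]
    refine sum_le_sum fun p hp => ?_
    rcases eq_or_lt_of_le (hF p hp) with h | h
    · rw [← h, zero_mul, zero_mul]
    · exact mul_le_mul_of_nonneg_left (one_gibbs hGI T G (qS p) hG (hqS0 p hp)
        (fun t ht hGt => hqS p hp t ht h hGt) (hqS1 p hp)) h.le
  have hB : ∑ t ∈ T, G t * ∑ p ∈ P, F p * (Real.log (qT t (pr p)) - Real.log (FS (pr p))) ≤
      GG * -(FF * Real.log FF) := by
    rw [hGG, sum_mul]
    refine sum_le_sum fun t ht => ?_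
    rcases eq_or_lt_of_le (hG t ht) with h | h
    · rw [← h, zero_mul, zero_mul]
    · rw [hSum (fun s => Real.log (qT t s) - Real.log (FS s)), ← hFSs]
      refine mul_le_mul_of_nonneg_left (one_gibbs hGI S FS (qT t) (fun s _ => hFS0 s) (hqT0 t ht)
        ?_ (hqT1 t ht)) h.le
      intro s _ hs
      obtain ⟨p, hp, hp'⟩ : ∃ p ∈ P.filter (fun p' => pr p' = s), 0 < F p := by
        by_contra hn
        push Not at hn
        exact absurd (sum_nonpos hn) (not_le.2 hs)
      rw [mem_filter] at hp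
      rw [← hp.2]
      exact hqT p hp.1 t ht hp' h
  rw [hsplit]
  have hfin : FF * -(GG * Real.log GG) + GG * -(FF * Real.log FF) ≤
      -(FF * GG) * Real.log (FF * GG) := by
    rcases eq_or_lt_of_le hF0 with h | h
    · rw [← h]; simp
    rcases eq_or_lt_of_le hG0 with h' | h'
    · rw [← h']; simp
    rw [Real.log_mul h.ne' h'.ne']
    apply le_of_eq
    ring
  linarith

end R5
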