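import Pool.Agent.Work.MP_8b6acb_cap.Interface

/-! Block PPW. -/

namespace R5

open Finset MP_8b6acb_co

theorem stmt_PPW (α : Type) [Fintype α] [DecidableEq α] (hC : Stmt_CUT3 α) : Stmt_PPW α := by
  intro i j S φ A hij hmat hSA hA
  set l := j - i with hl
  set κ : Finset α → α → ℕ := cap3 i j with hκ
  set T := S.image φ with hT
  have hTcard : ∀ t ∈ T, t.card = j := by
    intro t ht
    obtain ⟨s, hs, rfl⟩ := mem_image.1 ht
    exact hmat.cT s hs
  have hAT : ∀ t ∈ T, t ∉ A := by
    intro t ht h
    have h1 := hTcard t ht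
    rcases hA t h with h2 | h2
    · have := hmat.cS t h2; omega
    · rw [mem_Mid] at h2; omega
  set c : Finset α → Lab := fun v => if v ∈ A then Lab.A else if v ∈ T then Lab.B else
    if dgw κ A v ≤ l then Lab.B else Lab.X with hc
  have hcA : ∀ v, c v = Lab.A ↔ v ∈ A := by
    intro v
    simp only [hc]
    split_ifs <;> simp_all
  have hcT : ∀ t ∈ T, c t = Lab.B := by
    intro t ht
    simp only [hc]
    rw [if_neg (hAT t ht), if_pos ht]
  have hcB : ∀ v ∈ Mid i j, c v = Lab.B → v ∉ A ∧ dgw κ A v ≤ l := by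
    intro v hv h
    rw [mem_Mid] at hv
    have hvT : v ∉ T := fun h => by have := hTcard v h; omega
    simp only [hc] at h
    split_ifs at h with h1 h2
    exact ⟨h1, h2⟩
  have hcX : ∀ v, c v = Lab.X → v ∉ A ∧ l < dgw κ A v := by
    intro v h
    simp only [hc] at h
    split_ifs at h with h1 h2 h3
    exact ⟨h1, by omega⟩
  set S' := S.filter (fun s => dgw κ A (φ s) ≤ l) with hS'
  have hS'S : S' ⊆ S := filter_subset _ _
  have hmat' : Mat i j S' φ := hmat.mono hS'S
  set T' := S'.image φ with hT'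
  have hT'T : T' ⊆ T := image_subset_image hS'S
  have h1 := hC i j S' φ c (by omega) hmat' (fun s hs => (hcA s).2 (hSA (hS'S hs)))
    (fun t ht => hcT t (hT'T ht))
  rw [← hT'] at h1
  set E := netE c i j S' T' with hE
  have hEmem : ∀ e ∈ E, e.2 ∉ e.1 ∧ e.1 ∈ A ∧ (e.1 ∈ S' ∨ e.1 ∈ Mid i j) ∧
      ((insert e.2 e.1 ∈ Mid i j ∧ insert e.2 e.1 ∉ A ∧ dgw κ A (insert e.2 e.1) ≤ l) ∨
        insert e.2 e.1 ∈ T') := by
    intro e he
    rw [hE] at he
    unfold netE at he
    rw [mem_filter] at he
    obtain ⟨-, h2, h3, h4, h5, h6⟩ := he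
    refine ⟨h2, (hcA _).1 h4, h3, ?_⟩
    rcases h5 with h5 | h5
    · exact Or.inl ⟨h5, hcB _ h5 h6⟩
    · exact Or.inr h5
  -- weights
  have h2 : E.card + 2 * (E.filter (fun e => e.1 ∈ S')).card +
      2 * (E.filter (fun e => insert e.2 e.1 ∈ T')).card ≤ ∑ e ∈ E, κ e.1 e.2 := by
    rw [card_eq_sum_ones, card_filter, card_filter, mul_sum, mul_sum, ← sum_add_distrib,
      ← sum_add_distrib]
    refine sum_le_sum fun e he => ?_
    obtain ⟨h3, h4, h5, h6⟩ := hEmem e he
    have h7 : (insert e.2 e.1).card = e.1.card + 1 := card_insert_of_notMem h3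
    simp only [hκ, cap3]
    by_cases h8 : e.1 ∈ S'
    · have h9 := hmat'.cS _ h8
      have h10 : insert e.2 e.1 ∉ T' := fun h => by
        have := hTcard _ (hT'T h); omega
      simp [h8, h9, h10]
    · by_cases h10 : insert e.2 e.1 ∈ T'
      · have := hTcard _ (hT'T h10)
        rw [if_neg h8, if_pos h10, if_pos (Or.inr (by omega))]
        omega
      · rw [if_neg h8, if_neg h10]
        split_ifs <;> omega
  -- fibres
  set M' := (Mid i j).filter (fun v => v ∉ A ∧ dgw κ A v ≤ l) with hM'
  have h3 : ∑ e ∈ E, κ e.1 e.2 ≤ ∑ v ∈ M' ∪ T', dgw κ A v := by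
    have hmaps : ∀ e ∈ E, insert e.2 e.1 ∈ M' ∪ T' := by
      intro e he
      obtain ⟨-, -, -, h6⟩ := hEmem e he
      rw [mem_union]
      rcases h6 with h6 | h6
      · left; rw [hM', mem_filter]; exact h6
      · exact Or.inr h6
    rw [← sum_fiberwise_of_maps_to hmaps]
    refine sum_le_sum fun v hv => ?_
    unfold dgw
    rw [← sum_filter]
    have hfib : ∀ e ∈ E.filter (fun e => insert e.2 e.1 = v), e.1 = v.erase e.2 ∧ e.2 ∈ v ∧
        v.erase e.2 ∈ A := by
      intro e he
      rw [mem_filter] at he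
      obtain ⟨h4, h5, -, -⟩ := hEmem e he.1
      have h6 : v.erase e.2 = e.1 := by rw [← he.2, erase_insert h4]
      exact ⟨h6.symm, by rw [← he.2]; exact mem_insert_self _ _, by rw [h6]; exact h5⟩
    calc ∑ e ∈ E.filter (fun e => insert e.2 e.1 = v), κ e.1 e.2
        = ∑ e ∈ E.filter (fun e => insert e.2 e.1 = v), κ (v.erase e.2) e.2 := by
          refine sum_congr rfl fun e he => ?_
          rw [← (hfib e he).1]
      _ = ∑ x ∈ (E.filter (fun e => insert e.2 e.1 = v)).image (fun e => e.2),
          κ (v.erase x) x := by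
          rw [sum_image]
          intro e he e' he' h
          have h4 := (hfib e he).1
          have h5 := (hfib e' he').1
          simp only at h
          rw [← h] at h5
          exact Prod.ext (h4.trans h5.symm) h
      _ ≤ _ := by
          refine sum_le_sum_of_subset ?_
          intro x hx
          obtain ⟨e, he, rfl⟩ := mem_image.1 hx
          exact mem_filter.2 (hfib e he).2
  have hdisj : Disjoint M' T' := by
    rw [Finset.disjoint_left]
    intro v h4 h5
    rw [hM', mem_filter, mem_Mid] at h4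
    have := hTcard v (hT'T h5)
    omega
  rw [sum_union hdisj] at h3
  -- vertices
  have h4 : ∑ v ∈ M', dgw κ A v + l * (netX c i j).card ≤
      ∑ v ∈ Mid i j, if v ∈ A then 0 else min l (dgw κ A v) := by
    have e1 : l * (netX c i j).card = ∑ v ∈ Mid i j, if c v = Lab.X then l else 0 := by
      unfold netX
      rw [← sum_filter, sum_const, smul_eq_mul, mul_comm]
    rw [hM', sum_filter, e1, ← sum_add_distrib]
    refine sum_le_sum fun v _ => ?_
    by_cases h5 : v ∈ A
    · have h6 : c v ≠ Lab.X := fun h => (hcX v h).1 h5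
      simp [h5, h6]
    · by_cases h6 : dgw κ A v ≤ l
      · have h7 : c v ≠ Lab.X := fun h => by have := (hcX v h).2; omega
        simp [h5, h6, h7]
      · rw [if_neg (fun h => h6 h.2), if_neg h5, min_eq_left (by omega), zero_add]
        split_ifs <;> omega
  have h5 : ∑ t ∈ T, min l (dgw κ A t) = ∑ t ∈ T', dgw κ A t + l * (S \ S').card := by
    rw [hT, sum_image (fun s hs s' hs' h => hmat.inj hs hs' h), hT',
      sum_image (fun s hs s' hs' h => hmat'.inj hs hs' h), ← sum_sdiff hS'S, add_comm]
    congr 1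
    · refine sum_congr rfl fun s hs => ?_
      rw [hS', mem_filter] at hs
      exact min_eq_right hs.2
    · rw [mul_comm, ← smul_eq_mul, ← sum_const]
      refine sum_congr rfl fun s hs => ?_
      rw [mem_sdiff, hS', mem_filter, not_and] at hs
      have := hs.2 hs.1
      exact min_eq_left (by omega)
  have h6 : S.card = S'.card + (S \ S').card := by
    rw [card_sdiff_of_subset hS'S]
    have := card_le_card hS'S
    omega
  rw [← hl] at h1
  rw [h5, h6, mul_add]
  omega

end R5
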