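import Pool.Agent.Work.MP_8b6acb_cap.Interface

/-! # Block QLB: lower bound for `Q0` (helper52) -/

set_option autoImplicit false

namespace R5

open Finset

namespace QlbAux

variable {α : Type} [DecidableEq α]

theorem ar1 (b e u c : ℝ) (hu : 0 < u) (hc : 0 < c) :
    b * ((e - (u - 1) - 1) * ((u - 1) + 1) / (u * c)) = b * (e - u) / c := by
  field_simp
  ring

theorem ar2 (s e u v c : ℝ) (hu : 0 < u) (hc : 0 < c) :
    s * (e * v / (u * c)) = s / u * (e * v / c) := by
  field_simp

theorem ar3 (b e u c : ℝ) (hu : 0 < e - u + 1) (hc : 0 < c) :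
    b * ((e - (u - 1) - 1) / 2 / c) =
      b * ((e - u) * (e - u + 1) / 2) / (c * (e - u + 1)) := by
  field_simp
  ring

theorem ar4 (b u c : ℝ) (hu : 0 < u) (hc : 0 < c) : u * (b / (u * c)) = b / c := by
  field_simp

/-- sums over the edges -/
theorem isE_ite {τ : Finset α → Lab} {D V : Finset α} {x : α} (hV : V ⊆ D) (hx : x ∈ D)
    (c w : ℝ) : (if isE τ V x then bw τ D (insert x V) / c * w else 0) =
      if τ V = Lab.A then bw τ D (insert x V) / c * w else 0 := by
  by_cases h1 : τ V = Lab.A
  · rw [if_pos h1]
    by_cases h2 : τ (insert x V) = Lab.B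
    · rw [if_pos ⟨h1, h2⟩]
    · rw [if_neg (fun h => h2 h.2), bw_of_ne (insert_subset hx hV) h2]
      simp
  · rw [if_neg h1, if_neg (fun h => h1 h.1)]

/-- the part of `Q0` of the set `V` -/
noncomputable def qq (τ : Finset α → Lab) (D : Finset α) (g : α) (V : Finset α) : ℝ :=
  (∑ x ∈ D \ V, if isE τ V x then
      bw τ D (insert x V) / ((D.card.choose V.card : ℝ) * ((D.card : ℝ) - V.card)) *
      (if g ∈ insert x V then (D.card : ℝ) - V.card - 1 else ((D.card : ℝ) - 2 - V.card) / 2)
    else 0) +
  (if τ V = Lab.X then bwb τ D V / (D.card.choose V.card : ℝ) *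
      (if g ∈ V then (D.card : ℝ) - V.card else ((D.card : ℝ) - 1 - V.card) / 2) else 0)

theorem Q0_eq (τ : Finset α → Lab) (D : Finset α) (g : α) :
    Q0 τ D g = ∑ V ∈ D.powerset, qq τ D g V := by
  unfold Q0 qq
  rw [← sum_add_distrib]

/-- the sets which contain `g` -/
theorem case1 {τ : Finset α → Lab} {D : Finset α} {g : α} (hB : τ D = Lab.B) (hg : g ∈ D)
    {V : Finset α} (hV : V ⊆ D.erase g) :
    (if V = D.erase g then 0 else
      ((∑ x ∈ D.erase g \ V, bw τ D (insert g (insert x V))) /
        (((D.erase g).card : ℝ) - V.card) - bw τ D (insert g V)) *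
      ((((D.erase g).card : ℝ) - V.card - 1) * ((V.card : ℝ) + 1) /
        ((D.erase g).card.choose V.card : ℝ))) ≤ (D.card : ℝ) * qq τ D g (insert g V) := by
  have hgE : g ∉ D.erase g := notMem_erase g D
  have hgV : g ∉ V := fun h => hgE (hV h)
  have hVD : insert g V ⊆ D := insert_subset hg (hV.trans (erase_subset _ _))
  have hn : D.card = (D.erase g).card + 1 := by
    rw [card_erase_of_mem hg]
    have := card_pos.2 ⟨g, hg⟩
    omega
  have hsd : D \ insert g V = D.erase g \ V := by
    ext y
    simp only [mem_sdiff, mem_insert, mem_erase, not_or]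
    tauto
  have hcV : (insert g V).card = V.card + 1 := card_insert_of_notMem hgV
  split_ifs with hVE
  · -- the whole set
    have h1 : insert g V = D := by rw [hVE, insert_erase hg]
    rw [h1]
    unfold qq
    rw [sdiff_self, bot_eq_empty, sum_empty, hB]
    simp
  · have hlt : V.card < (D.erase g).card := card_lt_card (ssubset_of_subset_of_ne hV hVE)
    set N : ℝ := ((D.erase g).card : ℝ) with hN
    have hk : (V.card : ℝ) + 1 ≤ N := by
      rw [hN]
      exact_mod_cast hlt
    set Sg : ℝ := ∑ x ∈ D.erase g \ V, bw τ D (insert g (insert x V)) with hSg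
    have hSg0 : 0 ≤ Sg := sum_nonneg fun _ _ => bw_nonneg _ _ _
    have hne : insert g V ≠ D := by
      intro h
      apply hVE
      rw [← h, erase_insert hgV]
    have hbb : bwb τ D (insert g V) = Sg / (N - V.card) := by
      unfold bwb
      rw [hsd, card_sdiff_cast hV, hSg]
      congr 1
      refine sum_congr rfl fun x _ => ?_
      rw [insert_comm]
    have hch : (D.card.choose (V.card + 1) : ℝ) * ((V.card : ℝ) + 1) =
        (D.card : ℝ) * ((D.erase g).card.choose V.card : ℝ) := by
      have h1 := Nat.add_one_mul_choose_eq (D.erase g).card V.card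
      rw [← hn] at h1
      exact_mod_cast h1.symm
    have hn' : (D.card : ℝ) = N + 1 := by
      rw [hn]
      push_cast
      rfl
    have p1 : (0 : ℝ) < ((D.erase g).card.choose V.card : ℝ) := choose_pos_real hlt.le
    have p2 : (0 : ℝ) < (D.card.choose (V.card + 1) : ℝ) := choose_pos_real (by omega)
    have p3 : (0 : ℝ) < (D.card : ℝ) := by
      rw [hn']
      linarith [(Nat.cast_nonneg V.card : (0 : ℝ) ≤ V.card)]
    have p4 : 0 < N - V.card := by linarith
    -- common form
    have hform : (Sg / (N - V.card) - bw τ D (insert g V)) *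
        ((N - V.card - 1) * ((V.card : ℝ) + 1) / ((D.erase g).card.choose V.card : ℝ)) =
        (D.card : ℝ) * ((Sg / (N - V.card) - bw τ D (insert g V)) * (N - V.card - 1) /
          (D.card.choose (V.card + 1) : ℝ)) := by
      have h1 : ((V.card : ℝ) + 1) / ((D.erase g).card.choose V.card : ℝ) =
          (D.card : ℝ) / (D.card.choose (V.card + 1) : ℝ) := by
        rw [div_eq_div_iff p1.ne' p2.ne', ← hch]
        ring
      calc (Sg / (N - V.card) - bw τ D (insert g V)) *
          ((N - V.card - 1) * ((V.card : ℝ) + 1) / ((D.erase g).card.choose V.card : ℝ))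
          = (Sg / (N - V.card) - bw τ D (insert g V)) * (N - V.card - 1) *
            (((V.card : ℝ) + 1) / ((D.erase g).card.choose V.card : ℝ)) := by ring
        _ = _ := by
          rw [h1]
          ring
    rw [hform]
    apply mul_le_mul_of_nonneg_left _ p3.le
    -- the cases
    have hq : qq τ D g (insert g V) = (if τ (insert g V) = Lab.A then
        Sg / (N - V.card) * (N - V.card - 1) / (D.card.choose (V.card + 1) : ℝ) else 0) +
        (if τ (insert g V) = Lab.X then Sg / (N - V.card) / (D.card.choose (V.card + 1) : ℝ) *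
          (N - V.card) else 0) := by
      unfold qq
      rw [hbb, hcV, if_pos (mem_insert_self g V)]
      congr 1
      · rw [hsd]
        have h1 : ∀ x ∈ D.erase g \ V, (if isE τ (insert g V) x then
            bw τ D (insert x (insert g V)) / ((D.card.choose (V.card + 1) : ℝ) *
            ((D.card : ℝ) - (V.card + 1 : ℕ))) * (if g ∈ insert x (insert g V) then
              (D.card : ℝ) - (V.card + 1 : ℕ) - 1 else
              ((D.card : ℝ) - 2 - (V.card + 1 : ℕ)) / 2) else 0) =
            if τ (insert g V) = Lab.A then bw τ D (insert g (insert x V)) *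
              (1 / (N - V.card) * (N - V.card - 1) / (D.card.choose (V.card + 1) : ℝ)) else 0 := by
          intro x hx
          rw [isE_ite hVD (mem_of_mem_erase (mem_sdiff.1 hx).1),
            if_pos (mem_insert_of_mem (mem_insert_self g V)), insert_comm]
          by_cases h2 : τ (insert g V) = Lab.A
          · rw [if_pos h2, if_pos h2, hn']
            push_cast
            have h3 : N + 1 - ((V.card : ℝ) + 1) = N - V.card := by ring
            rw [h3]
            field_simp
          · rw [if_neg h2, if_neg h2]
        rw [sum_congr rfl h1]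
        by_cases h2 : τ (insert g V) = Lab.A
        · simp only [if_pos h2]
          rw [← sum_mul, ← hSg]
          ring
        · simp only [if_neg h2, sum_const_zero]
      · by_cases h2 : τ (insert g V) = Lab.X
        · rw [if_pos h2, if_pos h2, hn']
          push_cast
          ring
        · rw [if_neg h2, if_neg h2]
    rw [hq]
    rcases hτ : τ (insert g V) with _ | _ | _
    · -- A
      rw [bw_of_ne hVD (by rw [hτ]; simp)]
      simp
    · -- B
      rw [bw_rec hVD hne, if_pos hτ, hbb]
      simp
    · -- X
      rw [bw_of_ne hVD (by rw [hτ]; simp)]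
      simp only [reduceCtorEq, if_false, if_true, zero_add, sub_zero]
      have h1 : 0 ≤ Sg / (N - V.card) / (D.card.choose (V.card + 1) : ℝ) := by positivity
      calc Sg / (N - V.card) * (N - V.card - 1) / (D.card.choose (V.card + 1) : ℝ)
          = Sg / (N - V.card) / (D.card.choose (V.card + 1) : ℝ) * (N - V.card - 1) := by ring
        _ ≤ _ := mul_le_mul_of_nonneg_left (by linarith) h1

/-- the sets which do not contain `g` -/
theorem case2 {τ : Finset α → Lab} {D : Finset α} {g : α} (hg : g ∈ D)
    {V : Finset α} (hV : V ⊆ D.erase g) :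
    (D.card : ℝ) * qq τ D g V =
      (if τ V = Lab.A then bw τ D (insert g V) * (((D.erase g).card : ℝ) - V.card) +
        (∑ x ∈ D.erase g \ V, bw τ D (insert x V)) *
          ((((D.erase g).card : ℝ) - V.card - 1) / 2) else
      if τ V = Lab.X then (bw τ D (insert g V) + ∑ x ∈ D.erase g \ V, bw τ D (insert x V)) *
          ((((D.erase g).card : ℝ) - V.card) / 2) else 0) /
      ((D.erase g).card.choose V.card : ℝ) := by
  have hgE : g ∉ D.erase g := notMem_erase g D
  have hgV : g ∉ V := fun h => hgE (hV h)
  have hVD : V ⊆ D := hV.trans (erase_subset _ _)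
  have hn : D.card = (D.erase g).card + 1 := by
    rw [card_erase_of_mem hg]
    have := card_pos.2 ⟨g, hg⟩
    omega
  have hle : V.card ≤ (D.erase g).card := card_le_card hV
  have hsd : D \ V = insert g (D.erase g \ V) := by
    ext y
    simp only [mem_sdiff, mem_insert, mem_erase]
    by_cases hy : y = g
    · subst hy
      simp [hg, hgV]
    · simp [hy]
  have hgs : g ∉ D.erase g \ V := fun h => hgE (mem_sdiff.1 h).1
  set N : ℝ := ((D.erase g).card : ℝ) with hN
  have hk : (V.card : ℝ) ≤ N := by
    rw [hN]
    exact_mod_cast hle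
  set Sg : ℝ := ∑ x ∈ D.erase g \ V, bw τ D (insert x V) with hSg
  have hn' : (D.card : ℝ) = N + 1 := by
    rw [hn]
    push_cast
    rfl
  have p1 : (0 : ℝ) < ((D.erase g).card.choose V.card : ℝ) := choose_pos_real hle
  have p2 : (0 : ℝ) < (D.card.choose V.card : ℝ) := choose_pos_real (by omega)
  have p3 : (0 : ℝ) < N + 1 - V.card := by linarith
  have p4 : (0 : ℝ) < N + 1 := by
    linarith [(Nat.cast_nonneg V.card : (0 : ℝ) ≤ V.card)]
  have hch : (D.card.choose V.card : ℝ) * (N + 1 - V.card) =
      (N + 1) * ((D.erase g).card.choose V.card : ℝ) := by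
    have h1 := Nat.choose_mul_succ_eq (D.erase g).card V.card
    have h2 : (((D.erase g).card + 1 - V.card : ℕ) : ℝ) = N + 1 - V.card := by
      rw [Nat.cast_sub (by omega), hN]
      push_cast
      ring
    rw [hn, ← h2, hN]
    have h3 : (((D.erase g).card + 1).choose V.card : ℝ) *
        (((D.erase g).card + 1 - V.card : ℕ) : ℝ) =
        ((((D.erase g).card.choose V.card) * ((D.erase g).card + 1) : ℕ) : ℝ) := by
      rw [h1]
      push_cast
      ring
    rw [h3]
    push_cast
    ring
  -- one over the denominator
  have hinv : (N + 1) / ((D.card.choose V.card : ℝ) * (N + 1 - V.card)) =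
      1 / ((D.erase g).card.choose V.card : ℝ) := by
    rw [hch]
    field_simp
  have hS : ∑ x ∈ D \ V, bw τ D (insert x V) = bw τ D (insert g V) + Sg := by
    rw [hsd, sum_insert hgs]
  have hbb : bwb τ D V = (bw τ D (insert g V) + Sg) / (N + 1 - V.card) := by
    unfold bwb
    rw [hS, card_sdiff_cast hVD, hn']
  have hq : qq τ D g V = (if τ V = Lab.A then (bw τ D (insert g V) * (N - V.card) +
      Sg * ((N - V.card - 1) / 2)) / ((D.card.choose V.card : ℝ) * (N + 1 - V.card)) else 0) +
      (if τ V = Lab.X then (bw τ D (insert g V) + Sg) * ((N - V.card) / 2) /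
        ((D.card.choose V.card : ℝ) * (N + 1 - V.card)) else 0) := by
    unfold qq
    rw [hbb, if_neg hgV]
    congr 1
    · have h1 : ∀ x ∈ D \ V, (if isE τ V x then
          bw τ D (insert x V) / ((D.card.choose V.card : ℝ) * ((D.card : ℝ) - V.card)) *
          (if g ∈ insert x V then (D.card : ℝ) - V.card - 1 else
            ((D.card : ℝ) - 2 - V.card) / 2) else 0) =
          if τ V = Lab.A then bw τ D (insert x V) * (if g ∈ insert x V then N - V.card else
            (N - V.card - 1) / 2) / ((D.card.choose V.card : ℝ) * (N + 1 - V.card)) else 0 := by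
        intro x hx
        rw [isE_ite hVD (mem_sdiff.1 hx).1, hn']
        by_cases h2 : τ V = Lab.A
        · rw [if_pos h2, if_pos h2]
          by_cases h3 : g ∈ insert x V
          · rw [if_pos h3, if_pos h3]
            ring
          · rw [if_neg h3, if_neg h3]
            ring
        · rw [if_neg h2, if_neg h2]
      rw [sum_congr rfl h1]
      by_cases h2 : τ V = Lab.A
      · simp only [if_pos h2]
        rw [← sum_div]
        congr 1
        rw [hsd, sum_insert hgs, if_pos (mem_insert_self g V), hSg, sum_mul]
        congr 1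
        refine sum_congr rfl fun x hx => ?_
        rw [if_neg]
        intro h3
        rcases mem_insert.1 h3 with h4 | h4
        · rw [← h4] at hx
          exact hgs hx
        · exact hgV h4
      · simp only [if_neg h2, sum_const_zero]
    · by_cases h2 : τ V = Lab.X
      · rw [if_pos h2, if_pos h2, hn']
        have e1 : N + 1 - 1 - (V.card : ℝ) = N - V.card := by ring
        rw [e1]
        field_simp
      · rw [if_neg h2, if_neg h2]
  rw [hq, hn']
  have key : ∀ z : ℝ, (N + 1) * (z / ((D.card.choose V.card : ℝ) * (N + 1 - V.card))) =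
      z / ((D.erase g).card.choose V.card : ℝ) := by
    intro z
    calc (N + 1) * (z / ((D.card.choose V.card : ℝ) * (N + 1 - V.card)))
        = z * ((N + 1) / ((D.card.choose V.card : ℝ) * (N + 1 - V.card))) := by ring
      _ = _ := by
        rw [hinv]
        ring
  rcases hτ : τ V with _ | _ | _
  · simp only [reduceCtorEq, if_false, if_true, add_zero]
    exact key _
  · simp
  · simp only [reduceCtorEq, if_false, if_true, zero_add]
    exact key _

end QlbAux

open QlbAux in
theorem stmt_QLB {α : Type} [DecidableEq α] : Stmt_QLB α := by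
  intro τ D g h0 hB hg
  have hgE : g ∉ D.erase g := notMem_erase g D
  have hn : D.card = (D.erase g).card + 1 := by
    rw [card_erase_of_mem hg]
    have := card_pos.2 ⟨g, hg⟩
    omega
  set E := D.erase g with hE
  have hD : D = insert g E := (insert_erase hg).symm
  have hn1 : D.card - 1 = E.card := by omega
  have hn' : (D.card : ℝ) - 1 = (E.card : ℝ) := by
    rw [hn]
    push_cast
    ring
  rw [hn1, hn']
  -- the decomposition of `Q0`
  have h1 : (D.card : ℝ) * Q0 τ D g = ∑ V ∈ E.powerset, (D.card : ℝ) * qq τ D g V +
      ∑ V ∈ E.powerset, (D.card : ℝ) * qq τ D g (insert g V) := by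
    rw [Q0_eq, ← mul_sum, ← mul_sum, ← mul_add]
    congr 1
    conv_lhs => rw [hD]
    rw [sum_powerset_insert hgE, ← hD]
  -- the sets with `g`
  have h2 : ∑ V ∈ E.powerset, bw τ D (insert g V) / (E.card.choose V.card : ℝ) *
      (if V = E then 0 else 2 * (V.card : ℝ) + 1 - (E.card : ℝ)) ≤
      ∑ V ∈ E.powerset, (D.card : ℝ) * qq τ D g (insert g V) := by
    refine le_trans (le_of_eq ?_) (sum_le_sum fun V hV => case1 hB hg (mem_powerset.1 hV))
    have h3 := sum_up_down E (fun V x => bw τ D (insert g (insert x V)) *
      (((E.card : ℝ) - V.card - 1) * ((V.card : ℝ) + 1) /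
        (((E.card : ℝ) - V.card) * (E.card.choose V.card : ℝ))))
    have h4 : ∑ U ∈ E.powerset, ∑ x ∈ U, bw τ D (insert g (insert x (U.erase x))) *
        (((E.card : ℝ) - (U.erase x).card - 1) * (((U.erase x).card : ℝ) + 1) /
          (((E.card : ℝ) - (U.erase x).card) * (E.card.choose (U.erase x).card : ℝ))) =
        ∑ U ∈ E.powerset, bw τ D (insert g U) * ((U.card : ℝ) * ((E.card : ℝ) - U.card)) /
          (E.card.choose U.card : ℝ) := by
      refine sum_congr rfl fun U hU => ?_
      rw [mem_powerset] at hU
      have h5 : ∀ x ∈ U, bw τ D (insert g (insert x (U.erase x))) *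
          (((E.card : ℝ) - (U.erase x).card - 1) * (((U.erase x).card : ℝ) + 1) /
            (((E.card : ℝ) - (U.erase x).card) * (E.card.choose (U.erase x).card : ℝ))) =
          bw τ D (insert g U) * ((E.card : ℝ) - U.card) / (E.card.choose U.card : ℝ) := by
        intro x hx
        have h6 : 0 < U.card := card_pos.2 ⟨x, hx⟩
        have h7 : U.card ≤ E.card := card_le_card hU
        rw [insert_erase hx, card_erase_of_mem hx]
        have h8 := choose_up (l := E.card) (k := U.card - 1) (by omega)
        have h9 : U.card - 1 + 1 = U.card := by omega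
        rw [h9] at h8
        have h10 : ((U.card - 1 : ℕ) : ℝ) = (U.card : ℝ) - 1 := by
          rw [Nat.cast_sub (by omega)]
          simp
        rw [h10] at h8 ⊢
        have h11 : ((E.card : ℝ) - (U.card - 1)) * (E.card.choose (U.card - 1) : ℝ) =
            (U.card : ℝ) * (E.card.choose U.card : ℝ) := by
          rw [mul_comm, h8]
          ring
        rw [h11]
        have p1 : (0 : ℝ) < (E.card.choose U.card : ℝ) := choose_pos_real h7
        have p2 : (0 : ℝ) < (U.card : ℝ) := by exact_mod_cast h6
        exact ar1 _ _ _ _ p2 p1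
      rw [sum_congr rfl h5, sum_const, nsmul_eq_mul]
      ring
    rw [h4] at h3
    -- the left-hand side of `h3`
    have h5 : ∀ V ∈ E.powerset, ∑ x ∈ E \ V, bw τ D (insert g (insert x V)) *
        (((E.card : ℝ) - V.card - 1) * ((V.card : ℝ) + 1) /
          (((E.card : ℝ) - V.card) * (E.card.choose V.card : ℝ))) =
        (if V = E then 0 else (∑ x ∈ E \ V, bw τ D (insert g (insert x V))) /
          ((E.card : ℝ) - V.card) * (((E.card : ℝ) - V.card - 1) * ((V.card : ℝ) + 1) /
            (E.card.choose V.card : ℝ))) := by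
      intro V hV
      split_ifs with h6
      · rw [h6, sdiff_self, bot_eq_empty, sum_empty]
      · rw [← sum_mul]
        have h7 : (V.card : ℝ) < E.card := by
          exact_mod_cast card_lt_card (ssubset_of_subset_of_ne (mem_powerset.1 hV) h6)
        have p1 : (0 : ℝ) < (E.card.choose V.card : ℝ) :=
          choose_pos_real (card_le_card (mem_powerset.1 hV))
        have p2 : (0 : ℝ) < (E.card : ℝ) - V.card := by linarith
        exact ar2 _ _ _ _ _ p2 p1
    rw [sum_congr rfl h5] at h3
    have h6 : ∑ V ∈ E.powerset, (if V = E then 0 else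
        ((∑ x ∈ E \ V, bw τ D (insert g (insert x V))) /
          ((E.card : ℝ) - V.card) - bw τ D (insert g V)) *
        (((E.card : ℝ) - V.card - 1) * ((V.card : ℝ) + 1) / (E.card.choose V.card : ℝ))) =
        ∑ V ∈ E.powerset, ((if V = E then 0 else
          (∑ x ∈ E \ V, bw τ D (insert g (insert x V))) /
          ((E.card : ℝ) - V.card) * (((E.card : ℝ) - V.card - 1) * ((V.card : ℝ) + 1) /
            (E.card.choose V.card : ℝ))) - (if V = E then 0 else bw τ D (insert g V) *
          (((E.card : ℝ) - V.card - 1) * ((V.card : ℝ) + 1) / (E.card.choose V.card : ℝ)))) := by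
      refine sum_congr rfl fun V _ => ?_
      split_ifs
      · ring
      · ring
    rw [h6, sum_sub_distrib, h3, ← sum_sub_distrib]
    refine sum_congr rfl fun V _ => ?_
    split_ifs with h7
    · rw [h7]
      ring
    · ring
  -- the sets without `g`
  have h3 : ∑ V ∈ E.powerset, bw τ D (insert g V) / (E.card.choose V.card : ℝ) *
      (if τ V = Lab.A then (E.card : ℝ) - V.card else ((E.card : ℝ) - V.card) / 2) ≤
      ∑ V ∈ E.powerset, (D.card : ℝ) * qq τ D g V := by
    have h4 := sum_up_down E (fun V x => bw τ D (insert x V) *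
      (((E.card : ℝ) - V.card - 1) / 2 / (E.card.choose V.card : ℝ)))
    have h5 : ∑ U ∈ E.powerset, ∑ x ∈ U, bw τ D (insert x (U.erase x)) *
        (((E.card : ℝ) - (U.erase x).card - 1) / 2 / (E.card.choose (U.erase x).card : ℝ)) =
        ∑ U ∈ E.powerset, bw τ D U * (((E.card : ℝ) - U.card) * ((E.card : ℝ) - U.card + 1) / 2) /
          (E.card.choose U.card : ℝ) := by
      refine sum_congr rfl fun U hU => ?_
      rw [mem_powerset] at hU
      have h5 : ∀ x ∈ U, bw τ D (insert x (U.erase x)) *
          (((E.card : ℝ) - (U.erase x).card - 1) / 2 / (E.card.choose (U.erase x).card : ℝ)) =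
          bw τ D U * (((E.card : ℝ) - U.card) * ((E.card : ℝ) - U.card + 1) / 2) /
            ((U.card : ℝ) * (E.card.choose U.card : ℝ)) := by
        intro x hx
        have h6 : 0 < U.card := card_pos.2 ⟨x, hx⟩
        have h7 : U.card ≤ E.card := card_le_card hU
        rw [insert_erase hx, card_erase_of_mem hx]
        have h8 := choose_up (l := E.card) (k := U.card - 1) (by omega)
        have h9 : U.card - 1 + 1 = U.card := by omega
        rw [h9] at h8
        have h10 : ((U.card - 1 : ℕ) : ℝ) = (U.card : ℝ) - 1 := by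
          rw [Nat.cast_sub (by omega)]
          simp
        rw [h10] at h8 ⊢
        have h11 : (U.card : ℝ) * (E.card.choose U.card : ℝ) =
            (E.card.choose (U.card - 1) : ℝ) * ((E.card : ℝ) - U.card + 1) := by
          have e1 : (E.card : ℝ) - U.card + 1 = (E.card : ℝ) - (U.card - 1) := by ring
          rw [e1, h8]
          ring
        rw [h11]
        have p1 : (0 : ℝ) < (E.card.choose (U.card - 1) : ℝ) := choose_pos_real (by omega)
        have p2 : (0 : ℝ) < (E.card : ℝ) - U.card + 1 := by
          have : (U.card : ℝ) ≤ E.card := by exact_mod_cast h7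
          linarith
        exact ar3 _ _ _ _ p2 p1
      rw [sum_congr rfl h5, sum_const, nsmul_eq_mul]
      rcases Nat.eq_zero_or_pos U.card with h6 | h6
      · rw [card_eq_zero] at h6
        rw [h6, bw_of_ne (empty_subset D) (by rw [h0]; simp)]
        simp
      · have p2 : (0 : ℝ) < (U.card : ℝ) := by exact_mod_cast h6
        have p1 : (0 : ℝ) < (E.card.choose U.card : ℝ) := choose_pos_real (card_le_card hU)
        exact ar4 _ _ _ p2 p1
    rw [h5] at h4
    have h6 : ∑ V ∈ E.powerset, (D.card : ℝ) * qq τ D g V =
        ∑ V ∈ E.powerset, ((D.card : ℝ) * qq τ D g V - (∑ x ∈ E \ V, bw τ D (insert x V) *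
          (((E.card : ℝ) - V.card - 1) / 2 / (E.card.choose V.card : ℝ))) +
          bw τ D V * (((E.card : ℝ) - V.card) * ((E.card : ℝ) - V.card + 1) / 2) /
          (E.card.choose V.card : ℝ)) := by
      rw [sum_add_distrib, sum_sub_distrib, h4]
      ring
    rw [h6]
    refine sum_le_sum fun V hV => ?_
    have hV' := mem_powerset.1 hV
    have hVD : V ⊆ D := hV'.trans (erase_subset _ _)
    have hne : V ≠ D := by
      rintro rfl
      exact hgE (hV' hg)
    have hle : (V.card : ℝ) ≤ E.card := by exact_mod_cast card_le_card hV'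
    have p1 : (0 : ℝ) < (E.card.choose V.card : ℝ) := choose_pos_real (card_le_card hV')
    rw [case2 hg hV', ← sum_mul]
    set Sg : ℝ := ∑ x ∈ E \ V, bw τ D (insert x V) with hSg
    have hSg0 : 0 ≤ Sg := sum_nonneg fun _ _ => bw_nonneg _ _ _
    have e1 : Sg * (((E.card : ℝ) - V.card - 1) / 2 / (E.card.choose V.card : ℝ)) =
        Sg * (((E.card : ℝ) - V.card - 1) / 2) / (E.card.choose V.card : ℝ) := by ring
    rw [e1, ← sub_div, ← add_div, div_mul_eq_mul_div]
    apply div_le_div_of_nonneg_right _ p1.le
    rcases hτ : τ V with _ | _ | _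
    · rw [bw_of_ne hVD (by rw [hτ]; simp)]
      simp only [if_true]
      linarith
    · -- B
      simp only [reduceCtorEq, if_false]
      have h7 : bw τ D V * ((E.card : ℝ) - V.card + 1) = bw τ D (insert g V) + Sg := by
        rw [bw_rec hVD hne, if_pos hτ]
        unfold bwb
        have hsd : D \ V = insert g (E \ V) := by
          ext y
          simp only [hE, mem_sdiff, mem_insert, mem_erase]
          by_cases hy : y = g
          · subst hy
            simp only [hg, true_and, true_or, iff_true]
            exact fun h => hgE (hV' h)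
          · simp [hy]
        have hgs : g ∉ E \ V := fun h => hgE (mem_sdiff.1 h).1
        have e2 : ∑ x ∈ D \ V, bw τ D (insert x V) = bw τ D (insert g V) + Sg := by
          rw [hsd, sum_insert hgs]
        rw [e2, card_sdiff_cast hVD]
        have e3 : (D.card : ℝ) - V.card = (E.card : ℝ) - V.card + 1 := by linarith
        rw [e3]
        have p2 : (0 : ℝ) < (E.card : ℝ) - V.card + 1 := by linarith
        exact div_mul_cancel₀ _ p2.ne'
      have h8 : bw τ D V * (((E.card : ℝ) - V.card) * ((E.card : ℝ) - V.card + 1) / 2) =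
          (bw τ D (insert g V) + Sg) * (((E.card : ℝ) - V.card) / 2) := by
        rw [← h7]
        ring
      rw [h8]
      nlinarith
    · rw [bw_of_ne hVD (by rw [hτ]; simp)]
      simp only [reduceCtorEq, if_false, if_true]
      nlinarith
  rw [h1]
  calc ∑ V ∈ E.powerset, bw τ D (insert g V) / (E.card.choose V.card : ℝ) *
      ((if V = E then 0 else 2 * (V.card : ℝ) + 1 - (E.card : ℝ)) +
       (if τ V = Lab.A then (E.card : ℝ) - V.card else ((E.card : ℝ) - V.card) / 2))
      = (∑ V ∈ E.powerset, bw τ D (insert g V) / (E.card.choose V.card : ℝ) *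
        (if τ V = Lab.A then (E.card : ℝ) - V.card else ((E.card : ℝ) - V.card) / 2)) +
        ∑ V ∈ E.powerset, bw τ D (insert g V) / (E.card.choose V.card : ℝ) *
        (if V = E then 0 else 2 * (V.card : ℝ) + 1 - (E.card : ℝ)) := by
        rw [← sum_add_distrib]
        refine sum_congr rfl fun V _ => ?_
        ring
    _ ≤ _ := add_le_add h3 h2

end R5
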