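import Pool.Agent.Work.MP_8b6acb_cap.Interface
import Pool.Agent.Work.MP_8b6acb_cap_helper63.QPIC

/-! Block QPI. -/

namespace R5

open Finset

namespace QP

variable {α : Type} [DecidableEq α]

theorem A1_congr_pi (τ : Finset α → Lab) {π π' : Finset α → ℝ} {V : Finset α}
    (h : ∀ U ⊆ V, π U = π' U) : A1 τ π V = A1 τ π' V := by
  unfold A1
  refine sum_congr rfl fun U hU => ?_
  rw [h U (mem_powerset.1 hU)]

theorem qpi_edges_L {τ : Finset α → Lab} (π : Finset α → ℝ) {D V : Finset α} (hV : V ⊆ D) :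
    (∑ x ∈ D \ V, if isE τ V x then
      1 / ((D.card.choose V.card : ℝ) * ((D.card : ℝ) - V.card)) *
        (bw τ D (insert x V) * A1 τ π V ^ 2 / ((V.card : ℝ) + 1)) else 0) =
    if τ V = Lab.A then
      bwb τ D V / (D.card.choose V.card : ℝ) * (A1 τ π V ^ 2 / ((V.card : ℝ) + 1)) else 0 := by
  by_cases hA : τ V = Lab.A
  · rw [if_pos hA]
    have e1 : ∀ x ∈ D \ V, (if isE τ V x then
      1 / ((D.card.choose V.card : ℝ) * ((D.card : ℝ) - V.card)) *
        (bw τ D (insert x V) * A1 τ π V ^ 2 / ((V.card : ℝ) + 1)) else 0) =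
        bw τ D (insert x V) * (1 / ((D.card.choose V.card : ℝ) * ((D.card : ℝ) - V.card)) *
        (A1 τ π V ^ 2 / ((V.card : ℝ) + 1))) := by
      intro x hx
      have hx' := mem_sdiff.1 hx
      by_cases hB : τ (insert x V) = Lab.B
      · rw [if_pos ⟨hA, hB⟩]; ring
      · rw [if_neg (fun h => hB h.2), bw_of_ne (insert_subset hx'.1 hV) hB, zero_mul]
    rw [sum_congr rfl e1, ← sum_mul]
    unfold bwb
    rw [card_sdiff_cast hV]
    simp only [div_eq_mul_inv, mul_inv, one_mul]
    ring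
  · rw [if_neg hA]
    refine sum_eq_zero fun x _ => ?_
    rw [if_neg (fun h => hA h.1)]

theorem qpi_edges_F {τ : Finset α → Lab} (π : Finset α → ℝ) {D U : Finset α} (hU : U ⊆ D) :
    (∑ x ∈ U, if isE τ (U.erase x) x then
      1 / ((D.card.choose (U.erase x).card : ℝ) * ((D.card : ℝ) - (U.erase x).card)) *
        (fw τ (U.erase x) * B1 τ D π (insert x (U.erase x)) ^ 2 /
          ((D.card : ℝ) - (U.erase x).card)) else 0) =
    if τ U = Lab.B then P1 τ D U * (B1 τ D π U ^ 2 / bF τ π D U) else 0 := by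
  by_cases hB : τ U = Lab.B
  · rw [if_pos hB]
    have e1 : ∀ x ∈ U, (if isE τ (U.erase x) x then
      1 / ((D.card.choose (U.erase x).card : ℝ) * ((D.card : ℝ) - (U.erase x).card)) *
        (fw τ (U.erase x) * B1 τ D π (insert x (U.erase x)) ^ 2 /
          ((D.card : ℝ) - (U.erase x).card)) else 0) =
        fw τ (U.erase x) * (1 / ((D.card.choose U.card : ℝ) * (U.card : ℝ)) *
          (B1 τ D π U ^ 2 / ((D.card : ℝ) + 1 - U.card))) := by
      intro x hx
      have hle := card_le_card hU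
      obtain ⟨k, hk⟩ : ∃ k, U.card = k + 1 :=
        ⟨U.card - 1, by have := card_pos.2 ⟨x, hx⟩; omega⟩
      have hke : (U.erase x).card = k := by rw [card_erase_of_mem hx, hk]; rfl
      by_cases hA : τ (U.erase x) = Lab.A
      · rw [if_pos ⟨hA, by rw [insert_erase hx]; exact hB⟩, insert_erase hx, hke, hk]
        rw [choose_up (show k < D.card by omega)]
        push_cast
        rw [show (D.card : ℝ) + 1 - ((k : ℝ) + 1) = (D.card : ℝ) - k by ring]
        ring
      · rw [if_neg (fun h => hA h.1), fw_of_ne hA, zero_mul]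
    rw [sum_congr rfl e1, ← sum_mul]
    unfold P1 fwb bF aF
    rw [hB]
    simp only [reduceCtorEq, if_false, add_zero, div_eq_mul_inv, mul_inv, one_mul]
    ring
  · rw [if_neg hB]
    refine sum_eq_zero fun x hx => ?_
    rw [if_neg]
    rintro ⟨_, h⟩
    rw [insert_erase hx] at h
    exact hB h

end QP

open QP in
theorem stmt_QPI (α : Type) [DecidableEq α] : Stmt_QPI α := by
  intro τ D π0 h0 hD hπ
  -- replace `π0` by a globally bounded function
  set π : Finset α → ℝ := fun U => π0 (U ∩ D) with hπd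
  have hp0 : ∀ V, 0 ≤ π V := fun V => (hπ _ inter_subset_right).1
  have hp1 : ∀ V, π V ≤ 1 := fun V => (hπ _ inter_subset_right).2
  have hpe : ∀ U ⊆ D, π0 U = π U := by
    intro U hU
    rw [hπd]; simp only; rw [inter_eq_left.2 hU]
  have hA1 : ∀ V ⊆ D, A1 τ π0 V = A1 τ π V := fun V hV =>
    A1_congr_pi τ fun U hU => hpe U (hU.trans hV)
  have hB1 : ∀ V, B1 τ D π0 V = B1 τ D π V := by
    intro V
    unfold B1
    refine A1_congr_pi _ fun U _ => ?_
    rw [hpe _ sdiff_subset]
  have key := qpi_exit (π := π) h0 hD hp0 hp1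
  rw [hA1 D (Subset.refl _), hB1 ∅]
  refine le_trans (le_of_eq ?_) key
  have e1 : (∑ V ∈ D.powerset, ∑ x ∈ D \ V, if isE τ V x then
      1 / ((D.card.choose V.card : ℝ) * ((D.card : ℝ) - V.card)) *
      (bw τ D (insert x V) * A1 τ π0 V ^ 2 / ((V.card : ℝ) + 1) +
       fw τ V * B1 τ D π0 (insert x V) ^ 2 / ((D.card : ℝ) - V.card)) else 0) =
      (∑ V ∈ D.powerset, if τ V = Lab.A then
        bwb τ D V / (D.card.choose V.card : ℝ) * (A1 τ π V ^ 2 / ((V.card : ℝ) + 1)) else 0) +
      ∑ U ∈ D.powerset, if τ U = Lab.B then P1 τ D U * (B1 τ D π U ^ 2 / bF τ π D U) else 0 := by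
    have e2 : (∑ V ∈ D.powerset, ∑ x ∈ D \ V, if isE τ V x then
      1 / ((D.card.choose V.card : ℝ) * ((D.card : ℝ) - V.card)) *
      (bw τ D (insert x V) * A1 τ π0 V ^ 2 / ((V.card : ℝ) + 1) +
       fw τ V * B1 τ D π0 (insert x V) ^ 2 / ((D.card : ℝ) - V.card)) else 0) =
      (∑ V ∈ D.powerset, ∑ x ∈ D \ V, if isE τ V x then
      1 / ((D.card.choose V.card : ℝ) * ((D.card : ℝ) - V.card)) *
        (bw τ D (insert x V) * A1 τ π V ^ 2 / ((V.card : ℝ) + 1)) else 0) +
      ∑ V ∈ D.powerset, ∑ x ∈ D \ V, if isE τ V x then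
      1 / ((D.card.choose V.card : ℝ) * ((D.card : ℝ) - V.card)) *
        (fw τ V * B1 τ D π (insert x V) ^ 2 / ((D.card : ℝ) - V.card)) else 0 := by
      rw [← sum_add_distrib]
      refine sum_congr rfl fun V hV => ?_
      rw [← sum_add_distrib]
      refine sum_congr rfl fun x _ => ?_
      split_ifs
      · rw [hA1 V (mem_powerset.1 hV), hB1]; ring
      · simp
    rw [e2, sum_up_down D (fun V x => if isE τ V x then
      1 / ((D.card.choose V.card : ℝ) * ((D.card : ℝ) - V.card)) *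
        (fw τ V * B1 τ D π (insert x V) ^ 2 / ((D.card : ℝ) - V.card)) else 0)]
    congr 1
    · refine sum_congr rfl fun V hV => qpi_edges_L π (mem_powerset.1 hV)
    · refine sum_congr rfl fun U hU => qpi_edges_F π (mem_powerset.1 hU)
  rw [e1, sum_filter, ← sum_add_distrib, ← sum_add_distrib, ← sum_add_distrib]
  refine sum_congr rfl fun V hV => ?_
  have hVD := mem_powerset.1 hV
  cases hc : τ V with
  | A =>
    simp only [if_true, reduceCtorEq, if_false, not_true_eq_false, ne_eq, add_zero]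
    unfold aL; rw [hc]; simp
  | B =>
    simp
  | X =>
    simp only [reduceCtorEq, if_false, if_true, ne_eq, not_false_eq_true]
    rw [hA1 V hVD, hB1, hpe V hVD]
    unfold aL P1 bF aF
    rw [hc]
    simp only [if_true]
    have e3 : (D.card : ℝ) + 1 - ((V.card : ℝ) + π V) = (D.card : ℝ) - V.card + 1 - π V := by
      ring
    rw [e3]
    ring

end R5
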