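import Pool.Agent.Work.MP_8b6acb_cap.Interface

/-! Block SGB: lower bound for the `S`-side gain minus the price of the edges. -/

namespace R5

open Finset

variable {α : Type} [DecidableEq α]

theorem lamn_nonneg_SGB {n : ℕ} (hn : 1 ≤ n) : 0 ≤ lamn n := by
  unfold lamn
  rcases Nat.lt_or_ge 1 n with h | h
  · have h1 : (1 : ℝ) < n := by exact_mod_cast h
    apply Real.log_nonneg
    rw [le_div_iff₀ (by linarith)]
    linarith
  · have h1 : n = 1 := by omega
    subst h1
    simp

theorem sum_pow_swap (D : Finset α) (F : Finset α → α → ℝ) :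
    ∑ V ∈ D.powerset, ∑ x ∈ D \ V, F V x = ∑ x ∈ D, ∑ V ∈ (D.erase x).powerset, F V x := by
  refine sum_comm' fun V x => ?_
  rw [mem_powerset, mem_sdiff, mem_powerset, subset_erase]
  tauto

/-- The weight of the state `X`. -/
noncomputable def cX (τ : Finset α → Lab) (D X : Finset α) : ℝ :=
  fw τ X / (((D.card : ℝ) + 1) * (D.card.choose X.card : ℝ))

theorem cX_nonneg (τ : Finset α → Lab) (D X : Finset α) : 0 ≤ cX τ D X :=
  div_nonneg (fw_nonneg _ _) (by positivity)

/-- `log l * yLe` as a sum over the positions of the star. -/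
theorem log_yLe (hTE : Stmt_TELE α) (τ : Finset α → Lab) {D V : Finset α} {g : α} (hV : V ⊆ D)
    (hg : g ∈ D \ V) :
    Real.log (D.card : ℝ) * yLe τ D V g = ∑ X ∈ D.powerset, pe τ D X V g *
      (Real.log ((D \ X).card : ℝ) + lamn (D \ X).card * (aw (shift τ X) (V \ X) - 1)) := by
  rw [mem_sdiff] at hg
  have hVD : V.card < D.card := card_lt_card (ssubset_of_subset_of_ne hV (by
    rintro rfl
    exact hg.2 hg.1))
  have hsub : ∑ X ∈ D.powerset, pe τ D X V g *
      (Real.log ((D \ X).card : ℝ) + lamn (D \ X).card * (aw (shift τ X) (V \ X) - 1)) =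
      ∑ X ∈ V.powerset, pe τ D X V g *
      (Real.log ((D \ X).card : ℝ) + lamn (D \ X).card * (aw (shift τ X) (V \ X) - 1)) := by
    symm
    refine sum_subset (powerset_mono.2 hV) fun X _ hX => ?_
    rw [mem_powerset] at hX
    unfold pe
    rw [if_neg (fun h => hX h.1), zero_mul]
  rw [hsub]
  by_cases hE : isE τ V g
  · have h1 := hTE τ V D.card hVD
    unfold yLe
    rw [if_pos hE]
    have h2 : Real.log (D.card : ℝ) * (aw τ V * bw τ D (insert g V) /
        (((D.card : ℝ) + 1) * (D.card.choose V.card : ℝ) * ((D.card : ℝ) - (V.card : ℝ)))) =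
        (bw τ D (insert g V) /
        (((D.card : ℝ) + 1) * (D.card.choose V.card : ℝ) * ((D.card : ℝ) - (V.card : ℝ)))) *
          (Real.log (D.card : ℝ) * aw τ V) := by ring
    rw [h2, ← h1, mul_sum]
    refine sum_congr rfl fun X hX => ?_
    rw [mem_powerset] at hX
    have hXD : X ⊆ D := hX.trans hV
    have hXV : X.card ≤ V.card := card_le_card hX
    unfold pe
    rw [if_pos ⟨hX, hE⟩, card_sdiff_cast hXD, card_sdiff_of_subset hXD]
    have hc1 : (0 : ℝ) < (D.card.choose V.card : ℝ) := choose_pos_real hVD.le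
    have hc2 : (0 : ℝ) < (V.card.choose X.card : ℝ) := choose_pos_real hXV
    have hc3 : (0 : ℝ) < (D.card.choose X.card : ℝ) := choose_pos_real (by omega)
    have hc4 : (0 : ℝ) < ((D.card - X.card).choose (V.card - X.card) : ℝ) :=
      choose_pos_real (by omega)
    have hc5 : (0 : ℝ) < (D.card : ℝ) - V.card := by
      have : (V.card : ℝ) < D.card := by exact_mod_cast hVD
      linarith
    have hid := choose_mul_real (l := D.card) hXV
    have h3 : ((D.card : ℝ) + 1) * (D.card.choose X.card : ℝ) *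
        ((D.card - X.card).choose (V.card - X.card) : ℝ) * ((D.card : ℝ) - (V.card : ℝ)) =
        ((D.card : ℝ) + 1) * (D.card.choose V.card : ℝ) * ((D.card : ℝ) - (V.card : ℝ)) *
          (V.card.choose X.card : ℝ) := by
      calc _ = ((D.card : ℝ) + 1) * ((D.card.choose X.card : ℝ) *
            ((D.card - X.card).choose (V.card - X.card) : ℝ)) * ((D.card : ℝ) - (V.card : ℝ)) := by
            ring
        _ = _ := by rw [hid]; ring
    rw [h3]
    field_simp
  · unfold yLe
    rw [if_neg hE, mul_zero]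
    symm
    refine sum_eq_zero fun X _ => ?_
    unfold pe
    rw [if_neg (fun h => hE h.2), zero_mul]

/-- `log l * PEL` as a sum over the states. -/
theorem log_PEL (hSH : Stmt_SHIFT α) (hTE : Stmt_TELE α) (τ : Finset α → Lab) (D : Finset α) :
    Real.log (D.card : ℝ) * PEL τ D = ∑ X ∈ D.powerset, ∑ g ∈ D \ X,
      (Real.log ((D \ X).card : ℝ) * PP1 τ D X g +
        lamn (D \ X).card * (cX τ D X * T0 (shift τ X) (D \ X) g)) := by
  unfold PEL
  rw [mul_sum]
  have h1 : ∀ V ∈ D.powerset, Real.log (D.card : ℝ) * ∑ x ∈ D \ V, yLe τ D V x =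
      ∑ x ∈ D \ V, ∑ X ∈ D.powerset, pe τ D X V x *
      (Real.log ((D \ X).card : ℝ) + lamn (D \ X).card * (aw (shift τ X) (V \ X) - 1)) := by
    intro V hV
    rw [mul_sum]
    exact sum_congr rfl fun x hx => log_yLe hTE τ (mem_powerset.1 hV) hx
  rw [sum_congr rfl h1, sum_pow_swap D (fun V x => ∑ X ∈ D.powerset, pe τ D X V x *
      (Real.log ((D \ X).card : ℝ) + lamn (D \ X).card * (aw (shift τ X) (V \ X) - 1))),
    sum_pow_swap D (fun X g => Real.log ((D \ X).card : ℝ) * PP1 τ D X g +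
        lamn (D \ X).card * (cX τ D X * T0 (shift τ X) (D \ X) g))]
  refine sum_congr rfl fun g hg => ?_
  rw [sum_comm]
  -- only the states without `g` count
  have h2 : ∑ X ∈ (D.erase g).powerset, ∑ V ∈ (D.erase g).powerset, pe τ D X V g *
      (Real.log ((D \ X).card : ℝ) + lamn (D \ X).card * (aw (shift τ X) (V \ X) - 1)) =
      ∑ X ∈ D.powerset, ∑ V ∈ (D.erase g).powerset, pe τ D X V g *
      (Real.log ((D \ X).card : ℝ) + lamn (D \ X).card * (aw (shift τ X) (V \ X) - 1)) := by
    refine sum_subset (powerset_mono.2 (erase_subset g D)) fun X hX hX' => ?_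
    refine sum_eq_zero fun V hV => ?_
    rw [mem_powerset] at hX hX' hV
    unfold pe
    rw [if_neg (fun h => hX' (h.1.trans hV)), zero_mul]
  rw [← h2]
  refine sum_congr rfl fun X hX => ?_
  rw [mem_powerset, subset_erase] at hX
  have h3 := (hSH τ D X g hX.1 (mem_sdiff.2 ⟨hg, hX.2⟩)).2.2
  have h4 : cX τ D X * T0 (shift τ X) (D \ X) g = fw τ X / (((D.card : ℝ) + 1) *
      (D.card.choose X.card : ℝ)) * T0 (shift τ X) (D \ X) g := rfl
  rw [h4, ← h3]
  unfold PP1
  rw [mul_sum, mul_sum, ← sum_add_distrib]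
  refine sum_congr rfl fun V _ => ?_
  ring

/-- The bound for one state and one element. -/
theorem state_bound (hTL : Stmt_TLEM α) (hTT : Stmt_TTRIV α) (hSH : Stmt_SHIFT α)
    (τ : Finset α → Lab) {D X : Finset α} {g : α} (hD : τ D = Lab.B) (hX : X ⊆ D)
    (hg : g ∈ D \ X) :
    (if τ (D.erase g) = Lab.A then
        -(cX τ D X * (lamn (D \ X).card / ((D \ X).card : ℝ)) *
          (aw (shift τ X) ((D.erase g) \ X) - 1))
      else lamn (D \ X).card * PP1 τ D X g) ≤
    lamn (D \ X).card * min ((((D \ X).card : ℝ) - 1) * PP1 τ D X g) (QQ1 τ D X g) -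
      lamn (D \ X).card * (cX τ D X * T0 (shift τ X) (D \ X) g) := by
  have hg' := mem_sdiff.1 hg
  obtain ⟨h1, h2, _⟩ := hSH τ D X g hX hg
  have hn1 : 1 ≤ (D \ X).card := card_pos.2 ⟨g, hg⟩
  have hn0 : (0 : ℝ) < (D \ X).card := by exact_mod_cast hn1
  have hlam := lamn_nonneg_SGB hn1
  have hc := cX_nonneg τ D X
  have h1' : PP1 τ D X g = cX τ D X * P0 (shift τ X) (D \ X) g := h1
  have h2' : QQ1 τ D X g = cX τ D X * Q0 (shift τ X) (D \ X) g := h2
  rw [h1', h2']
  by_cases hA : τ X = Lab.A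
  · have hS0 : shift τ X ∅ = Lab.A := by
      unfold shift
      rw [union_empty]
      exact hA
    have hSD : shift τ X (D \ X) = Lab.B := by
      unfold shift
      rw [union_sdiff_of_subset hX]
      exact hD
    have he : (D.erase g) \ X = (D \ X).erase g := by
      ext y; simp only [mem_sdiff, mem_erase]; tauto
    have hSe : shift τ X ((D \ X).erase g) = τ (D.erase g) := by
      unfold shift
      congr 1
      ext y
      simp only [mem_union, mem_erase, mem_sdiff]
      constructor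
      · rintro (h | h)
        · exact ⟨fun h' => hg'.2 (h' ▸ h), hX h⟩
        · exact ⟨h.1, h.2.1⟩
      · intro h
        by_cases hy : y ∈ X
        · exact Or.inl hy
        · exact Or.inr ⟨h.1, h.2, hy⟩
    have t1 := hTL (shift τ X) (D \ X) g hS0 hSD hg
    obtain ⟨t2, t3, t4⟩ := hTT (shift τ X) (D \ X) g hS0 hSD hg
    rw [hSe] at t1 t3 t4
    rw [he]
    obtain ⟨n, hn⟩ : ∃ n : ℝ, n = ((D \ X).card : ℝ) := ⟨_, rfl⟩
    obtain ⟨P, hP⟩ : ∃ P : ℝ, P = P0 (shift τ X) (D \ X) g := ⟨_, rfl⟩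
    obtain ⟨Q, hQ⟩ : ∃ Q : ℝ, Q = Q0 (shift τ X) (D \ X) g := ⟨_, rfl⟩
    obtain ⟨T, hT⟩ : ∃ T : ℝ, T = T0 (shift τ X) (D \ X) g := ⟨_, rfl⟩
    obtain ⟨a, ha⟩ : ∃ a : ℝ, a = aw (shift τ X) ((D \ X).erase g) := ⟨_, rfl⟩
    have ha1 : 1 ≤ a := by
      rw [ha]
      exact one_le_aw hS0 _
    rw [← hT, ← hP, ← hQ, ← ha, ← hn] at t1
    rw [← hT, ← hP, ← hn] at t2 t3
    rw [← hP, ← hn] at t4
    rw [← hn] at hn0
    rw [← hT, ← hP, ← hQ, ← ha, ← hn]
    have key : ∀ b : ℝ, b ≤ (n - 1) * P - T → b ≤ Q - T →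
        lamn (D \ X).card * (cX τ D X * b) ≤
        lamn (D \ X).card * min ((n - 1) * (cX τ D X * P)) (cX τ D X * Q) -
          lamn (D \ X).card * (cX τ D X * T) := by
      intro b hb1 hb2
      have e1 : cX τ D X * b + cX τ D X * T ≤ min ((n - 1) * (cX τ D X * P)) (cX τ D X * Q) := by
        refine le_min ?_ ?_
        · have := mul_le_mul_of_nonneg_left hb1 hc
          linarith
        · have := mul_le_mul_of_nonneg_left hb2 hc
          linarith
      have e2 := mul_le_mul_of_nonneg_left e1 hlam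
      linarith
    split_ifs with hcase
    · rw [if_pos hcase] at t1
      have e4 := t4 hcase
      have e5 : -((a - 1) / n) ≤ Q - T := by
        have : a / n - 1 / n = (a - 1) / n := by ring
        linarith
      have e6 : -((a - 1) / n) ≤ (n - 1) * P - T := by
        have : 0 ≤ (a - 1) / n := div_nonneg (by linarith) hn0.le
        linarith
      refine le_trans (le_of_eq ?_) (key _ e6 e5)
      ring
    · rw [if_neg hcase] at t1
      have e4 := t3 hcase
      refine key P ?_ ?_
      · linarith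
      · linarith
  · have hf : fw τ X = 0 := fw_of_ne hA
    have hc0 : cX τ D X = 0 := by
      unfold cX
      rw [hf, zero_div]
    rw [hc0]
    simp

theorem stmt_SGB (hTL : Stmt_TLEM α) (hTT : Stmt_TTRIV α) (hSH : Stmt_SHIFT α)
    (hTE : Stmt_TELE α) (hDF : Stmt_DEF α) (hDB : Stmt_DEFB α) : Stmt_SGB α := by
  intro τ D hA hD hne
  have hl0 : (0 : ℝ) < D.card := by exact_mod_cast card_pos.2 hne
  -- the difference
  have h1 : SG τ D - Real.log (D.card : ℝ) * PEL τ D = ∑ X ∈ D.powerset, ∑ g ∈ D \ X,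
      (lamn (D \ X).card * min ((((D \ X).card : ℝ) - 1) * PP1 τ D X g) (QQ1 τ D X g) -
      lamn (D \ X).card * (cX τ D X * T0 (shift τ X) (D \ X) g)) := by
    rw [log_PEL hSH hTE]
    unfold SG
    rw [← sum_sub_distrib]
    refine sum_congr rfl fun X _ => ?_
    rw [← sum_sub_distrib]
    refine sum_congr rfl fun g _ => ?_
    ring
  rw [h1]
  have h2 : ∑ X ∈ D.powerset, ∑ g ∈ D \ X, (if τ (D.erase g) = Lab.A then
        -(cX τ D X * (lamn (D \ X).card / ((D \ X).card : ℝ)) *
          (aw (shift τ X) ((D.erase g) \ X) - 1))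
      else lamn (D \ X).card * PP1 τ D X g) ≤ ∑ X ∈ D.powerset, ∑ g ∈ D \ X,
      (lamn (D \ X).card * min ((((D \ X).card : ℝ) - 1) * PP1 τ D X g) (QQ1 τ D X g) -
      lamn (D \ X).card * (cX τ D X * T0 (shift τ X) (D \ X) g)) :=
    sum_le_sum fun X hX => sum_le_sum fun g hg =>
      state_bound hTL hTT hSH τ hD (mem_powerset.1 hX) hg
  refine le_trans ?_ h2
  -- split the sum
  have h3 : ∑ X ∈ D.powerset, ∑ g ∈ D \ X, (if τ (D.erase g) = Lab.A then
        -(cX τ D X * (lamn (D \ X).card / ((D \ X).card : ℝ)) *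
          (aw (shift τ X) ((D.erase g) \ X) - 1))
      else lamn (D \ X).card * PP1 τ D X g) =
      (∑ X ∈ D.powerset, ∑ g ∈ D \ X, if τ (D.erase g) = Lab.A then 0 else
        lamn (D \ X).card * PP1 τ D X g) -
      ∑ X ∈ D.powerset, ∑ g ∈ D \ X, (if τ (D.erase g) = Lab.A then
        cX τ D X * (lamn (D \ X).card / ((D \ X).card : ℝ)) *
          (aw (shift τ X) ((D.erase g) \ X) - 1) else 0) := by
    rw [← sum_sub_distrib]
    refine sum_congr rfl fun X _ => ?_
    rw [← sum_sub_distrib]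
    refine sum_congr rfl fun g _ => ?_
    split_ifs
    · ring
    · ring
  rw [h3, sum_pow_swap D (fun X g => if τ (D.erase g) = Lab.A then
        cX τ D X * (lamn (D \ X).card / ((D \ X).card : ℝ)) *
          (aw (shift τ X) ((D.erase g) \ X) - 1) else 0)]
  refine sub_le_sub_left ?_ _
  have h4 : ∀ g ∈ D, ∑ X ∈ (D.erase g).powerset, (if τ (D.erase g) = Lab.A then
        cX τ D X * (lamn (D \ X).card / ((D \ X).card : ℝ)) *
          (aw (shift τ X) ((D.erase g) \ X) - 1) else 0) ≤
      if τ (D.erase g) = Lab.A then 2 * aw τ D / ((D.card : ℝ) * ((D.card : ℝ) + 1)) else 0 := by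
    intro g hg
    split_ifs
    · have e1 := hDF τ D g hg
      have e2 := hDB τ D g hg hA
      have e3 : ∑ X ∈ (D.erase g).powerset, cX τ D X *
          (lamn (D \ X).card / ((D \ X).card : ℝ)) *
          (aw (shift τ X) ((D.erase g) \ X) - 1) =
          ∑ X ∈ (D.erase g).powerset, fw τ X / (((D.card : ℝ) + 1) *
            (D.card.choose X.card : ℝ)) * (lamn (D.card - X.card) / ((D.card : ℝ) - X.card)) *
            (aw (shift τ X) ((D.erase g) \ X) - 1) := by
        refine sum_congr rfl fun X hX => ?_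
        have hXD : X ⊆ D := (mem_powerset.1 hX).trans (erase_subset _ _)
        unfold cX
        rw [card_sdiff_cast hXD, card_sdiff_of_subset hXD]
      rw [e3, e1]
      have e4 : 2 * aw τ D / ((D.card : ℝ) * ((D.card : ℝ) + 1)) =
          1 / ((D.card : ℝ) * ((D.card : ℝ) + 1)) * (2 * aw τ D) := by ring
      rw [e4]
      exact mul_le_mul_of_nonneg_left e2 (by positivity)
    · simp
  refine (sum_le_sum h4).trans (le_of_eq ?_)
  rw [← sum_filter, sum_const, nsmul_eq_mul]
  unfold Jd
  ring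

end R5
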