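import Pool.Agent.Work.MP_8b6acb_cap.Interface

/-! Block SHIFT: reduction of the state `X` to the state `∅`. -/

namespace R5

open Finset

variable {α : Type} [DecidableEq α]

/-- Reindexing of the sets between `X` and `E`. -/
theorem sum_above {E X : Finset α} (hX : X ⊆ E) (F : Finset α → ℝ) :
    ∑ V ∈ E.powerset, (if X ⊆ V then F V else 0) = ∑ V ∈ (E \ X).powerset, F (X ∪ V) := by
  rw [← sum_filter]
  refine sum_bij' (fun V _ => V \ X) (fun U _ => X ∪ U) ?_ ?_ ?_ ?_ ?_
  · intro V hV
    rw [mem_filter, mem_powerset] at hV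
    rw [mem_powerset]
    exact sdiff_subset_sdiff hV.1 (Subset.refl _)
  · intro U hU
    rw [mem_powerset] at hU
    rw [mem_filter, mem_powerset]
    exact ⟨union_subset hX (hU.trans sdiff_subset), subset_union_left⟩
  · intro V hV
    rw [mem_filter, mem_powerset] at hV
    exact union_sdiff_of_subset hV.2
  · intro U hU
    rw [mem_powerset] at hU
    ext y
    simp only [mem_sdiff, mem_union]
    constructor
    · rintro ⟨h1 | h1, h2⟩
      · exact absurd h1 h2
      · exact h1
    · intro h
      exact ⟨Or.inr h, (mem_sdiff.1 (hU h)).2⟩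
  · intro V hV
    rw [mem_filter, mem_powerset] at hV
    rw [union_sdiff_of_subset hV.2]

theorem bw_shift (τ : Finset α → Lab) {D X V : Finset α} (hX : X ⊆ D) :
    bw (shift τ X) (D \ X) V = bw τ D (X ∪ V) := by
  unfold bw
  have h1 : (D \ X) \ V = D \ (X ∪ V) := by
    ext y; simp only [mem_sdiff, mem_union, not_or]; tauto
  rw [h1]
  refine fw_congr fun U hU => ?_
  unfold dual shift
  have h2 : X ∪ ((D \ X) \ U) = D \ U := by
    ext y
    simp only [mem_union, mem_sdiff]
    constructor
    · rintro (h | h)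
      · exact ⟨hX h, fun hy => (mem_sdiff.1 (hU hy)).2 (mem_union_left _ h)⟩
      · exact ⟨h.1.1, h.2⟩
    · intro h
      by_cases hy : y ∈ X
      · exact Or.inl hy
      · exact Or.inr ⟨⟨h.1, hy⟩, h.2⟩
  rw [h2]

theorem union_insert_comm (X V : Finset α) (x : α) : X ∪ insert x V = insert x (X ∪ V) := by
  ext y; simp only [mem_union, mem_insert]; tauto

theorem bwb_shift (τ : Finset α → Lab) {D X V : Finset α} (hX : X ⊆ D) :
    bwb (shift τ X) (D \ X) V = bwb τ D (X ∪ V) := by
  unfold bwb
  have h1 : (D \ X) \ V = D \ (X ∪ V) := by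
    ext y; simp only [mem_sdiff, mem_union, not_or]; tauto
  rw [h1]
  congr 1
  refine sum_congr rfl fun x _ => ?_
  rw [bw_shift τ hX, union_insert_comm]

theorem isE_shift (τ : Finset α → Lab) (X V : Finset α) (x : α) :
    isE (shift τ X) V x ↔ isE τ (X ∪ V) x := by
  unfold isE shift
  rw [union_insert_comm]

theorem card_shift {D X V : Finset α} (hX : X ⊆ D) (hV : V ⊆ D \ X) :
    (X ∪ V).card = X.card + V.card ∧ ((D \ X).card : ℝ) - V.card = (D.card : ℝ) - (X ∪ V).card := by
  have hdisj : Disjoint X V := by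
    rw [Finset.disjoint_left]
    intro y h1 h2
    exact (mem_sdiff.1 (hV h2)).2 h1
  refine ⟨card_union_of_disjoint hdisj, ?_⟩
  rw [card_union_of_disjoint hdisj, card_sdiff_cast hX]
  push_cast
  ring

theorem pe_shift (τ : Finset α → Lab) {D X V : Finset α} {x : α} (hX : X ⊆ D) (hV : V ⊆ D \ X) :
    pe τ D X (X ∪ V) x = fw τ X / (((D.card : ℝ) + 1) * (D.card.choose X.card : ℝ)) *
      (if isE (shift τ X) V x then bw (shift τ X) (D \ X) (insert x V) /
        (((D \ X).card.choose V.card : ℝ) * (((D \ X).card : ℝ) - V.card)) else 0) := by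
  unfold pe
  obtain ⟨h1, h2⟩ := card_shift hX hV
  simp only [isE_shift, bw_shift τ hX, union_insert_comm, subset_union_left, true_and, h2]
  split_ifs
  · rw [card_sdiff_of_subset hX]
    have h3 : (X ∪ V).card - X.card = V.card := by omega
    rw [h3, div_mul_div_comm]
    congr 1
    ring
  · ring

theorem pv_shift (τ : Finset α → Lab) {D X V : Finset α} (hX : X ⊆ D) (hV : V ⊆ D \ X) :
    pv τ D X (X ∪ V) = fw τ X / (((D.card : ℝ) + 1) * (D.card.choose X.card : ℝ)) *
      (if shift τ X V = Lab.X then bwb (shift τ X) (D \ X) V / ((D \ X).card.choose V.card : ℝ)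
        else 0) := by
  unfold pv
  obtain ⟨h1, h2⟩ := card_shift hX hV
  have h4 : shift τ X V = τ (X ∪ V) := rfl
  simp only [h4, bwb_shift τ hX, subset_union_left, true_and]
  split_ifs
  · rw [card_sdiff_of_subset hX]
    have h3 : (X ∪ V).card - X.card = V.card := by omega
    rw [h3, div_mul_div_comm]
  · ring

theorem pe_zero (τ : Finset α → Lab) {D X V : Finset α} {x : α} (h : ¬ X ⊆ V) :
    pe τ D X V x = 0 := by
  unfold pe
  rw [if_neg (fun h' => h h'.1)]

theorem pv_zero (τ : Finset α → Lab) {D X V : Finset α} (h : ¬ X ⊆ V) : pv τ D X V = 0 := by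
  unfold pv
  rw [if_neg (fun h' => h h'.1)]

/-- Sums over all sets of functions that vanish outside the sets above `X`. -/
theorem sum_above' {E X : Finset α} (hX : X ⊆ E) (F : Finset α → ℝ)
    (hF : ∀ V, ¬ X ⊆ V → F V = 0) :
    ∑ V ∈ E.powerset, F V = ∑ V ∈ (E \ X).powerset, F (X ∪ V) := by
  rw [← sum_above hX F]
  refine sum_congr rfl fun V _ => ?_
  split_ifs with h
  · rfl
  · exact hF V h

theorem stmt_SHIFT : Stmt_SHIFT α := by
  intro τ D X g hX hg
  rw [mem_sdiff] at hg
  have hXe : X ⊆ D.erase g := subset_erase.2 ⟨hX, hg.2⟩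
  have he : D.erase g \ X = (D \ X).erase g := by
    ext y; simp only [mem_sdiff, mem_erase]; tauto
  have hsub : ∀ V ∈ ((D \ X).erase g).powerset, V ⊆ D \ X :=
    fun V hV => (mem_powerset.1 hV).trans (erase_subset _ _)
  refine ⟨?_, ?_, ?_⟩
  · unfold PP1 P0
    rw [sum_above' hXe _ (fun V h => pe_zero τ h), he, mul_sum]
    refine sum_congr rfl fun V hV => ?_
    rw [pe_shift τ hX (hsub V hV)]
  · unfold QQ1 Q0
    rw [mul_add]
    congr 1
    · rw [sum_above' hX _ (fun V h => sum_eq_zero fun x _ => by rw [pe_zero τ h, zero_mul]),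
        mul_sum]
      refine sum_congr rfl fun V hV => ?_
      rw [mem_powerset] at hV
      have h1 : D \ (X ∪ V) = (D \ X) \ V := by
        ext y; simp only [mem_sdiff, mem_union, not_or]; tauto
      rw [h1, mul_sum]
      refine sum_congr rfl fun x _ => ?_
      rw [pe_shift τ hX hV]
      obtain ⟨_, h2⟩ := card_shift hX hV
      have h3 : g ∈ insert x (X ∪ V) ↔ g ∈ insert x V := by
        simp only [mem_insert, mem_union]
        constructor
        · rintro (h | h | h)
          · exact Or.inl h
          · exact absurd h hg.2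
          · exact Or.inr h
        · rintro (h | h)
          · exact Or.inl h
          · exact Or.inr (Or.inr h)
      have h5 : (D.card : ℝ) - 2 - (X ∪ V).card = ((D \ X).card : ℝ) - 2 - V.card := by linarith
      have h6 : (D.card : ℝ) - (X ∪ V).card - 1 = ((D \ X).card : ℝ) - V.card - 1 := by linarith
      rw [h5, h6]
      simp only [h3]
      split_ifs
      · ring
      · ring
      · ring
      · ring
    · rw [sum_above' hX _ (fun V h => by rw [pv_zero τ h, zero_mul]), mul_sum]
      refine sum_congr rfl fun V hV => ?_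
      rw [mem_powerset] at hV
      rw [pv_shift τ hX hV]
      obtain ⟨_, h2⟩ := card_shift hX hV
      have h3 : g ∈ X ∪ V ↔ g ∈ V := by
        simp only [mem_union]
        constructor
        · rintro (h | h)
          · exact absurd h hg.2
          · exact h
        · exact Or.inr
      have h5 : (D.card : ℝ) - 1 - (X ∪ V).card = ((D \ X).card : ℝ) - 1 - V.card := by linarith
      have h6 : (D.card : ℝ) - (X ∪ V).card = ((D \ X).card : ℝ) - V.card := by linarith
      rw [h5, h6]
      simp only [h3]
      split_ifs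
      · ring
      · ring
      · ring
      · ring
  · unfold T0
    rw [sum_above' hXe _ (fun V h => by rw [pe_zero τ h, zero_mul]), he, mul_sum]
    refine sum_congr rfl fun V hV => ?_
    rw [pe_shift τ hX (hsub V hV)]
    have h1 : (X ∪ V) \ X = V := by
      ext y
      simp only [mem_sdiff, mem_union]
      constructor
      · rintro ⟨h1 | h1, h2⟩
        · exact absurd h1 h2
        · exact h1
      · intro h
        exact ⟨Or.inr h, (mem_sdiff.1 (hsub V hV h)).2⟩
    rw [h1]
    split_ifs
    · ring
    · ring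

end R5
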