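import Pool.Agent.Work.MP_8b6acb_cap.SWL

/-! Block SWF: the swap, colour F. -/

namespace R5

open Finset

variable {α : Type} [DecidableEq α]

theorem lower_binom {D Y : Finset α} {x : α} (hY : Y ⊆ D) (hx : x ∈ Y) :
    (D.card.choose (Y.erase x).card : ℝ) * ((D.card : ℝ) - (Y.erase x).card) =
      (D.card.choose Y.card : ℝ) * (Y.card : ℝ) := by
  have hYc : 0 < Y.card := card_pos.2 ⟨x, hx⟩
  have hle : Y.card ≤ D.card := card_le_card hY
  rw [card_erase_of_mem hx]
  have e2 := choose_up (l := D.card) (k := Y.card - 1) (by omega)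
  have e3 : Y.card - 1 + 1 = Y.card := by omega
  have e4 : ((Y.card - 1 : ℕ) : ℝ) + 1 = Y.card := by
    have := congrArg (fun n : ℕ => (n : ℝ)) e3
    push_cast at this
    exact this
  rw [e2, e3, e4]

theorem fwb_empty (τ : Finset α → Lab) : fwb τ ∅ = 0 := by
  simp [fwb]

theorem stmt_SWF : Stmt_SWF α := by
  intro τ D F hA hB
  have hl0 : (0 : ℝ) < (D.card : ℝ) + 1 := by positivity
  -- the edges
  have h1 : ∑ V ∈ D.powerset, ∑ x ∈ D \ V, yFe τ D V x * F (insert x V) =
      ∑ Y ∈ D.powerset, (if τ Y = Lab.B then fwb τ Y else 0) *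
        (ab τ D Y * F Y / (((D.card : ℝ) + 1) * (D.card.choose Y.card : ℝ))) := by
    rw [sum_up_down D (fun V x => yFe τ D V x * F (insert x V))]
    refine sum_congr rfl fun Y hY => ?_
    rw [mem_powerset] at hY
    have e1 : ∀ x ∈ Y, yFe τ D (Y.erase x) x * F (insert x (Y.erase x)) =
        (if τ Y = Lab.B then fw τ (Y.erase x) else 0) *
          (ab τ D Y * F Y / (((D.card : ℝ) + 1) * (D.card.choose Y.card : ℝ) *
            (Y.card : ℝ))) := by
      intro x hx
      unfold yFe
      by_cases hE : isE τ (Y.erase x) x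
      · rw [if_pos hE]
        obtain ⟨hXA, hYB⟩ := hE
        rw [insert_erase hx] at hYB ⊢
        rw [if_pos hYB, mul_assoc ((D.card : ℝ) + 1), lower_binom hY hx, ← mul_assoc]
        ring
      · rw [if_neg hE, zero_mul]
        by_cases hYB : τ Y = Lab.B
        · rw [if_pos hYB]
          have hXA : τ (Y.erase x) ≠ Lab.A := fun h => hE ⟨h, by rw [insert_erase hx]; exact hYB⟩
          rw [fw_of_ne hXA, zero_mul]
        · rw [if_neg hYB, zero_mul]
    rw [sum_congr rfl e1, ← sum_mul]
    by_cases hY0 : Y = ∅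
    · subst hY0
      rw [if_neg (by rw [hA]; simp)]
      simp
    have hYc : (0 : ℝ) < Y.card := by
      rw [Nat.cast_pos, card_pos]
      exact nonempty_iff_ne_empty.2 hY0
    have hp : (0 : ℝ) < (D.card.choose Y.card : ℝ) := choose_pos_real (card_le_card hY)
    split_ifs with hYB
    · unfold fwb
      field_simp
    · simp
  -- the vertices
  have h2 : ∑ V ∈ D.powerset, yFv τ D V * F V =
      ∑ Y ∈ D.powerset, (if τ Y = Lab.X then fwb τ Y else 0) *
        (ab τ D Y * F Y / (((D.card : ℝ) + 1) * (D.card.choose Y.card : ℝ))) := by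
    refine sum_congr rfl fun Y _ => ?_
    unfold yFv
    split_ifs with h
    · ring
    · simp
  -- first part of the right side
  have h3 : ∑ X ∈ D.powerset, ∑ g ∈ D \ X, fw τ X * ab τ D (insert g X) /
      (((D.card : ℝ) + 1) * (D.card.choose X.card : ℝ) * ((D.card : ℝ) - X.card)) *
        F (insert g X) =
      ∑ Y ∈ D.powerset, fwb τ Y *
        (ab τ D Y * F Y / (((D.card : ℝ) + 1) * (D.card.choose Y.card : ℝ))) := by
    rw [sum_up_down D (fun X g => fw τ X * ab τ D (insert g X) /
      (((D.card : ℝ) + 1) * (D.card.choose X.card : ℝ) * ((D.card : ℝ) - X.card)) *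
        F (insert g X))]
    refine sum_congr rfl fun Y hY => ?_
    rw [mem_powerset] at hY
    have e1 : ∀ x ∈ Y, fw τ (Y.erase x) * ab τ D (insert x (Y.erase x)) /
        (((D.card : ℝ) + 1) * (D.card.choose (Y.erase x).card : ℝ) *
          ((D.card : ℝ) - (Y.erase x).card)) * F (insert x (Y.erase x)) =
        fw τ (Y.erase x) * (ab τ D Y * F Y / (((D.card : ℝ) + 1) *
          (D.card.choose Y.card : ℝ) * (Y.card : ℝ))) := by
      intro x hx
      rw [insert_erase hx, mul_assoc ((D.card : ℝ) + 1), lower_binom hY hx, ← mul_assoc]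
      ring
    rw [sum_congr rfl e1, ← sum_mul]
    by_cases hY0 : Y = ∅
    · subst hY0
      rw [fwb_empty]
      simp
    have hYc : (0 : ℝ) < Y.card := by
      rw [Nat.cast_pos, card_pos]
      exact nonempty_iff_ne_empty.2 hY0
    have hp : (0 : ℝ) < (D.card.choose Y.card : ℝ) := choose_pos_real (card_le_card hY)
    unfold fwb
    field_simp
  -- second part of the right side
  have h4 : ∑ X ∈ D.powerset, ∑ g ∈ D \ X, fw τ X * ab τ D (insert g X) /
      (((D.card : ℝ) + 1) * (D.card.choose X.card : ℝ) * ((D.card : ℝ) - X.card)) * F X =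
      ∑ Y ∈ D.powerset, fw τ Y *
        (ab τ D Y * F Y / (((D.card : ℝ) + 1) * (D.card.choose Y.card : ℝ))) := by
    refine sum_congr rfl fun Y hY => ?_
    rw [mem_powerset] at hY
    by_cases hYA : τ Y = Lab.A
    · have hYD : Y ≠ D := by
        rintro rfl
        rw [hYA] at hB
        exact absurd hB (by simp)
      have hnot : ¬ D ⊆ Y := fun h => hYD (Subset.antisymm hY h)
      have hc2 : ((D \ Y).card : ℝ) = (D.card : ℝ) - Y.card := card_sdiff_cast hY
      have hc : (0 : ℝ) < ((D \ Y).card : ℝ) := by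
        rw [Nat.cast_pos, card_pos, sdiff_nonempty]
        exact hnot
      have hp : (0 : ℝ) < (D.card.choose Y.card : ℝ) := choose_pos_real (card_le_card hY)
      rw [ab_rec hnot, bw_of_ne hY (by rw [hYA]; simp), zero_add, ← hc2, ← sum_mul,
        ← sum_div, ← mul_sum]
      field_simp
    · rw [fw_of_ne hYA]
      simp
  have hR : ∑ X ∈ D.powerset, ∑ g ∈ D \ X, fw τ X * ab τ D (insert g X) /
      (((D.card : ℝ) + 1) * (D.card.choose X.card : ℝ) * ((D.card : ℝ) - X.card)) *
        (F (insert g X) - F X) =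
      (∑ Y ∈ D.powerset, fwb τ Y *
        (ab τ D Y * F Y / (((D.card : ℝ) + 1) * (D.card.choose Y.card : ℝ)))) -
      ∑ Y ∈ D.powerset, fw τ Y *
        (ab τ D Y * F Y / (((D.card : ℝ) + 1) * (D.card.choose Y.card : ℝ))) := by
    rw [← h3, ← h4, ← sum_sub_distrib]
    refine sum_congr rfl fun X _ => ?_
    rw [← sum_sub_distrib]
    exact sum_congr rfl fun g _ => mul_sub _ _ _
  rw [h1, h2, hR, ← sum_add_distrib, ← sum_sub_distrib]
  -- compare term by term
  have h5 : ∀ Y ∈ D.powerset, (if τ Y = Lab.B then fwb τ Y else 0) *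
        (ab τ D Y * F Y / (((D.card : ℝ) + 1) * (D.card.choose Y.card : ℝ))) +
      (if τ Y = Lab.X then fwb τ Y else 0) *
        (ab τ D Y * F Y / (((D.card : ℝ) + 1) * (D.card.choose Y.card : ℝ))) =
      (fwb τ Y * (ab τ D Y * F Y / (((D.card : ℝ) + 1) * (D.card.choose Y.card : ℝ))) -
        fw τ Y * (ab τ D Y * F Y / (((D.card : ℝ) + 1) * (D.card.choose Y.card : ℝ)))) +
      if Y = ∅ then ab τ D ∅ / ((D.card : ℝ) + 1) * F ∅ else 0 := by
    intro Y _
    by_cases hY0 : Y = ∅
    · subst hY0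
      rw [if_pos rfl, hA, fwb_empty, fw_empty, if_pos hA]
      simp
      ring
    · rw [if_neg hY0, fw_rec hY0, add_zero, ← add_mul, ← sub_mul]
      congr 1
      cases h : τ Y <;> simp
  rw [sum_congr rfl h5, sum_add_distrib, sum_ite_eq' D.powerset ∅,
    if_pos (empty_mem_powerset D)]
  ring

end R5
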