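import Pool.Agent.Work.MP_8b6acb_cap.CONVL

/-! Block TELE: telescoping. -/

namespace R5

open Finset

variable {α : Type} [DecidableEq α]

theorem stmt_TELE (hC : Stmt_CHAIN α) : Stmt_TELE α := by
  intro τ V l hl
  have h := conv_aw hC τ V (fun i => lamn (l - i))
  have h1 : ∀ X ∈ V.powerset, fw τ X / (V.card.choose X.card : ℝ) *
      (Real.log ((l : ℝ) - X.card) + lamn (l - X.card) * (aw (shift τ X) (V \ X) - 1)) =
      fw τ X / (V.card.choose X.card : ℝ) *
        (lamn (l - X.card) * aw (shift τ X) (V \ X)) +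
      fw τ X / (V.card.choose X.card : ℝ) *
        (Real.log ((l : ℝ) - X.card) - lamn (l - X.card)) := fun X _ => by ring
  rw [sum_congr rfl h1, sum_add_distrib, h, ← sum_add_distrib]
  unfold aw
  rw [mul_sum]
  refine sum_congr rfl fun X hX => ?_
  have hlt : X.card < l := lt_of_le_of_lt (card_le_card (mem_powerset.1 hX)) hl
  rw [sum_range_succ, sum_lamn l X.card hlt]
  ring

end R5
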