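import Pool.Agent.Work.MP_8b6acb_cap.Interface

/-! # Block TLEM: the track lemma (helper52) -/

set_option autoImplicit false

namespace R5

open Finset

theorem TlemAux.ar5 (n c b a : ℝ) (hn : 0 < n) (hc : 0 < c) :
    n * ((a - 1) * (b / (n * c)) + b / (n * c)) = b / c * a := by
  field_simp
  ring

theorem stmt_TLEM {α : Type} [DecidableEq α] (hQ : Stmt_QLB α) (hC : Stmt_CORE α) :
    Stmt_TLEM α := by
  intro τ D g h0 hB hg
  have hq := hQ τ D g h0 hB hg
  have hgE : g ∉ D.erase g := notMem_erase g D
  have hn : D.card = (D.erase g).card + 1 := by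
    rw [card_erase_of_mem hg]
    have := card_pos.2 ⟨g, hg⟩
    omega
  have hins : insert g (D.erase g) = D := insert_erase hg
  obtain ⟨E, hE⟩ : ∃ E, E = D.erase g := ⟨_, rfl⟩
  rw [← hE] at hq hgE hn hins ⊢
  have hn1 : D.card - 1 = E.card := by omega
  have hn' : (D.card : ℝ) - 1 = (E.card : ℝ) := by
    rw [hn]
    push_cast
    ring
  have hn2 : (D.card : ℝ) = (E.card : ℝ) + 1 := by linarith
  have hD0 : (0 : ℝ) < D.card := by
    rw [hn2]
    exact add_pos_of_nonneg_of_pos (Nat.cast_nonneg _) one_pos
  rw [hn1, hn'] at hq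
  -- the submartingale
  have hc := hC τ E (fun V => bw τ D (insert g V)) h0 (fun V _ => bw_nonneg _ _ _) (by
    intro V hV hne
    have hgV : g ∉ V := fun h => hgE (hV h)
    have hVD : insert g V ⊆ D := by
      rw [← hins]
      exact insert_subset_insert g hV
    have hne' : insert g V ≠ D := by
      intro h
      apply hne
      rw [hE, ← h, erase_insert hgV]
    have hsd : D \ insert g V = E \ V := by
      rw [hE]
      ext y
      simp only [mem_sdiff, mem_insert, mem_erase, not_or]
      tauto
    have hbb : bwb τ D (insert g V) =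
        (∑ x ∈ E \ V, bw τ D (insert g (insert x V))) / ((E \ V).card : ℝ) := by
      unfold bwb
      rw [hsd]
      congr 1
      refine sum_congr rfl fun x _ => ?_
      rw [insert_comm]
    show bw τ D (insert g V) ≤
      (∑ x ∈ E \ V, bw τ D (insert g (insert x V))) / ((E \ V).card : ℝ)
    rw [← hbb, bw_rec hVD hne']
    split_ifs
    · exact le_refl _
    · exact bwb_nonneg _ _ _)
  -- the left-hand side
  have hT : (D.card : ℝ) * (T0 τ D g + P0 τ D g) = ∑ V ∈ E.powerset,
      bw τ D (insert g V) / (E.card.choose V.card : ℝ) *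
        (if τ V = Lab.A then aw τ V else 0) := by
    unfold T0 P0
    rw [← sum_add_distrib, mul_sum, ← hE]
    refine sum_congr rfl fun V hV => ?_
    have hV' := mem_powerset.1 hV
    have hVD : V ⊆ D := hV'.trans (by rw [hE]; exact erase_subset _ _)
    have hle : V.card ≤ E.card := card_le_card hV'
    have p1 : (0 : ℝ) < (E.card.choose V.card : ℝ) := choose_pos_real hle
    have p2 : (0 : ℝ) < (D.card.choose V.card : ℝ) := choose_pos_real (by omega)
    have p3 : (0 : ℝ) < (D.card : ℝ) - V.card := by
      have : (V.card : ℝ) ≤ E.card := by exact_mod_cast hle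
      linarith
    have hch : (D.card.choose V.card : ℝ) * ((D.card : ℝ) - V.card) =
        (D.card : ℝ) * (E.card.choose V.card : ℝ) := by
      have h1 := Nat.choose_mul_succ_eq E.card V.card
      have h2 : ((E.card + 1 - V.card : ℕ) : ℝ) = (D.card : ℝ) - V.card := by
        rw [Nat.cast_sub (by omega), hn2]
        push_cast
        ring
      rw [← h2, hn2]
      have h3 : (D.card.choose V.card : ℝ) * ((E.card + 1 - V.card : ℕ) : ℝ) =
          (((E.card.choose V.card) * (E.card + 1) : ℕ) : ℝ) := by
        rw [h1, ← hn]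
        push_cast
        ring
      rw [h3]
      push_cast
      ring
    rw [hch]
    by_cases h1 : τ V = Lab.A
    · rw [if_pos h1]
      by_cases h2 : τ (insert g V) = Lab.B
      · have h3 : isE τ V g := ⟨h1, h2⟩
        rw [if_pos h3, if_pos h3]
        exact TlemAux.ar5 _ _ _ _ hD0 p1
      · have h3 : ¬ isE τ V g := fun h => h2 h.2
        rw [if_neg h3, if_neg h3, bw_of_ne (insert_subset hg hVD) h2]
        simp
    · have h3 : ¬ isE τ V g := fun h => h1 h.1
      rw [if_neg h3, if_neg h3, if_neg h1]
      simp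
  have hbD : bw τ D D = 1 := by rw [bw_top, if_pos hB]
  -- everything together
  have key : (D.card : ℝ) * (T0 τ D g + P0 τ D g) ≤ (D.card : ℝ) * Q0 τ D g +
      if τ E = Lab.A then aw τ E else 0 := by
    refine le_trans ?_ (add_le_add_left hq _)
    rw [hT, ← sub_nonneg]
    rw [← add_sum_erase E.powerset (fun V => bw τ D (insert g V) / (E.card.choose V.card : ℝ) *
      ((if V = E then 0 else 2 * (V.card : ℝ) + 1 - (E.card : ℝ)) +
       (if τ V = Lab.A then (E.card : ℝ) - V.card else ((E.card : ℝ) - V.card) / 2)))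
       (mem_powerset_self E),
      ← add_sum_erase E.powerset (fun V => bw τ D (insert g V) / (E.card.choose V.card : ℝ) *
        (if τ V = Lab.A then aw τ V else 0)) (mem_powerset_self E)]
    have h1 : ∑ V ∈ E.powerset.erase E, bw τ D (insert g V) / (E.card.choose V.card : ℝ) *
        ((if V = E then 0 else 2 * (V.card : ℝ) + 1 - (E.card : ℝ)) +
         (if τ V = Lab.A then (E.card : ℝ) - V.card else ((E.card : ℝ) - V.card) / 2)) -
        ∑ V ∈ E.powerset.erase E, bw τ D (insert g V) / (E.card.choose V.card : ℝ) *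
        (if τ V = Lab.A then aw τ V else 0) =
        ∑ V ∈ E.powerset.erase E, bw τ D (insert g V) / (E.card.choose V.card : ℝ) *
    ((2 * (V.card : ℝ) + 1 - E.card) +
     (if τ V = Lab.A then (E.card : ℝ) - V.card - aw τ V else
      ((E.card : ℝ) - V.card) / 2)) := by
      rw [← sum_sub_distrib]
      refine sum_congr rfl fun V hV => ?_
      rw [if_neg (mem_erase.1 hV).1]
      by_cases h2 : τ V = Lab.A
      · rw [if_pos h2, if_pos h2, if_pos h2]
        ring
      · rw [if_neg h2, if_neg h2, if_neg h2]
        ring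
    rw [← h1] at hc
    have h2 : bw τ D (insert g E) / (E.card.choose E.card : ℝ) *
        ((if E = E then 0 else 2 * (E.card : ℝ) + 1 - (E.card : ℝ)) +
         (if τ E = Lab.A then (E.card : ℝ) - E.card else ((E.card : ℝ) - E.card) / 2)) = 0 := by
      simp
    have h3 : bw τ D (insert g E) / (E.card.choose E.card : ℝ) *
        (if τ E = Lab.A then aw τ E else 0) = if τ E = Lab.A then aw τ E else 0 := by
      rw [hins, hbD]
      simp
    rw [h2, h3]
    linarith
  have h4 : (D.card : ℝ) * (T0 τ D g + P0 τ D g) ≤ (D.card : ℝ) * (Q0 τ D g +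
      if τ E = Lab.A then aw τ E / (D.card : ℝ) else 0) := by
    refine key.trans (le_of_eq ?_)
    rw [mul_add]
    congr 1
    split_ifs
    · exact (mul_div_cancel₀ _ hD0.ne').symm
    · simp
  exact le_of_mul_le_mul_left h4 hD0

end R5
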