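import Pool.Agent.Work.MP_8b6acb_cap.Interface

/-! Block TTRIV: trivial bounds for `T0`. -/

namespace R5

open Finset

variable {α : Type} [DecidableEq α]

/-- The weight of the edge `(V, V + g)` in `P0`. -/
noncomputable def w0 (τ : Finset α → Lab) (D : Finset α) (g : α) (V : Finset α) : ℝ :=
  bw τ D (insert g V) / ((D.card.choose V.card : ℝ) * ((D.card : ℝ) - V.card))

theorem w0_nonneg (τ : Finset α → Lab) (D : Finset α) (g : α) {V : Finset α}
    (hV : V ∈ (D.erase g).powerset) : 0 ≤ w0 τ D g V := by
  unfold w0
  have h1 : V.card ≤ D.card := card_le_card ((mem_powerset.1 hV).trans (erase_subset _ _))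
  have h2 : (V.card : ℝ) ≤ D.card := by exact_mod_cast h1
  exact div_nonneg (bw_nonneg _ _ _) (mul_nonneg (Nat.cast_nonneg _) (by linarith))

theorem T0_add_P0 (τ : Finset α → Lab) (D : Finset α) (g : α) :
    T0 τ D g + P0 τ D g =
      ∑ V ∈ (D.erase g).powerset, if isE τ V g then aw τ V * w0 τ D g V else 0 := by
  unfold T0 P0
  rw [← sum_add_distrib]
  refine sum_congr rfl fun V _ => ?_
  unfold w0
  split_ifs
  · ring
  · ring

theorem mul_P0 (τ : Finset α → Lab) (D : Finset α) (g : α) (c : ℝ) :
    c * P0 τ D g = ∑ V ∈ (D.erase g).powerset, if isE τ V g then c * w0 τ D g V else 0 := by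
  unfold P0
  rw [mul_sum]
  refine sum_congr rfl fun V _ => ?_
  unfold w0
  split_ifs
  · rfl
  · ring

theorem stmt_TTRIV : Stmt_TTRIV α := by
  intro τ D g _ hD hg
  have hcard : (D.erase g).card + 1 = D.card := card_erase_add_one hg
  refine ⟨?_, ?_, ?_⟩
  · rw [T0_add_P0, mul_P0]
    refine sum_le_sum fun V hV => ?_
    split_ifs
    · refine mul_le_mul_of_nonneg_right ?_ (w0_nonneg τ D g hV)
      have h1 : V.card + 1 ≤ D.card := by
        have := card_le_card (mem_powerset.1 hV)
        omega
      have h2 : (V.card : ℝ) + 1 ≤ D.card := by exact_mod_cast h1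
      exact (aw_le τ V).trans h2
    · exact le_refl _
  · intro hne
    rw [T0_add_P0, mul_P0]
    refine sum_le_sum fun V hV => ?_
    split_ifs with h
    · refine mul_le_mul_of_nonneg_right ?_ (w0_nonneg τ D g hV)
      have h0 : V ≠ D.erase g := by
        intro h'
        rw [h'] at h
        exact hne h.1
      have h1 : V.card + 2 ≤ D.card := by
        have := card_lt_card (ssubset_of_subset_of_ne (mem_powerset.1 hV) h0)
        omega
      have h2 : (V.card : ℝ) + 2 ≤ D.card := by exact_mod_cast h1
      linarith [aw_le τ V]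
    · exact le_refl _
  · intro hA
    have hE : isE τ (D.erase g) g := ⟨hA, by rw [insert_erase hg]; exact hD⟩
    have hmem : D.erase g ∈ (D.erase g).powerset := mem_powerset_self _
    have h1 : (if isE τ (D.erase g) g then w0 τ D g (D.erase g) else 0) ≤ P0 τ D g := by
      unfold P0
      exact single_le_sum (f := fun V => if isE τ V g then w0 τ D g V else 0)
        (fun V hV => by
          split_ifs
          · exact w0_nonneg τ D g hV
          · exact le_refl _) hmem
    rw [if_pos hE] at h1
    refine le_trans (le_of_eq ?_) h1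
    unfold w0
    rw [insert_erase hg, bw_top, if_pos hD]
    have h2 : ((D.erase g).card : ℝ) = (D.card : ℝ) - 1 := by
      rw [← hcard]; push_cast; ring
    have h3 : D.card.choose (D.erase g).card = D.card := by
      have h4 : (D.erase g).card = D.card - 1 := by omega
      rw [h4]
      obtain ⟨n, hn⟩ : ∃ n, D.card = n + 1 := ⟨(D.erase g).card, hcard.symm⟩
      rw [hn, Nat.add_sub_cancel, Nat.choose_succ_self_right]
    rw [h2, h3]
    congr 1
    ring

end R5
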