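import Pool.Agent.Work.MP_8b6acb_cap.Interface

/-! Block TYPE. -/

namespace R5

open Finset

variable {α : Type} [DecidableEq α]

namespace TypeAux

theorem Zt_pos {τ : Finset α → Lab} {D : Finset α} (h0 : τ ∅ = Lab.A) : 0 < Zt τ D := by
  unfold Zt
  have h1 := one_le_aw h0 D
  have h2 := ab_nonneg τ D ∅
  positivity

theorem log_choose {l k : ℕ} (hk : k ≤ l) : Real.log (l.choose k : ℝ) =
    Real.log (l.factorial : ℝ) - Real.log (k.factorial : ℝ) - Real.log ((l - k).factorial : ℝ) := by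
  have h := Nat.choose_mul_factorial_mul_factorial hk
  have h1 : (0 : ℝ) < (l.choose k : ℝ) := choose_pos_real hk
  have h2 : (0 : ℝ) < (k.factorial : ℝ) := by exact_mod_cast Nat.factorial_pos k
  have h3 : (0 : ℝ) < ((l - k).factorial : ℝ) := by exact_mod_cast Nat.factorial_pos _
  have h4 : (l.factorial : ℝ) = (l.choose k : ℝ) * (k.factorial : ℝ) * ((l - k).factorial : ℝ) := by
    exact_mod_cast h.symm
  rw [h4, Real.log_mul (by positivity) (by positivity), Real.log_mul (by positivity) (by positivity)]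
  ring

theorem log_choose' {l k : ℕ} (hk : k < l) : Real.log ((l.choose k : ℝ) * ((l : ℝ) - k)) =
    Real.log (l.factorial : ℝ) - Real.log (k.factorial : ℝ) -
      Real.log ((l - (k + 1)).factorial : ℝ) := by
  have h1 : (0 : ℝ) < (l.choose k : ℝ) := choose_pos_real hk.le
  have h2 : (0 : ℝ) < (l : ℝ) - k := by
    have : (k : ℝ) < l := by exact_mod_cast hk
    linarith
  rw [Real.log_mul h1.ne' h2.ne', log_choose hk.le]
  have h3 : l - k = (l - (k + 1)) + 1 := by omega
  have h4 : ((l - k).factorial : ℝ) = ((l : ℝ) - k) * ((l - (k + 1)).factorial : ℝ) := by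
    rw [h3, Nat.factorial_succ, ← h3]
    push_cast
    rw [Nat.cast_sub hk.le]
  have h5 : (0 : ℝ) < ((l - (k + 1)).factorial : ℝ) := by exact_mod_cast Nat.factorial_pos _
  rw [h4, Real.log_mul h2.ne' h5.ne']
  ring

theorem edge_const {τ : Finset α → Lab} {D V : Finset α} {x : α} (h0 : τ ∅ = Lab.A) (hV : V ⊆ D)
    (hx : x ∈ D \ V) : yLe τ D V x * (Real.log (((V.card : ℝ) + 1) / ((D.card : ℝ) + 1)) +
      Real.log (Zt τ D / yLe τ D V x)) = yLe τ D V x *
      (-Real.log (aw τ V * bw τ D (insert x V) / (((V.card : ℝ) + 1) * Zt τ D)) +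
        (Real.log (D.card.factorial : ℝ) - Real.log (V.card.factorial : ℝ) -
          Real.log ((D.card - (V.card + 1)).factorial : ℝ))) := by
  have hZ := Zt_pos (D := D) h0
  by_cases hy : yLe τ D V x = 0
  · rw [hy]; ring
  have hlt : V.card < D.card := by
    have hx' := mem_sdiff.1 hx
    have := card_le_card (insert_subset hx'.1 hV)
    rw [card_insert_of_notMem hx'.2] at this
    omega
  have hC : (0 : ℝ) < (D.card.choose V.card : ℝ) := choose_pos_real hlt.le
  have hk : (0 : ℝ) < (D.card : ℝ) - V.card := by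
    have : (V.card : ℝ) < D.card := by exact_mod_cast hlt
    linarith
  have ha : 0 < aw τ V := lt_of_lt_of_le one_pos (one_le_aw h0 V)
  have hb : bw τ D (insert x V) ≠ 0 := by
    intro hb
    apply hy
    unfold yLe
    rw [hb]; simp
  have hb' : 0 < bw τ D (insert x V) := lt_of_le_of_ne (bw_nonneg _ _ _) (Ne.symm hb)
  have he : isE τ V x := by
    by_contra he
    apply hy
    unfold yLe
    rw [if_neg he]
  have hyv : yLe τ D V x = aw τ V * bw τ D (insert x V) /
      (((D.card : ℝ) + 1) * (D.card.choose V.card : ℝ) * ((D.card : ℝ) - (V.card : ℝ))) := by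
    unfold yLe; rw [if_pos he]
  rw [← log_choose' hlt]
  congr 1
  rw [hyv, ← Real.log_inv, ← Real.log_mul (by positivity) (by positivity),
    ← Real.log_mul (by positivity) (by positivity)]
  congr 1
  field_simp

theorem vert_const {τ : Finset α → Lab} {D V : Finset α} (h0 : τ ∅ = Lab.A) (hD : D.Nonempty)
    (hV : V ⊆ D) : yLv τ D V * (Real.log ((V.card : ℝ) / (D.card : ℝ)) +
      Real.log (Zt τ D / yLv τ D V)) = yLv τ D V *
      (-Real.log (aw τ V * bwb τ D V * (D.card : ℝ) / (((D.card : ℝ) + 1) * (V.card : ℝ) * Zt τ D)) +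
        (Real.log (D.card.factorial : ℝ) - Real.log (V.card.factorial : ℝ) -
          Real.log ((D.card - V.card).factorial : ℝ))) := by
  have hZ := Zt_pos (D := D) h0
  by_cases hy : yLv τ D V = 0
  · rw [hy]; ring
  have hX : τ V = Lab.X := by
    by_contra he
    apply hy
    unfold yLv
    rw [if_neg he]
  have hV0 : V.Nonempty := by
    rw [nonempty_iff_ne_empty]
    rintro rfl
    rw [h0] at hX
    exact absurd hX (by decide)
  have hk : (0 : ℝ) < (V.card : ℝ) := by exact_mod_cast card_pos.2 hV0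
  have hl : (0 : ℝ) < (D.card : ℝ) := by exact_mod_cast card_pos.2 hD
  have hC : (0 : ℝ) < (D.card.choose V.card : ℝ) := choose_pos_real (card_le_card hV)
  have ha : 0 < aw τ V := lt_of_lt_of_le one_pos (one_le_aw h0 V)
  have hyv : yLv τ D V = aw τ V * bwb τ D V / (((D.card : ℝ) + 1) * (D.card.choose V.card : ℝ)) := by
    unfold yLv; rw [if_pos hX]
  have hb : bwb τ D V ≠ 0 := by
    intro hb
    apply hy
    rw [hyv, hb]; simp
  have hb' : 0 < bwb τ D V := lt_of_le_of_ne (bwb_nonneg _ _ _) (Ne.symm hb)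
  rw [← log_choose (card_le_card hV)]
  congr 1
  rw [hyv, ← Real.log_inv, ← Real.log_mul (by positivity) (by positivity),
    ← Real.log_mul (by positivity) (by positivity)]
  congr 1
  field_simp

/-- Shortcut for the swap coefficient. -/
noncomputable def sw (τ : Finset α → Lab) (D X : Finset α) (g : α) : ℝ :=
  fw τ X * ab τ D (insert g X) /
      (((D.card : ℝ) + 1) * (D.card.choose X.card : ℝ) * ((D.card : ℝ) - X.card))

noncomputable def ell (ρ : Finset α → α → ℝ) (D X : Finset α) (g : α) : ℝ :=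
  -Real.log (1 - ρ X g / ((D.card : ℝ) - X.card))

theorem pe_eq_zero {τ : Finset α → Lab} {D X V : Finset α} {x : α} (h : ¬ X ⊆ V) :
    pe τ D X V x = 0 := by
  unfold pe
  rw [if_neg]
  exact fun hh => h hh.1

theorem pv_eq_zero {τ : Finset α → Lab} {D X V : Finset α} (h : ¬ X ⊆ V) :
    pv τ D X V = 0 := by
  unfold pv
  rw [if_neg]
  exact fun hh => h hh.1

/-- The combined constants of the colour L and `KB`. -/
theorem KB_eq (ρ : Finset α → α → ℝ) {D X V : Finset α} {x : α} (hV : V ⊆ D) (hx : x ∈ D \ V)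
    (hXV : X ⊆ V) :
    KB ρ D X (insert x V) + (Real.log (D.card.factorial : ℝ) - Real.log (V.card.factorial : ℝ) -
          Real.log ((D.card - (V.card + 1)).factorial : ℝ)) =
      (Real.log (D.card.factorial : ℝ) - Real.log (V.card.factorial : ℝ) -
        ((D.card : ℝ) - V.card) * Real.log ((D.card : ℝ) - X.card)) +
      Real.log ((D.card : ℝ) - X.card) +
      (∑ g ∈ D \ X, if g ∈ insert x V then 0 else Real.log (ρ X g)) +
      ∑ g ∈ D \ X, (if g ∈ insert x V then (D.card : ℝ) - V.card - 1 else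
        ((D.card : ℝ) - 2 - V.card) / 2) * ell ρ D X g := by
  have hx' := mem_sdiff.1 hx
  have hc : (insert x V).card = V.card + 1 := card_insert_of_notMem hx'.2
  have hU : insert x V ⊆ D := insert_subset hx'.1 hV
  have hXU : X ⊆ insert x V := hXV.trans (subset_insert _ _)
  have e1 : ∑ g ∈ D \ insert x V, Real.log (ρ X g) =
      ∑ g ∈ D \ X, if g ∈ insert x V then 0 else Real.log (ρ X g) := by
    have e : D \ insert x V = (D \ X).filter (fun g => g ∉ insert x V) := by
      ext g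
      simp only [mem_sdiff, mem_filter]
      constructor
      · rintro ⟨h1, h2⟩; exact ⟨⟨h1, fun h => h2 (hXU h)⟩, h2⟩
      · rintro ⟨⟨h1, _⟩, h2⟩; exact ⟨h1, h2⟩
    rw [e, sum_filter]
    refine sum_congr rfl fun g _ => ?_
    rw [ite_not]
  have e2 : ∑ g ∈ D \ X, (if g ∈ insert x V then (D.card : ℝ) - V.card - 1 else
        ((D.card : ℝ) - 2 - V.card) / 2) * ell ρ D X g =
      ((D.card : ℝ) - V.card - 1) * (∑ g ∈ insert x V \ X, ell ρ D X g) +
      (((D.card : ℝ) - 2 - V.card) / 2) * (∑ g ∈ D \ insert x V, ell ρ D X g) := by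
    rw [mul_sum, mul_sum]
    have hdisj : Disjoint (insert x V \ X) (D \ insert x V) := by
      rw [Finset.disjoint_left]
      intro y h1 h2
      exact (mem_sdiff.1 h2).2 (mem_sdiff.1 h1).1
    have hun : D \ X = (insert x V \ X) ∪ (D \ insert x V) := by
      ext g
      simp only [mem_sdiff, mem_union]
      constructor
      · rintro ⟨h1, h2⟩
        by_cases hg : g ∈ insert x V
        · exact Or.inl ⟨hg, h2⟩
        · exact Or.inr ⟨h1, hg⟩
      · rintro (⟨h1, h2⟩ | ⟨h1, h2⟩)
        · exact ⟨hU h1, h2⟩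
        · exact ⟨h1, fun h => h2 (hXU h)⟩
    rw [hun, sum_union hdisj]
    congr 1
    · refine sum_congr rfl fun g hg => ?_
      rw [if_pos (mem_sdiff.1 hg).1]
    · refine sum_congr rfl fun g hg => ?_
      rw [if_neg (mem_sdiff.1 hg).2]
  rw [← e1, e2]
  unfold KB ell
  rw [hc]
  push_cast
  ring

theorem KB_eq' (ρ : Finset α → α → ℝ) {D X V : Finset α} (hV : V ⊆ D)
    (hXV : X ⊆ V) :
    KB ρ D X V + (Real.log (D.card.factorial : ℝ) - Real.log (V.card.factorial : ℝ) -
          Real.log ((D.card - V.card).factorial : ℝ)) =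
      (Real.log (D.card.factorial : ℝ) - Real.log (V.card.factorial : ℝ) -
        ((D.card : ℝ) - V.card) * Real.log ((D.card : ℝ) - X.card)) +
      (∑ g ∈ D \ X, if g ∈ V then 0 else Real.log (ρ X g)) +
      ∑ g ∈ D \ X, (if g ∈ V then (D.card : ℝ) - V.card else
        ((D.card : ℝ) - 1 - V.card) / 2) * ell ρ D X g := by
  have e1 : ∑ g ∈ D \ V, Real.log (ρ X g) =
      ∑ g ∈ D \ X, if g ∈ V then 0 else Real.log (ρ X g) := by
    have e : D \ V = (D \ X).filter (fun g => g ∉ V) := by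
      ext g
      simp only [mem_sdiff, mem_filter]
      constructor
      · rintro ⟨h1, h2⟩; exact ⟨⟨h1, fun h => h2 (hXV h)⟩, h2⟩
      · rintro ⟨⟨h1, _⟩, h2⟩; exact ⟨h1, h2⟩
    rw [e, sum_filter]
    refine sum_congr rfl fun g _ => ?_
    rw [ite_not]
  have e2 : ∑ g ∈ D \ X, (if g ∈ V then (D.card : ℝ) - V.card else
        ((D.card : ℝ) - 1 - V.card) / 2) * ell ρ D X g =
      ((D.card : ℝ) - V.card) * (∑ g ∈ V \ X, ell ρ D X g) +
      (((D.card : ℝ) - 1 - V.card) / 2) * (∑ g ∈ D \ V, ell ρ D X g) := by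
    rw [mul_sum, mul_sum]
    have hdisj : Disjoint (V \ X) (D \ V) := by
      rw [Finset.disjoint_left]
      intro y h1 h2
      exact (mem_sdiff.1 h2).2 (mem_sdiff.1 h1).1
    have hun : D \ X = (V \ X) ∪ (D \ V) := by
      ext g
      simp only [mem_sdiff, mem_union]
      constructor
      · rintro ⟨h1, h2⟩
        by_cases hg : g ∈ V
        · exact Or.inl ⟨hg, h2⟩
        · exact Or.inr ⟨h1, hg⟩
      · rintro (⟨h1, h2⟩ | ⟨h1, h2⟩)
        · exact ⟨hV h1, h2⟩
        · exact ⟨h1, fun h => h2 (hXV h)⟩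
    rw [hun, sum_union hdisj]
    congr 1
    · refine sum_congr rfl fun g hg => ?_
      rw [if_pos (mem_sdiff.1 hg).1]
    · refine sum_congr rfl fun g hg => ?_
      rw [if_neg (mem_sdiff.1 hg).2]
  rw [← e1, e2]
  unfold KB ell
  ring

theorem sum_swap (D : Finset α) (φ : Finset α → α → ℝ) :
    ∑ V ∈ D.powerset, ∑ x ∈ D \ V, φ V x = ∑ g ∈ D, ∑ V ∈ (D.erase g).powerset, φ V g := by
  rw [sum_sigma', sum_sigma']
  refine sum_bij' (fun p _ => (⟨p.2, p.1⟩ : (_ : α) × Finset α))
    (fun p _ => (⟨p.2, p.1⟩ : (_ : Finset α) × α)) ?_ ?_ ?_ ?_ ?_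
  · rintro ⟨V, x⟩ h
    simp only [mem_sigma, mem_powerset, mem_sdiff] at h ⊢
    exact ⟨h.2.1, subset_erase.2 ⟨h.1, h.2.2⟩⟩
  · rintro ⟨x, V⟩ h
    simp only [mem_sigma, mem_powerset, mem_sdiff] at h ⊢
    have h2 := subset_erase.1 h.2
    exact ⟨h2.1, h.1, h2.2⟩
  · rintro ⟨V, x⟩ _; rfl
  · rintro ⟨x, V⟩ _; rfl
  · rintro ⟨V, x⟩ _; rfl

theorem sum_notMem (D : Finset α) (g : α) (φ : Finset α → ℝ) :
    ∑ V ∈ D.powerset, (if g ∈ V then 0 else φ V) = ∑ V ∈ (D.erase g).powerset, φ V := by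
  have e : (D.erase g).powerset = D.powerset.filter (fun V => g ∉ V) := by
    ext V
    simp only [mem_powerset, mem_filter, subset_erase]
  rw [e, sum_filter]
  refine sum_congr rfl fun V _ => ?_
  rw [ite_not]

theorem sum_pe (τ : Finset α → Lab) (D X : Finset α) :
    ∑ V ∈ D.powerset, ∑ x ∈ D \ V, pe τ D X V x = ∑ g ∈ D \ X, PP1 τ D X g := by
  rw [sum_swap]
  unfold PP1
  symm
  apply sum_subset sdiff_subset
  intro g hg hgX
  have hgX' : g ∈ X := by
    by_contra h
    exact hgX (mem_sdiff.2 ⟨hg, h⟩)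
  apply sum_eq_zero
  intro V hV
  apply pe_eq_zero
  intro h
  exact (subset_erase.1 (mem_powerset.1 hV)).2 (h hgX')

theorem XL (hSWL : Stmt_SWL α) (τ : Finset α → Lab) {D X : Finset α} (hX : X ⊆ D)
    (ρ : Finset α → α → ℝ) :
    (∑ V ∈ D.powerset, ∑ x ∈ D \ V, pe τ D X V x * (KB ρ D X (insert x V) +
      (Real.log (D.card.factorial : ℝ) - Real.log (V.card.factorial : ℝ) -
          Real.log ((D.card - (V.card + 1)).factorial : ℝ)))) +
    (∑ V ∈ D.powerset, pv τ D X V * (KB ρ D X V +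
      (Real.log (D.card.factorial : ℝ) - Real.log (V.card.factorial : ℝ) -
          Real.log ((D.card - V.card).factorial : ℝ)))) =
    (∑ V ∈ D.powerset, ((∑ x ∈ D \ V, pe τ D X V x) + pv τ D X V) *
      (Real.log (D.card.factorial : ℝ) - Real.log (V.card.factorial : ℝ) -
        ((D.card : ℝ) - V.card) * Real.log ((D.card : ℝ) - X.card))) +
    Real.log ((D.card : ℝ) - X.card) * (∑ g ∈ D \ X, PP1 τ D X g) +
    (∑ g ∈ D \ X, (sw τ D X g - PP1 τ D X g) * Real.log (ρ X g)) +
    ∑ g ∈ D \ X, QQ1 τ D X g * ell ρ D X g := by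
  have e1 : ∀ V ∈ D.powerset, ∀ x ∈ D \ V, pe τ D X V x * (KB ρ D X (insert x V) +
      (Real.log (D.card.factorial : ℝ) - Real.log (V.card.factorial : ℝ) -
          Real.log ((D.card - (V.card + 1)).factorial : ℝ))) =
      pe τ D X V x * (Real.log (D.card.factorial : ℝ) - Real.log (V.card.factorial : ℝ) -
        ((D.card : ℝ) - V.card) * Real.log ((D.card : ℝ) - X.card)) +
      pe τ D X V x * Real.log ((D.card : ℝ) - X.card) +
      (∑ g ∈ D \ X, (if g ∈ insert x V then 0 else pe τ D X V x) * Real.log (ρ X g)) +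
      ∑ g ∈ D \ X, (pe τ D X V x * (if g ∈ insert x V then (D.card : ℝ) - V.card - 1 else
        ((D.card : ℝ) - 2 - V.card) / 2)) * ell ρ D X g := by
    intro V hV x hx
    by_cases hXV : X ⊆ V
    · rw [KB_eq ρ (mem_powerset.1 hV) hx hXV, mul_add, mul_add, mul_add]
      congr 1
      · congr 1
        rw [mul_sum]
        refine sum_congr rfl fun g _ => ?_
        split_ifs <;> ring
      · rw [mul_sum]
        refine sum_congr rfl fun g _ => ?_
        ring
    · rw [pe_eq_zero hXV]; simp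
  have e2 : ∀ V ∈ D.powerset, pv τ D X V * (KB ρ D X V +
      (Real.log (D.card.factorial : ℝ) - Real.log (V.card.factorial : ℝ) -
          Real.log ((D.card - V.card).factorial : ℝ))) =
      pv τ D X V * (Real.log (D.card.factorial : ℝ) - Real.log (V.card.factorial : ℝ) -
        ((D.card : ℝ) - V.card) * Real.log ((D.card : ℝ) - X.card)) +
      (∑ g ∈ D \ X, (if g ∈ V then 0 else pv τ D X V) * Real.log (ρ X g)) +
      ∑ g ∈ D \ X, (pv τ D X V * (if g ∈ V then (D.card : ℝ) - V.card else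
        ((D.card : ℝ) - 1 - V.card) / 2)) * ell ρ D X g := by
    intro V hV
    by_cases hXV : X ⊆ V
    · rw [KB_eq' ρ (mem_powerset.1 hV) hXV, mul_add, mul_add]
      congr 1
      · congr 1
        rw [mul_sum]
        refine sum_congr rfl fun g _ => ?_
        split_ifs <;> ring
      · rw [mul_sum]
        refine sum_congr rfl fun g _ => ?_
        ring
    · rw [pv_eq_zero hXV]; simp
  rw [sum_congr rfl (fun V hV => sum_congr rfl (e1 V hV)), sum_congr rfl e2]
  simp only [sum_add_distrib]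
  -- the coefficient of `log ρ`
  have c1 : (∑ V ∈ D.powerset, ∑ x ∈ D \ V, ∑ g ∈ D \ X,
        (if g ∈ insert x V then 0 else pe τ D X V x) * Real.log (ρ X g)) +
      (∑ V ∈ D.powerset, ∑ g ∈ D \ X, (if g ∈ V then 0 else pv τ D X V) * Real.log (ρ X g)) =
      ∑ g ∈ D \ X, (sw τ D X g - PP1 τ D X g) * Real.log (ρ X g) := by
    have s1 : (∑ V ∈ D.powerset, ∑ x ∈ D \ V, ∑ g ∈ D \ X,
        (if g ∈ insert x V then 0 else pe τ D X V x) * Real.log (ρ X g)) =
        ∑ g ∈ D \ X, (∑ V ∈ D.powerset, ∑ x ∈ D \ V,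
          (if g ∈ insert x V then 0 else pe τ D X V x)) * Real.log (ρ X g) := by
      rw [sum_congr rfl (fun V _ => sum_comm), sum_comm]
      refine sum_congr rfl fun g _ => ?_
      rw [sum_mul]
      refine sum_congr rfl fun V _ => ?_
      rw [sum_mul]
    have s2 : (∑ V ∈ D.powerset, ∑ g ∈ D \ X, (if g ∈ V then 0 else pv τ D X V) *
        Real.log (ρ X g)) = ∑ g ∈ D \ X, (∑ V ∈ D.powerset,
          (if g ∈ V then 0 else pv τ D X V)) * Real.log (ρ X g) := by
      rw [sum_comm]
      refine sum_congr rfl fun g _ => ?_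
      rw [sum_mul]
    rw [s1, s2, ← sum_add_distrib]
    refine sum_congr rfl fun g hg => ?_
    rw [← add_mul]
    congr 1
    have s3 := hSWL τ D X g hX hg
    rw [sum_add_distrib] at s3
    have s4 : ∀ V ∈ D.powerset, ∑ x ∈ D \ V, (if g ∈ insert x V then 0 else pe τ D X V x) =
        if g ∈ V then 0 else ((∑ x ∈ D \ V, pe τ D X V x) - pe τ D X V g) := by
      intro V hV
      split_ifs with hgV
      · apply sum_eq_zero
        intro x _
        rw [if_pos (mem_insert_of_mem hgV)]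
      · have hgD : g ∈ D \ V := mem_sdiff.2 ⟨(mem_sdiff.1 hg).1, hgV⟩
        rw [← add_sum_erase _ (fun x => pe τ D X V x) hgD, ← add_sum_erase _ _ hgD,
          if_pos (mem_insert_self _ _), zero_add, add_sub_cancel_left]
        refine sum_congr rfl fun x hx => ?_
        rw [if_neg]
        rw [mem_insert, not_or]
        exact ⟨fun h => (mem_erase.1 hx).1 h.symm, hgV⟩
    rw [sum_congr rfl s4, sum_notMem, sum_notMem, sum_sub_distrib]
    unfold sw PP1
    rw [← s3]
    ring
  have c2 : (∑ V ∈ D.powerset, ∑ x ∈ D \ V, ∑ g ∈ D \ X,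
        (pe τ D X V x * (if g ∈ insert x V then (D.card : ℝ) - V.card - 1 else
        ((D.card : ℝ) - 2 - V.card) / 2)) * ell ρ D X g) +
      (∑ V ∈ D.powerset, ∑ g ∈ D \ X, (pv τ D X V * (if g ∈ V then (D.card : ℝ) - V.card else
        ((D.card : ℝ) - 1 - V.card) / 2)) * ell ρ D X g) =
      ∑ g ∈ D \ X, QQ1 τ D X g * ell ρ D X g := by
    have s1 : (∑ V ∈ D.powerset, ∑ x ∈ D \ V, ∑ g ∈ D \ X,
        (pe τ D X V x * (if g ∈ insert x V then (D.card : ℝ) - V.card - 1 else
        ((D.card : ℝ) - 2 - V.card) / 2)) * ell ρ D X g) =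
        ∑ g ∈ D \ X, (∑ V ∈ D.powerset, ∑ x ∈ D \ V,
        (pe τ D X V x * (if g ∈ insert x V then (D.card : ℝ) - V.card - 1 else
        ((D.card : ℝ) - 2 - V.card) / 2))) * ell ρ D X g := by
      rw [sum_congr rfl (fun V _ => sum_comm), sum_comm]
      refine sum_congr rfl fun g _ => ?_
      rw [sum_mul]
      refine sum_congr rfl fun V _ => ?_
      rw [sum_mul]
    have s2 : (∑ V ∈ D.powerset, ∑ g ∈ D \ X, (pv τ D X V * (if g ∈ V then (D.card : ℝ) - V.card
        else ((D.card : ℝ) - 1 - V.card) / 2)) * ell ρ D X g) = ∑ g ∈ D \ X, (∑ V ∈ D.powerset,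
          (pv τ D X V * (if g ∈ V then (D.card : ℝ) - V.card
        else ((D.card : ℝ) - 1 - V.card) / 2))) * ell ρ D X g := by
      rw [sum_comm]
      refine sum_congr rfl fun g _ => ?_
      rw [sum_mul]
    rw [s1, s2, ← sum_add_distrib]
    refine sum_congr rfl fun g hg => ?_
    rw [← add_mul]
    rfl
  have c3 : ∑ V ∈ D.powerset, ∑ x ∈ D \ V, pe τ D X V x * Real.log ((D.card : ℝ) - X.card) =
      Real.log ((D.card : ℝ) - X.card) * (∑ g ∈ D \ X, PP1 τ D X g) := by
    rw [← sum_pe, mul_comm, sum_mul]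
    refine sum_congr rfl fun V _ => ?_
    rw [sum_mul]
  have c4 : (∑ V ∈ D.powerset, ((∑ x ∈ D \ V, pe τ D X V x) + pv τ D X V) *
      (Real.log (D.card.factorial : ℝ) - Real.log (V.card.factorial : ℝ) -
        ((D.card : ℝ) - V.card) * Real.log ((D.card : ℝ) - X.card))) =
      (∑ V ∈ D.powerset, ∑ x ∈ D \ V, pe τ D X V x *
        (Real.log (D.card.factorial : ℝ) - Real.log (V.card.factorial : ℝ) -
        ((D.card : ℝ) - V.card) * Real.log ((D.card : ℝ) - X.card))) +
      ∑ V ∈ D.powerset, pv τ D X V * (Real.log (D.card.factorial : ℝ) -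
        Real.log (V.card.factorial : ℝ) -
        ((D.card : ℝ) - V.card) * Real.log ((D.card : ℝ) - X.card)) := by
    rw [← sum_add_distrib]
    refine sum_congr rfl fun V _ => ?_
    rw [add_mul, sum_mul]
  rw [← c1, ← c2, c3, c4]
  ring

theorem pe_nonneg {τ : Finset α → Lab} {D X V : Finset α} {x : α} (hV : V ⊆ D) :
    0 ≤ pe τ D X V x := by
  unfold pe
  split_ifs
  · have h1 : (0 : ℝ) ≤ (D.card : ℝ) - V.card := by
      have : (V.card : ℝ) ≤ D.card := by exact_mod_cast card_le_card hV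
      linarith
    have h2 := fw_nonneg τ X
    have h3 := bw_nonneg τ D (insert x V)
    positivity
  · exact le_refl _

theorem pv_nonneg {τ : Finset α → Lab} {D X V : Finset α} : 0 ≤ pv τ D X V := by
  unfold pv
  split_ifs
  · have h2 := fw_nonneg τ X
    have h3 := bwb_nonneg τ D V
    positivity
  · exact le_refl _

theorem PP1_nonneg {τ : Finset α → Lab} {D X : Finset α} {g : α} : 0 ≤ PP1 τ D X g := by
  unfold PP1
  exact sum_nonneg fun V hV => pe_nonneg ((mem_powerset.1 hV).trans (erase_subset _ _))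

theorem QQ1_nonneg {τ : Finset α → Lab} {D X : Finset α} {g : α} (hg : g ∈ D) :
    0 ≤ QQ1 τ D X g := by
  unfold QQ1
  apply add_nonneg
  · refine sum_nonneg fun V hV => sum_nonneg fun x hx => ?_
    have hV' := mem_powerset.1 hV
    have hx' := mem_sdiff.1 hx
    apply mul_nonneg (pe_nonneg hV')
    have h1 := card_le_card (insert_subset hx'.1 hV')
    rw [card_insert_of_notMem hx'.2] at h1
    split_ifs with h
    · have : ((V.card + 1 : ℕ) : ℝ) ≤ D.card := by exact_mod_cast h1
      push_cast at this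
      linarith
    · have h2 : insert g (insert x V) ⊆ D := insert_subset hg (insert_subset hx'.1 hV')
      have h3 := card_le_card h2
      rw [card_insert_of_notMem h, card_insert_of_notMem hx'.2] at h3
      have : ((V.card + 1 + 1 : ℕ) : ℝ) ≤ D.card := by exact_mod_cast h3
      push_cast at this
      linarith
  · refine sum_nonneg fun V hV => ?_
    have hV' := mem_powerset.1 hV
    apply mul_nonneg pv_nonneg
    split_ifs with h
    · have : (V.card : ℝ) ≤ D.card := by exact_mod_cast card_le_card hV'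
      linarith
    · have h2 : insert g V ⊆ D := insert_subset hg hV'
      have h3 := card_le_card h2
      rw [card_insert_of_notMem h] at h3
      have : ((V.card + 1 : ℕ) : ℝ) ≤ D.card := by exact_mod_cast h3
      push_cast at this
      linarith

theorem QQ1_one {τ : Finset α → Lab} {D X : Finset α} {g : α} (hX : X ⊆ D) (hg : g ∈ D \ X)
    (h1 : (D \ X).card = 1) : QQ1 τ D X g = 0 := by
  have hs : D \ X = {g} := by
    obtain ⟨y, hy⟩ := card_eq_one.1 h1
    rw [hy] at hg ⊢
    rw [mem_singleton.1 hg]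
  have hc : D.card = X.card + 1 := by
    rw [card_sdiff_of_subset hX] at h1
    have := card_le_card hX
    omega
  have hcr : (D.card : ℝ) = X.card + 1 := by rw [hc]; push_cast; ring
  unfold QQ1
  have hVcase : ∀ V ⊆ D, X ⊆ V → V = X ∨ V = D := by
    intro V hV hXV
    by_cases hgV : g ∈ V
    · right
      apply Subset.antisymm hV
      intro y hy
      by_cases hyX : y ∈ X
      · exact hXV hyX
      · have : y ∈ D \ X := mem_sdiff.2 ⟨hy, hyX⟩
        rw [hs, mem_singleton] at this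
        rw [this]; exact hgV
    · left
      apply Subset.antisymm _ hXV
      intro y hy
      by_contra hyX
      have : y ∈ D \ X := mem_sdiff.2 ⟨hV hy, hyX⟩
      rw [hs, mem_singleton] at this
      rw [this] at hy; exact hgV hy
  have hgX := (mem_sdiff.1 hg).2
  have hgD := (mem_sdiff.1 hg).1
  have e1 : ∑ V ∈ D.powerset, ∑ x ∈ D \ V, pe τ D X V x *
      (if g ∈ insert x V then (D.card : ℝ) - V.card - 1 else ((D.card : ℝ) - 2 - V.card) / 2) =
      0 := by
    apply sum_eq_zero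
    intro V hV
    apply sum_eq_zero
    intro x hx
    by_cases hXV : X ⊆ V
    · rcases hVcase V (mem_powerset.1 hV) hXV with h | h
      · rw [h] at hx ⊢
        rw [hs, mem_singleton] at hx
        rw [hx, if_pos (mem_insert_self _ _), hcr]
        ring
      · rw [h, sdiff_self] at hx
        simp at hx
    · rw [pe_eq_zero hXV, zero_mul]
  have e2 : ∑ V ∈ D.powerset, pv τ D X V *
      (if g ∈ V then (D.card : ℝ) - V.card else ((D.card : ℝ) - 1 - V.card) / 2) = 0 := by
    apply sum_eq_zero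
    intro V hV
    by_cases hXV : X ⊆ V
    · rcases hVcase V (mem_powerset.1 hV) hXV with h | h
      · rw [h, if_neg hgX, hcr]
        ring
      · rw [h, if_pos hgD]
        ring
    · rw [pv_eq_zero hXV, zero_mul]
  rw [e1, e2, add_zero]

theorem LSIDE (hY : Stmt_YSUM α) (hSWL : Stmt_SWL α) (hINF : Stmt_INF) (τ : Finset α → Lab)
    (D : Finset α) (μ H : Finset α → ℝ) (h0 : τ ∅ = Lab.A) (hD : D.Nonempty)
    (hμ : ∀ V ⊆ D, 0 < μ V) (hmono : ∀ V ⊆ D, ∀ x ∈ D \ V, μ (insert x V) ≤ μ V) :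
    SG τ D - (∑ X ∈ D.powerset, ∑ g ∈ D \ X,
        sw τ D X g * (-Real.log (μ (insert g X)) - -Real.log (μ X))) + KL τ D +
      ((∑ V ∈ D.powerset, ∑ x ∈ D \ V, yLe τ D V x * H V) +
        ∑ V ∈ D.powerset, yLv τ D V * H V) - CL τ D (Zt τ D) +
      Real.log (D.card : ℝ) * (∑ V ∈ D.powerset, yLv τ D V) ≤
    LV τ D (fun X g => μ (insert g X) / μ X) H := by
  set ρ : Finset α → α → ℝ := fun X g => μ (insert g X) / μ X with hρ
  -- constants
  have b1 : (∑ V ∈ D.powerset, ∑ x ∈ D \ V, yLe τ D V x *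
      (Real.log (((V.card : ℝ) + 1) / ((D.card : ℝ) + 1)) + H V +
      Real.log (Zt τ D / yLe τ D V x))) =
      (∑ V ∈ D.powerset, ∑ x ∈ D \ V, yLe τ D V x * H V) -
      (∑ V ∈ D.powerset, ∑ x ∈ D \ V, yLe τ D V x *
        Real.log (aw τ V * bw τ D (insert x V) / (((V.card : ℝ) + 1) * Zt τ D))) +
      ∑ X ∈ D.powerset, ∑ V ∈ D.powerset, ∑ x ∈ D \ V, pe τ D X V x *
        (Real.log (D.card.factorial : ℝ) - Real.log (V.card.factorial : ℝ) -
          Real.log ((D.card - (V.card + 1)).factorial : ℝ)) := by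
    rw [sum_comm (s := D.powerset) (t := D.powerset), ← sum_sub_distrib, ← sum_add_distrib]
    refine sum_congr rfl fun V hV => ?_
    rw [sum_comm (s := D.powerset), ← sum_sub_distrib, ← sum_add_distrib]
    refine sum_congr rfl fun x hx => ?_
    rw [← sum_mul, (hY τ D V (mem_powerset.1 hV)).1 x hx]
    have h1 := edge_const (x := x) h0 (mem_powerset.1 hV) hx
    have h2 : yLe τ D V x * (Real.log (((V.card : ℝ) + 1) / ((D.card : ℝ) + 1)) + H V +
      Real.log (Zt τ D / yLe τ D V x)) = yLe τ D V x *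
      (Real.log (((V.card : ℝ) + 1) / ((D.card : ℝ) + 1)) +
      Real.log (Zt τ D / yLe τ D V x)) + yLe τ D V x * H V := by ring
    rw [h2, h1]
    ring
  have b2 : (∑ V ∈ D.powerset, yLv τ D V *
      (Real.log (D.card : ℝ) + Real.log ((V.card : ℝ) / (D.card : ℝ)) + H V +
      Real.log (Zt τ D / yLv τ D V))) =
      Real.log (D.card : ℝ) * (∑ V ∈ D.powerset, yLv τ D V) +
      (∑ V ∈ D.powerset, yLv τ D V * H V) -
      (∑ V ∈ D.powerset, yLv τ D V *
        Real.log (aw τ V * bwb τ D V * (D.card : ℝ) /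
          (((D.card : ℝ) + 1) * (V.card : ℝ) * Zt τ D))) +
      ∑ X ∈ D.powerset, ∑ V ∈ D.powerset, pv τ D X V *
        (Real.log (D.card.factorial : ℝ) - Real.log (V.card.factorial : ℝ) -
          Real.log ((D.card - V.card).factorial : ℝ)) := by
    rw [sum_comm (s := D.powerset) (t := D.powerset), mul_sum, ← sum_add_distrib,
      ← sum_sub_distrib, ← sum_add_distrib]
    refine sum_congr rfl fun V hV => ?_
    rw [← sum_mul, (hY τ D V (mem_powerset.1 hV)).2]
    have h1 := vert_const (τ := τ) h0 hD (mem_powerset.1 hV)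
    have h2 : yLv τ D V * (Real.log (D.card : ℝ) + Real.log ((V.card : ℝ) / (D.card : ℝ)) + H V +
      Real.log (Zt τ D / yLv τ D V)) = yLv τ D V *
      (Real.log ((V.card : ℝ) / (D.card : ℝ)) +
      Real.log (Zt τ D / yLv τ D V)) + yLv τ D V * H V + yLv τ D V * Real.log (D.card : ℝ) := by
      ring
    rw [h2, h1]
    ring
  have b3 : (∑ X ∈ D.powerset, ((∑ V ∈ D.powerset, ∑ x ∈ D \ V,
      pe τ D X V x * KB ρ D X (insert x V)) + ∑ V ∈ D.powerset, pv τ D X V * KB ρ D X V)) +
      (∑ X ∈ D.powerset, ∑ V ∈ D.powerset, ∑ x ∈ D \ V, pe τ D X V x *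
        (Real.log (D.card.factorial : ℝ) - Real.log (V.card.factorial : ℝ) -
          Real.log ((D.card - (V.card + 1)).factorial : ℝ))) +
      (∑ X ∈ D.powerset, ∑ V ∈ D.powerset, pv τ D X V *
        (Real.log (D.card.factorial : ℝ) - Real.log (V.card.factorial : ℝ) -
          Real.log ((D.card - V.card).factorial : ℝ))) =
      KL τ D + ∑ X ∈ D.powerset,
        (Real.log ((D.card : ℝ) - X.card) * (∑ g ∈ D \ X, PP1 τ D X g) +
        (∑ g ∈ D \ X, (sw τ D X g - PP1 τ D X g) * Real.log (ρ X g)) +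
        ∑ g ∈ D \ X, QQ1 τ D X g * ell ρ D X g) := by
    unfold KL
    rw [← sum_add_distrib, ← sum_add_distrib, ← sum_add_distrib]
    refine sum_congr rfl fun X hX => ?_
    have h1 := XL hSWL τ (mem_powerset.1 hX) ρ
    simp only [mul_add, sum_add_distrib] at h1
    linarith
  have b4 : ∀ X ∈ D.powerset, ∀ g ∈ D \ X,
      (Real.log ((D \ X).card : ℝ) * PP1 τ D X g +
        lamn (D \ X).card * min ((((D \ X).card : ℝ) - 1) * PP1 τ D X g) (QQ1 τ D X g)) -
        sw τ D X g * (-Real.log (μ (insert g X)) - -Real.log (μ X)) ≤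
      Real.log ((D.card : ℝ) - X.card) * PP1 τ D X g +
        (sw τ D X g - PP1 τ D X g) * Real.log (ρ X g) + QQ1 τ D X g * ell ρ D X g := by
    intro X hX g hg
    have hX' := mem_powerset.1 hX
    have hg' := mem_sdiff.1 hg
    have hm1 : 0 < μ X := hμ X hX'
    have hm2 : 0 < μ (insert g X) := hμ _ (insert_subset hg'.1 hX')
    have hm3 := hmono X hX' g hg
    have hlog : Real.log (ρ X g) = Real.log (μ (insert g X)) - Real.log (μ X) := by
      rw [hρ]
      exact Real.log_div hm2.ne' hm1.ne'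
    have hc : ((D \ X).card : ℝ) = (D.card : ℝ) - X.card := card_sdiff_cast hX'
    have hI := hINF (D \ X).card (PP1 τ D X g) (QQ1 τ D X g) (ρ X g)
      (card_pos.2 ⟨g, hg⟩) PP1_nonneg (QQ1_nonneg hg'.1)
      (fun h => QQ1_one hX' hg h) (div_pos hm2 hm1) ((div_le_one hm1).2 hm3)
    rw [← hc, hlog]
    unfold ell
    rw [← hc]
    rw [hlog] at hI
    nlinarith [hI]
  have b5 := sum_le_sum (fun X hX => sum_le_sum (b4 X hX))
  unfold LV
  rw [b1, b2]
  unfold SG CL
  have b6 : ∑ X ∈ D.powerset, ∑ g ∈ D \ X, ((Real.log ((D \ X).card : ℝ) * PP1 τ D X g +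
        lamn (D \ X).card * min ((((D \ X).card : ℝ) - 1) * PP1 τ D X g) (QQ1 τ D X g)) -
        sw τ D X g * (-Real.log (μ (insert g X)) - -Real.log (μ X))) =
      (∑ X ∈ D.powerset, ∑ g ∈ D \ X, (Real.log ((D \ X).card : ℝ) * PP1 τ D X g +
        lamn (D \ X).card * min ((((D \ X).card : ℝ) - 1) * PP1 τ D X g) (QQ1 τ D X g))) -
      ∑ X ∈ D.powerset, ∑ g ∈ D \ X,
        sw τ D X g * (-Real.log (μ (insert g X)) - -Real.log (μ X)) := by
    rw [← sum_sub_distrib]
    refine sum_congr rfl fun X _ => ?_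
    rw [← sum_sub_distrib]
  have b7 : ∑ X ∈ D.powerset, ∑ g ∈ D \ X, (Real.log ((D.card : ℝ) - X.card) * PP1 τ D X g +
        (sw τ D X g - PP1 τ D X g) * Real.log (ρ X g) + QQ1 τ D X g * ell ρ D X g) =
      ∑ X ∈ D.powerset,
        (Real.log ((D.card : ℝ) - X.card) * (∑ g ∈ D \ X, PP1 τ D X g) +
        (∑ g ∈ D \ X, (sw τ D X g - PP1 τ D X g) * Real.log (ρ X g)) +
        ∑ g ∈ D \ X, QQ1 τ D X g * ell ρ D X g) := by
    refine sum_congr rfl fun X _ => ?_
    rw [sum_add_distrib, sum_add_distrib, mul_sum]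
  rw [b6, b7] at b5
  linarith [b3, b5]

theorem yLe_dd {τ : Finset α → Lab} {D V : Finset α} {x : α} (hV : V ⊆ D) (hx : x ∈ D \ V) :
    yLe (dual (dual τ D) D) D V x = yLe τ D V x := by
  have h1 : insert x V ⊆ D := insert_subset (mem_sdiff.1 hx).1 hV
  unfold yLe
  have e1 : isE (dual (dual τ D) D) V x ↔ isE τ V x := by
    unfold isE
    rw [dual_dual hV, dual_dual h1]
  have e2 : aw (dual (dual τ D) D) V = aw τ V := aw_congr fun U hU => dual_dual (hU.trans hV)
  have e3 : bw (dual (dual τ D) D) D (insert x V) = bw τ D (insert x V) := by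
    rw [bw_dual, fw_dual sdiff_subset, Finset.sdiff_sdiff_eq_self h1]
  simp only [e1, e2, e3]

theorem yLv_dd {τ : Finset α → Lab} {D V : Finset α} (hV : V ⊆ D) :
    yLv (dual (dual τ D) D) D V = yLv τ D V := by
  unfold yLv
  have e2 : aw (dual (dual τ D) D) V = aw τ V := aw_congr fun U hU => dual_dual (hU.trans hV)
  have e3 : bwb (dual (dual τ D) D) D V = bwb τ D V := by
    rw [bwb_dual, ← fwb_dual]
  rw [dual_dual hV, e2, e3]

end TypeAux

open TypeAux in
theorem stmt_TYPE (hY : Stmt_YSUM α) (hM : Stmt_MASS α) (hSWL : Stmt_SWL α) (hSWF : Stmt_SWF α)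
    (hC : Stmt_CONST α) (hINF : Stmt_INF) : Stmt_TYPE α := by
  intro τ D μ ν h0 hDB hD hμ hν hμm hνm
  have d0 : dual τ D ∅ = Lab.A := by
    unfold dual
    rw [sdiff_empty, hDB]; rfl
  have dD : dual τ D D = Lab.B := by
    unfold dual
    rw [sdiff_self, bot_eq_empty, h0]; rfl
  have L1 := LSIDE hY hSWL hINF τ D μ (fun V => -Real.log (ν V)) h0 hD hμ hμm
  have L2 := LSIDE hY hSWL hINF (dual τ D) D (fun U => ν (D \ U)) (fun U => -Real.log (μ (D \ U)))
    d0 hD (fun V _ => hν _ sdiff_subset) (by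
      intro V hV x hx
      have hx' := mem_sdiff.1 hx
      have h1 : x ∈ D \ (D \ insert x V) := by
        rw [mem_sdiff, mem_sdiff]
        exact ⟨hx'.1, fun h => h.2 (mem_insert_self _ _)⟩
      have h2 := hνm (D \ insert x V) sdiff_subset x h1
      have h3 : insert x (D \ insert x V) = D \ V := by
        ext y
        simp only [mem_sdiff, mem_insert, not_or]
        by_cases hy : y = x
        · subst hy; simp [hx'.1, hx'.2]
        · simp [hy]
      rw [h3] at h2
      exact h2)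
  have W1 := hSWF τ D (fun V => -Real.log (μ V)) h0 hDB
  have W2 := hSWF (dual τ D) D (fun U => -Real.log (ν (D \ U))) d0 dD
  have M1 := hM τ D h0 hDB
  have M2 := hM (dual τ D) D d0 dD
  have K := hC τ D h0 hDB
  rw [Zt_dual] at L2
  -- identify the H-terms
  have t1 : (∑ V ∈ D.powerset, ∑ x ∈ D \ V, yLe (dual τ D) D V x * -Real.log (μ (D \ V))) =
      ∑ V ∈ D.powerset, ∑ x ∈ D \ V, yFe τ D V x * -Real.log (μ (insert x V)) := by
    rw [← sum_edge_compl]
    refine sum_congr rfl fun V hV => sum_congr rfl fun x hx => ?_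
    rw [yLe_dual (mem_powerset.1 hV) hx, Finset.sdiff_sdiff_eq_self
      (insert_subset (mem_sdiff.1 hx).1 (mem_powerset.1 hV))]
  have t2 : (∑ V ∈ D.powerset, yLv (dual τ D) D V * -Real.log (μ (D \ V))) =
      ∑ V ∈ D.powerset, yFv τ D V * -Real.log (μ V) := by
    rw [← sum_powerset_compl]
    refine sum_congr rfl fun V hV => ?_
    rw [yLv_dual (mem_powerset.1 hV), Finset.sdiff_sdiff_eq_self (mem_powerset.1 hV)]
  have t3 : (∑ V ∈ D.powerset, ∑ x ∈ D \ V, yFe (dual τ D) D V x *
        -Real.log (ν (D \ insert x V))) =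
      ∑ V ∈ D.powerset, ∑ x ∈ D \ V, yLe τ D V x * -Real.log (ν V) := by
    rw [← sum_edge_compl D (fun V x => yLe τ D V x * -Real.log (ν V))]
    refine sum_congr rfl fun V hV => sum_congr rfl fun x hx => ?_
    have hx' := mem_sdiff.1 hx
    rw [← yLe_dual (mem_powerset.1 hV) hx, yLe_dd sdiff_subset]
    rw [mem_sdiff, mem_sdiff]
    exact ⟨hx'.1, fun h => h.2 (mem_insert_self _ _)⟩
  have t4 : (∑ V ∈ D.powerset, yFv (dual τ D) D V * -Real.log (ν (D \ V))) =
      ∑ V ∈ D.powerset, yLv τ D V * -Real.log (ν V) := by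
    rw [← sum_powerset_compl D (fun V => yLv τ D V * -Real.log (ν V))]
    refine sum_congr rfl fun V hV => ?_
    rw [← yLv_dual (mem_powerset.1 hV), yLv_dd sdiff_subset]
  simp only [t1, t2] at L2
  rw [t3, t4] at W2
  have e1 : ab (dual τ D) D ∅ = aw τ D := by rw [ab_dual, sdiff_empty]
  have e2 : aw (dual τ D) D = ab τ D ∅ := by
    rw [aw_dual (Subset.refl _), sdiff_self, bot_eq_empty]
  rw [e1] at W2
  rw [e2] at M2
  simp only [sdiff_empty] at W2
  have hZ : Zt τ D = aw τ D / ((D.card : ℝ) + 1) + ab τ D ∅ / ((D.card : ℝ) + 1) := by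
    unfold Zt; rw [add_div]
  unfold VAL COST
  have hZl : Zt τ D * Real.log (D.card : ℝ) = Real.log (D.card : ℝ) * (PEL τ D +
      ∑ V ∈ D.powerset, yLv τ D V) + Real.log (D.card : ℝ) * (PEL (dual τ D) D +
      ∑ V ∈ D.powerset, yLv (dual τ D) D V) := by
    rw [M1, M2, hZ]; ring
  rw [hZl]
  unfold sw at L1 L2
  nlinarith [L1, L2, W1, W2, K]

end R5
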