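import Pool.Agent.Work.MP_8b6acb_cap.Interface

/-! Block TYPEFIN: the final typewise inequality. -/

namespace R5

open Finset

namespace TypeFin

variable {α : Type} [DecidableEq α]

theorem lamn_nonneg_TF {n : ℕ} (hn : 1 ≤ n) : 0 ≤ lamn n := by
  unfold lamn
  rcases Nat.lt_or_ge 1 n with h | h
  · have h1 : (1 : ℝ) < n := by exact_mod_cast h
    apply Real.log_nonneg
    rw [le_div_iff₀ (by linarith)]
    linarith
  · have h1 : n = 1 := by omega
    subst h1
    simp

theorem one_div_le_lamn {n : ℕ} (hn : 2 ≤ n) : 1 / (n : ℝ) ≤ lamn n := by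
  unfold lamn
  have h1 : (2 : ℝ) ≤ n := by exact_mod_cast hn
  have h2 : (0 : ℝ) < (n : ℝ) / ((n : ℝ) - 1) := div_pos (by linarith) (by linarith)
  have h3 := Real.one_sub_inv_le_log_of_pos h2
  refine le_trans (le_of_eq ?_) h3
  have h4 : (n : ℝ) ≠ 0 := by linarith
  have h5 : (n : ℝ) - 1 ≠ 0 := by linarith
  rw [inv_div]
  field_simp
  ring

theorem pow_swap (D : Finset α) (F : Finset α → α → ℝ) :
    ∑ V ∈ D.powerset, ∑ x ∈ D \ V, F V x = ∑ x ∈ D, ∑ V ∈ (D.erase x).powerset, F V x := by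
  refine sum_comm' fun V x => ?_
  rw [mem_powerset, mem_sdiff, mem_powerset, subset_erase]
  tauto

theorem pe_nonneg (τ : Finset α → Lab) {D X V : Finset α} {x : α} (hV : V ⊆ D) :
    0 ≤ pe τ D X V x := by
  unfold pe
  split_ifs
  · have h1 : (V.card : ℝ) ≤ D.card := by exact_mod_cast card_le_card hV
    refine div_nonneg (mul_nonneg (fw_nonneg _ _) (bw_nonneg _ _ _)) ?_
    exact mul_nonneg (by positivity) (by linarith)
  · exact le_refl _

theorem PP1_nonneg (τ : Finset α → Lab) (D X : Finset α) (g : α) : 0 ≤ PP1 τ D X g := by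
  unfold PP1
  exact sum_nonneg fun V hV => pe_nonneg τ ((mem_powerset.1 hV).trans (erase_subset _ _))

theorem sum_pe (τ : Finset α → Lab) {D V : Finset α} {g : α} (hV : V ⊆ D) (hg : g ∈ D \ V) :
    ∑ X ∈ D.powerset, pe τ D X V g = yLe τ D V g := by
  rw [mem_sdiff] at hg
  have hVD : V.card < D.card := card_lt_card (ssubset_of_subset_of_ne hV (by
    rintro rfl
    exact hg.2 hg.1))
  have hsub : ∑ X ∈ D.powerset, pe τ D X V g = ∑ X ∈ V.powerset, pe τ D X V g := by
    symm
    refine sum_subset (powerset_mono.2 hV) fun X _ hX => ?_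
    rw [mem_powerset] at hX
    unfold pe
    rw [if_neg (fun h => hX h.1)]
  rw [hsub]
  by_cases hE : isE τ V g
  · unfold yLe aw
    rw [if_pos hE, sum_mul, sum_div]
    refine sum_congr rfl fun X hX => ?_
    rw [mem_powerset] at hX
    have hXV : X.card ≤ V.card := card_le_card hX
    unfold pe
    rw [if_pos ⟨hX, hE⟩]
    have hc1 : (0 : ℝ) < (D.card.choose V.card : ℝ) := choose_pos_real hVD.le
    have hc2 : (0 : ℝ) < (V.card.choose X.card : ℝ) := choose_pos_real hXV
    have hc5 : (0 : ℝ) < (D.card : ℝ) - V.card := by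
      have : (V.card : ℝ) < D.card := by exact_mod_cast hVD
      linarith
    have hid := choose_mul_real (l := D.card) hXV
    have h3 : ((D.card : ℝ) + 1) * (D.card.choose X.card : ℝ) *
        ((D.card - X.card).choose (V.card - X.card) : ℝ) * ((D.card : ℝ) - (V.card : ℝ)) =
        ((D.card : ℝ) + 1) * (D.card.choose V.card : ℝ) * ((D.card : ℝ) - (V.card : ℝ)) *
          (V.card.choose X.card : ℝ) := by
      calc _ = ((D.card : ℝ) + 1) * ((D.card.choose X.card : ℝ) *
            ((D.card - X.card).choose (V.card - X.card) : ℝ)) * ((D.card : ℝ) - (V.card : ℝ)) := by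
            ring
        _ = _ := by rw [hid]; ring
    rw [h3]
    field_simp
  · unfold yLe
    rw [if_neg hE]
    refine sum_eq_zero fun X _ => ?_
    unfold pe
    rw [if_neg (fun h => hE h.2)]

/-- The total mass of the paid edges. -/
theorem sum_PP1 (τ : Finset α → Lab) (D : Finset α) :
    ∑ X ∈ D.powerset, ∑ g ∈ D \ X, PP1 τ D X g = PEL τ D := by
  unfold PEL
  rw [pow_swap D (fun X g => PP1 τ D X g), pow_swap D (fun V x => yLe τ D V x)]
  refine sum_congr rfl fun g hg => ?_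
  unfold PP1
  rw [sum_comm]
  refine sum_congr rfl fun V hV => ?_
  rw [mem_powerset, subset_erase] at hV
  rw [← sum_pe τ hV.1 (mem_sdiff.2 ⟨hg, hV.2⟩)]
  refine sum_subset (powerset_mono.2 (erase_subset g D)) fun X hX hX' => ?_
  rw [mem_powerset] at hX hX'
  unfold pe
  rw [if_neg]
  intro h
  apply hX'
  rw [subset_erase]
  exact ⟨hX, fun h' => hV.2 (h.1 h')⟩

theorem PEL_congr {τ τ' : Finset α → Lab} {D : Finset α} (h : ∀ U ⊆ D, τ U = τ' U) :
    PEL τ D = PEL τ' D := by
  unfold PEL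
  refine sum_congr rfl fun V hV => sum_congr rfl fun x hx => ?_
  rw [mem_powerset] at hV
  rw [mem_sdiff] at hx
  have hi : insert x V ⊆ D := insert_subset hx.1 hV
  have e1 : isE τ V x ↔ isE τ' V x := by
    unfold isE
    rw [h V hV, h _ hi]
  have e2 : aw τ V = aw τ' V := aw_congr fun U hU => h U (hU.trans hV)
  have e3 : bw τ D (insert x V) = bw τ' D (insert x V) := by
    unfold bw
    refine fw_congr fun U hU => ?_
    unfold dual
    rw [h _ sdiff_subset]
  unfold yLe
  simp only [e1, e2, e3]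

theorem PEL_dual_dual (τ : Finset α → Lab) (D : Finset α) :
    PEL (dual (dual τ D) D) D = PEL τ D := PEL_congr fun _ hU => dual_dual hU

theorem Jd_dual (τ : Finset α → Lab) (D : Finset α) : Jd (dual τ D) D = Jl τ D := by
  unfold Jd Jl
  congr 1
  refine filter_congr fun x hx => ?_
  have h1 : D \ D.erase x = {x} := by
    ext y
    simp only [mem_sdiff, mem_erase, mem_singleton, not_and]
    constructor
    · rintro ⟨h1, h2⟩
      by_contra h3
      exact h2 h3 h1
    · rintro rfl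
      exact ⟨hx, fun h => absurd rfl h⟩
  unfold dual
  rw [h1, flip_eq_A]

theorem dual_empty {τ : Finset α → Lab} {D : Finset α} (h : τ D = Lab.B) :
    dual τ D ∅ = Lab.A := by
  unfold dual
  rw [sdiff_empty, flip_eq_A]
  exact h

theorem dual_full {τ : Finset α → Lab} {D : Finset α} (h : τ ∅ = Lab.A) :
    dual τ D D = Lab.B := by
  unfold dual
  rw [sdiff_self, bot_eq_empty, flip_eq_B]
  exact h

theorem ab_empty (τ : Finset α → Lab) (D : Finset α) : aw (dual τ D) D = ab τ D ∅ := by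
  unfold ab
  rw [sdiff_empty]

/-- The first term of the bound of SGB. -/
noncomputable def R1 (τ : Finset α → Lab) (D : Finset α) : ℝ :=
  ∑ X ∈ D.powerset, ∑ g ∈ D \ X, if τ (D.erase g) = Lab.A then 0 else
      lamn (D \ X).card * PP1 τ D X g

theorem R1_nonneg (τ : Finset α → Lab) (D : Finset α) : 0 ≤ R1 τ D := by
  unfold R1
  refine sum_nonneg fun X _ => sum_nonneg fun g hg => ?_
  split_ifs
  · exact le_refl _
  · exact mul_nonneg (lamn_nonneg_TF (card_pos.2 ⟨g, hg⟩)) (PP1_nonneg _ _ _ _)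

/-- Without top lights. -/
theorem R1_ge (τ : Finset α → Lab) (D : Finset α) (hne : D.Nonempty) (hJ : Jd τ D = 0) :
    PEL τ D / (D.card : ℝ) ≤ R1 τ D := by
  have hl0 : (0 : ℝ) < D.card := by exact_mod_cast card_pos.2 hne
  have hno : ∀ g ∈ D, τ (D.erase g) ≠ Lab.A := by
    intro g hg hA
    unfold Jd at hJ
    rw [card_eq_zero] at hJ
    have : g ∈ D.filter fun x => τ (D.erase x) = Lab.A := mem_filter.2 ⟨hg, hA⟩
    rw [hJ] at this
    exact notMem_empty _ this
  rw [← sum_PP1, sum_div]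
  unfold R1
  refine sum_le_sum fun X hX => ?_
  rw [mem_powerset] at hX
  rw [sum_div]
  refine sum_le_sum fun g hg => ?_
  have hg' := mem_sdiff.1 hg
  rw [if_neg (hno g hg'.1)]
  have hn1 : 1 ≤ (D \ X).card := card_pos.2 ⟨g, hg⟩
  rcases Nat.lt_or_ge 1 (D \ X).card with h | h
  · have h1 := one_div_le_lamn (n := (D \ X).card) h
    have h2 : 1 / (D.card : ℝ) ≤ 1 / ((D \ X).card : ℝ) := by
      refine one_div_le_one_div_of_le (by exact_mod_cast hn1) ?_
      exact_mod_cast card_le_card sdiff_subset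
    have h3 := mul_le_mul_of_nonneg_right (h2.trans h1) (PP1_nonneg τ D X g)
    refine le_trans (le_of_eq ?_) h3
    ring
  · have h1 : (D \ X).card = 1 := by omega
    have h2 : D \ X = {g} := by
      obtain ⟨a, ha⟩ := card_eq_one.1 h1
      rw [ha] at hg ⊢
      rw [mem_singleton] at hg
      rw [hg]
    have h3 : PP1 τ D X g = 0 := by
      unfold PP1
      refine sum_eq_zero fun V hV => ?_
      unfold pe
      rw [if_neg]
      rintro ⟨h4, h5⟩
      apply hno g hg'.1
      have h6 : V = D.erase g := by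
        apply Subset.antisymm (mem_powerset.1 hV)
        intro y hy
        rw [mem_erase] at hy
        by_contra hyV
        have : y ∈ D \ X := mem_sdiff.2 ⟨hy.2, fun h' => hyV (h4 h')⟩
        rw [h2, mem_singleton] at this
        exact hy.1 this
      rw [← h6]
      exact h5.1
    rw [h3]
    simp

end TypeFin

open TypeFin

variable {α : Type} [DecidableEq α]

theorem stmt_TYPEFIN (hSG : Stmt_SGB α) (hCB : Stmt_COSTB α) (hUE : Stmt_UEB α)
    (hZ : Stmt_ZLE α) : Stmt_TYPEFIN α := by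
  intro τ D hA hD hne
  have hl1 : 1 ≤ D.card := card_pos.2 hne
  obtain ⟨l, hl⟩ : ∃ l : ℝ, l = (D.card : ℝ) := ⟨_, rfl⟩
  have hl0 : 1 ≤ l := by
    rw [hl]
    exact_mod_cast hl1
  have hA' := dual_empty (D := D) hD
  have hD' := dual_full (D := D) hA
  have s1 := hSG τ D hA hD hne
  have s2 := hSG (dual τ D) D hA' hD' hne
  have c1 := hCB τ D hA hD hne
  obtain ⟨u1, u2⟩ := hUE τ D hA hD
  obtain ⟨u3, u4⟩ := hUE (dual τ D) D hA' hD'
  rw [PEL_dual_dual] at u4
  rw [ab_empty] at u3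
  rw [Jd_dual, ab_empty] at s2
  have hz := hZ τ D
  have a1 : 1 ≤ aw τ D := one_le_aw hA D
  have a2 : 1 ≤ ab τ D ∅ := one_le_ab hD ∅
  have r1 := R1_nonneg τ D
  have r2 := R1_nonneg (dual τ D) D
  have q1 : (∑ X ∈ D.powerset, ∑ g ∈ D \ X, if τ (D.erase g) = Lab.A then 0 else
      lamn (D \ X).card * PP1 τ D X g) = R1 τ D := rfl
  have q2 : (∑ X ∈ D.powerset, ∑ g ∈ D \ X, if dual τ D (D.erase g) = Lab.A then 0 else
      lamn (D \ X).card * PP1 (dual τ D) D X g) = R1 (dual τ D) D := rfl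
  rw [q1] at s1
  rw [q2] at s2
  have hZe : Zt τ D = (aw τ D + ab τ D ∅) / (l + 1) := by
    rw [hl]
    rfl
  unfold VAL
  rcases Nat.eq_zero_or_pos (Jl τ D + Jd τ D) with hJ | hJ
  · -- no lights
    have j1 : Jl τ D = 0 := by omega
    have j2 : Jd τ D = 0 := by omega
    have t1 := R1_ge τ D hne j2
    have t2 := R1_ge (dual τ D) D hne (by rw [Jd_dual]; exact j1)
    have j1' : (Jl τ D : ℝ) = 0 := by rw [j1]; simp
    have j2' : (Jd τ D : ℝ) = 0 := by rw [j2]; simp
    rw [j2', ← hl] at s1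
    rw [j1', ← hl] at s2
    rw [← hl] at c1 t1 t2 u2 u4
    rw [j1', j2', ← hl]
    have e1 : (UEL τ D + UEL (dual τ D) D) / l ^ 2 ≤ (PEL τ D + PEL (dual τ D) D) / l := by
      rw [div_le_div_iff₀ (by positivity) (by positivity)]
      have : UEL τ D + UEL (dual τ D) D ≤ l * (PEL τ D + PEL (dual τ D) D) := by linarith
      have h2 := mul_le_mul_of_nonneg_right this (by linarith : (0 : ℝ) ≤ l)
      linarith
    have e2 : (PEL τ D + PEL (dual τ D) D) / l = PEL τ D / l + PEL (dual τ D) D / l := by ring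
    have e3 : 2 * 0 * aw τ D / (l * (l + 1)) = 0 := by simp
    have e4 : 2 * 0 * ab τ D ∅ / (l * (l + 1)) = 0 := by simp
    have e5 : -(2 / l) * Zt τ D * (0 + 0) = 0 := by ring
    rw [e5]
    rw [e3] at s1
    rw [e4] at s2
    linarith
  · -- lights
    have j0 : (1 : ℝ) ≤ (Jl τ D : ℝ) + (Jd τ D : ℝ) := by exact_mod_cast hJ
    obtain ⟨J1, hJ1⟩ : ∃ J1 : ℝ, J1 = (Jl τ D : ℝ) := ⟨_, rfl⟩
    obtain ⟨J2, hJ2⟩ : ∃ J2 : ℝ, J2 = (Jd τ D : ℝ) := ⟨_, rfl⟩
    have j1 : 0 ≤ J1 := by rw [hJ1]; positivity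
    have j2 : 0 ≤ J2 := by rw [hJ2]; positivity
    rw [← hJ1, ← hJ2] at j0 ⊢
    rw [← hJ2, ← hl] at s1
    rw [← hJ1, ← hl] at s2
    rw [← hl] at c1 u1 u3 ⊢
    obtain ⟨a, ha⟩ : ∃ a : ℝ, a = aw τ D := ⟨_, rfl⟩
    obtain ⟨b, hb⟩ : ∃ b : ℝ, b = ab τ D ∅ := ⟨_, rfl⟩
    rw [← ha] at a1 s1 u1 hZe
    rw [← hb] at a2 s2 u3 hZe
    rw [hZe] at hz ⊢
    have e0 : 0 < l * (l + 1) := by positivity
    have e1 : COST τ D ≤ (a + b) / (l + 1) / l ^ 2 := by
      refine c1.trans ?_
      refine div_le_div_of_nonneg_right ?_ (by positivity)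
      have : (a + b) / (l + 1) = a / (l + 1) + b / (l + 1) := by ring
      linarith
    have e2 : (a + b) / (l + 1) / l ^ 2 ≤ 1 / l ^ 2 :=
      div_le_div_of_nonneg_right hz (by positivity)
    have e3 : 1 / l ^ 2 ≤ 2 / (l * (l + 1)) := by
      rw [div_le_div_iff₀ (by positivity) e0]
      nlinarith
    have e4 : 2 / (l * (l + 1)) ≤ 2 * (J1 * a + J2 * b) / (l * (l + 1)) := by
      refine div_le_div_of_nonneg_right ?_ e0.le
      have k1 := mul_le_mul_of_nonneg_left a1 j1
      have k2 := mul_le_mul_of_nonneg_left a2 j2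
      linarith
    have e5 : -(2 / l) * ((a + b) / (l + 1)) * (J1 + J2) =
        -(2 * J2 * a / (l * (l + 1))) - (2 * J1 * b / (l * (l + 1))) -
          2 * (J1 * a + J2 * b) / (l * (l + 1)) := by
      field_simp
      ring
    rw [e5]
    linarith

end R5
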