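import Pool.Agent.Work.MP_8b6acb_cap.Interface

/-! Block UEB. -/

namespace R5

open Finset

theorem stmt_UEB (α : Type) [DecidableEq α] (hA : Stmt_AWID α) : Stmt_UEB α := by
  intro τ D h0 hD
  constructor
  · have h2 := (hA τ D h0).2
    rw [fw_of_ne (by rw [hD]; decide), mul_zero, zero_add] at h2
    rw [h2]
    have e1 : UEL τ D = ∑ U ∈ D.powerset, ∑ x ∈ U, if isE τ (U.erase x) x then
        (((U.erase x).card : ℝ) + 1) * fw τ (U.erase x) / (((D.card : ℝ) + 1) *
          (D.card.choose (U.erase x).card : ℝ) * ((D.card : ℝ) - (U.erase x).card)) else 0 := by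
      unfold UEL
      exact sum_up_down D (fun V x => if isE τ V x then
        ((V.card : ℝ) + 1) * fw τ V /
        (((D.card : ℝ) + 1) * (D.card.choose V.card : ℝ) * ((D.card : ℝ) - V.card)) else 0)
    rw [e1, sum_div]
    refine sum_le_sum fun U hU => ?_
    have hUD := mem_powerset.1 hU
    have hle := card_le_card hUD
    by_cases hB : τ U = Lab.B
    · rw [if_neg (by rw [hB]; decide)]
      by_cases hne : U = ∅
      · subst hne; simp
      have hpos : 0 < U.card := card_pos.2 (nonempty_iff_ne_empty.2 hne)
      have e2 : ∀ x ∈ U, (if isE τ (U.erase x) x then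
        (((U.erase x).card : ℝ) + 1) * fw τ (U.erase x) / (((D.card : ℝ) + 1) *
          (D.card.choose (U.erase x).card : ℝ) * ((D.card : ℝ) - (U.erase x).card)) else 0) =
          fw τ (U.erase x) / ((D.card.choose U.card : ℝ) * ((D.card : ℝ) + 1)) := by
        intro x hx
        obtain ⟨k, hk⟩ : ∃ k, U.card = k + 1 := ⟨U.card - 1, by omega⟩
        have hke : (U.erase x).card = k := by rw [card_erase_of_mem hx, hk]; rfl
        by_cases hA' : τ (U.erase x) = Lab.A
        · rw [if_pos ⟨hA', by rw [insert_erase hx]; exact hB⟩, hke, hk, mul_assoc,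
            choose_up (show k < D.card by omega)]
          have : ((k : ℝ) + 1) ≠ 0 := by positivity
          field_simp
        · rw [if_neg (fun h => hA' h.1), fw_of_ne hA', zero_div]
      rw [sum_congr rfl e2, ← sum_div]
      have e3 : (U.card : ℝ) * fwb τ U = ∑ x ∈ U, fw τ (U.erase x) := by
        unfold fwb
        have : (U.card : ℝ) ≠ 0 := by exact_mod_cast hpos.ne'
        field_simp
      rw [e3, div_div]
    · have e2 : ∑ x ∈ U, (if isE τ (U.erase x) x then
        (((U.erase x).card : ℝ) + 1) * fw τ (U.erase x) / (((D.card : ℝ) + 1) *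
          (D.card.choose (U.erase x).card : ℝ) * ((D.card : ℝ) - (U.erase x).card)) else 0) = 0 := by
        refine sum_eq_zero fun x hx => ?_
        rw [if_neg]
        rintro ⟨_, h⟩
        rw [insert_erase hx] at h
        exact hB h
      rw [e2]
      apply div_nonneg _ (by positivity)
      split_ifs
      · exact le_rfl
      · exact div_nonneg (mul_nonneg (Nat.cast_nonneg _) (fwb_nonneg _ _)) (Nat.cast_nonneg _)
  · have e1 : PEL (dual τ D) D = ∑ V ∈ D.powerset, ∑ x ∈ D \ V, yFe τ D V x := by
      unfold PEL
      rw [← sum_edge_compl D (fun V x => yLe (dual τ D) D V x)]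
      refine sum_congr rfl fun V hV => sum_congr rfl fun x hx => ?_
      exact yLe_dual (mem_powerset.1 hV) hx
    rw [e1, mul_sum]
    unfold UEL
    refine sum_le_sum fun V hV => ?_
    rw [mul_sum]
    refine sum_le_sum fun x hx => ?_
    have hx' := mem_sdiff.1 hx
    unfold yFe
    split_ifs with h
    · have hlt : V.card < D.card := by
        have := card_le_card (insert_subset hx'.1 (mem_powerset.1 hV))
        rw [card_insert_of_notMem hx'.2] at this
        omega
      have h1 : (V.card : ℝ) + 1 ≤ (D.card : ℝ) := by exact_mod_cast hlt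
      have h3 := one_le_ab hD (insert x V)
      have h4 := fw_nonneg τ V
      rw [← mul_div_assoc]
      apply div_le_div_of_nonneg_right
      · calc ((V.card : ℝ) + 1) * fw τ V ≤ (D.card : ℝ) * fw τ V :=
              mul_le_mul_of_nonneg_right h1 h4
          _ ≤ (D.card : ℝ) * (fw τ V * ab τ D (insert x V)) := by
              apply mul_le_mul_of_nonneg_left _ (Nat.cast_nonneg _)
              nlinarith
      · have : (0 : ℝ) ≤ (D.card : ℝ) - V.card := by linarith
        positivity
    · simp

end R5
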