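import Pool.Agent.Work.MP_8b6acb_cap.Interface

namespace R5

open Finset

variable {α : Type} [DecidableEq α]

theorem filter_subset_powerset {D V : Finset α} (hV : V ⊆ D) :
    D.powerset.filter (fun X => X ⊆ V) = V.powerset := by
  ext X
  simp only [mem_filter, mem_powerset]
  exact ⟨fun h => h.2, fun h => ⟨h.trans hV, h⟩⟩

theorem stmt_YSUM : Stmt_YSUM α := by
  intro τ D V hV
  have hk : V.card ≤ D.card := card_le_card hV
  constructor
  · intro x hx
    unfold pe yLe
    by_cases hE : isE τ V x
    · simp only [hE, and_true, if_true]
      rw [← sum_filter, filter_subset_powerset hV]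
      unfold aw
      rw [sum_mul, sum_div]
      refine sum_congr rfl fun X hX => ?_
      rw [mem_powerset] at hX
      have hi : X.card ≤ V.card := card_le_card hX
      have h1 := choose_mul_real (l := D.card) hi
      have e1 : ((D.card : ℝ) + 1) * (D.card.choose X.card : ℝ) *
          ((D.card - X.card).choose (V.card - X.card) : ℝ) * ((D.card : ℝ) - (V.card : ℝ)) =
          ((D.card : ℝ) + 1) * ((D.card.choose V.card : ℝ) * (V.card.choose X.card : ℝ)) *
            ((D.card : ℝ) - (V.card : ℝ)) := by
        rw [← h1]; ring
      rw [e1]
      have hp : (0 : ℝ) < (V.card.choose X.card : ℝ) := choose_pos_real hi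
      rw [div_mul_eq_mul_div, div_div]
      congr 1
      ring
    · simp only [hE, and_false, if_false, sum_const_zero]
  · unfold pv yLv
    by_cases hE : τ V = Lab.X
    · simp only [hE, and_true, if_true]
      rw [← sum_filter, filter_subset_powerset hV]
      unfold aw
      rw [sum_mul, sum_div]
      refine sum_congr rfl fun X hX => ?_
      rw [mem_powerset] at hX
      have hi : X.card ≤ V.card := card_le_card hX
      have h1 := choose_mul_real (l := D.card) hi
      have e1 : ((D.card : ℝ) + 1) * (D.card.choose X.card : ℝ) *
          ((D.card - X.card).choose (V.card - X.card) : ℝ) =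
          ((D.card : ℝ) + 1) * ((D.card.choose V.card : ℝ) * (V.card.choose X.card : ℝ)) := by
        rw [← h1]; ring
      rw [e1]
      rw [div_mul_eq_mul_div, div_div]
      congr 1
      ring
    · simp only [hE, and_false, if_false, sum_const_zero]

end R5
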