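import Pool.Agent.Work.MP_8b6acb_cap.Interface

namespace R5

open Finset

variable {α : Type} [DecidableEq α]

theorem sum_inv_choose (D : Finset α) :
    ∑ V ∈ D.powerset, 1 / (D.card.choose V.card : ℝ) = (D.card : ℝ) + 1 := by
  rw [sum_powerset]
  calc ∑ k ∈ range (D.card + 1), ∑ X ∈ powersetCard k D, 1 / (D.card.choose X.card : ℝ)
      = ∑ k ∈ range (D.card + 1), (1 : ℝ) := by
        refine sum_congr rfl fun k hk => ?_
        have hk' : k ≤ D.card := by rw [mem_range] at hk; omega
        have hp := choose_pos_real hk'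
        calc ∑ X ∈ powersetCard k D, 1 / (D.card.choose X.card : ℝ)
            = ∑ X ∈ powersetCard k D, 1 / (D.card.choose k : ℝ) := by
              refine sum_congr rfl fun X hX => ?_
              rw [(mem_powersetCard.1 hX).2]
          _ = 1 := by
              rw [sum_const, card_powersetCard, nsmul_eq_mul]
              field_simp
    _ = (D.card : ℝ) + 1 := by simp

theorem fw_add_bw_le (τ : Finset α → Lab) {D V : Finset α} (hV : V ⊆ D) :
    fw τ V + bw τ D V ≤ 1 := by
  by_cases h : τ V = Lab.A
  · rw [bw_of_ne hV (by rw [h]; exact fun h' => Lab.noConfusion h'), add_zero]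
    exact fw_le_one _ _
  · rw [fw_of_ne h, zero_add]
    exact bw_le_one _ _ _

theorem stmt_ZLE : Stmt_ZLE α := by
  intro τ D
  have hl : (0 : ℝ) < (D.card : ℝ) + 1 := by positivity
  unfold Zt
  rw [div_le_one hl]
  rw [ab_eq_sum (empty_subset D)]
  simp only [sdiff_empty, empty_union]
  unfold aw
  rw [← sum_add_distrib, ← sum_inv_choose D]
  refine sum_le_sum fun V hV => ?_
  rw [mem_powerset] at hV
  rw [← add_div]
  exact div_le_div_of_nonneg_right (fw_add_bw_le τ hV) (Nat.cast_nonneg _)

end R5
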