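import Pool.Agent.Work.MP_8b6acb_cap.ABS
import Pool.Agent.Work.MP_8b6acb_cap.AWID
import Pool.Agent.Work.MP_8b6acb_cap.CHAIN
import Pool.Agent.Work.MP_8b6acb_cap.CONST
import Pool.Agent.Work.MP_8b6acb_cap.CORE
import Pool.Agent.Work.MP_8b6acb_cap.COSTB
import Pool.Agent.Work.MP_8b6acb_cap.CUT3
import Pool.Agent.Work.MP_8b6acb_cap.DEF
import Pool.Agent.Work.MP_8b6acb_cap.DEFB
import Pool.Agent.Work.MP_8b6acb_cap.FINAL
import Pool.Agent.Work.MP_8b6acb_cap.FLOWW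
import Pool.Agent.Work.MP_8b6acb_cap.FPART
import Pool.Agent.Work.MP_8b6acb_cap.GIBBS
import Pool.Agent.Work.MP_8b6acb_cap.GMASS
import Pool.Agent.Work.MP_8b6acb_cap.INF
import Pool.Agent.Work.MP_8b6acb_cap.KONE
import Pool.Agent.Work.MP_8b6acb_cap.KTWO
import Pool.Agent.Work.MP_8b6acb_cap.LPART
import Pool.Agent.Work.MP_8b6acb_cap.MAINNET
import Pool.Agent.Work.MP_8b6acb_cap.MASS
import Pool.Agent.Work.MP_8b6acb_cap.NETE
import Pool.Agent.Work.MP_8b6acb_cap.NETX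
import Pool.Agent.Work.MP_8b6acb_cap.OBJE
import Pool.Agent.Work.MP_8b6acb_cap.OBJX
import Pool.Agent.Work.MP_8b6acb_cap.ONE
import Pool.Agent.Work.MP_8b6acb_cap.PATHW
import Pool.Agent.Work.MP_8b6acb_cap.PPW
import Pool.Agent.Work.MP_8b6acb_cap.QLB
import Pool.Agent.Work.MP_8b6acb_cap.QPI
import Pool.Agent.Work.MP_8b6acb_cap.SGB
import Pool.Agent.Work.MP_8b6acb_cap.SHIFT
import Pool.Agent.Work.MP_8b6acb_cap.SWF
import Pool.Agent.Work.MP_8b6acb_cap.SWL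
import Pool.Agent.Work.MP_8b6acb_cap.TELE
import Pool.Agent.Work.MP_8b6acb_cap.TLEM
import Pool.Agent.Work.MP_8b6acb_cap.TTRIV
import Pool.Agent.Work.MP_8b6acb_cap.TYPE
import Pool.Agent.Work.MP_8b6acb_cap.TYPEFIN
import Pool.Agent.Work.MP_8b6acb_cap.UEB
import Pool.Agent.Work.MP_8b6acb_cap.YSUM
import Pool.Agent.Work.MP_8b6acb_cap.ZLE

/-! # Theorem CAP3: assembly of the blocks -/

namespace R5

/-- The type inequality on one link cube. -/
theorem asm_typefin (α : Type) [DecidableEq α] : Stmt_TYPEFIN α :=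
  stmt_TYPEFIN
    (stmt_SGB (stmt_TLEM stmt_QLB (stmt_CORE (stmt_AWID α))) stmt_TTRIV stmt_SHIFT
      (stmt_TELE stmt_CHAIN) (stmt_DEF stmt_CHAIN) stmt_DEFB)
    (stmt_COSTB (stmt_AWID α) stmt_GMASS (stmt_QPI α) stmt_ABS)
    (stmt_UEB α (stmt_AWID α)) stmt_ZLE

/-- The type inequality used by the entropy argument. -/
theorem asm_type (α : Type) [DecidableEq α] : Stmt_TYPE α :=
  stmt_TYPE stmt_YSUM (stmt_MASS stmt_GMASS) stmt_SWL stmt_SWF stmt_CONST stmt_INF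

theorem asm_lpart (α : Type) [Fintype α] [DecidableEq α] : Stmt_LPART α :=
  stmt_LPART α (stmt_OBJE (stmt_ONE stmt_GIBBS) stmt_KONE (stmt_KTWO α) stmt_YSUM)
    (stmt_OBJX (stmt_ONE stmt_GIBBS) stmt_KONE (stmt_KTWO α) stmt_YSUM)
    (stmt_NETE α) (stmt_NETX α)

theorem asm_mainnet (α : Type) [Fintype α] [DecidableEq α] : Stmt_MAINNET α :=
  stmt_MAINNET α (asm_lpart α) (stmt_FPART α (asm_lpart α)) (asm_type α)
    (stmt_MASS stmt_GMASS) stmt_GIBBS (stmt_NETE α) (stmt_NETX α)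

theorem asm_cut3 (α : Type) [Fintype α] [DecidableEq α] : Stmt_CUT3 α :=
  stmt_CUT3 α (asm_mainnet α) (asm_typefin α)

/-- **Theorem CAP3.** -/
theorem cap_three : Stmt_FINAL :=
  stmt_FINAL (fun d => stmt_PPW (Fin d) (asm_cut3 (Fin d)))
    (fun d => stmt_PATHW (Fin d) stmt_FLOWW)

end R5
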