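import Pool.Agent.Work.MP_8b6acb_cap.Defs

/-! Basic facts on the forward and backward weights. -/

namespace R5

open Finset

variable {α : Type} [DecidableEq α]

/-! ### forward weights -/

theorem fw_empty (τ : Finset α → Lab) : fw τ ∅ = if τ ∅ = Lab.A then 1 else 0 := by
  simp [fw, fwn]

theorem fw_of_ne {τ : Finset α → Lab} {V : Finset α} (h : τ V ≠ Lab.A) : fw τ V = 0 := by
  unfold fw
  cases hn : V.card with
  | zero => simp [fwn, h]
  | succ n => simp [fwn, h]

theorem fw_rec {τ : Finset α → Lab} {V : Finset α} (hV : V ≠ ∅) :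
    fw τ V = if τ V = Lab.A then fwb τ V else 0 := by
  unfold fw fwb
  have hc : V.card ≠ 0 := by rwa [Ne, card_eq_zero]
  obtain ⟨n, hn⟩ := Nat.exists_eq_succ_of_ne_zero hc
  rw [hn]
  simp only [fwn]
  split_ifs with h
  · push_cast
    congr 1
    refine sum_congr rfl fun x hx => ?_
    unfold fw
    rw [card_erase_of_mem hx, hn]
    rfl
  · rfl

theorem fw_rec_A {τ : Finset α → Lab} {V : Finset α} (hV : V ≠ ∅) (h : τ V = Lab.A) :
    fw τ V = fwb τ V := by rw [fw_rec hV, if_pos h]

theorem fw_nonneg (τ : Finset α → Lab) (V : Finset α) : 0 ≤ fw τ V := by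
  induction hn : V.card using Nat.strong_induction_on generalizing V with
  | _ n ih =>
    by_cases hV : V = ∅
    · subst hV; rw [fw_empty]; split_ifs <;> norm_num
    · rw [fw_rec hV]
      split_ifs with h
      · unfold fwb
        apply div_nonneg _ (Nat.cast_nonneg _)
        refine sum_nonneg fun x hx => ?_
        exact ih _ (by rw [← hn]; exact card_erase_lt_of_mem hx) _ rfl
      · exact le_refl _

theorem fw_le_one (τ : Finset α → Lab) (V : Finset α) : fw τ V ≤ 1 := by
  induction hn : V.card using Nat.strong_induction_on generalizing V with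
  | _ n ih =>
    by_cases hV : V = ∅
    · subst hV; rw [fw_empty]; split_ifs <;> norm_num
    · rw [fw_rec hV]
      split_ifs with h
      · unfold fwb
        have hc : (0 : ℝ) < V.card := by
          rw [Nat.cast_pos, card_pos]; exact nonempty_iff_ne_empty.2 hV
        rw [div_le_one hc]
        calc ∑ x ∈ V, fw τ (V.erase x) ≤ ∑ x ∈ V, (1 : ℝ) := by
              refine sum_le_sum fun x hx => ?_
              exact ih _ (by rw [← hn]; exact card_erase_lt_of_mem hx) _ rfl
          _ = V.card := by simp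
      · norm_num

theorem fwb_nonneg (τ : Finset α → Lab) (V : Finset α) : 0 ≤ fwb τ V :=
  div_nonneg (sum_nonneg fun _ _ => fw_nonneg _ _) (Nat.cast_nonneg _)

theorem fwb_le_one (τ : Finset α → Lab) (V : Finset α) : fwb τ V ≤ 1 := by
  unfold fwb
  by_cases hV : V = ∅
  · subst hV; simp
  have hc : (0 : ℝ) < V.card := by
    rw [Nat.cast_pos, card_pos]; exact nonempty_iff_ne_empty.2 hV
  rw [div_le_one hc]
  calc ∑ x ∈ V, fw τ (V.erase x) ≤ ∑ x ∈ V, (1 : ℝ) := sum_le_sum fun x _ => fw_le_one _ _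
    _ = V.card := by simp

theorem fw_congr {τ τ' : Finset α → Lab} {V : Finset α} (h : ∀ U ⊆ V, τ U = τ' U) :
    fw τ V = fw τ' V := by
  induction hn : V.card using Nat.strong_induction_on generalizing V with
  | _ n ih =>
    by_cases hV : V = ∅
    · subst hV; rw [fw_empty, fw_empty, h _ (Subset.refl _)]
    · rw [fw_rec hV, fw_rec hV, h _ (Subset.refl _)]
      have : fwb τ V = fwb τ' V := by
        unfold fwb
        congr 1
        refine sum_congr rfl fun x hx => ?_
        exact ih _ (by rw [← hn]; exact card_erase_lt_of_mem hx)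
          (fun U hU => h U (hU.trans (erase_subset _ _))) rfl
      rw [this]

theorem fwb_congr {τ τ' : Finset α → Lab} {V : Finset α} (h : ∀ U ⊂ V, τ U = τ' U) :
    fwb τ V = fwb τ' V := by
  unfold fwb
  congr 1
  refine sum_congr rfl fun x hx => ?_
  exact fw_congr fun U hU => h U (lt_of_le_of_lt hU (erase_ssubset hx))

theorem aw_congr {τ τ' : Finset α → Lab} {V : Finset α} (h : ∀ U ⊆ V, τ U = τ' U) :
    aw τ V = aw τ' V := by
  unfold aw
  refine sum_congr rfl fun X hX => ?_
  rw [fw_congr fun U hU => h U (hU.trans (mem_powerset.1 hX))]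

/-! ### reindexing -/

theorem sum_powerset_compl (D : Finset α) (F : Finset α → ℝ) :
    ∑ V ∈ D.powerset, F (D \ V) = ∑ V ∈ D.powerset, F V := by
  refine sum_bij' (fun V _ => D \ V) (fun V _ => D \ V) ?_ ?_ ?_ ?_ ?_
  · intro V _; exact mem_powerset.2 sdiff_subset
  · intro V _; exact mem_powerset.2 sdiff_subset
  · intro V hV; exact Finset.sdiff_sdiff_eq_self (mem_powerset.1 hV)
  · intro V hV; exact Finset.sdiff_sdiff_eq_self (mem_powerset.1 hV)
  · intro V _; rfl

/-- Reindexing `(V, x) ↔ (V + x, x)`. -/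
theorem sum_up_down (D : Finset α) (F : Finset α → α → ℝ) :
    ∑ V ∈ D.powerset, ∑ x ∈ D \ V, F V x = ∑ U ∈ D.powerset, ∑ x ∈ U, F (U.erase x) x := by
  rw [sum_sigma', sum_sigma']
  refine sum_bij' (fun p _ => (⟨insert p.2 p.1, p.2⟩ : (_ : Finset α) × α))
    (fun p _ => (⟨p.1.erase p.2, p.2⟩ : (_ : Finset α) × α)) ?_ ?_ ?_ ?_ ?_
  · rintro ⟨V, x⟩ h
    simp only [mem_sigma, mem_powerset, mem_sdiff] at h ⊢
    exact ⟨insert_subset h.2.1 h.1, mem_insert_self _ _⟩
  · rintro ⟨U, x⟩ h
    simp only [mem_sigma, mem_powerset, mem_sdiff] at h ⊢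
    exact ⟨(erase_subset _ _).trans h.1, h.1 h.2, notMem_erase _ _⟩
  · rintro ⟨V, x⟩ h
    simp only [mem_sigma, mem_powerset, mem_sdiff] at h
    simp only [erase_insert h.2.2]
  · rintro ⟨U, x⟩ h
    simp only [mem_sigma, mem_powerset] at h
    simp only [insert_erase h.2]
  · rintro ⟨V, x⟩ h
    simp only [mem_sigma, mem_powerset, mem_sdiff] at h
    simp only [erase_insert h.2.2]

/-- Reindexing `(V, x) ↔ (D - (V + x), x)`. -/
theorem sum_edge_compl (D : Finset α) (F : Finset α → α → ℝ) :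
    ∑ V ∈ D.powerset, ∑ x ∈ D \ V, F (D \ insert x V) x =
      ∑ V ∈ D.powerset, ∑ x ∈ D \ V, F V x := by
  rw [sum_sigma', sum_sigma']
  refine sum_bij' (fun p _ => (⟨D \ insert p.2 p.1, p.2⟩ : (_ : Finset α) × α))
    (fun p _ => (⟨D \ insert p.2 p.1, p.2⟩ : (_ : Finset α) × α)) ?_ ?_ ?_ ?_ ?_
  · rintro ⟨V, x⟩ h
    simp only [mem_sigma, mem_powerset, mem_sdiff] at h ⊢
    exact ⟨sdiff_subset, h.2.1, fun hh => hh.2 (mem_insert_self _ _)⟩
  · rintro ⟨V, x⟩ h
    simp only [mem_sigma, mem_powerset, mem_sdiff] at h ⊢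
    exact ⟨sdiff_subset, h.2.1, fun hh => hh.2 (mem_insert_self _ _)⟩
  · rintro ⟨V, x⟩ h
    simp only [mem_sigma, mem_powerset, mem_sdiff] at h
    have : D \ insert x (D \ insert x V) = V := by
      ext y
      simp only [mem_sdiff, mem_insert, not_or, not_and, not_not]
      constructor
      · rintro ⟨hy, hyx, hy2⟩
        exact hy2 hy hyx
      · intro hy
        refine ⟨h.1 hy, ?_, fun _ _ => hy⟩
        rintro rfl
        exact h.2.2 hy
    simp only [this]
  · rintro ⟨V, x⟩ h
    simp only [mem_sigma, mem_powerset, mem_sdiff] at h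
    have : D \ insert x (D \ insert x V) = V := by
      ext y
      simp only [mem_sdiff, mem_insert, not_or, not_and, not_not]
      constructor
      · rintro ⟨hy, hyx, hy2⟩
        exact hy2 hy hyx
      · intro hy
        refine ⟨h.1 hy, ?_, fun _ _ => hy⟩
        rintro rfl
        exact h.2.2 hy
    simp only [this]
  · rintro ⟨V, x⟩ h
    rfl

/-! ### duality -/

theorem dual_dual {τ : Finset α → Lab} {D U : Finset α} (h : U ⊆ D) :
    dual (dual τ D) D U = τ U := by
  unfold dual
  rw [Finset.sdiff_sdiff_eq_self h]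
  cases τ U <;> rfl

theorem dual_apply {τ : Finset α → Lab} {D U : Finset α} (h : U ⊆ D) :
    dual τ D (D \ U) = (τ U).flip := by
  unfold dual
  rw [Finset.sdiff_sdiff_eq_self h]

theorem flip_eq_A {a : Lab} : a.flip = Lab.A ↔ a = Lab.B := by cases a <;> simp [Lab.flip]
theorem flip_eq_B {a : Lab} : a.flip = Lab.B ↔ a = Lab.A := by cases a <;> simp [Lab.flip]
theorem flip_eq_X {a : Lab} : a.flip = Lab.X ↔ a = Lab.X := by cases a <;> simp [Lab.flip]

theorem bw_nonneg (τ : Finset α → Lab) (D V : Finset α) : 0 ≤ bw τ D V := fw_nonneg _ _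
theorem bw_le_one (τ : Finset α → Lab) (D V : Finset α) : bw τ D V ≤ 1 := fw_le_one _ _

theorem bwb_nonneg (τ : Finset α → Lab) (D V : Finset α) : 0 ≤ bwb τ D V :=
  div_nonneg (sum_nonneg fun _ _ => bw_nonneg _ _ _) (Nat.cast_nonneg _)

theorem bw_of_ne {τ : Finset α → Lab} {D V : Finset α} (hV : V ⊆ D) (h : τ V ≠ Lab.B) :
    bw τ D V = 0 := by
  unfold bw
  apply fw_of_ne
  rw [dual_apply hV, Ne, flip_eq_A]
  exact h

theorem bw_top (τ : Finset α → Lab) (D : Finset α) :
    bw τ D D = if τ D = Lab.B then 1 else 0 := by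
  unfold bw
  rw [sdiff_self, bot_eq_empty, fw_empty]
  simp only [dual, sdiff_empty, flip_eq_A]

theorem sdiff_erase_eq {D V : Finset α} {x : α} :
    (D \ V).erase x = D \ insert x V := by
  ext y; simp only [mem_erase, mem_sdiff, mem_insert, not_or]; tauto

theorem fwb_dual (τ : Finset α → Lab) (D V : Finset α) : fwb (dual τ D) (D \ V) = bwb τ D V := by
  unfold fwb bwb bw
  congr 1
  refine sum_congr rfl fun x _ => ?_
  rw [sdiff_erase_eq]

theorem bw_rec {τ : Finset α → Lab} {D V : Finset α} (hV : V ⊆ D) (hne : V ≠ D) :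
    bw τ D V = if τ V = Lab.B then bwb τ D V else 0 := by
  unfold bw
  have h1 : D \ V ≠ ∅ := by
    rw [Ne, sdiff_eq_empty_iff_subset]
    intro h
    exact hne (Subset.antisymm hV h)
  rw [fw_rec h1, fwb_dual, dual_apply hV]
  simp only [flip_eq_A]

theorem bw_dual {τ : Finset α → Lab} {D V : Finset α} : bw (dual τ D) D V = fw τ (D \ V) := by
  unfold bw
  exact fw_congr fun U hU => dual_dual (hU.trans sdiff_subset)

theorem bwb_dual {τ : Finset α → Lab} {D V : Finset α} :
    bwb (dual τ D) D V = fwb τ (D \ V) := by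
  rw [← fwb_dual]
  exact fwb_congr fun U hU => dual_dual (hU.1.trans sdiff_subset)

theorem fw_dual {τ : Finset α → Lab} {D V : Finset α} (hV : V ⊆ D) :
    fw (dual τ D) V = bw τ D (D \ V) := by
  unfold bw
  rw [Finset.sdiff_sdiff_eq_self hV]

theorem ab_dual {τ : Finset α → Lab} {D V : Finset α} : ab (dual τ D) D V = aw τ (D \ V) := by
  unfold ab
  exact aw_congr fun U hU => dual_dual (hU.trans sdiff_subset)

theorem aw_dual {τ : Finset α → Lab} {D V : Finset α} (hV : V ⊆ D) :
    aw (dual τ D) V = ab τ D (D \ V) := by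
  unfold ab
  rw [Finset.sdiff_sdiff_eq_self hV]

theorem Zt_dual (τ : Finset α → Lab) (D : Finset α) : Zt (dual τ D) D = Zt τ D := by
  unfold Zt
  rw [ab_dual, aw_dual (Subset.refl _)]
  simp only [sdiff_empty, sdiff_self, bot_eq_empty]
  rw [add_comm]

theorem isE_dual {τ : Finset α → Lab} {D V : Finset α} {x : α} (hV : V ⊆ D) (hx : x ∈ D \ V) :
    isE (dual τ D) (D \ insert x V) x ↔ isE τ V x := by
  unfold isE
  rw [mem_sdiff] at hx
  have h1 : insert x V ⊆ D := insert_subset hx.1 hV
  have h2 : insert x (D \ insert x V) = D \ V := by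
    ext y
    simp only [mem_sdiff, mem_insert, not_or]
    by_cases hy : y = x
    · subst hy; simp [hx.1, hx.2]
    · simp [hy]
  rw [dual_apply h1, h2, dual_apply hV, flip_eq_A, flip_eq_B]
  tauto

/-! ### binomials -/

theorem card_sdiff_cast {D V : Finset α} (hV : V ⊆ D) :
    ((D \ V).card : ℝ) = (D.card : ℝ) - V.card := by
  rw [card_sdiff_of_subset hV, Nat.cast_sub (card_le_card hV)]

theorem choose_up {l k : ℕ} (hk : k < l) :
    (l.choose k : ℝ) * ((l : ℝ) - k) = (l.choose (k + 1) : ℝ) * ((k : ℝ) + 1) := by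
  have h := Nat.choose_succ_right_eq l k
  have h2 : ((l - k : ℕ) : ℝ) = (l : ℝ) - k := Nat.cast_sub hk.le
  rw [← h2]
  exact_mod_cast h.symm

theorem choose_pos_real {l k : ℕ} (hk : k ≤ l) : (0 : ℝ) < (l.choose k : ℝ) := by
  exact_mod_cast Nat.choose_pos hk

theorem choose_mul_real {l k i : ℕ} (hi : i ≤ k) :
    (l.choose i : ℝ) * ((l - i).choose (k - i) : ℝ) = (l.choose k : ℝ) * (k.choose i : ℝ) := by
  have h := Nat.choose_mul (n := l) (k := k) (s := i) hi
  exact_mod_cast h.symm

theorem yLe_dual {τ : Finset α → Lab} {D V : Finset α} {x : α} (hV : V ⊆ D) (hx : x ∈ D \ V) :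
    yLe (dual τ D) D (D \ insert x V) x = yFe τ D V x := by
  unfold yLe yFe
  have hx' := mem_sdiff.1 hx
  have h1 : insert x V ⊆ D := insert_subset hx'.1 hV
  have h2 : insert x (D \ insert x V) = D \ V := by
    ext y
    simp only [mem_sdiff, mem_insert, not_or]
    by_cases hy : y = x
    · subst hy; simp [hx'.1, hx'.2]
    · simp [hy]
  have hlt : V.card < D.card := by
    have := card_le_card h1
    rw [card_insert_of_notMem hx'.2] at this
    omega
  have h3 : (D \ insert x V).card = D.card - (V.card + 1) := by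
    rw [card_sdiff_of_subset h1, card_insert_of_notMem hx'.2]
  simp only [isE_dual hV hx]
  split_ifs with h
  · rw [aw_dual sdiff_subset, Finset.sdiff_sdiff_eq_self h1, h2, bw_dual, Finset.sdiff_sdiff_eq_self hV, h3]
    rw [mul_comm (ab τ D (insert x V))]
    congr 1
    rw [mul_assoc, mul_assoc, choose_up hlt, Nat.choose_symm (by omega), Nat.cast_sub (by omega)]
    push_cast
    ring
  · rfl

theorem yLv_dual {τ : Finset α → Lab} {D V : Finset α} (hV : V ⊆ D) :
    yLv (dual τ D) D (D \ V) = yFv τ D V := by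
  unfold yLv yFv
  simp only [dual_apply hV, flip_eq_X]
  split_ifs with h
  · rw [aw_dual sdiff_subset, Finset.sdiff_sdiff_eq_self hV, bwb_dual, Finset.sdiff_sdiff_eq_self hV,
      card_sdiff_of_subset hV, Nat.choose_symm (card_le_card hV), mul_comm (ab τ D V)]
  · rfl

/-! ### expected numbers of slots -/

theorem aw_nonneg (τ : Finset α → Lab) (V : Finset α) : 0 ≤ aw τ V :=
  sum_nonneg fun _ _ => div_nonneg (fw_nonneg _ _) (Nat.cast_nonneg _)

theorem ab_nonneg (τ : Finset α → Lab) (D V : Finset α) : 0 ≤ ab τ D V := aw_nonneg _ _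

theorem one_le_aw {τ : Finset α → Lab} (h : τ ∅ = Lab.A) (V : Finset α) : 1 ≤ aw τ V := by
  unfold aw
  have h1 : fw τ ∅ / (V.card.choose (∅ : Finset α).card : ℝ) = 1 := by
    rw [fw_empty, if_pos h]; simp
  rw [← h1]
  exact single_le_sum (f := fun X => fw τ X / (V.card.choose X.card : ℝ))
    (fun _ _ => div_nonneg (fw_nonneg _ _) (Nat.cast_nonneg _)) (empty_mem_powerset V)

theorem one_le_ab {τ : Finset α → Lab} {D : Finset α} (h : τ D = Lab.B) (V : Finset α) :
    1 ≤ ab τ D V := by
  unfold ab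
  apply one_le_aw
  unfold dual
  rw [sdiff_empty, flip_eq_A]
  exact h

theorem aw_le (τ : Finset α → Lab) (V : Finset α) : aw τ V ≤ (V.card : ℝ) + 1 := by
  unfold aw
  rw [sum_powerset]
  calc ∑ k ∈ range (V.card + 1), ∑ X ∈ powersetCard k V, fw τ X / (V.card.choose X.card : ℝ)
      ≤ ∑ k ∈ range (V.card + 1), (1 : ℝ) := by
        refine sum_le_sum fun k hk => ?_
        have hk' : k ≤ V.card := by rw [mem_range] at hk; omega
        have hp := choose_pos_real hk'
        calc ∑ X ∈ powersetCard k V, fw τ X / (V.card.choose X.card : ℝ)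
            ≤ ∑ X ∈ powersetCard k V, 1 / (V.card.choose k : ℝ) := by
              refine sum_le_sum fun X hX => ?_
              rw [(mem_powersetCard.1 hX).2]
              exact div_le_div_of_nonneg_right (fw_le_one _ _) hp.le
          _ = 1 := by
              rw [sum_const, card_powersetCard, nsmul_eq_mul]
              field_simp
    _ = (V.card : ℝ) + 1 := by simp

theorem ab_le {τ : Finset α → Lab} {D V : Finset α} : ab τ D V ≤ ((D \ V).card : ℝ) + 1 :=
  aw_le _ _

/-- `ab` as a sum over the sets above `V`. -/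
theorem ab_eq_sum {τ : Finset α → Lab} {D V : Finset α} (hV : V ⊆ D) :
    ab τ D V = ∑ U ∈ (D \ V).powerset, bw τ D (V ∪ U) / ((D \ V).card.choose U.card : ℝ) := by
  unfold ab aw
  rw [← sum_powerset_compl (D \ V)]
  refine sum_congr rfl fun U hU => ?_
  rw [mem_powerset] at hU
  have h1 : (D \ V) \ U ⊆ D := sdiff_subset.trans sdiff_subset
  rw [fw_dual h1]
  have h2 : D \ ((D \ V) \ U) = V ∪ U := by
    ext y
    simp only [mem_sdiff, mem_union, not_and, not_not]
    constructor
    · rintro ⟨hy, h⟩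
      by_cases hyV : y ∈ V
      · exact Or.inl hyV
      · exact Or.inr (h ⟨hy, hyV⟩)
    · rintro (h | h)
      · exact ⟨hV h, fun h' => absurd h h'.2⟩
      · exact ⟨(mem_sdiff.1 (hU h)).1, fun _ => h⟩
  rw [h2, card_sdiff_of_subset hU, Nat.choose_symm (card_le_card hU)]

/-- `ab` as a sum over the sets `Y` with `V ⊆ Y ⊆ D`. -/
theorem ab_eq_sum' {τ : Finset α → Lab} {D V : Finset α} (hV : V ⊆ D) :
    ab τ D V = ∑ Y ∈ D.powerset, if V ⊆ Y then
      bw τ D Y / ((D \ V).card.choose (Y.card - V.card) : ℝ) else 0 := by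
  rw [ab_eq_sum hV, ← sum_filter]
  refine sum_bij' (fun U _ => V ∪ U) (fun Y _ => Y \ V) ?_ ?_ ?_ ?_ ?_
  · intro U hU
    rw [mem_powerset] at hU
    rw [mem_filter, mem_powerset]
    exact ⟨union_subset hV (hU.trans sdiff_subset), subset_union_left⟩
  · intro Y hY
    rw [mem_filter, mem_powerset] at hY
    rw [mem_powerset]
    exact sdiff_subset_sdiff hY.1 (Subset.refl _)
  · intro U hU
    rw [mem_powerset] at hU
    ext y
    simp only [mem_sdiff, mem_union]
    constructor
    · rintro ⟨h1 | h1, h2⟩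
      · exact absurd h1 h2
      · exact h1
    · intro h
      exact ⟨Or.inr h, (mem_sdiff.1 (hU h)).2⟩
  · intro Y hY
    rw [mem_filter, mem_powerset] at hY
    exact union_sdiff_of_subset hY.2
  · intro U hU
    rw [mem_powerset] at hU
    have hdisj : Disjoint V U := by
      rw [Finset.disjoint_left]
      intro y h1 h2
      exact (mem_sdiff.1 (hU h2)).2 h1
    rw [card_union_of_disjoint hdisj, Nat.add_sub_cancel_left]

/-- Recursion for `aw`. -/
theorem aw_rec {τ : Finset α → Lab} {V : Finset α} (hV : V ≠ ∅) :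
    aw τ V = fw τ V + (∑ x ∈ V, aw τ (V.erase x)) / (V.card : ℝ) := by
  have hc : (0 : ℝ) < V.card := by
    rw [Nat.cast_pos, card_pos]; exact nonempty_iff_ne_empty.2 hV
  have h1 : ∑ x ∈ V, aw τ (V.erase x) =
      ∑ X ∈ V.powerset, ∑ x ∈ V \ X, fw τ X / ((V.card - 1).choose X.card : ℝ) := by
    unfold aw
    rw [sum_sigma', sum_sigma']
    refine sum_bij' (fun p _ => (⟨p.2, p.1⟩ : (_ : Finset α) × α))
      (fun p _ => (⟨p.2, p.1⟩ : (_ : α) × Finset α)) ?_ ?_ ?_ ?_ ?_
    · rintro ⟨x, X⟩ h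
      simp only [mem_sigma, mem_powerset, mem_sdiff] at h ⊢
      exact ⟨h.2.trans (erase_subset _ _), h.1, fun hx => notMem_erase x V (h.2 hx)⟩
    · rintro ⟨X, x⟩ h
      simp only [mem_sigma, mem_powerset, mem_sdiff] at h ⊢
      exact ⟨h.2.1, subset_erase.2 ⟨h.1, h.2.2⟩⟩
    · rintro ⟨x, X⟩ _; rfl
    · rintro ⟨X, x⟩ _; rfl
    · rintro ⟨x, X⟩ h
      simp only [mem_sigma, mem_powerset] at h
      rw [card_erase_of_mem h.1]
  rw [h1]
  unfold aw
  rw [← add_sum_erase _ _ (mem_powerset_self V), Nat.choose_self, Nat.cast_one, div_one,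
    ← add_sum_erase _ (fun X => ∑ x ∈ V \ X, fw τ X / ((V.card - 1).choose X.card : ℝ))
      (mem_powerset_self V)]
  simp only [sdiff_self, bot_eq_empty, sum_empty, zero_add]
  congr 1
  rw [sum_div]
  refine sum_congr rfl fun X hX => ?_
  rw [mem_erase, mem_powerset] at hX
  have hlt : X.card < V.card := card_lt_card (ssubset_of_subset_of_ne hX.2 hX.1)
  rw [sum_const, nsmul_eq_mul, card_sdiff_cast hX.2]
  have hp := choose_pos_real hlt.le
  have hp2 : (0 : ℝ) < ((V.card - 1).choose X.card : ℝ) := choose_pos_real (by omega)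
  have hid : (V.card.choose X.card : ℝ) * ((V.card : ℝ) - X.card) =
      (V.card : ℝ) * ((V.card - 1).choose X.card : ℝ) := by
    obtain ⟨n, hn⟩ : ∃ n, V.card = n + 1 := ⟨V.card - 1, by omega⟩
    rw [hn] at hlt ⊢
    have h3 : (((n + 1) - X.card : ℕ) : ℝ) = ((n + 1 : ℕ) : ℝ) - X.card := Nat.cast_sub hlt.le
    rw [← h3, Nat.add_sub_cancel]
    have h4 : (n + 1).choose X.card * (n + 1 - X.card) = (n + 1) * n.choose X.card := by
      rw [← Nat.choose_mul_succ_eq, mul_comm]
    exact_mod_cast h4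
  rw [div_eq_div_iff hp.ne' hc.ne']
  have : ((V.card : ℝ) - X.card) * (fw τ X / ((V.card - 1).choose X.card : ℝ)) *
      (V.card.choose X.card : ℝ) = fw τ X * ((V.card.choose X.card : ℝ) *
        ((V.card : ℝ) - X.card)) / ((V.card - 1).choose X.card : ℝ) := by ring
  rw [this, hid]
  field_simp

end R5
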