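import Pool.Agent.Work.MP_8b6acb_cap.Interface

/-! Convolution lemma used by the blocks TELE and DEF. -/

namespace R5

open Finset

variable {α : Type} [DecidableEq α]

/-- Summing `aw` of the shifted types: every state `X` below `X''` is counted by its weight. -/
theorem conv_aw (hC : Stmt_CHAIN α) (τ : Finset α → Lab) (V : Finset α) (c : ℕ → ℝ) :
    ∑ X ∈ V.powerset, fw τ X / (V.card.choose X.card : ℝ) *
      (c X.card * aw (shift τ X) (V \ X)) =
    ∑ U ∈ V.powerset, fw τ U / (V.card.choose U.card : ℝ) * ∑ i ∈ range (U.card + 1), c i := by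
  -- expand `aw`
  have h1 : ∀ X ∈ V.powerset, fw τ X / (V.card.choose X.card : ℝ) *
      (c X.card * aw (shift τ X) (V \ X)) =
      ∑ Y ∈ (V \ X).powerset, c X.card * (fw τ X * fw (shift τ X) Y) /
        ((V.card.choose (X ∪ Y).card : ℝ) * ((X ∪ Y).card.choose X.card : ℝ)) := by
    intro X hX
    rw [mem_powerset] at hX
    unfold aw
    rw [mul_sum, mul_sum]
    refine sum_congr rfl fun Y hY => ?_
    rw [mem_powerset] at hY
    have hdisj : Disjoint X Y := by
      rw [Finset.disjoint_left]
      intro y h1 h2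
      exact (mem_sdiff.1 (hY h2)).2 h1
    have hcard : (X ∪ Y).card = X.card + Y.card := card_union_of_disjoint hdisj
    have hle : (X ∪ Y).card ≤ V.card :=
      card_le_card (union_subset hX (hY.trans sdiff_subset))
    have hch := choose_mul_real (l := V.card) (k := (X ∪ Y).card) (i := X.card)
      (by rw [hcard]; omega)
    have hY2 : (X ∪ Y).card - X.card = Y.card := by rw [hcard]; omega
    rw [← hch, hY2, card_sdiff_of_subset hX]
    have hp1 : (0 : ℝ) < (V.card.choose X.card : ℝ) := choose_pos_real (card_le_card hX)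
    have hp2 : (0 : ℝ) < ((V.card - X.card).choose Y.card : ℝ) :=
      choose_pos_real (by omega)
    field_simp
  rw [sum_congr rfl h1]
  -- reindex (X, Y) as (U, X) with U = X ∪ Y
  have h2 : ∑ X ∈ V.powerset, ∑ Y ∈ (V \ X).powerset, c X.card * (fw τ X * fw (shift τ X) Y) /
        ((V.card.choose (X ∪ Y).card : ℝ) * ((X ∪ Y).card.choose X.card : ℝ)) =
      ∑ U ∈ V.powerset, ∑ X ∈ U.powerset, c X.card * (fw τ X * fw (shift τ X) (U \ X)) /
        ((V.card.choose U.card : ℝ) * (U.card.choose X.card : ℝ)) := by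
    rw [sum_sigma', sum_sigma']
    refine sum_bij' (fun p _ => (⟨p.1 ∪ p.2, p.1⟩ : (_ : Finset α) × Finset α))
      (fun p _ => (⟨p.2, p.1 \ p.2⟩ : (_ : Finset α) × Finset α)) ?_ ?_ ?_ ?_ ?_
    · rintro ⟨X, Y⟩ h
      simp only [mem_sigma, mem_powerset] at h ⊢
      exact ⟨union_subset h.1 (h.2.trans sdiff_subset), subset_union_left⟩
    · rintro ⟨U, X⟩ h
      simp only [mem_sigma, mem_powerset] at h ⊢
      exact ⟨h.2.trans h.1, sdiff_subset_sdiff h.1 (Subset.refl _)⟩
    · rintro ⟨X, Y⟩ h
      simp only [mem_sigma, mem_powerset] at h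
      have : (X ∪ Y) \ X = Y := by
        ext y
        simp only [mem_sdiff, mem_union]
        constructor
        · rintro ⟨h1 | h1, h2⟩
          · exact absurd h1 h2
          · exact h1
        · intro hy
          exact ⟨Or.inr hy, (mem_sdiff.1 (h.2 hy)).2⟩
      simp only [this]
    · rintro ⟨U, X⟩ h
      simp only [mem_sigma, mem_powerset] at h
      simp only [union_sdiff_of_subset h.2]
    · rintro ⟨X, Y⟩ h
      simp only [mem_sigma, mem_powerset] at h
      have : (X ∪ Y) \ X = Y := by
        ext y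
        simp only [mem_sdiff, mem_union]
        constructor
        · rintro ⟨h1 | h1, h2⟩
          · exact absurd h1 h2
          · exact h1
        · intro hy
          exact ⟨Or.inr hy, (mem_sdiff.1 (h.2 hy)).2⟩
      simp only [this]
  rw [h2]
  refine sum_congr rfl fun U hU => ?_
  rw [sum_powerset, mul_sum]
  refine sum_congr rfl fun i hi => ?_
  have hi' : i ≤ U.card := by rw [mem_range] at hi; omega
  have hp1 : (0 : ℝ) < (V.card.choose U.card : ℝ) :=
    choose_pos_real (card_le_card (mem_powerset.1 hU))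
  have hp2 : (0 : ℝ) < (U.card.choose i : ℝ) := choose_pos_real hi'
  have h3 : ∀ X ∈ powersetCard i U, c X.card * (fw τ X * fw (shift τ X) (U \ X)) /
        ((V.card.choose U.card : ℝ) * (U.card.choose X.card : ℝ)) =
      (c i / ((V.card.choose U.card : ℝ) * (U.card.choose i : ℝ))) *
        (fw τ X * fw (shift τ X) (U \ X)) := by
    intro X hX
    rw [(mem_powersetCard.1 hX).2]
    ring
  rw [sum_congr rfl h3, ← mul_sum, hC τ U i hi']
  field_simp

/-- Telescoping of the logarithms. -/
theorem sum_lamn (l : ℕ) : ∀ k : ℕ, k < l →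
    ∑ i ∈ range k, lamn (l - i) = Real.log (l : ℝ) - Real.log ((l : ℝ) - k) := by
  intro k
  induction k with
  | zero => intro _; simp
  | succ k ih =>
    intro hk
    rw [sum_range_succ, ih (by omega)]
    unfold lamn
    have h1 : ((l - k : ℕ) : ℝ) = (l : ℝ) - k := Nat.cast_sub (by omega)
    have h2 : (0 : ℝ) < (l : ℝ) - k - 1 := by
      have : ((k + 1 : ℕ) : ℝ) < l := by exact_mod_cast hk
      push_cast at this
      linarith
    rw [h1, Real.log_div (by linarith) (by linarith)]
    push_cast
    have h3 : (l : ℝ) - (k + 1) = (l : ℝ) - k - 1 := by ring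
    rw [h3]
    ring

end R5
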