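import Mathlib

/-!
# Labelled cubes: forward and backward weights (definitions)

A *type* is a labelling `τ : Finset α → Lab` of the subsets of a finite set `D`.  Random orders of
`D` are never used: all quantities are finite sums over subsets.
-/

namespace R5

open Finset

/-- The labels of a cut: source side, sink side, cut vertex. -/
inductive Lab where
  | A | B | X
deriving DecidableEq

/-- Exchange of the two sides. -/
def Lab.flip : Lab → Lab
  | .A => .B
  | .B => .A
  | .X => .X

variable {α : Type} [DecidableEq α]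

/-- Auxiliary recursion for `fw`. -/
noncomputable def fwn (τ : Finset α → Lab) : ℕ → Finset α → ℝ
  | 0, V => if τ V = Lab.A then 1 else 0
  | n + 1, V => if τ V = Lab.A then (∑ x ∈ V, fwn τ n (V.erase x)) / ((n : ℝ) + 1) else 0

/-- Probability that all prefixes of a random order of `V` (with `∅` and `V`) have label `A`. -/
noncomputable def fw (τ : Finset α → Lab) (V : Finset α) : ℝ := fwn τ V.card V

/-- The dual labelling on the subsets of `D`. -/
def dual (τ : Finset α → Lab) (D : Finset α) : Finset α → Lab := fun U => (τ (D \ U)).flip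

/-- Probability that all sets of a random chain from `V` to `D` have label `B`. -/
noncomputable def bw (τ : Finset α → Lab) (D V : Finset α) : ℝ := fw (dual τ D) (D \ V)

/-- Average of `fw` over the lower neighbours. -/
noncomputable def fwb (τ : Finset α → Lab) (V : Finset α) : ℝ :=
  (∑ x ∈ V, fw τ (V.erase x)) / (V.card : ℝ)

/-- Average of `bw` over the upper neighbours. -/
noncomputable def bwb (τ : Finset α → Lab) (D V : Finset α) : ℝ :=
  (∑ x ∈ D \ V, bw τ D (insert x V)) / ((D \ V).card : ℝ)

/-- Expected number of prefixes of a random order of `V` all of whose prefixes are in `A`. -/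
noncomputable def aw (τ : Finset α → Lab) (V : Finset α) : ℝ :=
  ∑ X ∈ V.powerset, fw τ X / (V.card.choose X.card : ℝ)

/-- Mirror of `aw`. -/
noncomputable def ab (τ : Finset α → Lab) (D V : Finset α) : ℝ := aw (dual τ D) (D \ V)

/-- The total mass. -/
noncomputable def Zt (τ : Finset α → Lab) (D : Finset α) : ℝ :=
  (aw τ D + ab τ D ∅) / ((D.card : ℝ) + 1)

/-- `(V, V + x)` is a cut edge of the type. -/
def isE (τ : Finset α → Lab) (V : Finset α) (x : α) : Prop := τ V = Lab.A ∧ τ (insert x V) = Lab.B

instance (τ : Finset α → Lab) (V : Finset α) (x : α) : Decidable (isE τ V x) := by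
  unfold isE; infer_instance

/-- Mass of (star at `X`, colour L, last object = edge `(V, V + x)`). -/
noncomputable def pe (τ : Finset α → Lab) (D X V : Finset α) (x : α) : ℝ :=
  if X ⊆ V ∧ isE τ V x then
    fw τ X * bw τ D (insert x V) / (((D.card : ℝ) + 1) * (D.card.choose X.card : ℝ) *
      ((D.card - X.card).choose (V.card - X.card) : ℝ) * ((D.card : ℝ) - (V.card : ℝ)))
  else 0

/-- Mass of (star at `X`, colour L, last object = vertex `V`). -/
noncomputable def pv (τ : Finset α → Lab) (D X V : Finset α) : ℝ :=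
  if X ⊆ V ∧ τ V = Lab.X then
    fw τ X * bwb τ D V / (((D.card : ℝ) + 1) * (D.card.choose X.card : ℝ) *
      ((D.card - X.card).choose (V.card - X.card) : ℝ))
  else 0

/-- Mass of (colour L, last object = edge `(V, V + x)`). -/
noncomputable def yLe (τ : Finset α → Lab) (D V : Finset α) (x : α) : ℝ :=
  if isE τ V x then
    aw τ V * bw τ D (insert x V) /
      (((D.card : ℝ) + 1) * (D.card.choose V.card : ℝ) * ((D.card : ℝ) - (V.card : ℝ)))
  else 0

/-- Mass of (colour L, last object = vertex `V`). -/
noncomputable def yLv (τ : Finset α → Lab) (D V : Finset α) : ℝ :=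
  if τ V = Lab.X then aw τ V * bwb τ D V / (((D.card : ℝ) + 1) * (D.card.choose V.card : ℝ)) else 0

/-- Mass of (colour F, first object = edge `(V, V + x)`). -/
noncomputable def yFe (τ : Finset α → Lab) (D V : Finset α) (x : α) : ℝ :=
  if isE τ V x then
    fw τ V * ab τ D (insert x V) /
      (((D.card : ℝ) + 1) * (D.card.choose V.card : ℝ) * ((D.card : ℝ) - (V.card : ℝ)))
  else 0

/-- Mass of (colour F, first object = vertex `V`). -/
noncomputable def yFv (τ : Finset α → Lab) (D V : Finset α) : ℝ :=
  if τ V = Lab.X then fwb τ V * ab τ D V / (((D.card : ℝ) + 1) * (D.card.choose V.card : ℝ)) else 0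

/-- Mass of (star at `X`, colour L, last object = edge with crossing element `g`). -/
noncomputable def PP1 (τ : Finset α → Lab) (D X : Finset α) (g : α) : ℝ :=
  ∑ V ∈ (D.erase g).powerset, pe τ D X V g

/-- The coefficient of `-log (1 - ρ_X(g)/n)`. -/
noncomputable def QQ1 (τ : Finset α → Lab) (D X : Finset α) (g : α) : ℝ :=
  (∑ V ∈ D.powerset, ∑ x ∈ D \ V, pe τ D X V x *
      (if g ∈ insert x V then (D.card : ℝ) - V.card - 1 else ((D.card : ℝ) - 2 - V.card) / 2)) +
  ∑ V ∈ D.powerset, pv τ D X V *
      (if g ∈ V then (D.card : ℝ) - V.card else ((D.card : ℝ) - 1 - V.card) / 2)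

/-- `λ_n = log (n/(n-1))`. -/
noncomputable def lamn (n : ℕ) : ℝ := Real.log ((n : ℝ) / ((n : ℝ) - 1))

/-- The gain of the `S`-side after minimising over the densities `ρ`. -/
noncomputable def SG (τ : Finset α → Lab) (D : Finset α) : ℝ :=
  ∑ X ∈ D.powerset, ∑ g ∈ D \ X, (Real.log ((D \ X).card : ℝ) * PP1 τ D X g +
    lamn (D \ X).card * min ((((D \ X).card : ℝ) - 1) * PP1 τ D X g) (QQ1 τ D X g))

/-- Mass of the colour L configurations paying an edge. -/
noncomputable def PEL (τ : Finset α → Lab) (D : Finset α) : ℝ :=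
  ∑ V ∈ D.powerset, ∑ x ∈ D \ V, yLe τ D V x

/-- The colour L part of `COST` (normalised by `z`). -/
noncomputable def CL (τ : Finset α → Lab) (D : Finset α) (z : ℝ) : ℝ :=
  (∑ V ∈ D.powerset, ∑ x ∈ D \ V, yLe τ D V x *
    Real.log (aw τ V * bw τ D (insert x V) / (((V.card : ℝ) + 1) * z))) +
  ∑ V ∈ D.powerset, yLv τ D V *
    Real.log (aw τ V * bwb τ D V * (D.card : ℝ) / (((D.card : ℝ) + 1) * (V.card : ℝ) * z))

/-- Relative entropy term. -/
noncomputable def COST (τ : Finset α → Lab) (D : Finset α) : ℝ :=
  CL τ D (Zt τ D) + CL (dual τ D) D (Zt τ D)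

/-- The value of a type. -/
noncomputable def VAL (τ : Finset α → Lab) (D : Finset α) : ℝ :=
  SG τ D + SG (dual τ D) D - Real.log (D.card : ℝ) * (PEL τ D + PEL (dual τ D) D) - COST τ D

/-- Number of light elements at the bottom. -/
def Jl (τ : Finset α → Lab) (D : Finset α) : ℕ := (D.filter fun x => τ {x} = Lab.B).card

/-- Number of light elements at the top. -/
def Jd (τ : Finset α → Lab) (D : Finset α) : ℕ := (D.filter fun x => τ (D.erase x) = Lab.A).card

/-- The type above `X`. -/
def shift (τ : Finset α → Lab) (X : Finset α) : Finset α → Lab := fun V => τ (X ∪ V)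

/-! Base quantities of a type. -/

noncomputable def P0 (τ : Finset α → Lab) (D : Finset α) (g : α) : ℝ :=
  ∑ V ∈ (D.erase g).powerset, if isE τ V g then
    bw τ D (insert g V) / ((D.card.choose V.card : ℝ) * ((D.card : ℝ) - V.card)) else 0

noncomputable def T0 (τ : Finset α → Lab) (D : Finset α) (g : α) : ℝ :=
  ∑ V ∈ (D.erase g).powerset, if isE τ V g then (aw τ V - 1) *
    (bw τ D (insert g V) / ((D.card.choose V.card : ℝ) * ((D.card : ℝ) - V.card))) else 0

noncomputable def Q0 (τ : Finset α → Lab) (D : Finset α) (g : α) : ℝ :=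
  (∑ V ∈ D.powerset, ∑ x ∈ D \ V, if isE τ V x then
      bw τ D (insert x V) / ((D.card.choose V.card : ℝ) * ((D.card : ℝ) - V.card)) *
      (if g ∈ insert x V then (D.card : ℝ) - V.card - 1 else ((D.card : ℝ) - 2 - V.card) / 2)
    else 0) +
  ∑ V ∈ D.powerset, if τ V = Lab.X then bwb τ D V / (D.card.choose V.card : ℝ) *
      (if g ∈ V then (D.card : ℝ) - V.card else ((D.card : ℝ) - 1 - V.card) / 2) else 0

/-- Expected number of slots with the own slot of a first vertex counted `π`. -/
noncomputable def A1 (τ : Finset α → Lab) (π : Finset α → ℝ) (V : Finset α) : ℝ :=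
  ∑ U ∈ V.powerset, (match τ U with
    | .A => fw τ U
    | .X => fwb τ U * π U
    | .B => 0) / (V.card.choose U.card : ℝ)

/-- Mirror of `A1`, with weight `1 - π`. -/
noncomputable def B1 (τ : Finset α → Lab) (D : Finset α) (π : Finset α → ℝ) (V : Finset α) : ℝ :=
  A1 (dual τ D) (fun U => 1 - π (D \ U)) (D \ V)

end R5
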