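import Pool.Agent.Work.MP_8b6acb_cap.Interface
import Pool.Agent.Work.MP_8b6acb_co.Flow

/-! Block FLOWW: flows with edge capacities (helper22; copy of `exists_flow`). -/

set_option linter.unusedSectionVars false

namespace R5

open Finset MP_8b6acb_co

variable {α : Type} [Fintype α] [DecidableEq α]

/-- The capacity of the edge `(u, v)`. -/
def capw (κ : Finset α → α → ℕ) (u v : Finset α) : ℕ := ∑ x ∈ v \ u, κ u x

theorem capw_insert (κ : Finset α → α → ℕ) {u : Finset α} {x : α} (hx : x ∉ u) :
    capw κ u (insert x u) = κ u x := by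
  unfold capw
  have : insert x u \ u = {x} := by
    ext y
    simp only [mem_sdiff, mem_insert, mem_singleton]
    constructor
    · rintro ⟨h | h, h2⟩
      · exact h
      · exact absurd h h2
    · rintro rfl
      exact ⟨Or.inl rfl, hx⟩
  rw [this, sum_singleton]

theorem capw_erase (κ : Finset α → α → ℕ) {v : Finset α} {x : α} (hx : x ∈ v) :
    capw κ (v.erase x) v = κ (v.erase x) x := by
  have h := capw_insert κ (notMem_erase x v)
  rwa [insert_erase hx] at h

theorem dgw_eq_sum (κ : Finset α → α → ℕ) (A : Finset (Finset α)) (v : Finset α) :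
    dgw κ A v = ∑ a, if a ∈ v then (if v.erase a ∈ A then κ (v.erase a) a else 0) else 0 := by
  unfold dgw
  rw [← Finset.sum_filter (s := univ) (p := fun a => a ∈ v)]
  refine sum_congr ?_ (fun _ _ => rfl)
  ext a
  simp

/-- Existence of flows from the cut condition. -/
theorem stmt_FLOWW : Stmt_FLOWW α := by
  intro κ q i j S T hS hT hij a b hab hcut
  classical
  have hSM : ∀ s ∈ S, s ∉ Mid i j := by
    intro s hs hm
    rw [mem_Mid, hS s hs] at hm
    omega
  have hTM : ∀ t ∈ T, t ∉ Mid i j := by
    intro t ht hm
    rw [mem_Mid, hT t ht] at hm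
    omega
  have hTS : ∀ t ∈ T, t ∉ S := by
    intro t ht hm
    have h1 := hS t hm
    have h2 := hT t ht
    omega
  let a' : Finset α → ℕ := fun u => (if u ∈ S then a u else 0) + (if u ∈ Mid i j then q else 0)
  let b' : Finset α → ℕ := fun u => (if u ∈ T then b u else 0) + (if u ∈ Mid i j then q else 0)
  let kp : Finset α → Finset α → ℕ := fun u v => (if u = v then (if u ∈ Mid i j then q else 0) else 0)
    + if Cov u v then (if (u ∈ S ∨ u ∈ Mid i j) ∧ (v ∈ Mid i j ∨ v ∈ T) then capw κ u v else 0) else 0
  have hall : ∀ (X Y : Finset (Finset α)),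
      ∑ x ∈ X, a' x ≤ ∑ y ∈ Y, b' y + ∑ x ∈ X, ∑ y ∈ Yᶜ, kp x y := by
    intro X Y
    let A := X.filter (fun u => u ∈ S ∨ u ∈ Mid i j)
    have hA : ∀ u ∈ A, u ∈ S ∨ u ∈ Mid i j := fun u hu => (mem_filter.1 hu).2
    have h1 := hcut A hA
    have h2 : ∑ x ∈ X, a' x = ∑ s ∈ S, (if s ∈ A then a s else 0) +
        ∑ v ∈ Mid i j, (if v ∈ A then q else 0) := by
      simp only [a']
      rw [sum_add_distrib]
      congr 1
      · rw [← sum_filter, ← sum_filter]
        refine sum_congr ?_ (fun _ _ => rfl)
        ext u
        simp only [A, mem_filter]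
        tauto
      · rw [← sum_filter, ← sum_filter]
        refine sum_congr ?_ (fun _ _ => rfl)
        ext u
        simp only [A, mem_filter]
        tauto
    have h3 : ∑ y ∈ Y, b' y + ∑ x ∈ X, ∑ y ∈ Yᶜ, kp x y =
        ∑ v, (if v ∈ Y then b' v else ∑ x ∈ X, kp x v) := by
      rw [sum_comm (s := X), ← sum_add_sum_compl Y]
      congr 1
      · refine sum_congr rfl (fun v hv => ?_)
        rw [if_pos hv]
      · refine sum_congr rfl (fun v hv => ?_)
        rw [if_neg (mem_compl.1 hv)]
    have h4 : ∀ v : Finset α, (if v ∈ Mid i j then (if v ∈ A then q else 0) else 0) +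
        (if v ∈ Mid i j then (if v ∈ A then 0 else min q (dgw κ A v)) else 0) +
        (if v ∈ T then min (b v) (dgw κ A v) else 0) ≤ (if v ∈ Y then b' v else ∑ x ∈ X, kp x v) := by
      intro v
      have hkp : v ∈ Mid i j ∨ v ∈ T → dgw κ A v ≤ ∑ x ∈ X, (if Cov x v then
          (if (x ∈ S ∨ x ∈ Mid i j) ∧ (v ∈ Mid i j ∨ v ∈ T) then capw κ x v else 0) else 0) := by
        intro hv
        have e1 : dgw κ A v = ∑ u, (if Cov u v then (if u ∈ A then capw κ u v else 0) else 0) := by
          rw [dgw_eq_sum, sum_cov' v (fun u => if u ∈ A then capw κ u v else 0)]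
          refine sum_congr rfl fun a _ => ?_
          by_cases ha : a ∈ v
          · rw [if_pos ha, if_pos ha, capw_erase κ ha]
          · rw [if_neg ha, if_neg ha]
        rw [e1]
        have e2 : ∑ x ∈ X, (if Cov x v then
          (if (x ∈ S ∨ x ∈ Mid i j) ∧ (v ∈ Mid i j ∨ v ∈ T) then capw κ x v else 0) else 0) =
            ∑ x, (if x ∈ X then (if Cov x v then
          (if (x ∈ S ∨ x ∈ Mid i j) ∧ (v ∈ Mid i j ∨ v ∈ T) then capw κ x v else 0) else 0) else 0) := by
          exact (sum_mem X _).symm
        rw [e2]
        refine sum_le_sum (fun u _ => ?_)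
        by_cases hc : Cov u v
        · by_cases hu : u ∈ A
          · have := mem_filter.1 hu
            simp only [hc, hu, if_true, this.1]
            rw [if_pos ⟨this.2, hv⟩]
          · simp [hu]
        · simp [hc]
      have hkp2 : ∑ x ∈ X, kp x v = (if v ∈ X then (if v ∈ Mid i j then q else 0) else 0) +
          ∑ x ∈ X, (if Cov x v then
          (if (x ∈ S ∨ x ∈ Mid i j) ∧ (v ∈ Mid i j ∨ v ∈ T) then capw κ x v else 0) else 0) := by
        simp only [kp]
        rw [sum_add_distrib]
        congr 1
        rw [sum_ite_eq' X v (fun x => if x ∈ Mid i j then q else 0)]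
      by_cases hY : v ∈ Y
      · rw [if_pos hY]
        simp only [b']
        by_cases hM : v ∈ Mid i j
        · have hT' : v ∉ T := fun ht => hTM v ht hM
          simp only [hM, if_true, hT', if_false]
          by_cases hvA : v ∈ A <;> simp [hvA]
        · by_cases hT' : v ∈ T
          · simp [hM, hT']
          · simp [hM, hT']
      · rw [if_neg hY, hkp2]
        by_cases hM : v ∈ Mid i j
        · have hT' : v ∉ T := fun ht => hTM v ht hM
          simp only [hM, if_true, hT', if_false]
          by_cases hvA : v ∈ A
          · have hvX : v ∈ X := (mem_filter.1 hvA).1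
            simp [hvA, hvX]
          · have := hkp (Or.inl hM)
            simp only [hM, hT', and_true, or_false] at this ⊢
            simp only [hvA, if_false]
            omega
        · by_cases hT' : v ∈ T
          · have := hkp (Or.inr hT')
            simp only [hM, hT', or_true, and_true] at this ⊢
            simp only [if_true, if_false]
            omega
          · simp [hM, hT']
    have h5 := sum_le_sum (fun v (_ : v ∈ (univ : Finset (Finset α))) => h4 v)
    rw [sum_add_distrib, sum_add_distrib] at h5
    have e3 : ∀ (D : Finset (Finset α)) (F : Finset α → ℕ),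
        ∑ v, (if v ∈ D then F v else 0) = ∑ v ∈ D, F v := fun D F => sum_mem D F
    rw [e3, e3, e3] at h5
    rw [h2, h3]
    omega
  obtain ⟨f, hf1, hf2, hf3⟩ := transport a' b' kp hall
  have hsum : ∑ v, ∑ u, f u v = ∑ v, b' v := by
    rw [sum_comm]
    rw [sum_congr rfl (fun u _ => hf2 u)]
    simp only [a', b']
    rw [sum_add_distrib, sum_add_distrib]
    congr 1
    have e3 : ∀ (D : Finset (Finset α)) (F : Finset α → ℕ),
        ∑ v, (if v ∈ D then F v else 0) = ∑ v ∈ D, F v := fun D F => sum_mem D F
    rw [e3, e3, hab]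
  have hcol : ∀ v, ∑ u, f u v = b' v := by
    have := (sum_eq_sum_iff_of_le (fun v _ => hf3 v)).1 hsum
    exact fun v => this v (mem_univ _)
  have hoff : ∀ u v, u ≠ v → ¬ Cov u v → f u v = 0 := by
    intro u v h1 h2
    have := hf1 u v
    simp only [kp, h1, h2, if_false] at this
    omega
  have hrow' : ∀ u, ∑ v, f u v = f u u + ∑ x, (if x ∉ u then f u (insert x u) else 0) := by
    intro u
    rw [← sum_cov u (fun v => f u v)]
    have : f u u = ∑ v, (if v = u then f u v else 0) := by simp
    rw [this, ← sum_add_distrib]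
    refine sum_congr rfl (fun v _ => ?_)
    by_cases h1 : v = u
    · subst h1
      have : ¬ Cov v v := fun h => h.ne rfl
      simp [this]
    · by_cases h2 : Cov u v
      · simp [h1, h2]
      · simp [h1, h2, hoff u v (Ne.symm h1) h2]
  have hcol' : ∀ v, ∑ u, f u v = f v v + ∑ x, (if x ∈ v then f (v.erase x) v else 0) := by
    intro v
    rw [← sum_cov' v (fun u => f u v)]
    have : f v v = ∑ u, (if u = v then f u v else 0) := by simp
    rw [this, ← sum_add_distrib]
    refine sum_congr rfl (fun u _ => ?_)
    by_cases h1 : u = v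
    · subst h1
      have : ¬ Cov u u := fun h => h.ne rfl
      simp [this]
    · by_cases h2 : Cov u v
      · simp [h1, h2]
      · simp [h1, h2, hoff u v h1 h2]
  have hkp1 : ∀ u x, x ∉ u → f u (insert x u) ≤
      if (u ∈ S ∨ u ∈ Mid i j) ∧ (insert x u ∈ Mid i j ∨ insert x u ∈ T) then κ u x else 0 := by
    intro u x hx
    have h1 := hf1 u (insert x u)
    have h2 : Cov u (insert x u) := ⟨x, hx, rfl⟩
    simp only [kp, h2, h2.ne, if_true, if_false, capw_insert κ hx] at h1
    omega
  have hinf : ∀ v, inf (fun u x => if x ∉ u then f u (insert x u) else 0) v =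
      ∑ x, (if x ∈ v then f (v.erase x) v else 0) := by
    intro v
    unfold MP_8b6acb_co.inf
    refine sum_congr rfl (fun x _ => ?_)
    by_cases hx : x ∈ v
    · simp [hx, insert_erase hx]
    · simp [hx]
  refine ⟨fun u x => if x ∉ u then f u (insert x u) else 0, ?_, ?_, ?_, ?_, ?_, ?_, ?_, ?_⟩
  · intro u x
    by_cases hx : x ∉ u
    · simp only [hx, not_false_eq_true, if_true]
      have := hkp1 u x hx
      split_ifs at this <;> omega
    · simp only [hx, if_false]
      omega
  · intro u x hx
    simp [hx]
  · intro u x h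
    by_cases hx : x ∉ u
    · simp only [hx, not_false_eq_true, if_true] at h
      have := hkp1 u x hx
      split_ifs at this with hc
      · exact hc.1
      · omega
    · simp only [hx, if_false] at h
      exact absurd rfl h
  · intro u x h
    by_cases hx : x ∉ u
    · simp only [hx, not_false_eq_true, if_true] at h
      have := hkp1 u x hx
      split_ifs at this with hc
      · exact hc.2
      · omega
    · simp only [hx, if_false] at h
      exact absurd rfl h
  · intro s hs
    have h1 := hf2 s
    rw [hrow' s] at h1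
    have h2 := hf1 s s
    have h3 : ¬ Cov s s := fun h => h.ne rfl
    simp only [kp, hSM s hs, h3, if_true, if_false] at h2
    simp only [a', hs, hSM s hs, if_true, if_false] at h1
    omega
  · intro v hv
    have h1 := hf2 v
    rw [hrow' v] at h1
    have h2 := hcol v
    rw [hcol' v] at h2
    have h3 : v ∉ S := fun h => hSM v h hv
    have h4 : v ∉ T := fun h => hTM v h hv
    simp only [a', b', hv, h3, h4, if_true, if_false] at h1 h2
    rw [hinf]
    omega
  · intro v hv
    have h1 := hf2 v
    rw [hrow' v] at h1
    have h3 : v ∉ S := fun h => hSM v h hv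
    simp only [a', hv, h3, if_true, if_false] at h1
    omega
  · intro t ht
    have h1 := hcol t
    rw [hcol' t] at h1
    have h2 := hf1 t t
    have h3 : ¬ Cov t t := fun h => h.ne rfl
    simp only [kp, hTM t ht, h3, if_true, if_false] at h2
    simp only [b', ht, hTM t ht, if_true, if_false] at h1
    rw [hinf]
    omega

end R5
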