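import Pool.Agent.Work.MP_8b6acb_cap.Basic
import Pool.Agent.Work.MP_8b6acb_co.MinCex
import Pool.Agent.Work.MP_8b6acb_co.Defs

/-!
# Interface: the statements of the blocks

All `Stmt_X` are propositions; block `X` proves `theorem stmt_X : Stmt_X α` (with the hypotheses
named in the blueprint).
-/

namespace R5

open Finset MP_8b6acb_co

/-! ## Part I: types -/

section Types

variable (α : Type) [DecidableEq α]

/-- `aw` through the first set that is not in `A`. -/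
def Stmt_AWID : Prop := ∀ (τ : Finset α → Lab) (V : Finset α), τ ∅ = Lab.A →
  (1 = fw τ V + ∑ U ∈ V.powerset, if τ U = Lab.A then 0 else
    fwb τ U / (V.card.choose U.card : ℝ)) ∧
  (aw τ V = ((V.card : ℝ) + 1) * fw τ V + ∑ U ∈ V.powerset, if τ U = Lab.A then 0 else
    (U.card : ℝ) * fwb τ U / (V.card.choose U.card : ℝ))

/-- Summing over the position of the star. -/
def Stmt_YSUM : Prop := ∀ (τ : Finset α → Lab) (D V : Finset α), V ⊆ D →
  (∀ x ∈ D \ V, ∑ X ∈ D.powerset, pe τ D X V x = yLe τ D V x) ∧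
  ∑ X ∈ D.powerset, pv τ D X V = yLv τ D V

/-- Decomposition by the last object. -/
def Stmt_GMASS : Prop := ∀ (τ : Finset α → Lab) (D : Finset α) (G : Finset α → ℝ),
  τ ∅ = Lab.A → τ D = Lab.B →
  (∀ Y ⊆ D, Y ≠ ∅ → τ Y = Lab.B → G Y = (∑ x ∈ Y, G (Y.erase x)) / (Y.card : ℝ)) →
  (∑ V ∈ D.powerset, ∑ x ∈ D \ V, if isE τ V x then
      G V * bw τ D (insert x V) / ((D.card.choose V.card : ℝ) * ((D.card : ℝ) - V.card)) else 0) +
    (∑ V ∈ D.powerset, if τ V = Lab.X then G V * bwb τ D V / (D.card.choose V.card : ℝ) else 0) =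
  G D

/-- Total mass of the colour L. -/
def Stmt_MASS : Prop := ∀ (τ : Finset α → Lab) (D : Finset α), τ ∅ = Lab.A → τ D = Lab.B →
  PEL τ D + ∑ V ∈ D.powerset, yLv τ D V = aw τ D / ((D.card : ℝ) + 1)

/-- `Z ≤ 1`. -/
def Stmt_ZLE : Prop := ∀ (τ : Finset α → Lab) (D : Finset α), Zt τ D ≤ 1

/-- The swap, colour L. -/
def Stmt_SWL : Prop := ∀ (τ : Finset α → Lab) (D X : Finset α) (g : α), X ⊆ D → g ∈ D \ X →
  ∑ V ∈ (D.erase g).powerset, ((∑ x ∈ D \ V, pe τ D X V x) + pv τ D X V) =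
    fw τ X * ab τ D (insert g X) /
      (((D.card : ℝ) + 1) * (D.card.choose X.card : ℝ) * ((D.card : ℝ) - X.card))

/-- The swap, colour F. -/
def Stmt_SWF : Prop := ∀ (τ : Finset α → Lab) (D : Finset α) (F : Finset α → ℝ),
  τ ∅ = Lab.A → τ D = Lab.B →
  (∑ V ∈ D.powerset, ∑ x ∈ D \ V, yFe τ D V x * F (insert x V)) +
      ∑ V ∈ D.powerset, yFv τ D V * F V =
    ab τ D ∅ / ((D.card : ℝ) + 1) * F ∅ +
    ∑ X ∈ D.powerset, ∑ g ∈ D \ X, fw τ X * ab τ D (insert g X) /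
      (((D.card : ℝ) + 1) * (D.card.choose X.card : ℝ) * ((D.card : ℝ) - X.card)) *
        (F (insert g X) - F X)

/-- The constants of the colour L. -/
noncomputable def KL {α : Type} [DecidableEq α] (τ : Finset α → Lab) (D : Finset α) : ℝ :=
  ∑ X ∈ D.powerset, ∑ V ∈ D.powerset, ((∑ x ∈ D \ V, pe τ D X V x) + pv τ D X V) *
    (Real.log (D.card.factorial : ℝ) - Real.log (V.card.factorial : ℝ) -
      ((D.card : ℝ) - V.card) * Real.log ((D.card : ℝ) - X.card))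

/-- The constants cancel. -/
def Stmt_CONST : Prop := ∀ (τ : Finset α → Lab) (D : Finset α), τ ∅ = Lab.A → τ D = Lab.B →
  KL τ D + KL (dual τ D) D = 0

/-- Minimisation over the density. -/
def Stmt_INF : Prop := ∀ (n : ℕ) (p q ρ : ℝ), 1 ≤ n → 0 ≤ p → 0 ≤ q → (n = 1 → q = 0) → 0 < ρ →
  ρ ≤ 1 → lamn n * min (((n : ℝ) - 1) * p) q ≤
    p * (-Real.log ρ) + q * (-Real.log (1 - ρ / (n : ℝ)))

/-- The lower bound for the logarithm of the sequential kernel at the state `X`, for objects with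
upper set `U`. -/
noncomputable def KB {α : Type} [DecidableEq α] (ρ : Finset α → α → ℝ) (D X U : Finset α) : ℝ :=
  Real.log ((D.card - U.card).factorial : ℝ) -
    ((D.card : ℝ) - U.card) * Real.log ((D.card : ℝ) - X.card) +
    (∑ g ∈ D \ U, Real.log (ρ X g)) +
    ((D.card : ℝ) - U.card) * (∑ g ∈ U \ X, -Real.log (1 - ρ X g / ((D.card : ℝ) - X.card))) +
    (((D.card : ℝ) - 1 - U.card) / 2) *
      (∑ g ∈ D \ U, -Real.log (1 - ρ X g / ((D.card : ℝ) - X.card)))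

/-- The colour L value of a type with given densities `ρ` and `T`-side potential `H`. -/
noncomputable def LV {α : Type} [DecidableEq α] (τ : Finset α → Lab) (D : Finset α)
    (ρ : Finset α → α → ℝ) (H : Finset α → ℝ) : ℝ :=
  (∑ X ∈ D.powerset, ((∑ V ∈ D.powerset, ∑ x ∈ D \ V, pe τ D X V x * KB ρ D X (insert x V)) +
    ∑ V ∈ D.powerset, pv τ D X V * KB ρ D X V)) +
  (∑ V ∈ D.powerset, ∑ x ∈ D \ V, yLe τ D V x *
    (Real.log (((V.card : ℝ) + 1) / ((D.card : ℝ) + 1)) + H V +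
      Real.log (Zt τ D / yLe τ D V x))) +
  ∑ V ∈ D.powerset, yLv τ D V *
    (Real.log (D.card : ℝ) + Real.log ((V.card : ℝ) / (D.card : ℝ)) + H V +
      Real.log (Zt τ D / yLv τ D V))

/-- The typewise inequality: everything except `VAL` cancels. -/
def Stmt_TYPE : Prop := ∀ (τ : Finset α → Lab) (D : Finset α) (μ ν : Finset α → ℝ),
  τ ∅ = Lab.A → τ D = Lab.B → D.Nonempty →
  (∀ V ⊆ D, 0 < μ V) → (∀ V ⊆ D, 0 < ν V) →
  (∀ V ⊆ D, ∀ x ∈ D \ V, μ (insert x V) ≤ μ V) → (∀ V ⊆ D, ∀ x ∈ D \ V, ν V ≤ ν (insert x V)) →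
  VAL τ D + Zt τ D * Real.log (D.card : ℝ) - ab τ D ∅ / ((D.card : ℝ) + 1) * Real.log (μ ∅) -
      aw τ D / ((D.card : ℝ) + 1) * Real.log (ν D) ≤
    LV τ D (fun X g => μ (insert g X) / μ X) (fun V => -Real.log (ν V)) +
    LV (dual τ D) D (fun U g => ν (D \ insert g U) / ν (D \ U)) (fun U => -Real.log (μ (D \ U)))

/-- Lower bound for `Q0`. -/
def Stmt_QLB : Prop := ∀ (τ : Finset α → Lab) (D : Finset α) (g : α), τ ∅ = Lab.A → τ D = Lab.B →
  g ∈ D →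
  (∑ V ∈ (D.erase g).powerset, bw τ D (insert g V) / ((D.card - 1).choose V.card : ℝ) *
    ((if V = D.erase g then 0 else 2 * (V.card : ℝ) + 1 - ((D.card : ℝ) - 1)) +
     (if τ V = Lab.A then (D.card : ℝ) - 1 - V.card else ((D.card : ℝ) - 1 - V.card) / 2))) ≤
    (D.card : ℝ) * Q0 τ D g

/-- The core inequality of the track lemma. -/
def Stmt_CORE : Prop := ∀ (τ : Finset α → Lab) (E : Finset α) (β : Finset α → ℝ), τ ∅ = Lab.A →
  (∀ V ⊆ E, 0 ≤ β V) →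
  (∀ V ⊆ E, V ≠ E → β V ≤ (∑ x ∈ E \ V, β (insert x V)) / ((E \ V).card : ℝ)) →
  0 ≤ ∑ V ∈ E.powerset.erase E, β V / (E.card.choose V.card : ℝ) *
    ((2 * (V.card : ℝ) + 1 - E.card) +
     (if τ V = Lab.A then (E.card : ℝ) - V.card - aw τ V else ((E.card : ℝ) - V.card) / 2))

/-- The track lemma. -/
def Stmt_TLEM : Prop := ∀ (τ : Finset α → Lab) (D : Finset α) (g : α), τ ∅ = Lab.A →
  τ D = Lab.B → g ∈ D →
  T0 τ D g + P0 τ D g ≤ Q0 τ D g +
    if τ (D.erase g) = Lab.A then aw τ (D.erase g) / (D.card : ℝ) else 0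

/-- The trivial bounds for `T0`. -/
def Stmt_TTRIV : Prop := ∀ (τ : Finset α → Lab) (D : Finset α) (g : α), τ ∅ = Lab.A →
  τ D = Lab.B → g ∈ D →
  T0 τ D g + P0 τ D g ≤ (D.card : ℝ) * P0 τ D g ∧
  (τ (D.erase g) ≠ Lab.A → T0 τ D g + P0 τ D g ≤ ((D.card : ℝ) - 1) * P0 τ D g) ∧
  (τ (D.erase g) = Lab.A → 1 / (D.card : ℝ) ≤ P0 τ D g)

/-- Reduction of the state `X` to the state `∅`. -/
def Stmt_SHIFT : Prop := ∀ (τ : Finset α → Lab) (D X : Finset α) (g : α), X ⊆ D → g ∈ D \ X →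
  PP1 τ D X g = fw τ X / (((D.card : ℝ) + 1) * (D.card.choose X.card : ℝ)) *
    P0 (shift τ X) (D \ X) g ∧
  QQ1 τ D X g = fw τ X / (((D.card : ℝ) + 1) * (D.card.choose X.card : ℝ)) *
    Q0 (shift τ X) (D \ X) g ∧
  ∑ V ∈ (D.erase g).powerset, pe τ D X V g * (aw (shift τ X) (V \ X) - 1) =
    fw τ X / (((D.card : ℝ) + 1) * (D.card.choose X.card : ℝ)) * T0 (shift τ X) (D \ X) g

/-- Markov property of the forward weights. -/
def Stmt_CHAIN : Prop := ∀ (τ : Finset α → Lab) (V : Finset α) (i : ℕ), i ≤ V.card →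
  ∑ X ∈ powersetCard i V, fw τ X * fw (shift τ X) (V \ X) = (V.card.choose i : ℝ) * fw τ V

/-- Telescoping. -/
def Stmt_TELE : Prop := ∀ (τ : Finset α → Lab) (V : Finset α) (l : ℕ), V.card < l →
  ∑ X ∈ V.powerset, fw τ X / (V.card.choose X.card : ℝ) *
    (Real.log ((l : ℝ) - X.card) + lamn (l - X.card) * (aw (shift τ X) (V \ X) - 1)) =
  Real.log (l : ℝ) * aw τ V

/-- The deficit of a light element, summed over the states. -/
def Stmt_DEF : Prop := ∀ (τ : Finset α → Lab) (D : Finset α) (g : α), g ∈ D →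
  ∑ X ∈ (D.erase g).powerset, fw τ X / (((D.card : ℝ) + 1) * (D.card.choose X.card : ℝ)) *
    (lamn (D.card - X.card) / ((D.card : ℝ) - X.card)) *
    (aw (shift τ X) ((D.erase g) \ X) - 1) =
  1 / ((D.card : ℝ) * ((D.card : ℝ) + 1)) *
    ∑ X ∈ (D.erase g).powerset, fw τ X / ((D.card - 1).choose X.card : ℝ) *
      Real.log ((D.card : ℝ) / ((D.card : ℝ) - X.card))

/-- Bound for the deficit. -/
def Stmt_DEFB : Prop := ∀ (τ : Finset α → Lab) (D : Finset α) (g : α), g ∈ D → τ ∅ = Lab.A →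
  ∑ X ∈ (D.erase g).powerset, fw τ X / ((D.card - 1).choose X.card : ℝ) *
      Real.log ((D.card : ℝ) / ((D.card : ℝ) - X.card)) ≤ 2 * aw τ D

/-- Lower bound for the `S`-side gain minus the price of the edges. -/
def Stmt_SGB : Prop := ∀ (τ : Finset α → Lab) (D : Finset α), τ ∅ = Lab.A → τ D = Lab.B →
  D.Nonempty →
  (∑ X ∈ D.powerset, ∑ g ∈ D \ X, if τ (D.erase g) = Lab.A then 0 else
      lamn (D \ X).card * PP1 τ D X g) -
    2 * (Jd τ D : ℝ) * aw τ D / ((D.card : ℝ) * ((D.card : ℝ) + 1)) ≤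
  SG τ D - Real.log (D.card : ℝ) * PEL τ D

/-- The quadratic inequality of helper25 (note 1278). -/
def Stmt_QPI : Prop := ∀ (τ : Finset α → Lab) (D : Finset α) (π : Finset α → ℝ),
  τ ∅ = Lab.A → τ D = Lab.B → (∀ U ⊆ D, 0 ≤ π U ∧ π U ≤ 1) →
  (∑ V ∈ D.powerset, ∑ x ∈ D \ V, if isE τ V x then
      1 / ((D.card.choose V.card : ℝ) * ((D.card : ℝ) - V.card)) *
      (bw τ D (insert x V) * A1 τ π V ^ 2 / ((V.card : ℝ) + 1) +
       fw τ V * B1 τ D π (insert x V) ^ 2 / ((D.card : ℝ) - V.card)) else 0) +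
  (∑ V ∈ D.powerset, if τ V = Lab.X then
      1 / (D.card.choose V.card : ℝ) *
      (bwb τ D V * A1 τ π V ^ 2 / ((V.card : ℝ) + π V) +
       fwb τ V * B1 τ D π V ^ 2 / ((D.card : ℝ) - V.card + 1 - π V)) else 0) ≤
  (A1 τ π D + B1 τ D π ∅) ^ 2 / ((D.card : ℝ) + 1)

/-- The abstract entropy inequality behind the bound for `COST`. -/
def Stmt_ABS : Prop := ∀ (ι : Type) (K : Finset ι) (y e u : ι → ℝ) (l : ℕ), 1 ≤ l →
  (∀ k ∈ K, 0 ≤ e k ∧ e k ≤ y k) → (∀ k ∈ K, 0 < u k) → 0 < ∑ k ∈ K, y k →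
  ∑ k ∈ K, (y k + e k / (l : ℝ)) ^ 2 / u k ≤ (∑ k ∈ K, (y k + e k / (l : ℝ))) ^ 2 →
  ∑ k ∈ K, y k * Real.log (y k / (u k * ∑ k ∈ K, y k)) ≤ (∑ k ∈ K, (y k - e k)) / (l : ℝ) ^ 2

/-- Mass of the configurations whose unpaid end is an edge. -/
noncomputable def UEL {α : Type} [DecidableEq α] (τ : Finset α → Lab) (D : Finset α) : ℝ :=
  ∑ V ∈ D.powerset, ∑ x ∈ D \ V, if isE τ V x then
    ((V.card : ℝ) + 1) * fw τ V /
      (((D.card : ℝ) + 1) * (D.card.choose V.card : ℝ) * ((D.card : ℝ) - V.card)) else 0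

/-- Bound for `COST`. -/
def Stmt_COSTB : Prop := ∀ (τ : Finset α → Lab) (D : Finset α), τ ∅ = Lab.A → τ D = Lab.B →
  D.Nonempty → COST τ D ≤ (UEL τ D + UEL (dual τ D) D) / (D.card : ℝ) ^ 2

/-- Bounds for `UEL`. -/
def Stmt_UEB : Prop := ∀ (τ : Finset α → Lab) (D : Finset α), τ ∅ = Lab.A → τ D = Lab.B →
  UEL τ D ≤ aw τ D / ((D.card : ℝ) + 1) ∧ UEL τ D ≤ (D.card : ℝ) * PEL (dual τ D) D

/-- The final typewise inequality. -/
def Stmt_TYPEFIN : Prop := ∀ (τ : Finset α → Lab) (D : Finset α), τ ∅ = Lab.A → τ D = Lab.B →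
  D.Nonempty →
  -(2 / (D.card : ℝ)) * Zt τ D * ((Jl τ D : ℝ) + (Jd τ D : ℝ)) ≤ VAL τ D

end Types

/-! ## Part II: entropy -/

/-- Gibbs inequality. -/
def Stmt_GIBBS : Prop := ∀ (ι : Type) (K : Finset ι) (w c : ι → ℝ), (∀ k ∈ K, 0 ≤ w k) →
  (∀ k ∈ K, 0 ≤ c k) → (∀ k ∈ K, 0 < w k → 0 < c k) →
  ∑ k ∈ K, w k * Real.log (c k / w k) ≤
    (∑ k ∈ K, w k) * Real.log ((∑ k ∈ K, c k) / ∑ k ∈ K, w k)

/-- One object: the entropy of a product measure against kernels. -/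
def Stmt_ONE : Prop := ∀ (ι σ θ : Type) [DecidableEq σ] (P : Finset ι) (S : Finset σ) (T : Finset θ)
  (pr : ι → σ) (F : ι → ℝ) (G : θ → ℝ) (qS : ι → θ → ℝ) (qT : θ → σ → ℝ),
  (∀ p ∈ P, pr p ∈ S) → (∀ p ∈ P, 0 ≤ F p) → (∀ t ∈ T, 0 ≤ G t) →
  (∀ p ∈ P, ∀ t ∈ T, 0 < F p → 0 < G t → 0 < qS p t) →
  (∀ p ∈ P, ∀ t ∈ T, 0 < F p → 0 < G t → 0 < qT t (pr p)) →
  (∀ p ∈ P, ∀ t ∈ T, 0 ≤ qS p t) → (∀ t ∈ T, ∀ s ∈ S, 0 ≤ qT t s) →
  (∀ p ∈ P, ∑ t ∈ T, qS p t ≤ 1) → (∀ t ∈ T, ∑ s ∈ S, qT t s ≤ 1) →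
  ∑ p ∈ P, ∑ t ∈ T, F p * G t * (Real.log (qS p t) + Real.log (qT t (pr p)) -
      Real.log (∑ p' ∈ P.filter (fun p' => pr p' = pr p), F p') - Real.log (G t)) ≤
    -((∑ p ∈ P, F p) * (∑ t ∈ T, G t)) * Real.log ((∑ p ∈ P, F p) * (∑ t ∈ T, G t))

/-- The sequential kernel: `r` elements are drawn one after the other, the elements of `U` are
already used. -/
noncomputable def seqk {α : Type} [DecidableEq α] (ρ : α → ℝ) (n : ℝ) :
    ℕ → Finset α → Finset α → ℝ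
  | 0, _, R => if R = ∅ then 1 else 0
  | r + 1, U, R => ∑ g ∈ R, ρ g / (n - ∑ h ∈ U, ρ h) * seqk ρ n r (insert g U) (R.erase g)

section Kernel

variable (α : Type) [DecidableEq α]

/-- The sequential kernel is a sub-probability. -/
def Stmt_KONE : Prop := ∀ (ρ : α → ℝ) (G U : Finset α) (r : ℕ), (∀ g ∈ G, 0 ≤ ρ g) → U ⊆ G →
  ∑ R ∈ powersetCard r (G \ U), seqk ρ (∑ g ∈ G, ρ g) r U R ≤ 1

/-- Lower bound for the sequential kernel. -/
def Stmt_KTWO : Prop := ∀ (ρ : α → ℝ) (n : ℝ) (U R : Finset α), Disjoint U R →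
  (∀ g ∈ U ∪ R, 0 < ρ g) → 0 < n → ∑ g ∈ U ∪ R, ρ g ≤ n →
  0 < seqk ρ n R.card U R ∧
  Real.log (R.card.factorial : ℝ) - (R.card : ℝ) * Real.log n + (∑ g ∈ R, Real.log (ρ g)) +
    (R.card : ℝ) * (∑ g ∈ U, -Real.log (1 - ρ g / n)) +
    (((R.card : ℝ) - 1) / 2) * (∑ g ∈ R, -Real.log (1 - ρ g / n)) ≤
  Real.log (seqk ρ n R.card U R)

end Kernel

/-! ## Part III: the network -/

section Network

variable {α : Type} [Fintype α] [DecidableEq α]

/-- The type seen from `s`. -/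
def ty (c : Finset α → Lab) (s : Finset α) : Finset α → Lab := fun V => c (s ∪ V)

/-- The comparable pairs. -/
def cmpP (S T : Finset (Finset α)) : Finset (Finset α × Finset α) :=
  (S ×ˢ T).filter fun p => p.1 ⊆ p.2

/-- `μ_s(v)`. -/
noncomputable def MU (c : Finset α → Lab) (T : Finset (Finset α)) (a b : Finset α → ℝ)
    (s v : Finset α) : ℝ := ∑ t ∈ T.filter (fun t => v ⊆ t), a s * b t * Zt (ty c s) (t \ s)

/-- `μ*_t(v)`. -/
noncomputable def NU (c : Finset α → Lab) (S : Finset (Finset α)) (a b : Finset α → ℝ)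
    (t v : Finset α) : ℝ := ∑ s ∈ S.filter (fun s => s ⊆ v), a s * b t * Zt (ty c s) (t \ s)

/-- The cut edges of the network. -/
def netE (c : Finset α → Lab) (i j : ℕ) (S T : Finset (Finset α)) : Finset (Finset α × α) :=
  univ.filter fun p => p.2 ∉ p.1 ∧ (p.1 ∈ S ∨ p.1 ∈ Mid i j) ∧ c p.1 = Lab.A ∧
    (insert p.2 p.1 ∈ Mid i j ∨ insert p.2 p.1 ∈ T) ∧ c (insert p.2 p.1) = Lab.B

/-- The cut vertices of the network. -/
def netX (c : Finset α → Lab) (i j : ℕ) : Finset (Finset α) := (Mid i j).filter fun v => c v = Lab.X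

/-- Mass of (colour L, edge `(v, v + x)`). -/
noncomputable def WE (c : Finset α → Lab) (S T : Finset (Finset α)) (a b : Finset α → ℝ)
    (v : Finset α) (x : α) : ℝ :=
  ∑ s ∈ S.filter (fun s => s ⊆ v), ∑ t ∈ T.filter (fun t => insert x v ⊆ t),
    a s * b t * yLe (ty c s) (t \ s) (v \ s) x

/-- Mass of (colour L, vertex `v`). -/
noncomputable def WX (c : Finset α → Lab) (S T : Finset (Finset α)) (a b : Finset α → ℝ)
    (v : Finset α) : ℝ :=
  ∑ s ∈ S.filter (fun s => s ⊆ v), ∑ t ∈ T.filter (fun t => v ⊆ t),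
    a s * b t * yLv (ty c s) (t \ s) (v \ s)

/-- Mass of (colour F, edge `(v, v + x)`). -/
noncomputable def WFE (c : Finset α → Lab) (S T : Finset (Finset α)) (a b : Finset α → ℝ)
    (v : Finset α) (x : α) : ℝ :=
  ∑ s ∈ S.filter (fun s => s ⊆ v), ∑ t ∈ T.filter (fun t => insert x v ⊆ t),
    a s * b t * yFe (ty c s) (t \ s) (v \ s) x

/-- Mass of (colour F, vertex `v`). -/
noncomputable def WFX (c : Finset α → Lab) (S T : Finset (Finset α)) (a b : Finset α → ℝ)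
    (v : Finset α) : ℝ :=
  ∑ s ∈ S.filter (fun s => s ⊆ v), ∑ t ∈ T.filter (fun t => v ⊆ t),
    a s * b t * yFv (ty c s) (t \ s) (v \ s)

/-- The hypotheses on the data. -/
structure Net (c : Finset α → Lab) (i j : ℕ) (S T : Finset (Finset α)) (a b : Finset α → ℝ) :
    Prop where
  hij : i < j
  cS : ∀ s ∈ S, s.card = i
  cT : ∀ t ∈ T, t.card = j
  lS : ∀ s ∈ S, c s = Lab.A
  lT : ∀ t ∈ T, c t = Lab.B
  pa : ∀ s ∈ S, 0 < a s
  pb : ∀ t ∈ T, 0 < b t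

variable (α)

/-- Reindexing of the pairs (object, comparable pair). -/
def Stmt_NETE : Prop := ∀ (c : Finset α → Lab) (i j : ℕ) (S T : Finset (Finset α))
  (a b : Finset α → ℝ), Net c i j S T a b →
  ∀ Φ : Finset α → Finset α → Finset α → α → ℝ,
  ∑ e ∈ netE c i j S T, ∑ s ∈ S.filter (fun s => s ⊆ e.1),
      ∑ t ∈ T.filter (fun t => insert e.2 e.1 ⊆ t), Φ s t (e.1 \ s) e.2 =
    ∑ s ∈ S, ∑ t ∈ T.filter (fun t => s ⊆ t), ∑ V ∈ (t \ s).powerset, ∑ x ∈ (t \ s) \ V,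
      if isE (ty c s) V x then Φ s t V x else 0

def Stmt_NETX : Prop := ∀ (c : Finset α → Lab) (i j : ℕ) (S T : Finset (Finset α))
  (a b : Finset α → ℝ), Net c i j S T a b →
  ∀ Φ : Finset α → Finset α → Finset α → ℝ,
  ∑ v ∈ netX c i j, ∑ s ∈ S.filter (fun s => s ⊆ v),
      ∑ t ∈ T.filter (fun t => v ⊆ t), Φ s t (v \ s) =
    ∑ s ∈ S, ∑ t ∈ T.filter (fun t => s ⊆ t), ∑ V ∈ (t \ s).powerset,
      if ty c s V = Lab.X then Φ s t V else 0

/-- The entropy inequality of one cut edge, colour L. -/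
def Stmt_OBJE : Prop := ∀ (c : Finset α → Lab) (i j : ℕ) (S T : Finset (Finset α))
  (a b : Finset α → ℝ), Net c i j S T a b → ∀ e ∈ netE c i j S T,
  ∑ s ∈ S.filter (fun s => s ⊆ e.1), ∑ t ∈ T.filter (fun t => insert e.2 e.1 ⊆ t), a s * b t *
    ((∑ X ∈ (t \ s).powerset, pe (ty c s) (t \ s) X (e.1 \ s) e.2 *
        KB (fun X g => MU c T a b s (s ∪ insert g X) / MU c T a b s (s ∪ X)) (t \ s) X
          (insert e.2 (e.1 \ s))) +
      yLe (ty c s) (t \ s) (e.1 \ s) e.2 * (-Real.log (NU c S a b t (s ∪ (e.1 \ s))) +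
        Real.log (Zt (ty c s) (t \ s) / yLe (ty c s) (t \ s) (e.1 \ s) e.2))) ≤
    -(WE c S T a b e.1 e.2 * Real.log (WE c S T a b e.1 e.2))

/-- The entropy inequality of one cut vertex, colour L. -/
def Stmt_OBJX : Prop := ∀ (c : Finset α → Lab) (i j : ℕ) (S T : Finset (Finset α))
  (a b : Finset α → ℝ), Net c i j S T a b → ∀ v ∈ netX c i j,
  ∑ s ∈ S.filter (fun s => s ⊆ v), ∑ t ∈ T.filter (fun t => v ⊆ t), a s * b t *
    ((∑ X ∈ (t \ s).powerset, pv (ty c s) (t \ s) X (v \ s) *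
        KB (fun X g => MU c T a b s (s ∪ insert g X) / MU c T a b s (s ∪ X)) (t \ s) X (v \ s)) +
      yLv (ty c s) (t \ s) (v \ s) * (-Real.log (NU c S a b t (s ∪ (v \ s))) +
        Real.log (Zt (ty c s) (t \ s) / yLv (ty c s) (t \ s) (v \ s)))) ≤
    -(WX c S T a b v * Real.log (WX c S T a b v))

/-- The colour L part. -/
def Stmt_LPART : Prop := ∀ (c : Finset α → Lab) (i j : ℕ) (S T : Finset (Finset α))
  (a b : Finset α → ℝ), Net c i j S T a b →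
  ∑ s ∈ S, ∑ t ∈ T.filter (fun t => s ⊆ t), a s * b t *
    LV (ty c s) (t \ s)
      (fun X g => MU c T a b s (s ∪ insert g X) / MU c T a b s (s ∪ X))
      (fun V => -Real.log (NU c S a b t (s ∪ V))) ≤
  (∑ e ∈ netE c i j S T, (WE c S T a b e.1 e.2 *
      Real.log (((e.1.card : ℝ) - i + 1) / ((j : ℝ) - i + 1)) -
      WE c S T a b e.1 e.2 * Real.log (WE c S T a b e.1 e.2))) +
  ∑ v ∈ netX c i j, (WX c S T a b v *
      (Real.log ((j : ℝ) - i) + Real.log (((v.card : ℝ) - i) / ((j : ℝ) - i))) -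
      WX c S T a b v * Real.log (WX c S T a b v))

/-- The colour F part (the mirror image of `LPART`). -/
def Stmt_FPART : Prop := ∀ (c : Finset α → Lab) (i j : ℕ) (S T : Finset (Finset α))
  (a b : Finset α → ℝ), Net c i j S T a b →
  ∑ s ∈ S, ∑ t ∈ T.filter (fun t => s ⊆ t), a s * b t *
    LV (dual (ty c s) (t \ s)) (t \ s)
      (fun U g => NU c S a b t (s ∪ ((t \ s) \ insert g U)) / NU c S a b t (s ∪ ((t \ s) \ U)))
      (fun U => -Real.log (MU c T a b s (s ∪ ((t \ s) \ U)))) ≤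
  (∑ e ∈ netE c i j S T, (WFE c S T a b e.1 e.2 *
      Real.log (((j : ℝ) - e.1.card) / ((j : ℝ) - i + 1)) -
      WFE c S T a b e.1 e.2 * Real.log (WFE c S T a b e.1 e.2))) +
  ∑ v ∈ netX c i j, (WFX c S T a b v *
      (Real.log ((j : ℝ) - i) + Real.log (((j : ℝ) - v.card) / ((j : ℝ) - i))) -
      WFX c S T a b v * Real.log (WFX c S T a b v))

/-- The main network inequality. -/
def Stmt_MAINNET : Prop := ∀ (c : Finset α → Lab) (i j : ℕ) (S T : Finset (Finset α))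
  (a b : Finset α → ℝ) (κ : ℝ), Net c i j S T a b → 0 < κ →
  (∀ s ∈ S, MU c T a b s s ≤ κ) → (∀ t ∈ T, NU c S a b t t ≤ κ) →
  ∀ W : ℝ, W = ∑ s ∈ S, ∑ t ∈ T.filter (fun t => s ⊆ t), a s * b t * Zt (ty c s) (t \ s) →
  0 < W →
  ∑ s ∈ S, ∑ t ∈ T.filter (fun t => s ⊆ t), a s * b t * VAL (ty c s) (t \ s) ≤
    W * Real.log (κ * (((netE c i j S T).card : ℝ) + ((j : ℝ) - i) * ((netX c i j).card : ℝ)) /
      (((j : ℝ) - i) * W))

/-- The cut inequality with end layers of capacity 3. -/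
def Stmt_CUT3 : Prop := ∀ (i j : ℕ) (S : Finset (Finset α)) (φ : Finset α → Finset α)
  (c : Finset α → Lab), i < j → Mat i j S φ → (∀ s ∈ S, c s = Lab.A) →
  (∀ t ∈ S.image φ, c t = Lab.B) →
  (j - i) * S.card ≤ (netE c i j S (S.image φ)).card + (j - i) * (netX c i j).card +
    2 * ((netE c i j S (S.image φ)).filter (fun e => e.1 ∈ S)).card +
    2 * ((netE c i j S (S.image φ)).filter (fun e => insert e.2 e.1 ∈ S.image φ)).card

/-- Weighted degree. -/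
def dgw {α : Type} [DecidableEq α] (κ : Finset α → α → ℕ) (A : Finset (Finset α))
    (v : Finset α) : ℕ := ∑ x ∈ v, if v.erase x ∈ A then κ (v.erase x) x else 0

/-- The capacities. -/
def cap3 {α : Type} (i j : ℕ) (u : Finset α) (_ : α) : ℕ :=
  if u.card = i ∨ u.card + 1 = j then 3 else 1

/-- The cut condition with capacities. -/
def Stmt_PPW : Prop := ∀ (i j : ℕ) (S : Finset (Finset α)) (φ : Finset α → Finset α)
  (A : Finset (Finset α)), i + 2 ≤ j → Mat i j S φ → S ⊆ A → (∀ u ∈ A, u ∈ S ∨ u ∈ Mid i j) →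
  (j - i) * S.card ≤ (∑ v ∈ Mid i j, if v ∈ A then 0 else min (j - i) (dgw (cap3 i j) A v)) +
    ∑ t ∈ S.image φ, min (j - i) (dgw (cap3 i j) A t)

/-- A flow with edge capacities `κ`. -/
structure IsFlowW {α : Type} [Fintype α] [DecidableEq α] (κ : Finset α → α → ℕ) (q i j : ℕ)
    (S T : Finset (Finset α)) (a b : Finset α → ℕ) (M : Finset α → α → ℕ) : Prop where
  le_cap : ∀ u x, M u x ≤ κ u x
  val : ∀ u x, x ∈ u → M u x = 0
  tail : ∀ u x, M u x ≠ 0 → u ∈ S ∨ u ∈ Mid i j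
  head : ∀ u x, M u x ≠ 0 → insert x u ∈ Mid i j ∨ insert x u ∈ T
  src : ∀ s ∈ S, ∑ x, M s x = a s
  mid : ∀ v ∈ Mid i j, ∑ x, M v x = MP_8b6acb_co.inf M v
  mid_le : ∀ v ∈ Mid i j, ∑ x, M v x ≤ q
  snk : ∀ t ∈ T, MP_8b6acb_co.inf M t = b t

/-- Existence of flows with edge capacities. -/
def Stmt_FLOWW : Prop := ∀ (κ : Finset α → α → ℕ) (q i j : ℕ) (S T : Finset (Finset α)),
  (∀ s ∈ S, s.card = i) → (∀ t ∈ T, t.card = j) → i < j → ∀ (a b : Finset α → ℕ),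
  ∑ s ∈ S, a s = ∑ t ∈ T, b t →
  (∀ A : Finset (Finset α), (∀ u ∈ A, u ∈ S ∨ u ∈ Mid i j) →
    ∑ s ∈ S, (if s ∈ A then a s else 0) ≤
      ∑ v ∈ Mid i j, (if v ∈ A then 0 else min q (dgw κ A v)) + ∑ t ∈ T, min (b t) (dgw κ A t)) →
  ∃ M, IsFlowW κ q i j S T a b M

/-- Paths from the cut condition with capacities. -/
def Stmt_PATHW : Prop := ∀ (κ : Finset α → α → ℕ) (q i j : ℕ) (S : Finset (Finset α))
  (φ : Finset α → Finset α), i < j → Mat i j S φ →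
  (∀ S' ⊆ S, ∀ A : Finset (Finset α), S' ⊆ A → (∀ u ∈ A, u ∈ S' ∨ u ∈ Mid i j) →
    q * S'.card ≤ (∑ v ∈ Mid i j, if v ∈ A then 0 else min q (dgw κ A v)) +
      ∑ t ∈ S'.image φ, min q (dgw κ A t)) →
  ∃ p : Fin q → Finset α → ℕ → Finset α,
    (∀ c, ∀ s ∈ S, p c s 0 = s) ∧
    (∀ c, ∀ s ∈ S, ∀ k < j - i, Cov (p c s k) (p c s (k + 1))) ∧
    (∀ c, ∀ s ∈ S, p c s (j - i) ∈ S.image φ) ∧
    (∀ c, ∀ s ∈ S, ∀ s' ∈ S, ∀ k ≤ j - i, ∀ k' ≤ j - i, p c s k = p c s' k' → s = s') ∧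
    (∀ u x, x ∉ u → (univ.filter (fun c : Fin q => ∃ s ∈ S, ∃ k < j - i,
      p c s k = u ∧ p c s (k + 1) = insert x u)).card ≤ κ u x)

end Network

/-- The final statement. -/
def Stmt_FINAL : Prop := ∀ (d i j : ℕ), i < j → ∀ (S T : Finset (Vtx d)),
  (∀ s ∈ S, wt s = i) → (∀ t ∈ T, wt t = j) → Matched S T →
  ∃ P : Fin (j - i) → Finset (List (Vtx d)), (∀ c, IsLRSolution S T (P c)) ∧
    ∀ e : Vtx d × Vtx d, (univ.filter (fun c => ∃ p ∈ P c, e ∈ edgesOf p)).card ≤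
      if wt e.1 = i ∨ wt e.2 = j then 3 else 1

end R5
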