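import Pool.Agent.Work.MP_8b6acb_cap.Interface

/-! Block NETX: reindexing of the pairs (cut vertex, comparable pair). -/

namespace R5

open Finset MP_8b6acb_co

theorem netX_aux_sd {α : Type} [DecidableEq α] {s t V : Finset α} (h : V ⊆ t \ s) :
    (s ∪ V) \ s = V := by
  ext y
  simp only [mem_sdiff, mem_union]
  constructor
  · rintro ⟨h1 | h1, h2⟩
    · exact absurd h1 h2
    · exact h1
  · intro hy
    exact ⟨Or.inr hy, (mem_sdiff.1 (h hy)).2⟩

theorem netX_aux_card {α : Type} [DecidableEq α] {s t V : Finset α} (h : V ⊆ t \ s) :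
    (s ∪ V).card = s.card + V.card := by
  apply card_union_of_disjoint
  rw [Finset.disjoint_left]
  intro y h1 h2
  exact (mem_sdiff.1 (h h2)).2 h1

theorem stmt_NETX (α : Type) [Fintype α] [DecidableEq α] : Stmt_NETX α := by
  intro c i j S T a b hN Φ
  have hR : ∀ s ∈ S, ∀ t ∈ T.filter (fun t => s ⊆ t),
      (∑ V ∈ (t \ s).powerset, if ty c s V = Lab.X then Φ s t V else 0) =
      ∑ V ∈ (t \ s).powerset.filter (fun V => ty c s V = Lab.X), Φ s t V := by
    intro s _ t _
    rw [sum_filter]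
  rw [sum_congr rfl fun s hs => sum_congr rfl fun t ht => hR s hs t ht]
  simp only [sum_sigma']
  refine sum_bij'
    (fun p _ => (⟨p.2.1, p.2.2, p.1 \ p.2.1⟩ :
      (_ : Finset α) × (_ : Finset α) × Finset α))
    (fun q _ => (⟨q.1 ∪ q.2.2, q.1, q.2.1⟩ :
      (_ : Finset α) × (_ : Finset α) × Finset α)) ?_ ?_ ?_ ?_ ?_
  · rintro ⟨v, s, t⟩ h
    simp only [mem_sigma, mem_filter, netX, mem_powerset] at h ⊢
    obtain ⟨⟨_, hcX⟩, ⟨hs, hsv⟩, ht, hvt⟩ := h
    refine ⟨hs, ⟨ht, hsv.trans hvt⟩, ?_, ?_⟩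
    · exact sdiff_subset_sdiff hvt (Subset.refl _)
    · unfold ty
      rw [union_sdiff_of_subset hsv]
      exact hcX
  · rintro ⟨s, t, V⟩ h
    simp only [mem_sigma, mem_filter, netX, mem_powerset] at h ⊢
    obtain ⟨hs, ⟨ht, hst⟩, hV, hX⟩ := h
    unfold ty at hX
    have hsub : s ∪ V ⊆ t := union_subset hst (hV.trans sdiff_subset)
    have hc1 : (s ∪ V).card = s.card + V.card := netX_aux_card hV
    have hc3 := card_le_card hsub
    have hcs := hN.cS s hs
    have hct := hN.cT t ht
    have hlS := hN.lS s hs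
    have hlT := hN.lT t ht
    refine ⟨⟨?_, hX⟩, ⟨hs, subset_union_left⟩, ht, hsub⟩
    rw [mem_Mid]
    constructor
    · by_contra hc
      have h0 : V.card = 0 := by omega
      rw [card_eq_zero] at h0
      rw [h0, union_empty, hlS] at hX
      exact absurd hX (by decide)
    · by_contra hc
      have he : s ∪ V = t := eq_of_subset_of_card_le hsub (by omega)
      rw [he, hlT] at hX
      exact absurd hX (by decide)
  · rintro ⟨v, s, t⟩ h
    simp only [mem_sigma, mem_filter] at h
    simp only [union_sdiff_of_subset h.2.1.2]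
  · rintro ⟨s, t, V⟩ h
    simp only [mem_sigma, mem_filter, mem_powerset] at h
    simp only [netX_aux_sd h.2.2.1]
  · rintro ⟨v, s, t⟩ h
    rfl

end R5
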