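import Pool.Agent.Work.MP_8b6acb_cap.Interface

/-! Blocks OBJE and OBJX: the entropy inequality of one object, common part (helper51). -/

namespace R5

open Finset MP_8b6acb_co

/-- nonnegativity of the sequential kernel -/
theorem seqk_nonneg {α : Type} [DecidableEq α] (ρ : α → ℝ) (n : ℝ) : ∀ (r : ℕ) (U R : Finset α),
    (∀ g ∈ R, 0 ≤ ρ g) → Disjoint U R → ∑ g ∈ U ∪ R, ρ g ≤ n → 0 ≤ seqk ρ n r U R
  | 0, U, R, _, _, _ => by
    unfold seqk
    split_ifs <;> norm_num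
  | r + 1, U, R, h1, h2, h3 => by
    unfold seqk
    refine sum_nonneg fun g hg => ?_
    have h4 : ∑ h ∈ U, ρ h ≤ n := by
      rw [sum_union h2] at h3
      have : 0 ≤ ∑ g ∈ R, ρ g := sum_nonneg h1
      linarith
    have hgU : g ∉ U := fun h => (Finset.disjoint_left.1 h2 h) hg
    have h5 : insert g U ∪ R.erase g = U ∪ R := by
      ext y
      simp only [mem_union, mem_insert, mem_erase]
      constructor
      · rintro ((h | h) | h)
        · exact Or.inr (h ▸ hg)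
        · exact Or.inl h
        · exact Or.inr h.2
      · rintro (h | h)
        · exact Or.inl (Or.inr h)
        · by_cases hy : y = g
          · exact Or.inl (Or.inl hy)
          · exact Or.inr ⟨hy, h⟩
    refine mul_nonneg (div_nonneg (h1 g hg) (by linarith)) ?_
    refine seqk_nonneg ρ n r _ _ (fun g' hg' => h1 g' (mem_of_mem_erase hg')) ?_ (by rw [h5]; exact h3)
    rw [Finset.disjoint_left]
    intro y hy hy2
    rw [mem_erase] at hy2
    rcases mem_insert.1 hy with h | h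
    · exact hy2.1 h
    · exact (Finset.disjoint_left.1 h2 h) hy2.2

section net

variable {α : Type} [Fintype α] [DecidableEq α] {c : Finset α → Lab} {i j : ℕ}
  {S T : Finset (Finset α)} {a b : Finset α → ℝ}

theorem ty_empty (c : Finset α → Lab) (s : Finset α) : ty c s ∅ = c s := by
  unfold ty
  rw [union_empty]

theorem Zt_pos_of {τ : Finset α → Lab} (h : τ ∅ = Lab.A) (D : Finset α) : 0 < Zt τ D := by
  unfold Zt
  have h1 := one_le_aw h D
  have h2 := ab_nonneg τ D ∅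
  have h3 : (0 : ℝ) ≤ D.card := Nat.cast_nonneg _
  exact div_pos (by linarith) (by linarith)

theorem Net.Z (h : Net c i j S T a b) {s : Finset α} (hs : s ∈ S) (t : Finset α) :
    0 < Zt (ty c s) (t \ s) :=
  Zt_pos_of (by rw [ty_empty]; exact h.lS s hs) _

theorem Net.M (h : Net c i j S T a b) {s : Finset α} (hs : s ∈ S) {t : Finset α} (ht : t ∈ T) :
    0 < a s * b t * Zt (ty c s) (t \ s) :=
  mul_pos (mul_pos (h.pa s hs) (h.pb t ht)) (h.Z hs t)

theorem Net.MU_nonneg (h : Net c i j S T a b) {s : Finset α} (hs : s ∈ S) (v : Finset α) :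
    0 ≤ MU c T a b s v :=
  sum_nonneg fun t ht => (h.M hs (mem_filter.1 ht).1).le

theorem Net.MU_pos (h : Net c i j S T a b) {s : Finset α} (hs : s ∈ S) {v t : Finset α}
    (ht : t ∈ T) (hv : v ⊆ t) : 0 < MU c T a b s v := by
  unfold MU
  refine lt_of_lt_of_le (h.M hs ht) ?_
  exact single_le_sum (f := fun t => a s * b t * Zt (ty c s) (t \ s))
    (fun t ht => (h.M hs (mem_filter.1 ht).1).le) (mem_filter.2 ⟨ht, hv⟩)

theorem Net.NU_pos (h : Net c i j S T a b) {s : Finset α} (hs : s ∈ S) {v t : Finset α}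
    (ht : t ∈ T) (hv : s ⊆ v) : 0 < NU c S a b t v := by
  unfold NU
  refine lt_of_lt_of_le (h.M hs ht) ?_
  exact single_le_sum (f := fun s => a s * b t * Zt (ty c s) (t \ s))
    (fun s hs => (h.M (mem_filter.1 hs).1 ht).le) (mem_filter.2 ⟨hs, hv⟩)

theorem Net.rho_sum (h : Net c i j S T a b) {s : Finset α} (hs : s ∈ S) {X : Finset α}
    (hd : Disjoint s X) (hpos : 0 < MU c T a b s (s ∪ X)) :
    ∑ g ∈ univ \ (s ∪ X), MU c T a b s (s ∪ insert g X) / MU c T a b s (s ∪ X) =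
      (j : ℝ) - i - X.card := by
  rw [← sum_div, div_eq_iff hpos.ne']
  unfold MU
  simp only [sum_filter]
  rw [sum_comm, mul_sum]
  refine sum_congr rfl fun t ht => ?_
  by_cases hst : s ∪ X ⊆ t
  · rw [if_pos hst, ← sum_filter, sum_const, nsmul_eq_mul]
    congr 1
    have e1 : (univ \ (s ∪ X)).filter (fun g => s ∪ insert g X ⊆ t) = t \ (s ∪ X) := by
      ext g
      simp only [mem_filter, mem_sdiff, mem_univ, true_and]
      constructor
      · rintro ⟨h1, h2⟩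
        exact ⟨h2 (mem_union_right _ (mem_insert_self _ _)), h1⟩
      · rintro ⟨h1, h2⟩
        refine ⟨h2, ?_⟩
        intro y hy
        rw [mem_union, mem_insert] at hy
        rcases hy with h3 | h3 | h3
        · exact hst (mem_union_left _ h3)
        · exact h3 ▸ h1
        · exact hst (mem_union_right _ h3)
    rw [e1, card_sdiff_cast hst, card_union_of_disjoint hd, h.cS s hs, h.cT t ht]
    push_cast
    ring
  · rw [if_neg hst, mul_zero]
    refine sum_eq_zero fun g _ => if_neg ?_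
    intro h1
    apply hst
    intro y hy
    rw [mem_union] at hy
    rcases hy with h3 | h3
    · exact h1 (mem_union_left _ h3)
    · exact h1 (mem_union_right _ (mem_insert_of_mem h3))

/-- The backward weights depend on the upper end only. -/
theorem bw_ty (c : Finset α → Lab) {s w t : Finset α} (hsw : s ⊆ w) (hst : s ⊆ t) :
    bw (ty c s) (t \ s) (w \ s) = fw (fun U => (c (t \ U)).flip) (t \ w) := by
  unfold bw
  have e1 : (t \ s) \ (w \ s) = t \ w := by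
    ext y
    simp only [mem_sdiff, not_and, not_not]
    constructor
    · rintro ⟨⟨h1, h2⟩, h3⟩
      exact ⟨h1, fun h4 => h2 (h3 h4)⟩
    · rintro ⟨h1, h2⟩
      exact ⟨⟨h1, fun h3 => h2 (hsw h3)⟩, fun h3 => absurd h3 h2⟩
  rw [e1]
  refine fw_congr fun U hU => ?_
  unfold dual ty
  have e2 : s ∪ ((t \ s) \ U) = t \ U := by
    ext y
    simp only [mem_union, mem_sdiff]
    constructor
    · rintro (h1 | h1)
      · refine ⟨hst h1, fun h2 => ?_⟩
        exact (mem_sdiff.1 (hU h2)).2 (hsw h1)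
      · exact ⟨h1.1.1, h1.2⟩
    · rintro ⟨h1, h2⟩
      by_cases h3 : y ∈ s
      · exact Or.inl h3
      · exact Or.inr ⟨⟨h1, h3⟩, h2⟩
  rw [e2]

/-- The entropy inequality of one object for an arbitrary kernel `qS` of the `S`-side. -/
theorem obj_ker (hO : Stmt_ONE) (h : Net c i j S T a b) (v vp : Finset α) (hvp : v ⊆ vp)
    (F0 : Finset α → Finset α → ℝ) (G0 : Finset α → ℝ) (hF0 : ∀ s ∈ S, ∀ X, 0 ≤ F0 s X)
    (hG0 : ∀ t, 0 ≤ G0 t) (p : Finset α → Finset α → Finset α → ℝ) (y : Finset α → Finset α → ℝ)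
    (hp : ∀ s ∈ S, s ⊆ v → ∀ t ∈ T, vp ⊆ t → ∀ X, p s t X =
      if X ⊆ v \ s then F0 s X * G0 t else 0)
    (hy : ∀ s ∈ S, s ⊆ v → ∀ t ∈ T, vp ⊆ t → ∑ X ∈ (t \ s).powerset, p s t X = y s t)
    (qS : Finset α → Finset α → Finset α → ℝ)
    (hq : ∀ s ∈ S, s ⊆ v → ∀ X ⊆ v \ s, ∀ t ∈ T, vp ⊆ t → 0 < qS s X t)
    (hq1 : ∀ s ∈ S, s ⊆ v → ∀ X ⊆ v \ s, ∑ t ∈ T.filter (fun t => vp ⊆ t), qS s X t ≤ 1) :
    ∑ s ∈ S.filter (fun s => s ⊆ v), ∑ t ∈ T.filter (fun t => vp ⊆ t), a s * b t *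
      ((∑ X ∈ (t \ s).powerset, p s t X * Real.log (qS s X t)) +
      y s t * (-Real.log (NU c S a b t v) + Real.log (Zt (ty c s) (t \ s) / y s t))) ≤
    -((∑ s ∈ S.filter (fun s => s ⊆ v), ∑ t ∈ T.filter (fun t => vp ⊆ t), a s * b t * y s t) *
      Real.log (∑ s ∈ S.filter (fun s => s ⊆ v), ∑ t ∈ T.filter (fun t => vp ⊆ t),
        a s * b t * y s t)) := by
  obtain ⟨S', hS'⟩ : ∃ S', S' = S.filter (fun s => s ⊆ v) := ⟨_, rfl⟩
  obtain ⟨T', hT'⟩ : ∃ T', T' = T.filter (fun t => vp ⊆ t) := ⟨_, rfl⟩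
  have mS : ∀ s, s ∈ S' ↔ s ∈ S ∧ s ⊆ v := fun s => by rw [hS', mem_filter]
  have mT : ∀ t, t ∈ T' ↔ t ∈ T ∧ vp ⊆ t := fun t => by rw [hT', mem_filter]
  rw [← hS', ← hT']
  rw [← hT'] at hq1
  -- the data
  obtain ⟨P, hP⟩ : ∃ P : Finset ((_ : Finset α) × Finset α),
    P = S'.sigma (fun s => (v \ s).powerset) := ⟨_, rfl⟩
  have mP : ∀ q : (_ : Finset α) × Finset α, q ∈ P ↔ q.1 ∈ S' ∧ q.2 ⊆ v \ q.1 := by
    intro q
    rw [hP, mem_sigma, mem_powerset]
  obtain ⟨F, hF⟩ : ∃ F : ((_ : Finset α) × Finset α) → ℝ, F = fun q => a q.1 * F0 q.1 q.2 :=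
    ⟨_, rfl⟩
  obtain ⟨G, hG⟩ : ∃ G : Finset α → ℝ, G = fun t => b t * G0 t := ⟨_, rfl⟩
  obtain ⟨qT, hqT⟩ : ∃ qT : Finset α → Finset α → ℝ, qT = fun t s =>
    a s * b t * Zt (ty c s) (t \ s) / NU c S a b t v := ⟨_, rfl⟩
  -- sums over the pairs
  obtain ⟨Aq, hAq⟩ : ∃ Aq : Finset α → ℝ, Aq = fun s => ∑ X ∈ (v \ s).powerset, F0 s X :=
    ⟨_, rfl⟩
  have hys : ∀ s ∈ S', ∀ t ∈ T', y s t = Aq s * G0 t := by
    intro s hs t ht
    obtain ⟨hs1, hs2⟩ := (mS s).1 hs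
    obtain ⟨ht1, ht2⟩ := (mT t).1 ht
    rw [← hy s hs1 hs2 t ht1 ht2, hAq]
    show _ = (∑ X ∈ (v \ s).powerset, F0 s X) * G0 t
    rw [sum_mul]
    symm
    have hsub : (v \ s).powerset ⊆ (t \ s).powerset :=
      powerset_mono.2 (sdiff_subset_sdiff (hvp.trans ht2) (Subset.refl _))
    rw [← sum_subset hsub]
    · refine sum_congr rfl fun X hX => ?_
      rw [hp s hs1 hs2 t ht1 ht2, if_pos (mem_powerset.1 hX)]
    · intro X _ hX
      rw [hp s hs1 hs2 t ht1 ht2, if_neg (fun h1 => hX (mem_powerset.2 h1))]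
  have hKs : ∀ s ∈ S', ∀ t ∈ T', ∀ K : Finset α → ℝ, ∑ X ∈ (t \ s).powerset, p s t X * K X =
      ∑ X ∈ (v \ s).powerset, F0 s X * G0 t * K X := by
    intro s hs t ht K
    obtain ⟨hs1, hs2⟩ := (mS s).1 hs
    obtain ⟨ht1, ht2⟩ := (mT t).1 ht
    symm
    have hsub : (v \ s).powerset ⊆ (t \ s).powerset :=
      powerset_mono.2 (sdiff_subset_sdiff (hvp.trans ht2) (Subset.refl _))
    rw [← sum_subset hsub]
    · refine sum_congr rfl fun X hX => ?_
      rw [hp s hs1 hs2 t ht1 ht2, if_pos (mem_powerset.1 hX)]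
    · intro X _ hX
      rw [hp s hs1 hs2 t ht1 ht2, if_neg (fun h1 => hX (mem_powerset.2 h1)), zero_mul]
  have hAq0 : ∀ s ∈ S', 0 ≤ Aq s := by
    intro s hs
    rw [hAq]
    exact sum_nonneg fun X _ => hF0 s ((mS s).1 hs).1 X
  have hFs : ∀ s ∈ S', ∑ q ∈ P.filter (fun q => q.1 = s), F q = a s * Aq s := by
    intro s hs
    rw [sum_filter, hP, sum_sigma, sum_eq_single s]
    · simp only [if_true]
      rw [hF, hAq, mul_sum]
    · intro s' _ hne
      exact sum_eq_zero fun X _ => if_neg hne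
    · intro hn
      exact absurd hs hn
  have hW : (∑ q ∈ P, F q) * (∑ t ∈ T', G t) = ∑ s ∈ S', ∑ t ∈ T', a s * b t * y s t := by
    rw [hP, sum_sigma, sum_mul]
    refine sum_congr rfl fun s hs => ?_
    rw [mul_sum]
    refine sum_congr rfl fun t ht => ?_
    rw [hys s hs t ht, hF, hG, hAq]
    show (∑ X ∈ (v \ s).powerset, a s * F0 s X) * (b t * G0 t) =
      a s * b t * ((∑ X ∈ (v \ s).powerset, F0 s X) * G0 t)
    rw [← mul_sum]
    ring
  have hkey : ∀ q ∈ P, ∀ t ∈ T', 0 < qS q.1 q.2 t := by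
    intro q hqP t ht
    have h1 := (mS q.1).1 ((mP q).1 hqP).1
    have h2 := (mT t).1 ht
    exact hq q.1 h1.1 h1.2 q.2 ((mP q).1 hqP).2 t h2.1 h2.2
  have hmain := hO ((_ : Finset α) × Finset α) (Finset α) (Finset α) P S' T' (fun q => q.1) F G
    (fun q t => qS q.1 q.2 t) qT
    (fun q hq => ((mP q).1 hq).1)
    (fun q hq => by
      have h1 := ((mS q.1).1 ((mP q).1 hq).1).1
      rw [hF]
      exact mul_nonneg (h.pa _ h1).le (hF0 _ h1 _))
    (fun t ht => by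
      rw [hG]
      exact mul_nonneg (h.pb t ((mT t).1 ht).1).le (hG0 t))
    (fun q hq t ht _ _ => hkey q hq t ht)
    (fun q hq t ht _ _ => by
      have h1 := (mS q.1).1 ((mP q).1 hq).1
      have h2 := (mT t).1 ht
      rw [hqT]
      exact div_pos (h.M h1.1 h2.1) (h.NU_pos h1.1 h2.1 h1.2))
    (fun q hq t ht => (hkey q hq t ht).le)
    (fun t ht s hs => by
      have h1 := (mS s).1 hs
      have h2 := (mT t).1 ht
      rw [hqT]
      exact div_nonneg (h.M h1.1 h2.1).le (h.NU_pos h1.1 h2.1 h1.2).le)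
    (fun q hqP => by
      have h1 := (mS q.1).1 ((mP q).1 hqP).1
      exact hq1 q.1 h1.1 h1.2 q.2 ((mP q).1 hqP).2)
    (fun t ht => by
      rw [hqT]
      show ∑ s ∈ S', a s * b t * Zt (ty c s) (t \ s) / NU c S a b t v ≤ 1
      rw [← sum_div]
      have e1 : ∑ s ∈ S', a s * b t * Zt (ty c s) (t \ s) = NU c S a b t v := by
        unfold NU
        rw [hS']
      rw [e1]
      exact div_self_le_one _)
  rw [hW] at hmain
  rw [← neg_mul]
  refine le_trans ?_ hmain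
  have e1 : ∑ q ∈ P, ∑ t ∈ T', F q * G t * (Real.log (qS q.1 q.2 t) + Real.log (qT t q.1) -
      Real.log (∑ q' ∈ P.filter (fun q' => q'.1 = q.1), F q') - Real.log (G t)) =
      ∑ s ∈ S', ∑ t ∈ T', ∑ X ∈ (v \ s).powerset, F ⟨s, X⟩ * G t *
        (Real.log (qS s X t) + Real.log (qT t s) -
        Real.log (∑ q' ∈ P.filter (fun q' => q'.1 = s), F q') - Real.log (G t)) := by
    conv_lhs => rw [hP]
    rw [sum_sigma]
    refine sum_congr rfl fun s _ => ?_
    rw [sum_comm]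
    rw [hP]
  rw [e1]
  refine sum_le_sum fun s hs => sum_le_sum fun t ht => ?_
  obtain ⟨hs1, hs2⟩ := (mS s).1 hs
  obtain ⟨ht1, ht2⟩ := (mT t).1 ht
  rw [hKs s hs t ht, hys s hs t ht, hFs s hs]
  have ha := h.pa s hs1
  have hb := h.pb t ht1
  by_cases hz : Aq s * G0 t = 0
  · have hz2 : ∀ X ∈ (v \ s).powerset, F0 s X * G0 t = 0 := by
      intro X hX
      rcases mul_eq_zero.1 hz with h1 | h1
      · have h2 : F0 s X = 0 := by
          rw [hAq] at h1
          exact (sum_eq_zero_iff_of_nonneg (fun X _ => hF0 s hs1 X)).1 h1 X hX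
        rw [h2, zero_mul]
      · rw [h1, mul_zero]
    have e2 : ∑ X ∈ (v \ s).powerset, F0 s X * G0 t * Real.log (qS s X t) = 0 :=
      sum_eq_zero fun X hX => by rw [hz2 X hX, zero_mul]
    rw [e2, hz]
    have e3 : ∑ X ∈ (v \ s).powerset, F ⟨s, X⟩ * G t * (Real.log (qS s X t) +
        Real.log (qT t s) - Real.log (a s * Aq s) - Real.log (G t)) = 0 := by
      refine sum_eq_zero fun X hX => ?_
      have : F ⟨s, X⟩ * G t = a s * b t * (F0 s X * G0 t) := by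
        rw [hF, hG]
        show a s * F0 s X * (b t * G0 t) = _
        ring
      rw [this, hz2 X hX, mul_zero, zero_mul]
    rw [e3]
    simp
  · have hA : 0 < Aq s := lt_of_le_of_ne (hAq0 s hs) (fun h1 => hz (by rw [← h1, zero_mul]))
    have hG' : 0 < G0 t := lt_of_le_of_ne (hG0 t) (fun h1 => hz (by rw [← h1, mul_zero]))
    have hZ := h.Z hs1 t
    have hN := h.NU_pos hs1 ht1 hs2
    have e2 : Real.log (qT t s) = Real.log (a s) + Real.log (b t) +
        Real.log (Zt (ty c s) (t \ s)) - Real.log (NU c S a b t v) := by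
      rw [hqT]
      show Real.log (a s * b t * Zt (ty c s) (t \ s) / NU c S a b t v) = _
      rw [Real.log_div (h.M hs1 ht1).ne' hN.ne', Real.log_mul (mul_pos ha hb).ne' hZ.ne',
        Real.log_mul ha.ne' hb.ne']
    have e3 : Real.log (Zt (ty c s) (t \ s) / (Aq s * G0 t)) =
        Real.log (Zt (ty c s) (t \ s)) - Real.log (Aq s) - Real.log (G0 t) := by
      rw [Real.log_div hZ.ne' (mul_pos hA hG').ne', Real.log_mul hA.ne' hG'.ne']
      ring
    have e4 : Real.log (G t) = Real.log (b t) + Real.log (G0 t) := by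
      rw [hG]
      exact Real.log_mul hb.ne' hG'.ne'
    rw [e2, e3, e4, Real.log_mul ha.ne' hA.ne']
    have e5 : Aq s * G0 t * (-Real.log (NU c S a b t v) + (Real.log (Zt (ty c s) (t \ s)) -
        Real.log (Aq s) - Real.log (G0 t))) = ∑ X ∈ (v \ s).powerset, F0 s X * G0 t *
        (-Real.log (NU c S a b t v) + (Real.log (Zt (ty c s) (t \ s)) -
        Real.log (Aq s) - Real.log (G0 t))) := by
      rw [← sum_mul, ← sum_mul]
      congr 2
      rw [hAq]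
    rw [e5, ← sum_add_distrib, mul_sum]
    refine le_of_eq (sum_congr rfl fun X _ => ?_)
    have h2 : F ⟨s, X⟩ * G t = a s * b t * (F0 s X * G0 t) := by
      rw [hF, hG]
      show a s * F0 s X * (b t * G0 t) = _
      ring
    rw [h2]
    ring

/-- The sequential kernel as a kernel of the `S`-side: `vp` upper set of the object. -/
theorem seq_ker (hK1 : Stmt_KONE α) (hK2 : Stmt_KTWO α)
    (h : Net c i j S T a b) (v vp : Finset α) (hvp : v ⊆ vp) :
    ∃ qS : Finset α → Finset α → Finset α → ℝ,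
      (∀ s ∈ S, s ⊆ v → ∀ X ⊆ v \ s, ∀ t ∈ T, vp ⊆ t → 0 < qS s X t) ∧
      (∀ s ∈ S, s ⊆ v → ∀ X ⊆ v \ s, ∑ t ∈ T.filter (fun t => vp ⊆ t), qS s X t ≤ 1) ∧
      ∀ s ∈ S, s ⊆ v → ∀ X ⊆ v \ s, ∀ t ∈ T, vp ⊆ t →
        KB (fun X g => MU c T a b s (s ∪ insert g X) / MU c T a b s (s ∪ X)) (t \ s) X (vp \ s) ≤
          Real.log (qS s X t) := by
  obtain ⟨S', hS'⟩ : ∃ S', S' = S.filter (fun s => s ⊆ v) := ⟨_, rfl⟩
  obtain ⟨T', hT'⟩ : ∃ T', T' = T.filter (fun t => vp ⊆ t) := ⟨_, rfl⟩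
  have mS : ∀ s, s ∈ S' ↔ s ∈ S ∧ s ⊆ v := fun s => by rw [hS', mem_filter]
  have mT : ∀ t, t ∈ T' ↔ t ∈ T ∧ vp ⊆ t := fun t => by rw [hT', mem_filter]
  obtain ⟨ρ, hρ⟩ : ∃ ρ : ((_ : Finset α) × Finset α) → α → ℝ, ρ = fun q g =>
    MU c T a b q.1 (q.1 ∪ insert g q.2) / MU c T a b q.1 (q.1 ∪ q.2) := ⟨_, rfl⟩
  obtain ⟨qS, hqS⟩ : ∃ qS : ((_ : Finset α) × Finset α) → Finset α → ℝ, qS = fun q t =>
    seqk (ρ q) (∑ g ∈ univ \ (q.1 ∪ q.2), ρ q g) (j - vp.card) ((vp \ q.1) \ q.2) (t \ vp) :=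
    ⟨_, rfl⟩
  -- basic facts
  have hρ0 : ∀ q : (_ : Finset α) × Finset α, q.1 ∈ S → ∀ g, 0 ≤ ρ q g := by
    intro q hq g
    rw [hρ]
    exact div_nonneg (h.MU_nonneg hq _) (h.MU_nonneg hq _)
  have hcard : ∀ t ∈ T', vp.card ≤ j ∧ (t \ vp).card = j - vp.card := by
    intro t ht
    obtain ⟨h1, h2⟩ := (mT t).1 ht
    have h3 := card_le_card h2
    rw [h.cT t h1] at h3
    refine ⟨h3, ?_⟩
    rw [card_sdiff_of_subset h2, h.cT t h1]
  have hsets : ∀ s ∈ S', ∀ X ⊆ v \ s, ∀ t ∈ T', ((vp \ s) \ X) ∪ (t \ vp) = t \ (s ∪ X) := by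
    intro s hs X hX t ht
    have h1 := ((mS s).1 hs).2
    have h2 := ((mT t).1 ht).2
    ext z
    simp only [mem_union, mem_sdiff, not_or]
    constructor
    · rintro (⟨⟨h3, h4⟩, h5⟩ | ⟨h3, h4⟩)
      · exact ⟨h2 h3, h4, h5⟩
      · exact ⟨h3, fun h5 => h4 (hvp (h1 h5)), fun h5 => h4 (hvp (mem_sdiff.1 (hX h5)).1)⟩
    · rintro ⟨h3, h4, h5⟩
      by_cases h6 : z ∈ vp
      · exact Or.inl ⟨⟨h6, h4⟩, h5⟩
      · exact Or.inr ⟨h3, h6⟩
  have hdis : ∀ s t X : Finset α, Disjoint ((vp \ s) \ X) (t \ vp) := by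
    intro s t X
    rw [Finset.disjoint_left]
    intro z h1 h2
    exact (mem_sdiff.1 h2).2 (mem_sdiff.1 (mem_sdiff.1 h1).1).1
  have hXd : ∀ s ∈ S', ∀ X ⊆ v \ s, Disjoint s X := by
    intro s _ X hX
    rw [Finset.disjoint_left]
    intro z h1 h2
    exact (mem_sdiff.1 (hX h2)).2 h1
  have hkey : ∀ s ∈ S', ∀ X ⊆ v \ s, ∀ t ∈ T', 0 < qS ⟨s, X⟩ t ∧
      KB (fun X g => MU c T a b s (s ∪ insert g X) / MU c T a b s (s ∪ X)) (t \ s) X (vp \ s) ≤
        Real.log (qS ⟨s, X⟩ t) := by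
    intro s hs X hX t ht
    obtain ⟨hs1, hs2⟩ := (mS s).1 hs
    obtain ⟨ht1, ht2⟩ := (mT t).1 ht
    have hst : s ⊆ t := hs2.trans (hvp.trans ht2)
    have hXt : X ⊆ t := (hX.trans sdiff_subset).trans (hvp.trans ht2)
    have hMU : 0 < MU c T a b s (s ∪ X) := h.MU_pos hs1 ht1 (union_subset hst hXt)
    have hn := h.rho_sum hs1 (hXd s hs X hX) hMU
    have hsub : t \ (s ∪ X) ⊆ univ \ (s ∪ X) := sdiff_subset_sdiff (subset_univ _) (Subset.refl _)
    have hgpos : ∀ g ∈ ((vp \ s) \ X) ∪ (t \ vp), 0 < ρ ⟨s, X⟩ g := by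
      intro g hg
      rw [hsets s hs X hX t ht] at hg
      rw [hρ]
      refine div_pos (h.MU_pos hs1 ht1 ?_) hMU
      exact union_subset hst (insert_subset (mem_sdiff.1 hg).1 hXt)
    have hdc : ((t \ s).card : ℝ) = (j : ℝ) - i := by
      rw [card_sdiff_cast hst, h.cS s hs1, h.cT t ht1]
    have hXc : (X.card : ℝ) < (j : ℝ) - i ∨ t \ vp = ∅ ∧ (vp \ s) \ X = ∅ := by
      by_cases hc : X = t \ s
      · right
        constructor
        · rw [sdiff_eq_empty_iff_subset]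
          intro z hz
          by_cases hzs : z ∈ s
          · exact hvp (hs2 hzs)
          · exact hvp (mem_sdiff.1 (hX (hc ▸ mem_sdiff.2 ⟨hz, hzs⟩))).1
        · rw [sdiff_eq_empty_iff_subset, hc]
          exact sdiff_subset_sdiff ht2 (Subset.refl _)
      · left
        rw [← hdc]
        have h1 : X ⊂ t \ s := by
          refine ssubset_of_subset_of_ne ?_ hc
          exact hX.trans (sdiff_subset_sdiff (hvp.trans ht2) (Subset.refl _))
        exact_mod_cast card_lt_card h1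
    have hnn : (∑ g ∈ univ \ (s ∪ X), ρ ⟨s, X⟩ g) = (j : ℝ) - i - X.card := by
      rw [← hn, hρ]
    have eD : (t \ s) \ (vp \ s) = t \ vp := by
      ext z
      simp only [mem_sdiff, not_and, not_not]
      constructor
      · rintro ⟨⟨h1, h2⟩, h3⟩
        exact ⟨h1, fun h4 => h2 (h3 h4)⟩
      · rintro ⟨h1, h2⟩
        exact ⟨⟨h1, fun h3 => h2 (hvp (hs2 h3))⟩, fun h3 => absurd h3 h2⟩
    have hle : ∑ g ∈ ((vp \ s) \ X) ∪ (t \ vp), ρ ⟨s, X⟩ g ≤
        ∑ g ∈ univ \ (s ∪ X), ρ ⟨s, X⟩ g := by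
      rw [hsets s hs X hX t ht]
      exact sum_le_sum_of_subset_of_nonneg hsub (fun g _ _ => hρ0 ⟨s, X⟩ hs1 g)
    have hcR := (hcard t ht).2
    have hcR2 := (hcard t ht).1
    have hsvp : s ⊆ vp := hs2.trans hvp
    have hic : i ≤ vp.card := by rw [← h.cS s hs1]; exact card_le_card hsvp
    have hcU : (vp \ s).card = vp.card - i := by
      rw [card_sdiff_of_subset hsvp, h.cS s hs1]
    have hcD : (t \ s).card = j - i := by
      rw [card_sdiff_of_subset hst, h.cS s hs1, h.cT t ht1]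
    rcases hXc with hXc | ⟨hR, hU⟩
    · have h1 := hK2 (ρ ⟨s, X⟩) (∑ g ∈ univ \ (s ∪ X), ρ ⟨s, X⟩ g) ((vp \ s) \ X) (t \ vp)
        (hdis s t X) hgpos (by rw [hnn]; linarith) hle
      rw [hcR] at h1
      have hq : qS ⟨s, X⟩ t = seqk (ρ ⟨s, X⟩) (∑ g ∈ univ \ (s ∪ X), ρ ⟨s, X⟩ g)
          (j - vp.card) ((vp \ s) \ X) (t \ vp) := by rw [hqS]
      rw [hq]
      refine ⟨h1.1, le_trans (le_of_eq ?_) h1.2⟩
      unfold KB
      rw [eD, hnn]
      have e1 : (t \ s).card - (vp \ s).card = j - vp.card := by rw [hcD, hcU]; omega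
      have e2 : ((t \ s).card : ℝ) - ((vp \ s).card : ℝ) = ((j - vp.card : ℕ) : ℝ) := by
        rw [hcD, hcU, Nat.cast_sub hcR2, Nat.cast_sub hic, Nat.cast_sub h.hij.le]
        ring
      have e3 : ((t \ s).card : ℝ) - 1 - ((vp \ s).card : ℝ) = ((j - vp.card : ℕ) : ℝ) - 1 := by
        rw [← e2]; ring
      rw [e1, e2, e3, hdc, hρ]
    · have hz : j - vp.card = 0 := by rw [← hcR, hR, card_empty]
      have hq : qS ⟨s, X⟩ t = 1 := by
        rw [hqS]
        show seqk (ρ ⟨s, X⟩) (∑ g ∈ univ \ (s ∪ X), ρ ⟨s, X⟩ g) (j - vp.card)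
          ((vp \ s) \ X) (t \ vp) = 1
        rw [hz, hR]
        simp [seqk]
      rw [hq]
      refine ⟨one_pos, ?_⟩
      unfold KB
      rw [eD, hR, hU]
      have e1 : (t \ s).card - (vp \ s).card = 0 := by rw [hcD, hcU]; omega
      have e2 : ((t \ s).card : ℝ) - ((vp \ s).card : ℝ) = 0 := by
        have : (t \ s).card = (vp \ s).card := by rw [hcD, hcU]; omega
        rw [this]; ring
      rw [e1, e2]
      simp
  have hsum : ∀ q : (_ : Finset α) × Finset α, q.1 ∈ S ∧ q.1 ⊆ v → q.2 ⊆ v \ q.1 →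
      ∑ t ∈ T', qS q t ≤ 1 := by
    intro q h1 h2
    have hUG : (vp \ q.1) \ q.2 ⊆ univ \ (q.1 ∪ q.2) := by
      intro z hz
      simp only [mem_sdiff, mem_univ, true_and, mem_union, not_or] at hz ⊢
      exact ⟨hz.1.2, hz.2⟩
    refine le_trans ?_ (hK1 (ρ q) (univ \ (q.1 ∪ q.2)) ((vp \ q.1) \ q.2) (j - vp.card)
      (fun g _ => hρ0 q h1.1 g) hUG)
    have himg : T'.image (fun t => t \ vp) ⊆
        powersetCard (j - vp.card) ((univ \ (q.1 ∪ q.2)) \ ((vp \ q.1) \ q.2)) := by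
      intro R hR
      obtain ⟨t, ht, rfl⟩ := mem_image.1 hR
      rw [mem_powersetCard]
      refine ⟨?_, (hcard t ht).2⟩
      intro z hz
      rw [mem_sdiff] at hz
      simp only [mem_sdiff, mem_univ, true_and, mem_union, not_or, not_and, not_not]
      exact ⟨⟨fun h3 => hz.2 (hvp (h1.2 h3)),
        fun h3 => hz.2 (hvp (mem_sdiff.1 (h2 h3)).1)⟩, fun h3 => absurd h3.1 hz.2⟩
    have hinj : Set.InjOn (fun t : Finset α => t \ vp) (T' : Set (Finset α)) := by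
      intro t ht t' ht' hE
      have g1 := ((mT t).1 (mem_coe.1 ht)).2
      have g2 := ((mT t').1 (mem_coe.1 ht')).2
      have g3 : t \ vp = t' \ vp := hE
      rw [← union_sdiff_of_subset g1, ← union_sdiff_of_subset g2, g3]
    have e1 : ∑ t ∈ T', qS q t = ∑ R ∈ T'.image (fun t => t \ vp),
        seqk (ρ q) (∑ g ∈ univ \ (q.1 ∪ q.2), ρ q g) (j - vp.card) ((vp \ q.1) \ q.2) R := by
      rw [sum_image hinj, hqS]
    rw [e1]
    refine sum_le_sum_of_subset_of_nonneg himg ?_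
    intro R hR _
    rw [mem_powersetCard] at hR
    refine seqk_nonneg _ _ _ _ _ (fun g _ => hρ0 q h1.1 g) ?_ ?_
    · rw [Finset.disjoint_left]
      intro z g1 g2
      exact (mem_sdiff.1 (hR.1 g2)).2 g1
    · refine sum_le_sum_of_subset_of_nonneg ?_ (fun g _ _ => hρ0 q h1.1 g)
      exact union_subset hUG (hR.1.trans sdiff_subset)
  refine ⟨fun s X t => qS ⟨s, X⟩ t, ?_, ?_, ?_⟩
  · intro s hs hsv X hX t ht htv
    exact (hkey s ((mS s).2 ⟨hs, hsv⟩) X hX t ((mT t).2 ⟨ht, htv⟩)).1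
  · intro s hs hsv X hX
    rw [← hT']
    exact hsum ⟨s, X⟩ ⟨hs, hsv⟩ hX
  · intro s hs hsv X hX t ht htv
    exact (hkey s ((mS s).2 ⟨hs, hsv⟩) X hX t ((mT t).2 ⟨ht, htv⟩)).2

/-- The common part of `OBJE` and `OBJX`. -/
theorem obj_gen (hO : Stmt_ONE) (hK1 : Stmt_KONE α) (hK2 : Stmt_KTWO α)
    (h : Net c i j S T a b) (v vp : Finset α) (hvp : v ⊆ vp)
    (F0 : Finset α → Finset α → ℝ) (G0 : Finset α → ℝ) (hF0 : ∀ s ∈ S, ∀ X, 0 ≤ F0 s X)
    (hG0 : ∀ t, 0 ≤ G0 t) (p : Finset α → Finset α → Finset α → ℝ) (y : Finset α → Finset α → ℝ)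
    (hp : ∀ s ∈ S, s ⊆ v → ∀ t ∈ T, vp ⊆ t → ∀ X, p s t X =
      if X ⊆ v \ s then F0 s X * G0 t else 0)
    (hy : ∀ s ∈ S, s ⊆ v → ∀ t ∈ T, vp ⊆ t → ∑ X ∈ (t \ s).powerset, p s t X = y s t) :
    ∑ s ∈ S.filter (fun s => s ⊆ v), ∑ t ∈ T.filter (fun t => vp ⊆ t), a s * b t *
      ((∑ X ∈ (t \ s).powerset, p s t X *
        KB (fun X g => MU c T a b s (s ∪ insert g X) / MU c T a b s (s ∪ X)) (t \ s) X (vp \ s)) +
      y s t * (-Real.log (NU c S a b t v) + Real.log (Zt (ty c s) (t \ s) / y s t))) ≤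
    -((∑ s ∈ S.filter (fun s => s ⊆ v), ∑ t ∈ T.filter (fun t => vp ⊆ t), a s * b t * y s t) *
      Real.log (∑ s ∈ S.filter (fun s => s ⊆ v), ∑ t ∈ T.filter (fun t => vp ⊆ t),
        a s * b t * y s t)) := by
  obtain ⟨qS, h1, h2, h3⟩ := seq_ker hK1 hK2 h v vp hvp
  refine le_trans ?_ (obj_ker hO h v vp hvp F0 G0 hF0 hG0 p y hp hy qS h1 h2)
  refine sum_le_sum fun s hs => sum_le_sum fun t ht => ?_
  rw [mem_filter] at hs ht
  refine mul_le_mul_of_nonneg_left ?_ (mul_pos (h.pa s hs.1) (h.pb t ht.1)).le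
  refine add_le_add ?_ le_rfl
  refine sum_le_sum fun X _ => ?_
  rw [hp s hs.1 hs.2 t ht.1 ht.2]
  by_cases hX : X ⊆ v \ s
  · rw [if_pos hX]
    exact mul_le_mul_of_nonneg_left (h3 s hs.1 hs.2 X hX t ht.1 ht.2)
      (mul_nonneg (hF0 s hs.1 X) (hG0 t))
  · rw [if_neg hX, zero_mul, zero_mul]

end net

end R5
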