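import Pool.Agent.Work.MP_8b6acb_cap.Interface

/-! Block SWL: the swap, colour L. -/

namespace R5

open Finset

variable {α : Type} [DecidableEq α]

/-- Recursion for `ab`. -/
theorem ab_rec {τ : Finset α → Lab} {D V : Finset α} (hne : ¬ D ⊆ V) :
    ab τ D V = bw τ D V + (∑ x ∈ D \ V, ab τ D (insert x V)) / ((D \ V).card : ℝ) := by
  unfold ab bw
  have h1 : D \ V ≠ ∅ := by
    rw [Ne, sdiff_eq_empty_iff_subset]
    exact hne
  rw [aw_rec h1]
  congr 2
  refine sum_congr rfl fun x _ => ?_
  rw [sdiff_erase_eq]

/-- Absorption of binomials. -/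
theorem choose_absorb {n k : ℕ} (hk : k < n) :
    (n.choose k : ℝ) * ((n : ℝ) - k) = (n : ℝ) * ((n - 1).choose k : ℝ) := by
  obtain ⟨p, rfl⟩ : ∃ p, n = p + 1 := ⟨n - 1, by omega⟩
  have h3 : (((p + 1) - k : ℕ) : ℝ) = ((p + 1 : ℕ) : ℝ) - k := Nat.cast_sub hk.le
  rw [← h3, Nat.add_sub_cancel]
  have h4 : (p + 1).choose k * (p + 1 - k) = (p + 1) * p.choose k := by
    rw [← Nat.choose_mul_succ_eq, mul_comm]
  exact_mod_cast h4

/-- The mass of the objects at the set `V`, star at `X`. -/
theorem obj_sum {τ : Finset α → Lab} {D X V : Finset α} (hV : V ⊆ D) (hne : V ≠ D) :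
    (∑ x ∈ D \ V, pe τ D X V x) + pv τ D X V = if X ⊆ V then
      fw τ X * (bwb τ D V - bw τ D V) / (((D.card : ℝ) + 1) * (D.card.choose X.card : ℝ) *
        ((D.card - X.card).choose (V.card - X.card) : ℝ)) else 0 := by
  by_cases hX : X ⊆ V
  · rw [if_pos hX]
    have hc : (0 : ℝ) < ((D \ V).card : ℝ) := by
      rw [Nat.cast_pos, card_pos, sdiff_nonempty]
      exact fun h => hne (Subset.antisymm hV h)
    have hc2 : ((D \ V).card : ℝ) = (D.card : ℝ) - V.card := card_sdiff_cast hV
    cases h : τ V with
    | A =>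
      have h1 : ∀ x ∈ D \ V, pe τ D X V x = bw τ D (insert x V) *
          (fw τ X / (((D.card : ℝ) + 1) * (D.card.choose X.card : ℝ) *
            ((D.card - X.card).choose (V.card - X.card) : ℝ) * ((D.card : ℝ) - V.card))) := by
        intro x hx
        unfold pe
        by_cases hB : τ (insert x V) = Lab.B
        · rw [if_pos ⟨hX, h, hB⟩]
          ring
        · rw [if_neg (fun hh => hB hh.2.2), bw_of_ne (insert_subset (mem_sdiff.1 hx).1 hV) hB,
            zero_mul]
      have h2 : pv τ D X V = 0 := by
        unfold pv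
        rw [if_neg]
        rintro ⟨-, h3⟩
        rw [h] at h3
        exact absurd h3 (by simp)
      rw [sum_congr rfl h1, ← sum_mul, h2, add_zero, bw_of_ne hV (by rw [h]; simp), sub_zero]
      unfold bwb
      rw [← hc2]
      field_simp
    | B =>
      have h1 : ∀ x ∈ D \ V, pe τ D X V x = 0 := by
        intro x hx
        unfold pe
        rw [if_neg]
        rintro ⟨-, h3, -⟩
        rw [h] at h3
        exact absurd h3 (by simp)
      have h2 : pv τ D X V = 0 := by
        unfold pv
        rw [if_neg]
        rintro ⟨-, h3⟩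
        rw [h] at h3
        exact absurd h3 (by simp)
      rw [sum_congr rfl h1, sum_const_zero, h2, bw_rec hV hne, if_pos h, sub_self]
      simp
    | X =>
      have h1 : ∀ x ∈ D \ V, pe τ D X V x = 0 := by
        intro x hx
        unfold pe
        rw [if_neg]
        rintro ⟨-, h3, -⟩
        rw [h] at h3
        exact absurd h3 (by simp)
      rw [sum_congr rfl h1, sum_const_zero, bw_of_ne hV (by rw [h]; simp), sub_zero, zero_add]
      unfold pv
      rw [if_pos ⟨hX, h⟩]
  · rw [if_neg hX]
    have h1 : ∀ x ∈ D \ V, pe τ D X V x = 0 := by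
      intro x hx
      unfold pe
      rw [if_neg (fun hh => hX hh.1)]
    have h2 : pv τ D X V = 0 := by
      unfold pv
      rw [if_neg (fun hh => hX hh.1)]
    rw [sum_congr rfl h1, sum_const_zero, h2, add_zero]

/-- The swap for a function on the subsets of `E`. -/
theorem swl_core (E : Finset α) (g : α) (hg : g ∈ E) (c : Finset α → ℝ) (h0 : c ∅ = 0) :
    ∑ W ∈ (E.erase g).powerset, ((∑ x ∈ E \ W, c (insert x W)) / ((E \ W).card : ℝ) - c W) /
        (E.card.choose W.card : ℝ) =
      (∑ U ∈ (E.erase g).powerset, c (insert g U) / ((E.card - 1).choose U.card : ℝ)) /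
        (E.card : ℝ) := by
  have hn : 0 < E.card := card_pos.2 ⟨g, hg⟩
  have hn' : (0 : ℝ) < E.card := by exact_mod_cast hn
  have hE1 : (E.erase g).card = E.card - 1 := card_erase_of_mem hg
  -- split off the element `g`
  have h1 : ∀ W ∈ (E.erase g).powerset,
      ((∑ x ∈ E \ W, c (insert x W)) / ((E \ W).card : ℝ) - c W) / (E.card.choose W.card : ℝ) =
      c (insert g W) / ((E.card - 1).choose W.card : ℝ) / (E.card : ℝ) +
      ((∑ x ∈ (E.erase g) \ W, c (insert x W) /
        ((E.card.choose W.card : ℝ) * ((E.card : ℝ) - W.card))) -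
        c W / (E.card.choose W.card : ℝ)) := by
    intro W hW
    rw [mem_powerset] at hW
    have hWE : W ⊆ E := hW.trans (erase_subset _ _)
    have hgW : g ∉ W := fun h => notMem_erase g E (hW h)
    have hlt : W.card < E.card := by
      have := card_le_card hW
      omega
    have e1 : E \ W = insert g ((E.erase g) \ W) := by
      ext y
      simp only [mem_sdiff, mem_insert, mem_erase]
      by_cases hy : y = g
      · subst hy
        simp [hg, hgW]
      · simp [hy]
    have e2 : g ∉ (E.erase g) \ W := by simp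
    have e3 : ((E \ W).card : ℝ) = (E.card : ℝ) - W.card := card_sdiff_cast hWE
    have e4 : (0 : ℝ) < (E.card : ℝ) - W.card := by
      have : (W.card : ℝ) < E.card := by exact_mod_cast hlt
      linarith
    have e5 := choose_absorb hlt
    have e6 : (0 : ℝ) < (E.card.choose W.card : ℝ) := choose_pos_real hlt.le
    have e7 : (0 : ℝ) < ((E.card - 1).choose W.card : ℝ) := choose_pos_real (by omega)
    rw [e3, e1, sum_insert e2, sub_div, add_div, add_div, div_div, div_div, ← sum_div,
      mul_comm ((E.card : ℝ) - W.card), e5, mul_comm (E.card : ℝ), ← div_div]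
    ring
  rw [sum_congr rfl h1, sum_add_distrib, ← sum_div, sum_sub_distrib]
  have h2 : ∑ W ∈ (E.erase g).powerset, ∑ x ∈ (E.erase g) \ W, c (insert x W) /
        ((E.card.choose W.card : ℝ) * ((E.card : ℝ) - W.card)) =
      ∑ W ∈ (E.erase g).powerset, c W / (E.card.choose W.card : ℝ) := by
    rw [sum_up_down (E.erase g) (fun W x => c (insert x W) /
        ((E.card.choose W.card : ℝ) * ((E.card : ℝ) - W.card)))]
    refine sum_congr rfl fun Y hY => ?_
    rw [mem_powerset] at hY
    by_cases hY0 : Y = ∅
    · subst hY0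
      simp [h0]
    have hYc : 0 < Y.card := card_pos.2 (nonempty_iff_ne_empty.2 hY0)
    have hlt : Y.card < E.card := by
      have := card_le_card hY
      omega
    have e1 : ∀ x ∈ Y, c (insert x (Y.erase x)) /
        ((E.card.choose (Y.erase x).card : ℝ) * ((E.card : ℝ) - (Y.erase x).card)) =
        c Y / ((E.card.choose Y.card : ℝ) * (Y.card : ℝ)) := by
      intro x hx
      rw [insert_erase hx, card_erase_of_mem hx]
      have e2 := choose_up (l := E.card) (k := Y.card - 1) (by omega)
      have e3 : Y.card - 1 + 1 = Y.card := by omega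
      have e4 : ((Y.card - 1 : ℕ) : ℝ) + 1 = Y.card := by
        have := congrArg (fun n : ℕ => (n : ℝ)) e3
        push_cast at this
        exact this
      rw [e2, e3, e4]
    rw [sum_congr rfl e1, sum_const, nsmul_eq_mul]
    have e5 : (0 : ℝ) < Y.card := by exact_mod_cast hYc
    have e6 : (0 : ℝ) < (E.card.choose Y.card : ℝ) := choose_pos_real hlt.le
    field_simp
  rw [h2, sub_self, add_zero]

theorem stmt_SWL : Stmt_SWL α := by
  intro τ D X g hX hg
  have hgD : g ∈ D := (mem_sdiff.1 hg).1
  have hgX : g ∉ X := (mem_sdiff.1 hg).2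
  by_cases hA : τ X = Lab.A
  swap
  · rw [fw_of_ne hA, zero_mul, zero_div]
    refine sum_eq_zero fun V hV => ?_
    rw [mem_powerset] at hV
    have hVD : V ⊆ D := hV.trans (erase_subset _ _)
    have hVne : V ≠ D := by
      rintro rfl
      exact notMem_erase g V (hV hgD)
    rw [obj_sum hVD hVne, fw_of_ne hA]
    split_ifs <;> simp
  have hlt : X.card < D.card := card_lt_card ⟨hX, fun h => hgX (h hgD)⟩
  have hXc : (D \ X).card = D.card - X.card := card_sdiff_of_subset hX
  have hXc' : ((D \ X).card : ℝ) = (D.card : ℝ) - X.card := card_sdiff_cast hX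
  have hcore := swl_core (D \ X) g hg (fun W => bw τ D (X ∪ W)) (by
    simp only [union_empty]
    exact bw_of_ne hX (by rw [hA]; simp))
  -- the right side
  have hab : ab τ D (insert g X) = ∑ U ∈ ((D \ X).erase g).powerset,
      bw τ D (X ∪ insert g U) / (((D \ X).card - 1).choose U.card : ℝ) := by
    rw [ab_eq_sum (insert_subset hgD hX), ← sdiff_erase_eq, card_erase_of_mem hg]
    refine sum_congr rfl fun U _ => ?_
    rw [insert_union, union_insert]
  rw [← hab, hXc'] at hcore
  -- the left side
  have hL : ∑ V ∈ (D.erase g).powerset, ((∑ x ∈ D \ V, pe τ D X V x) + pv τ D X V) =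
      fw τ X / (((D.card : ℝ) + 1) * (D.card.choose X.card : ℝ)) *
      ∑ W ∈ ((D \ X).erase g).powerset, ((∑ x ∈ (D \ X) \ W, bw τ D (X ∪ insert x W)) /
        (((D \ X) \ W).card : ℝ) - bw τ D (X ∪ W)) / ((D \ X).card.choose W.card : ℝ) := by
    have h1 : ∀ V ∈ (D.erase g).powerset, (∑ x ∈ D \ V, pe τ D X V x) + pv τ D X V =
        if X ⊆ V then fw τ X * (bwb τ D V - bw τ D V) / (((D.card : ℝ) + 1) *
          (D.card.choose X.card : ℝ) * ((D.card - X.card).choose (V.card - X.card) : ℝ))
        else 0 := by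
      intro V hV
      rw [mem_powerset] at hV
      refine obj_sum (hV.trans (erase_subset _ _)) ?_
      rintro rfl
      exact notMem_erase g V (hV hgD)
    rw [sum_congr rfl h1, ← sum_filter, mul_sum]
    refine sum_bij' (fun V _ => V \ X) (fun W _ => X ∪ W) ?_ ?_ ?_ ?_ ?_
    · intro V hV
      rw [mem_filter, mem_powerset] at hV
      rw [mem_powerset]
      intro y hy
      rw [mem_sdiff] at hy
      have := mem_erase.1 (hV.1 hy.1)
      rw [mem_erase, mem_sdiff]
      exact ⟨this.1, this.2, hy.2⟩
    · intro W hW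
      rw [mem_powerset] at hW
      rw [mem_filter, mem_powerset]
      refine ⟨?_, subset_union_left⟩
      intro y hy
      rw [mem_erase]
      rcases mem_union.1 hy with hy | hy
      · exact ⟨fun h => hgX (h ▸ hy), hX hy⟩
      · have := mem_erase.1 (hW hy)
        exact ⟨this.1, (mem_sdiff.1 this.2).1⟩
    · intro V hV
      rw [mem_filter] at hV
      exact union_sdiff_of_subset hV.2
    · intro W hW
      rw [mem_powerset] at hW
      ext y
      rw [mem_sdiff, mem_union]
      constructor
      · rintro ⟨h1 | h1, h2⟩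
        · exact absurd h1 h2
        · exact h1
      · intro h1
        exact ⟨Or.inr h1, (mem_sdiff.1 (mem_erase.1 (hW h1)).2).2⟩
    · intro V hV
      rw [mem_filter, mem_powerset] at hV
      have e1 : (D \ X) \ (V \ X) = D \ V := by
        ext y
        simp only [mem_sdiff, not_and, not_not]
        constructor
        · rintro ⟨⟨h2, h3⟩, h4⟩
          exact ⟨h2, fun h5 => h3 (h4 h5)⟩
        · rintro ⟨h2, h3⟩
          exact ⟨⟨h2, fun h5 => h3 (hV.2 h5)⟩, fun h5 => absurd h5 h3⟩
      have e2 : ∀ x, X ∪ insert x (V \ X) = insert x V := by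
        intro x
        rw [union_insert, union_sdiff_of_subset hV.2]
      have e3 : (V \ X).card = V.card - X.card := card_sdiff_of_subset hV.2
      simp only [e1, e2, e3, union_sdiff_of_subset hV.2, hXc]
      unfold bwb
      rw [div_mul_div_comm]
  rw [hL, hcore]
  have e1 : (0 : ℝ) < (D.card : ℝ) - X.card := by
    have : (X.card : ℝ) < D.card := by exact_mod_cast hlt
    linarith
  have e2 : (0 : ℝ) < (D.card.choose X.card : ℝ) := choose_pos_real hlt.le
  field_simp

end R5
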